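import Pool.Agent.Work.MP_14af4f_an.Defs

/-!
Measures with two positive Lyapunov exponents.
-/

open Set Filter Topology MeasureTheory

namespace Pool.Agent.Work.MP_14af4f_an

/-- The vector `v` at the point `z` has the Lyapunov exponent `l`. -/
def HasExponent (f : P2 → P2) (z v : P2) (l : ℝ) : Prop :=
  Tendsto (fun n : ℕ => Real.log ‖fderiv ℝ f^[n] z v‖ / n) atTop (𝓝 l)

/-- `f` has an ergodic absolutely continuous invariant probability measure whose two Lyapunov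
exponents `l2 ≤ l1` are positive. -/
def TwoPos (f : P2 → P2) : Prop :=
  ∃ μ : Measure P2, IsProbabilityMeasure μ ∧ μ ≪ volume ∧ Ergodic f μ ∧
    ∃ l1 l2 : ℝ, 0 < l2 ∧ l2 ≤ l1 ∧ ∀ᵐ z ∂μ, ∃ s : P2, s ≠ 0 ∧
      (∀ c : ℝ, c ≠ 0 → HasExponent f z (c • s) l2) ∧
      ∀ v : P2, (∀ c : ℝ, v ≠ c • s) → HasExponent f z v l1

end Pool.Agent.Work.MP_14af4f_an
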