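import Pool.Agent.Work.MP_14af4f_an.Defs
import Pool.Agent.Work.MP_14af4f_an.Stmt

-- merged part: Pool.Agent.Work.MP_14af4f_an.Osel
section
-- merged part: Pool.Agent.Work.MP_14af4f_an.Hyp
section
/-!
Lifted maps of an annulus: strips, admissible curves and the standing hypotheses.
-/

open Set Filter Topology MeasureTheory
open scoped ENNReal

namespace Pool.Agent.Work.MP_14af4f_an

noncomputable section

/-- The strip of height `h`. -/
def strip (h : ℝ) : Set P2 := {z | |z.2| ≤ h}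

/-- The fundamental domain of the strip. -/
def dom (h : ℝ) : Set P2 := Ico 0 1 ×ˢ Icc (-h) h

/-- The closed fundamental domain of the strip. -/
def cdom (h : ℝ) : Set P2 := Icc 0 1 ×ˢ Icc (-h) h

/-- Reduction of the first coordinate. -/
def red (z : P2) : P2 := (Int.fract z.1, z.2)

/-- The Jacobian determinant. -/
def jac (F : P2 → P2) (z : P2) : ℝ := (fderiv ℝ F z).det

/-- The positive part of `log (a / |x|)`. -/
def LL (a x : ℝ) : ℝ≥0∞ := if x = 0 then ⊤ else ENNReal.ofReal (Real.log (a / |x|))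

/-- Curves with horizontal speed close to `D` and vertical speed at most `σ` in the strip. -/
def Cv (D ρ σ h : ℝ) (γ : ℝ → P2) : Prop :=
  ∀ t ∈ Icc (0 : ℝ) 1, |(γ t).2| ≤ h ∧ ∃ v : P2, HasDerivAt γ v t ∧ |v.1 - D| ≤ ρ ∧ |v.2| ≤ σ

/-- The standing hypotheses on the lift `F` of a map of degree `d` of an annulus. -/
structure Hyp (F : P2 → P2) (d : ℕ) (h ρ δ K J t0 ρ0 : ℝ) : Prop where
  d2 : 2 ≤ d
  ρ_pos : 0 < ρ
  ρ_lt : ρ < h
  δ_nonneg : 0 ≤ δ
  δ_le : δ ≤ 1 / 10
  K_nonneg : 0 ≤ K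
  t0_pos : 0 < t0
  J_pos : 0 < J
  A_ge : 2 ≤ Real.log (J / (2 * d))
  ρ0_ge : 4 * δ * (K + 2) ≤ ρ0
  ρ0_le : ρ0 ≤ 1
  per : ∀ z ∈ strip h, F (z + (1, 0)) = F z + ((d : ℝ), 0)
  diff : ∀ z ∈ strip h, DifferentiableAt ℝ F z
  d11 : ∀ z ∈ strip h, |(fderiv ℝ F z (1, 0)).1 - d| ≤ δ
  d12 : ∀ z ∈ strip h, |(fderiv ℝ F z (0, 1)).1| ≤ δ
  d21 : ∀ z ∈ strip h, |(fderiv ℝ F z (1, 0)).2| ≤ d / 3
  d22 : ∀ z ∈ strip h, |(fderiv ℝ F z (0, 1)).2| ≤ d / 3
  lip : ∀ p ∈ strip h, ∀ q ∈ strip h, ‖fderiv ℝ F p - fderiv ℝ F q‖ ≤ K * ‖p - q‖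
  lip1 : ∀ p ∈ strip h, ∀ q ∈ strip h, ∀ v,
    |(fderiv ℝ F p v - fderiv ℝ F q v).1| ≤ δ * ‖p - q‖ * ‖v‖
  trap : ∀ z ∈ strip h, |(F z).2| ≤ h - ρ
  jac_le : ∀ z ∈ strip h, |jac F z| ≤ J
  avg1 : ∀ γ, Cv 1 ρ0 2 h γ → ∫⁻ t in Icc (0 : ℝ) 1, LL J (jac F (γ t)) ≤
    ENNReal.ofReal (Real.log (J / (2 * d)) - 2)
  avg2 : ∀ γ, Cv 1 ρ0 2 h γ → ∫⁻ t in Icc (0 : ℝ) 1, LL t0 (jac F (γ t)) ≤
    ENNReal.ofReal (1 / (8 * Real.log (J / (2 * d))))

lemma convex_strip (h : ℝ) : Convex ℝ (strip h) := by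
  intro x hx y hy a b ha hb hab
  simp only [strip, mem_ofPred_eq, abs_le, Prod.snd_add, Prod.smul_snd, smul_eq_mul] at *
  constructor <;> linarith only [ha, hx, hb, hy, hab, hx.1, hx.2, hy.1, hy.2, mul_nonneg ha (sub_nonneg.2 hx.1),
    mul_nonneg ha (sub_nonneg.2 hx.2), mul_nonneg hb (sub_nonneg.2 hy.1),
    mul_nonneg hb (sub_nonneg.2 hy.2), Mathlib.Tactic.Linarith.zero_mul_eq (sub_eq_zero_of_eq hab) (Mathlib.Tactic.Linarith.sub_nonpos_of_le hx.left), Mathlib.Tactic.Linarith.zero_mul_eq (sub_eq_zero_of_eq hab) (Mathlib.Tactic.Linarith.sub_nonpos_of_le hx.right)]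

lemma isClosed_strip (h : ℝ) : IsClosed (strip h) := by
  exact isClosed_le (continuous_snd.abs) continuous_const

lemma strip_mono {h h' : ℝ} (H : h ≤ h') : strip h ⊆ strip h' := fun _ hz => le_trans hz H

lemma strip_mem_nhds {h : ℝ} {z : P2} (H : |z.2| < h) : strip h ∈ 𝓝 z := by
  have : IsOpen {w : P2 | |w.2| < h} := isOpen_lt (continuous_snd.abs) continuous_const
  exact mem_of_superset (this.mem_nhds H) (fun w (hw : |w.2| < h) => hw.le)

lemma mem_interior_strip {h : ℝ} {z : P2} (H : |z.2| < h) : z ∈ interior (strip h) :=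
  mem_interior_iff_mem_nhds.2 (strip_mem_nhds H)

lemma isCompact_cdom (h : ℝ) : IsCompact (cdom h) := isCompact_Icc.prod isCompact_Icc

lemma measurableSet_dom (h : ℝ) : MeasurableSet (dom h) :=
  measurableSet_Ico.prod measurableSet_Icc

lemma dom_subset_cdom (h : ℝ) : dom h ⊆ cdom h := prod_mono Ico_subset_Icc_self le_rfl

lemma cdom_subset_strip (h : ℝ) : cdom h ⊆ strip h := fun _ hz => abs_le.2 hz.2

lemma red_mem_dom {h : ℝ} {z : P2} (hz : z ∈ strip h) : red z ∈ dom h :=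
  ⟨⟨Int.fract_nonneg _, Int.fract_lt_one _⟩, abs_le.1 hz⟩

lemma red_of_mem_dom {h : ℝ} {z : P2} (hz : z ∈ dom h) : red z = z :=
  Prod.ext (Int.fract_eq_self.2 hz.1) rfl

lemma red_add_floor (z : P2) : red z + (((⌊z.1⌋ : ℤ) : ℝ), 0) = z := by
  ext <;> simp [red]

lemma measurable_red : Measurable red := by
  exact (measurable_fract.comp measurable_fst).prodMk measurable_snd

lemma det_eq (A : P2 →L[ℝ] P2) :
    A.det = (A (1, 0)).1 * (A (0, 1)).2 - (A (0, 1)).1 * (A (1, 0)).2 := by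
  have := LinearMap.det_toMatrix (Module.Basis.finTwoProd ℝ) (A : P2 →ₗ[ℝ] P2)
  rw [ContinuousLinearMap.det, ← this, Matrix.det_fin_two]
  simp [LinearMap.toMatrix_apply, Module.Basis.finTwoProd_zero, Module.Basis.finTwoProd_one]

lemma clm_apply_eq {E : Type} [NormedAddCommGroup E] [NormedSpace ℝ E] (A : P2 →L[ℝ] E) (v : P2) :
    A v = v.1 • A (1, 0) + v.2 • A (0, 1) := by
  rw [← map_smul, ← map_smul, ← map_add]
  congr 1
  ext <;> simp

lemma measurable_jac (F : P2 → P2) : Measurable (jac F) := by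
  exact ContinuousLinearMap.continuous_det.measurable.comp (measurable_fderiv ℝ F)

lemma jac_comp {F G : P2 → P2} {z : P2} (hF : DifferentiableAt ℝ F z)
    (hG : DifferentiableAt ℝ G (F z)) : jac (G ∘ F) z = jac G (F z) * jac F z := by
  unfold jac
  rw [fderiv_comp z hG hF]
  exact LinearMap.det_comp _ _

lemma measurable_LL (a : ℝ) : Measurable (LL a) := by
  unfold LL
  refine Measurable.ite (measurableSet_singleton 0) measurable_const ?_
  exact (Real.measurable_log.comp (measurable_const.div measurable_id.abs)).ennreal_ofReal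

lemma LL_mul_le {a a' : ℝ} (ha : 0 < a) (ha' : 0 < a') (x x' : ℝ) :
    LL (a * a') (x * x') ≤ LL a x + LL a' x' := by
  unfold LL
  by_cases hx : x = 0
  · simp [hx]
  by_cases hx' : x' = 0
  · simp [hx']
  rw [if_neg (mul_ne_zero hx hx'), if_neg hx, if_neg hx', abs_mul, mul_div_mul_comm,
    Real.log_mul (div_pos ha (abs_pos.2 hx)).ne' (div_pos ha' (abs_pos.2 hx')).ne']
  exact ENNReal.ofReal_add_le

lemma LL_le_add {a t : ℝ} (ha : 0 < a) (ht : 0 < t) (x : ℝ) :
    LL a x ≤ ENNReal.ofReal (Real.log (a / max |x| t)) + LL t x := by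
  unfold LL
  by_cases hx : x = 0
  · simp [hx]
  rw [if_neg hx, if_neg hx]
  have hx' : 0 < |x| := abs_pos.2 hx
  rcases le_total t |x| with h | h
  · rw [max_eq_left h]; exact le_self_add
  · rw [max_eq_right h]
    have : a / |x| = (a / t) * (t / |x|) := by field_simp
    rw [this, Real.log_mul (div_pos ha ht).ne' (div_pos ht hx').ne']
    exact ENNReal.ofReal_add_le

lemma ofReal_log_le_LL {a t : ℝ} (ha : 0 < a) (ht : 0 < t) (x : ℝ) :
    ENNReal.ofReal (Real.log (a / max |x| t)) ≤ LL a x := by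
  unfold LL
  by_cases hx : x = 0
  · simp [hx]
  rw [if_neg hx]
  have hx' : 0 < |x| := abs_pos.2 hx
  refine ENNReal.ofReal_le_ofReal (Real.log_le_log (div_pos ha (lt_max_of_lt_right ht)) ?_)
  exact div_le_div_of_nonneg_left ha.le hx' (le_max_left _ _)

lemma Cv.mono {D ρ σ h ρ' σ' h' : ℝ} {γ : ℝ → P2} (H : Cv D ρ σ h γ) (h1 : ρ ≤ ρ') (h2 : σ ≤ σ')
    (h3 : h ≤ h') : Cv D ρ' σ' h' γ := by
  intro t ht
  obtain ⟨g1, v, g2, g3, g4⟩ := H t ht
  exact ⟨g1.trans h3, v, g2, g3.trans h1, g4.trans h2⟩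

lemma Cv.aemeasurable {D ρ σ h : ℝ} {γ : ℝ → P2} (H : Cv D ρ σ h γ) :
    AEMeasurable γ (volume.restrict (Icc 0 1)) := by
  refine ContinuousOn.aemeasurable (fun t ht => ?_) measurableSet_Icc
  obtain ⟨-, v, g2, -⟩ := H t ht
  exact g2.continuousAt.continuousWithinAt

/-- Translation by an integer. -/
lemma per_int {E : Type} [AddCommGroup E] {h : ℝ} {f : P2 → E} {c : E}
    (H : ∀ z ∈ strip h, f (z + (1, 0)) = f z + c) (m : ℤ) {z : P2} (hz : z ∈ strip h) :
    f (z + ((m : ℝ), 0)) = f z + m • c := by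
  have hs : ∀ x : ℝ, z + (x, 0) ∈ strip h := fun x => by simpa [strip] using hz
  induction m using Int.induction_on with
  | zero => simp [show ((0 : ℝ), (0 : ℝ)) = (0 : P2) from rfl]
  | succ n ih =>
    have := H _ (hs ((n : ℤ) : ℝ))
    rw [ih] at this
    rw [add_smul, one_smul, ← add_assoc, ← this]
    congr 1
    ext <;> simp [add_assoc]
  | pred n ih =>
    have := H _ (hs ((-(n : ℤ) - 1 : ℤ) : ℝ))
    have e : z + (((-(n : ℤ) - 1 : ℤ) : ℝ), 0) + (1, 0) = z + (((-(n : ℤ) : ℤ) : ℝ), 0) := by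
      ext <;> simp [add_assoc]
    rw [e, ih] at this
    rw [sub_smul, one_smul, ← add_sub_assoc, this, add_sub_cancel_right]

variable {F : P2 → P2} {d : ℕ} {h ρ δ K J t0 ρ0 : ℝ}

lemma Hyp.mapsTo (H : Hyp F d h ρ δ K J t0 ρ0) : MapsTo F (strip h) (strip (h - ρ)) := H.trap

lemma Hyp.mapsTo' (H : Hyp F d h ρ δ K J t0 ρ0) : MapsTo F (strip h) (strip h) :=
  H.mapsTo.mono_right (strip_mono (by linarith [H.ρ_pos]))

lemma Hyp.iterate_per (H : Hyp F d h ρ δ K J t0 ρ0) (n : ℕ) (m : ℤ) {z : P2} (hz : z ∈ strip h) :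
    F^[n] (z + ((m : ℝ), 0)) = F^[n] z + (((m * d ^ n : ℤ) : ℝ), 0) := by
  induction n with
  | zero => simp
  | succ n ih =>
    rw [Function.iterate_succ_apply', Function.iterate_succ_apply', ih,
      per_int H.per _ (H.mapsTo'.iterate n hz)]
    congr 1
    ext <;> simp [pow_succ, mul_assoc]

lemma Hyp.fderiv_per (H : Hyp F d h ρ δ K J t0 ρ0) (m : ℤ) {z : P2} (hz : |z.2| < h) :
    fderiv ℝ F (z + ((m : ℝ), 0)) = fderiv ℝ F z := by
  have h1 : (fun w => F (w + ((m : ℝ), 0))) =ᶠ[𝓝 z] fun w => F w + m • (((d : ℝ), 0) : P2) := by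
    filter_upwards [strip_mem_nhds hz] with w hw using per_int H.per m hw
  have h2 := h1.fderiv_eq (𝕜 := ℝ)
  rw [fderiv_comp_add_right, fderiv_add_const] at h2
  exact h2

lemma Hyp_entries (H : Hyp F d h ρ δ K J t0 ρ0) {z : P2} (hz : z ∈ strip h) :
    |(fderiv ℝ F z (1, 0)).1| ≤ d + δ ∧ |(fderiv ℝ F z (0, 1)).1| ≤ δ ∧
      |(fderiv ℝ F z (1, 0)).2| ≤ d / 3 ∧ |(fderiv ℝ F z (0, 1)).2| ≤ d / 3 := by
  refine ⟨?_, H.d12 z hz, H.d21 z hz, H.d22 z hz⟩
  have h1 := abs_le.1 (H.d11 z hz)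
  have h2 : (0 : ℝ) ≤ d := Nat.cast_nonneg d
  rw [abs_le]; constructor <;> linarith only [h1, h1.1, h1.2]

lemma Hyp.norm_fderiv_le (H : Hyp F d h ρ δ K J t0 ρ0) {z : P2} (hz : z ∈ strip h) :
    ‖fderiv ℝ F z‖ ≤ 2 * d := by
  obtain ⟨a1, a2, a3, a4⟩ := Hyp_entries H hz
  have hd : (2 : ℝ) ≤ d := by exact_mod_cast H.d2
  have hδ := H.δ_le
  refine ContinuousLinearMap.opNorm_le_bound _ (by positivity) (fun v => ?_)
  rw [clm_apply_eq (fderiv ℝ F z) v]
  have v1 : |v.1| ≤ ‖v‖ := norm_fst_le v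
  have v2 : |v.2| ≤ ‖v‖ := norm_snd_le v
  have v0 := norm_nonneg v
  rw [Prod.norm_def]
  refine max_le ?_ ?_
  · simp only [Prod.fst_add, Prod.smul_fst, smul_eq_mul, Real.norm_eq_abs]
    refine (abs_add_le _ _).trans ?_
    rw [abs_mul, abs_mul]
    have b1 := mul_le_mul v1 a1 (abs_nonneg _) v0
    have b2 := mul_le_mul v2 a2 (abs_nonneg _) v0
    linarith only [b1, b2, v0, hd, hδ, mul_nonneg_of_nonpos_of_nonpos (Mathlib.Tactic.Linarith.sub_nonpos_of_le (Mathlib.Tactic.Linarith.natCast_nonneg ℝ d)) (Mathlib.Tactic.Linarith.sub_nonpos_of_le v0), mul_nonneg_of_nonpos_of_nonpos (Mathlib.Tactic.Linarith.sub_nonpos_of_le hd) (Mathlib.Tactic.Linarith.sub_nonpos_of_le v0), mul_nonneg_of_nonpos_of_nonpos (Mathlib.Tactic.Linarith.sub_nonpos_of_le hδ) (Mathlib.Tactic.Linarith.sub_nonpos_of_le v0)]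
  · simp only [Prod.snd_add, Prod.smul_snd, smul_eq_mul, Real.norm_eq_abs]
    refine (abs_add_le _ _).trans ?_
    rw [abs_mul, abs_mul]
    have b1 := mul_le_mul v1 a3 (abs_nonneg _) v0
    have b2 := mul_le_mul v2 a4 (abs_nonneg _) v0
    linarith only [b1, b2, v0, mul_nonneg_of_nonpos_of_nonpos (Mathlib.Tactic.Linarith.sub_nonpos_of_le (Mathlib.Tactic.Linarith.natCast_nonneg ℝ d)) (Mathlib.Tactic.Linarith.sub_nonpos_of_le v0)]

/-- The lower bound of the derivative by the Jacobian determinant. -/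
lemma Hyp.jac_mul_le (H : Hyp F d h ρ δ K J t0 ρ0) {z : P2} (hz : z ∈ strip h) (v : P2) :
    |jac F z| * ‖v‖ ≤ 2 * d * ‖fderiv ℝ F z v‖ := by
  obtain ⟨a1, a2, a3, a4⟩ := Hyp_entries H hz
  have hd : (2 : ℝ) ≤ d := by exact_mod_cast H.d2
  have hδ := H.δ_le
  have hδ0 := H.δ_nonneg
  unfold jac
  set A := fderiv ℝ F z
  have w1 : |(A v).1| ≤ ‖A v‖ := norm_fst_le (A v)
  have w2 : |(A v).2| ≤ ‖A v‖ := norm_snd_le (A v)
  have w0 := norm_nonneg (A v)
  have e1 : (A v).1 = v.1 * (A (1, 0)).1 + v.2 * (A (0, 1)).1 := by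
    rw [clm_apply_eq A v]; simp
  have e2 : (A v).2 = v.1 * (A (1, 0)).2 + v.2 * (A (0, 1)).2 := by
    rw [clm_apply_eq A v]; simp
  have f1 : A.det * v.1 = (A (0, 1)).2 * (A v).1 - (A (0, 1)).1 * (A v).2 := by
    rw [det_eq, e1, e2]; ring
  have f2 : A.det * v.2 = (A (1, 0)).1 * (A v).2 - (A (1, 0)).2 * (A v).1 := by
    rw [det_eq, e1, e2]; ring
  rw [Prod.norm_def v, mul_max_of_nonneg _ _ (abs_nonneg _), Real.norm_eq_abs, Real.norm_eq_abs,
    ← abs_mul, ← abs_mul, f1, f2]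
  refine max_le ?_ ?_
  · refine (abs_sub _ _).trans ?_
    rw [abs_mul, abs_mul]
    have b1 := mul_le_mul a4 w1 (abs_nonneg _) (by positivity)
    have b2 := mul_le_mul a2 w2 (abs_nonneg _) hδ0
    linarith only [b1, b2, w0, hd, hδ, mul_nonneg_of_nonpos_of_nonpos (Mathlib.Tactic.Linarith.sub_nonpos_of_le (Mathlib.Tactic.Linarith.natCast_nonneg ℝ d)) (Mathlib.Tactic.Linarith.sub_nonpos_of_le w0), mul_nonneg_of_nonpos_of_nonpos (Mathlib.Tactic.Linarith.sub_nonpos_of_le hd) (Mathlib.Tactic.Linarith.sub_nonpos_of_le w0), mul_nonneg_of_nonpos_of_nonpos (Mathlib.Tactic.Linarith.sub_nonpos_of_le hδ) (Mathlib.Tactic.Linarith.sub_nonpos_of_le w0)]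
  · refine (abs_sub _ _).trans ?_
    rw [abs_mul, abs_mul]
    have b1 := mul_le_mul a1 w2 (abs_nonneg _) (by positivity)
    have b2 := mul_le_mul a3 w1 (abs_nonneg _) (by positivity)
    linarith only [b1, b2, w0, hd, hδ, mul_nonneg_of_nonpos_of_nonpos (Mathlib.Tactic.Linarith.sub_nonpos_of_le (Mathlib.Tactic.Linarith.natCast_nonneg ℝ d)) (Mathlib.Tactic.Linarith.sub_nonpos_of_le w0), mul_nonneg_of_nonpos_of_nonpos (Mathlib.Tactic.Linarith.sub_nonpos_of_le hd) (Mathlib.Tactic.Linarith.sub_nonpos_of_le w0), mul_nonneg_of_nonpos_of_nonpos (Mathlib.Tactic.Linarith.sub_nonpos_of_le hδ) (Mathlib.Tactic.Linarith.sub_nonpos_of_le w0)]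

lemma Hyp.jac_lip (H : Hyp F d h ρ δ K J t0 ρ0) {p q : P2} (hp : p ∈ strip h) (hq : q ∈ strip h) :
    |jac F p - jac F q| ≤ 8 * d * K * ‖p - q‖ := by
  obtain ⟨a1, a2, a3, a4⟩ := Hyp_entries H hp
  obtain ⟨b1, b2, b3, b4⟩ := Hyp_entries H hq
  have hd : (2 : ℝ) ≤ d := by exact_mod_cast H.d2
  have hδ := H.δ_le
  have hδ0 := H.δ_nonneg
  have hl := H.lip p hp q hq
  unfold jac
  set A := fderiv ℝ F p
  set B := fderiv ℝ F q
  set L := K * ‖p - q‖ with hL
  have hL0 : 0 ≤ L := (norm_nonneg _).trans hl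
  have n1 : ‖A (1, 0) - B (1, 0)‖ ≤ L := by
    have := (A - B).le_opNorm (1, 0)
    rw [sub_apply, show ‖((1, 0) : P2)‖ = 1 by simp [Prod.norm_def],
      mul_one] at this
    exact this.trans hl
  have n2 : ‖A (0, 1) - B (0, 1)‖ ≤ L := by
    have := (A - B).le_opNorm (0, 1)
    rw [sub_apply, show ‖((0, 1) : P2)‖ = 1 by simp [Prod.norm_def],
      mul_one] at this
    exact this.trans hl
  have c1 : |(A (1, 0)).1 - (B (1, 0)).1| ≤ L := (norm_fst_le (A (1, 0) - B (1, 0))).trans n1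
  have c2 : |(A (0, 1)).1 - (B (0, 1)).1| ≤ L := (norm_fst_le (A (0, 1) - B (0, 1))).trans n2
  have c3 : |(A (1, 0)).2 - (B (1, 0)).2| ≤ L := (norm_snd_le (A (1, 0) - B (1, 0))).trans n1
  have c4 : |(A (0, 1)).2 - (B (0, 1)).2| ≤ L := (norm_snd_le (A (0, 1) - B (0, 1))).trans n2
  have e : A.det - B.det = (((A (1, 0)).1 - (B (1, 0)).1) * (A (0, 1)).2 +
      (B (1, 0)).1 * ((A (0, 1)).2 - (B (0, 1)).2)) -
      (((A (0, 1)).1 - (B (0, 1)).1) * (A (1, 0)).2 +
      (B (0, 1)).1 * ((A (1, 0)).2 - (B (1, 0)).2)) := by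
    rw [det_eq, det_eq]; ring
  rw [e]
  refine (abs_sub _ _).trans ?_
  refine (add_le_add (abs_add_le _ _) (abs_add_le _ _)).trans ?_
  simp only [abs_mul]
  have g1 := mul_le_mul c1 a4 (abs_nonneg _) hL0
  have g2 := mul_le_mul b1 c4 (abs_nonneg _) (by positivity)
  have g3 := mul_le_mul c2 a3 (abs_nonneg _) hL0
  have g4 := mul_le_mul b2 c3 (abs_nonneg _) hδ0
  rw [mul_assoc, ← hL]
  linarith only [g1, g2, g3, g4, hL0, hd, hδ, mul_nonneg_of_nonpos_of_nonpos (Mathlib.Tactic.Linarith.sub_nonpos_of_le (Mathlib.Tactic.Linarith.natCast_nonneg ℝ d)) (Mathlib.Tactic.Linarith.sub_nonpos_of_le hL0), mul_nonneg_of_nonpos_of_nonpos (Mathlib.Tactic.Linarith.sub_nonpos_of_le hd) (Mathlib.Tactic.Linarith.sub_nonpos_of_le hL0), mul_nonneg_of_nonpos_of_nonpos (Mathlib.Tactic.Linarith.sub_nonpos_of_le hδ) (Mathlib.Tactic.Linarith.sub_nonpos_of_le hL0)]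

lemma Hyp.hasFDerivAt_iterate (H : Hyp F d h ρ δ K J t0 ρ0) (n : ℕ) {z : P2} (hz : z ∈ strip h) :
    DifferentiableAt ℝ F^[n] z ∧
      fderiv ℝ F^[n + 1] z = (fderiv ℝ F (F^[n] z)).comp (fderiv ℝ F^[n] z) := by
  have h1 : DifferentiableAt ℝ F^[n] z := by
    induction n with
    | zero => exact differentiableAt_id
    | succ n ih =>
      rw [Function.iterate_succ']
      exact (H.diff _ (H.mapsTo'.iterate n hz)).comp z ih
  refine ⟨h1, ?_⟩
  rw [Function.iterate_succ']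
  exact fderiv_comp z (H.diff _ (H.mapsTo'.iterate n hz)) h1

lemma Hyp.jac_iterate (H : Hyp F d h ρ δ K J t0 ρ0) (n : ℕ) {z : P2} (hz : z ∈ strip h) :
    jac F^[n] z = ∏ i ∈ Finset.range n, jac F (F^[i] z) := by
  induction n with
  | zero => simp [jac, ContinuousLinearMap.det]
  | succ n ih =>
    rw [Finset.prod_range_succ, ← ih, Function.iterate_succ',
      jac_comp (H.hasFDerivAt_iterate n hz).1 (H.diff _ (H.mapsTo'.iterate n hz)), mul_comm]

/-- A measurable modification outside the strip. -/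
lemma Hyp.exists_measurable (H : Hyp F d h ρ δ K J t0 ρ0) :
    ∃ F', Measurable F' ∧ EqOn F' F (strip h) ∧ Hyp F' d (h - ρ / 2) (ρ / 2) δ K J t0 ρ0 := by
  classical
  have hρ := H.ρ_pos
  have hρh := H.ρ_lt
  have hE : EqOn ((strip h).piecewise F id) F (strip h) := fun z hz => piecewise_eq_of_mem _ _ _ hz
  have hsub : strip (h - ρ / 2) ⊆ strip h := strip_mono (by linarith only [hρ])
  have hev : ∀ z ∈ strip (h - ρ / 2), (strip h).piecewise F id =ᶠ[𝓝 z] F := by
    intro z hz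
    have : |z.2| < h := lt_of_le_of_lt hz (by linarith only [hρ])
    filter_upwards [strip_mem_nhds this] with w hw using hE hw
  have hfd : ∀ z ∈ strip (h - ρ / 2), fderiv ℝ ((strip h).piecewise F id) z = fderiv ℝ F z :=
    fun z hz => (hev z hz).fderiv_eq
  have hjac : ∀ z ∈ strip (h - ρ / 2), jac ((strip h).piecewise F id) z = jac F z :=
    fun z hz => by unfold jac; rw [hfd z hz]
  have hint : ∀ (a : ℝ) (γ : ℝ → P2), Cv 1 ρ0 2 (h - ρ / 2) γ →
      ∫⁻ t in Icc (0 : ℝ) 1, LL a (jac ((strip h).piecewise F id) (γ t)) =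
        ∫⁻ t in Icc (0 : ℝ) 1, LL a (jac F (γ t)) := by
    intro a γ hγ
    refine setLIntegral_congr_fun measurableSet_Icc (fun t ht => ?_)
    simp only [hjac (γ t) (hγ t ht).1]
  refine ⟨(strip h).piecewise F id, ?_, hE, H.d2, by linarith, by linarith, H.δ_nonneg, H.δ_le,
    H.K_nonneg, H.t0_pos, H.J_pos, H.A_ge, H.ρ0_ge, H.ρ0_le, ?_, ?_, ?_, ?_, ?_, ?_, ?_, ?_, ?_,
    ?_, ?_, ?_⟩
  · exact ContinuousOn.measurable_piecewise
      (fun z hz => (H.diff z hz).continuousAt.continuousWithinAt) continuousOn_id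
      (isClosed_strip h).measurableSet
  · intro z hz
    have : z + (1, 0) ∈ strip h := by simpa [strip] using hsub hz
    rw [hE this, hE (hsub hz), H.per z (hsub hz)]
  · intro z hz
    exact (hev z hz).differentiableAt_iff.2 (H.diff z (hsub hz))
  · intro z hz; rw [hfd z hz]; exact H.d11 z (hsub hz)
  · intro z hz; rw [hfd z hz]; exact H.d12 z (hsub hz)
  · intro z hz; rw [hfd z hz]; exact H.d21 z (hsub hz)
  · intro z hz; rw [hfd z hz]; exact H.d22 z (hsub hz)
  · intro p hp q hq; rw [hfd p hp, hfd q hq]; exact H.lip p (hsub hp) q (hsub hq)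
  · intro p hp q hq v; rw [hfd p hp, hfd q hq]; exact H.lip1 p (hsub hp) q (hsub hq) v
  · intro z hz
    rw [hE (hsub hz)]
    have := H.trap z (hsub hz)
    linarith only [this]
  · intro z hz; rw [hjac z hz]; exact H.jac_le z (hsub hz)
  · intro γ hγ
    rw [hint J γ hγ]
    exact H.avg1 γ (hγ.mono le_rfl le_rfl (by linarith))
  · intro γ hγ
    rw [hint t0 γ hγ]
    exact H.avg2 γ (hγ.mono le_rfl le_rfl (by linarith only [hρ]))

end

end Pool.Agent.Work.MP_14af4f_an
end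

-- merged part: Pool.Agent.Work.MP_14af4f_an.Equi
section
/-!
Images of horizontal segments are unions of admissible curves.
-/

open Set Filter Topology MeasureTheory
open scoped ENNReal

namespace Pool.Agent.Work.MP_14af4f_an

variable {F : P2 → P2} {d : ℕ} {h ρ δ K J t0 ρ0 : ℝ}

lemma Equi_mono {f f' : ℝ → ℝ} (hf : ∀ t, HasDerivAt f (f' t) t) (h0 : ∀ t, 0 ≤ f' t) {t t' : ℝ}
    (h : t ≤ t') : f t ≤ f t' :=
  monotone_of_deriv_nonneg (fun t => (hf t).differentiableAt)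
    (fun t => by rw [(hf t).deriv]; exact h0 t) h

lemma Equi_fst {γ : ℝ → P2} {v : P2} {t : ℝ} (h : HasDerivAt γ v t) :
    HasDerivAt (fun s => (γ s).1) v.1 t :=
  (ContinuousLinearMap.fst ℝ ℝ ℝ).hasFDerivAt.comp_hasDerivAt t h

lemma Equi_snd {γ : ℝ → P2} {v : P2} {t : ℝ} (h : HasDerivAt γ v t) :
    HasDerivAt (fun s => (γ s).2) v.2 t :=
  (ContinuousLinearMap.snd ℝ ℝ ℝ).hasFDerivAt.comp_hasDerivAt t h

lemma Equi_norm {γ v : ℝ → P2} (hd : ∀ t, HasDerivAt γ (v t) t) (hc : ∀ t, |(v t).2| ≤ (v t).1)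
    {t t' : ℝ} (h : t ≤ t') : ‖γ t - γ t'‖ ≤ (γ t').1 - (γ t).1 := by
  have h1 := Equi_mono (fun t => (Equi_fst (hd t)).add (Equi_snd (hd t)))
    (fun t => by linarith only [hc, (abs_le.1 (hc t)).1]) h
  have h2 := Equi_mono (fun t => (Equi_fst (hd t)).sub (Equi_snd (hd t)))
    (fun t => by linarith [(abs_le.1 (hc t)).2]) h
  simp only [Pi.add_apply, Pi.sub_apply] at h1 h2
  rw [Prod.norm_def, max_le_iff, Real.norm_eq_abs, Real.norm_eq_abs, abs_le, abs_le]
  simp only [Prod.fst_sub, Prod.snd_sub]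
  refine ⟨⟨?_, ?_⟩, ?_, ?_⟩ <;> linarith only [h1, h2]

lemma Equi_log {a b : ℝ} (ha : 1 ≤ a) (hb : 1 ≤ b) : |Real.log a - Real.log b| ≤ |a - b| := by
  have key : ∀ {a b : ℝ}, 1 ≤ a → 1 ≤ b → Real.log a - Real.log b ≤ |a - b| := fun {a b} ha hb => by
    have h1 := Real.log_le_sub_one_of_pos (div_pos (by linarith : 0 < a) (by linarith : 0 < b))
    rw [Real.log_div (by linarith only [ha]) (by linarith)] at h1
    have h2 : a / b - 1 = (a - b) / b := by field_simp
    rw [h2] at h1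
    refine h1.trans ((div_le_div_of_nonneg_right (le_abs_self _) (by linarith only [hb])).trans ?_)
    exact div_le_self (abs_nonneg _) hb
  rw [abs_le]
  refine ⟨?_, key ha hb⟩
  have := key hb ha
  rw [abs_sub_comm] at this
  linarith

lemma Equi_div {l l' m m' c A B : ℝ} (hc : 0 < c) (hl : c ≤ l) (hl' : 0 < l') (hm : |m'| ≤ l')
    (h1 : |m - m'| ≤ A) (h2 : |l - l'| ≤ B) : c * |m / l - m' / l'| ≤ A + B := by
  have h3 : 0 < l := hc.trans_le hl
  have h4 : l * (m / l - m' / l') = (m - m') - (m' / l') * (l - l') := by field_simp; ring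
  have h5 : |m' / l'| ≤ 1 := by rw [abs_div, abs_of_pos hl']; exact (div_le_one hl').2 hm
  calc c * |m / l - m' / l'| ≤ l * |m / l - m' / l'| := by gcongr
    _ = |(m - m') - (m' / l') * (l - l')| := by rw [← h4, abs_mul, abs_of_pos h3]
    _ ≤ |m - m'| + |m' / l'| * |l - l'| := by rw [← abs_mul]; exact abs_sub _ _
    _ ≤ A + 1 * B := by gcongr
    _ = A + B := by ring

lemma Equi_strong (H : Hyp F d h ρ δ K J t0 ρ0) {y : ℝ} (hy : |y| ≤ h) (n : ℕ) :
    ∃ v : ℝ → P2, (∀ t, HasDerivAt (fun s => F^[n] (s, y)) (v t) t) ∧ (∀ t, 0 < (v t).1) ∧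
      (∀ t, |(v t).2| ≤ (v t).1) ∧ ∀ t t', t ≤ t' →
        |(v t).2 / (v t).1 - (v t').2 / (v t').1| ≤
          (K + 1) * ((F^[n] (t', y)).1 - (F^[n] (t, y)).1) ∧
        |Real.log (v t).1 - Real.log (v t').1| ≤
          2 * δ * (K + 2) * ((F^[n] (t', y)).1 - (F^[n] (t, y)).1) := by
  have hδ := H.δ_nonneg
  have hδ' := H.δ_le
  have hK := H.K_nonneg
  have hd : (2 : ℝ) ≤ d := by exact_mod_cast H.d2
  induction n with
  | zero =>
    refine ⟨fun _ => (1, 0), fun t => (hasDerivAt_id t).prodMk (hasDerivAt_const t y),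
      fun _ => one_pos, fun _ => by simp, fun t t' h => ?_⟩
    have : 0 ≤ t' - t := sub_nonneg.2 h
    simp only [sub_self, abs_zero, Function.iterate_zero, id]
    exact ⟨by positivity, by positivity⟩
  | succ n ih =>
    obtain ⟨v, h1, h2, h3, h4⟩ := ih
    simp only [Function.iterate_succ_apply']
    set γ : ℝ → P2 := fun s => F^[n] (s, y) with hγ
    have hs : ∀ t, γ t ∈ strip h := fun t => H.mapsTo'.iterate n (show (t, y) ∈ strip h from hy)
    set σ : ℝ → ℝ := fun t => (v t).2 / (v t).1 with hσ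
    have hσ1 : ∀ t, |σ t| ≤ 1 := fun t => by
      rw [hσ, abs_div, abs_of_pos (h2 t)]; exact (div_le_one (h2 t)).2 (h3 t)
    set w : ℝ → P2 := fun t => fderiv ℝ F (γ t) (1, σ t) with hw
    have hv : ∀ t, fderiv ℝ F (γ t) (v t) = (v t).1 • w t := fun t => by
      rw [hw, ← map_smul]
      congr 1
      ext
      · simp
      · simp only [hσ, Prod.smul_snd, smul_eq_mul]; field_simp [(h2 t).ne']
    have e : ∀ p s, fderiv ℝ F p (1, s) = fderiv ℝ F p (1, 0) + s • fderiv ℝ F p (0, 1) :=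
      fun p s => by rw [clm_apply_eq]; simp
    have e' : ∀ t, w t = fderiv ℝ F (γ t) (1, 0) + σ t • fderiv ℝ F (γ t) (0, 1) := fun t => e _ _
    have w1 : ∀ t, d - 2 * δ ≤ (w t).1 := fun t => by
      have a := abs_le.1 (H.d11 _ (hs t))
      have b : |σ t * (fderiv ℝ F (γ t) (0, 1)).1| ≤ 1 * δ := by
        rw [abs_mul]; gcongr; exacts [hσ1 t, H.d12 _ (hs t)]
      rw [e', Prod.fst_add, Prod.smul_fst, smul_eq_mul]
      linarith only [a, b, (abs_le.1 b).1]
    have w2 : ∀ t, |(w t).2| ≤ (w t).1 := fun t => by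
      have a := abs_le.1 (H.d21 _ (hs t))
      have b : |σ t * (fderiv ℝ F (γ t) (0, 1)).2| ≤ 1 * (d / 3) := by
        rw [abs_mul]; gcongr; exacts [hσ1 t, H.d22 _ (hs t)]
      have c := w1 t
      have b' := abs_le.1 b
      refine le_trans ?_ c
      rw [e', Prod.snd_add, Prod.smul_snd, smul_eq_mul, abs_le]
      constructor <;> linarith only [hδ', hd, a, b']
    have w0 : ∀ t, 0 < (w t).1 := fun t => by linarith only [hδ', hd, w1, w1 t]
    have hD : ∀ t, HasDerivAt (fun s => F (γ s)) ((v t).1 • w t) t := fun t =>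
      hv t ▸ (H.diff _ (hs t)).hasFDerivAt.comp_hasDerivAt t (h1 t)
    refine ⟨fun t => (v t).1 • w t, hD, fun t => mul_pos (h2 t) (w0 t), fun t => ?_,
      fun t t' htt => ?_⟩
    · simp only [Prod.smul_snd, Prod.smul_fst, smul_eq_mul, abs_mul, abs_of_pos (h2 t)]
      exact mul_le_mul_of_nonneg_left (w2 t) (h2 t).le
    obtain ⟨k1, k2⟩ := h4 t t' htt
    have n1 := Equi_norm h1 h3 htt
    set Δ := (γ t').1 - (γ t).1 with hΔ
    have Δ0 : 0 ≤ Δ := (norm_nonneg _).trans n1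
    have n2 : (d - 2 * δ) * Δ ≤ (F (γ t')).1 - (F (γ t)).1 := by
      have := Equi_mono (fun t => (Equi_fst (hD t)).sub ((Equi_fst (h1 t)).const_mul (d - 2 * δ)))
        (fun t => by
          simp only [Prod.smul_fst, smul_eq_mul]
          linarith only [w1, h2, mul_le_mul_of_nonneg_left (w1 t) (h2 t).le]) htt
      simp only [Pi.sub_apply] at this
      rw [hΔ]
      linarith only [this]
    have n3 : ‖((1, σ t) : P2)‖ ≤ 1 := by
      rw [Prod.norm_def, max_le_iff]; exact ⟨by simp, hσ1 t⟩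
    have e2 : w t - w t' = (fderiv ℝ F (γ t) (1, σ t) - fderiv ℝ F (γ t') (1, σ t)) +
        (σ t - σ t') • fderiv ℝ F (γ t') (0, 1) := by
      rw [e' t', e (γ t') (σ t), sub_smul]; simp only [hw]; abel
    have l1 : |(w t).1 - (w t').1| ≤ δ * (K + 2) * Δ := by
      have a := H.lip1 _ (hs t) _ (hs t') (1, σ t)
      have b : |(σ t - σ t') * (fderiv ℝ F (γ t') (0, 1)).1| ≤ (K + 1) * Δ * δ := by
        rw [abs_mul]; gcongr; exact H.d12 _ (hs t')
      have c : δ * ‖γ t - γ t'‖ * ‖((1, σ t) : P2)‖ ≤ δ * Δ * 1 := by gcongr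
      rw [← Prod.fst_sub, e2, Prod.fst_add, Prod.smul_fst, smul_eq_mul]
      refine (abs_add_le _ _).trans ?_
      linarith only [a, b, c]
    have l2 : |(w t).2 - (w t').2| ≤ (K + (K + 1) * (d / 3)) * Δ := by
      have a : |(fderiv ℝ F (γ t) (1, σ t) - fderiv ℝ F (γ t') (1, σ t)).2| ≤ K * Δ * 1 := by
        rw [← Real.norm_eq_abs, ← sub_apply]
        refine (norm_snd_le _).trans ((ContinuousLinearMap.le_opNorm _ _).trans ?_)
        have := (H.lip _ (hs t) _ (hs t')).trans (mul_le_mul_of_nonneg_left n1 hK)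
        gcongr
      have b : |(σ t - σ t') * (fderiv ℝ F (γ t') (0, 1)).2| ≤ (K + 1) * Δ * (d / 3) := by
        rw [abs_mul]; gcongr; exact H.d22 _ (hs t')
      rw [← Prod.snd_sub, e2, Prod.snd_add, Prod.smul_snd, smul_eq_mul]
      refine (abs_add_le _ _).trans ?_
      linarith only [a, b]
    have c0 : (9 : ℝ) / 5 ≤ d - 2 * δ := by linarith only [hδ', hd]
    constructor
    · have a := Equi_div (by linarith only [hδ', hd] : (0 : ℝ) < d - 2 * δ) (w1 t) (w0 t') (w2 t') l2 l1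
      simp only [Prod.smul_snd, Prod.smul_fst, smul_eq_mul, mul_div_mul_left _ _ (h2 _).ne']
      refine le_trans ?_ (mul_le_mul_of_nonneg_left n2 (by linarith only [hK]))
      refine le_of_mul_le_mul_left (a.trans ?_) (by linarith only [hδ', hd] : (0 : ℝ) < d - 2 * δ)
      have b : K + (K + 1) * (d / 3) + δ * (K + 2) ≤ (d - 2 * δ) * ((K + 1) * (d - 2 * δ)) := by
        have b1 : 6 / 5 + d / 3 ≤ (d - 2 * δ) * (d - 2 * δ) := by linarith only [hd, hδ', hδ, mul_nonneg_of_nonpos_of_nonpos (Mathlib.Tactic.Linarith.sub_nonpos_of_le (Mathlib.Tactic.Linarith.natCast_nonneg ℝ d)) (Mathlib.Tactic.Linarith.sub_nonpos_of_le hδ'), mul_nonneg_of_nonpos_of_nonpos (Mathlib.Tactic.Linarith.sub_nonpos_of_le (Mathlib.Tactic.Linarith.natCast_nonneg ℝ d)) (Mathlib.Tactic.Linarith.sub_nonpos_of_le hd), mul_nonneg_of_nonpos_of_nonpos (Mathlib.Tactic.Linarith.sub_nonpos_of_le hδ) (Mathlib.Tactic.Linarith.sub_nonpos_of_le hδ)]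
        have b2 := mul_le_mul_of_nonneg_left b1 (by linarith only [hK] : 0 ≤ K + 1)
        linarith only [hδ', hK, b2, mul_nonneg_of_nonpos_of_nonpos (Mathlib.Tactic.Linarith.sub_nonpos_of_le hδ') (Mathlib.Tactic.Linarith.sub_nonpos_of_le hK)]
      linarith only [b, Δ0, mul_le_mul_of_nonneg_right b Δ0]
    · have a := (Equi_log (by linarith only [hδ', hd, w1, w1 t]) (by linarith only [hδ', hd, w1, w1 t'])).trans l1
      simp only [Prod.smul_fst, smul_eq_mul, Real.log_mul (h2 _).ne' (w0 _).ne']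
      have b : 0 ≤ δ * (K + 2) := by positivity
      have c := mul_le_mul_of_nonneg_left n2 b
      have c' := mul_le_mul_of_nonneg_left c0 (mul_nonneg b Δ0)
      have a' := abs_le.1 a
      have k2' := abs_le.1 k2
      have := mul_nonneg b Δ0
      rw [abs_le]
      constructor <;> linarith only [c, c', a', k2']

/-- The cone field and the distortion along the images of a horizontal line. -/
lemma Hyp.distortion (H : Hyp F d h ρ δ K J t0 ρ0) {y : ℝ} (hy : |y| ≤ h) (n : ℕ) :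
    ∃ v : ℝ → P2, (∀ t, HasDerivAt (fun s => F^[n] (s, y)) (v t) t) ∧ (∀ t, 0 < (v t).1) ∧
      (∀ t, |(v t).2| ≤ (v t).1) ∧ ∀ t t', t ≤ t' →
        |Real.log (v t).1 - Real.log (v t').1| ≤
          2 * δ * (K + 2) * ((F^[n] (t', y)).1 - (F^[n] (t, y)).1) := by
  obtain ⟨v, h1, h2, h3, h4⟩ := Equi_strong H hy n
  exact ⟨v, h1, h2, h3, fun t t' h => (h4 t t' h).2⟩

lemma Equi_scale (f : ℝ → ℝ≥0∞) {a b : ℝ} (hab : a < b) :
    ∫⁻ t in Icc a b, f t = ENNReal.ofReal (b - a) * ∫⁻ u in Icc (0 : ℝ) 1, f (a + (b - a) * u) := by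
  have h0 : 0 < b - a := sub_pos.2 hab
  let e : ℝ ≃ᵐ ℝ := (MeasurableEquiv.mulLeft₀ (b - a) h0.ne').trans (MeasurableEquiv.addLeft a)
  have he : ∀ u, e u = a + (b - a) * u := fun _ => rfl
  have h1 : Measure.map e volume = ENNReal.ofReal (b - a)⁻¹ • volume := by
    have : (e : ℝ → ℝ) = (fun x => a + x) ∘ fun u => (b - a) * u := rfl
    rw [this, ← Measure.map_map (measurable_const_add a) (measurable_const_mul _),
      Real.map_volume_mul_left h0.ne', Measure.map_smul, map_add_left_eq_self,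
      abs_of_pos (inv_pos.2 h0)]
  have h2 : e ⁻¹' Icc a b = Icc 0 1 := by
    ext u
    simp only [mem_preimage, he, mem_Icc]
    constructor
    · rintro ⟨h, h'⟩
      exact ⟨nonneg_of_mul_nonneg_right (by linarith) h0, le_of_mul_le_mul_left (by linarith) h0⟩
    · rintro ⟨h, h'⟩
      constructor <;> linarith only [hab, h, h', mul_nonneg_of_nonpos_of_nonpos (le_of_lt (Mathlib.Tactic.Linarith.sub_neg_of_lt hab)) (Mathlib.Tactic.Linarith.sub_nonpos_of_le h), mul_nonneg_of_nonpos_of_nonpos (le_of_lt (Mathlib.Tactic.Linarith.sub_neg_of_lt hab)) (Mathlib.Tactic.Linarith.sub_nonpos_of_le h')]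
  have h3 := lintegral_map_equiv (μ := volume.restrict (Icc (0 : ℝ) 1)) f e
  rw [← h2, ← e.restrict_map, h1, Measure.restrict_smul, lintegral_smul_measure, h2] at h3
  simp only [he] at h3
  rw [← h3, smul_eq_mul, ← mul_assoc, ← ENNReal.ofReal_mul h0.le, mul_inv_cancel₀ h0.ne',
    ENNReal.ofReal_one, one_mul]

lemma Hyp.equi (H : Hyp F d h ρ δ K J t0 ρ0) {B : P2 → ℝ≥0∞} {β : ℝ≥0∞}
    (hB : ∀ γ, Cv 1 ρ0 2 h γ → ∫⁻ t in Icc (0 : ℝ) 1, B (γ t) ≤ β) (n : ℕ) {y : ℝ}
    (hy : |y| ≤ h) : ∫⁻ t in Ico (0 : ℝ) 1, B (F^[n] (t, y)) ≤ β := by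
  obtain ⟨v, h1, h2, h3, h4⟩ := H.distortion hy n
  set γ : ℝ → P2 := fun s => F^[n] (s, y) with hγ
  have hs : ∀ t, γ t ∈ strip h := fun t => H.mapsTo'.iterate n (show (t, y) ∈ strip h from hy)
  have hm : ∀ {t t'}, t ≤ t' → (γ t).1 ≤ (γ t').1 := fun h =>
    Equi_mono (fun t => Equi_fst (h1 t)) (fun t => (h2 t).le) h
  have hc : Continuous fun s => (γ s).1 :=
    continuous_iff_continuousAt.2 fun t => (Equi_fst (h1 t)).continuousAt
  have hη : 0 ≤ 2 * δ * (K + 2) := by have := H.δ_nonneg; have := H.K_nonneg; positivity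
  have r1 := H.ρ0_ge
  have r2 := H.ρ0_le
  have cell : ∀ a b, a < b → (γ b).1 = (γ a).1 + 1 →
      ∫⁻ t in Icc a b, B (γ t) ≤ ENNReal.ofReal (b - a) * β := fun a b hab e => by
    have h0 : 0 < b - a := sub_pos.2 hab
    rw [Equi_scale _ hab]
    gcongr
    refine hB (fun u => γ (a + (b - a) * u)) fun u hu => ⟨hs _, (b - a) • v (a + (b - a) * u),
      (h1 _).scomp u (by simpa using ((hasDerivAt_id u).const_mul (b - a)).const_add a), ?_⟩
    obtain ⟨ξ, x1, x2⟩ := exists_hasDerivAt_eq_slope (fun s => (γ s).1) (fun s => (v s).1) hab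
      hc.continuousOn fun s _ => Equi_fst (h1 s)
    set t := a + (b - a) * u
    have t1 : a ≤ t := le_add_of_nonneg_right (mul_nonneg h0.le hu.1)
    have t2 : t ≤ b := by have := mul_le_mul_of_nonneg_left hu.2 h0.le; simp only [t]; linarith only [this]
    have k1 : |Real.log (v t).1 - Real.log (v ξ).1| ≤ 2 * δ * (K + 2) * 1 := by
      rcases le_total t ξ with c | c
      · refine (h4 t ξ c).trans (mul_le_mul_of_nonneg_left ?_ hη)
        linarith [hm t1, hm x1.2.le]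
      · rw [abs_sub_comm]
        refine (h4 ξ t c).trans (mul_le_mul_of_nonneg_left ?_ hη)
        linarith [hm t2, hm x1.1.le]
    have k2 : (b - a) * (v t).1 = Real.exp (Real.log (v t).1 - Real.log (v ξ).1) := by
      rw [Real.exp_sub, Real.exp_log (h2 _), Real.exp_log (h2 _), x2, e]
      field_simp
      ring
    have k3 : |(b - a) * (v t).1 - 1| ≤ ρ0 := by
      rw [k2]
      exact (Real.abs_exp_sub_one_le (by linarith only [r1, r2, k1])).trans (by linarith)
    refine ⟨k3, ?_⟩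
    rw [Prod.smul_snd, smul_eq_mul, abs_mul, abs_of_pos h0]
    linarith only [r2, h3, h0, k3, mul_le_mul_of_nonneg_left (h3 t) h0.le, (abs_le.1 k3).2]
  have key : ∀ m : ℕ, ∀ b, 0 ≤ b → (γ b).1 = (γ 0).1 + m →
      ∫⁻ t in Ico 0 b, B (γ t) ≤ ENNReal.ofReal b * β := fun m => by
    induction m with
    | zero =>
      intro b hb e
      rcases hb.eq_or_lt with rfl | hb
      · simp
      · obtain ⟨ξ, -, x2⟩ := exists_hasDerivAt_eq_slope (fun s => (γ s).1) (fun s => (v s).1) hb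
          hc.continuousOn fun s _ => Equi_fst (h1 s)
        have := h2 ξ
        rw [x2, e] at this
        simp at this
    | succ m ih =>
      intro b hb e
      push_cast at e
      have m0 : (0 : ℝ) ≤ m := Nat.cast_nonneg m
      obtain ⟨a, a1, a2⟩ := intermediate_value_Icc hb hc.continuousOn
        (show (γ 0).1 + m ∈ Icc (γ 0).1 (γ b).1 from ⟨by linarith, by linarith⟩)
      have a3 : a < b := a1.2.lt_of_ne fun c => by rw [c] at a2; linarith
      calc ∫⁻ t in Ico 0 b, B (γ t) ≤ ∫⁻ t in Ico 0 a ∪ Icc a b, B (γ t) :=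
            lintegral_mono_set fun t ht => (lt_or_ge t a).imp (fun c => ⟨ht.1, c⟩)
              fun c => ⟨c, ht.2.le⟩
        _ ≤ _ := lintegral_union_le _ _ _
        _ ≤ ENNReal.ofReal a * β + ENNReal.ofReal (b - a) * β :=
            add_le_add (ih a a1.1 a2) (cell a b a3 (by simp only at a2; linarith only [e, a2]))
        _ = ENNReal.ofReal b * β := by
            rw [← add_mul, ← ENNReal.ofReal_add a1.1 (sub_pos.2 a3).le, add_sub_cancel]
  have e := H.iterate_per n 1 (show ((0 : ℝ), y) ∈ strip h from hy)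
  simpa using key (d ^ n) 1 zero_le_one (by simpa [hγ] using congrArg Prod.fst e)

end Pool.Agent.Work.MP_14af4f_an
end

-- merged part: Pool.Agent.Work.MP_14af4f_an.Acip
section
/-!
Abstract ergodic theory.
-/

open Set Filter Topology MeasureTheory
open scoped ENNReal

namespace Pool.Agent.Work.MP_14af4f_an

variable {X : Type} [MeasurableSpace X]

/-- The greatest measure below a finitely additive set function. -/
lemma Acip_greatest (l : Set X → ℝ≥0∞) (h0 : l ∅ = 0)
    (hadd : ∀ B s, MeasurableSet B → MeasurableSet s → l (B ∩ s) + l (B \ s) ≤ l B) :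
    ∃ μ : Measure X, (∀ B, MeasurableSet B → μ B ≤ l B) ∧
      ∀ κ : Measure X, (∀ B, MeasurableSet B → κ B ≤ l B) → κ ≤ μ := by
  let l' : Set X → ℝ≥0∞ := fun t => ⨅ (B : Set X) (_ : MeasurableSet B) (_ : t ⊆ B), l B
  have hl : ∀ {t B}, MeasurableSet B → t ⊆ B → l' t ≤ l B := fun {t B} hB h =>
    iInf_le_of_le B (iInf_le_of_le hB (iInf_le_of_le h le_rfl))
  have h0' : l' ∅ = 0 := le_antisymm ((hl MeasurableSet.empty subset_rfl).trans h0.le) zero_le
  have hc : ‹MeasurableSpace X› ≤ (OuterMeasure.ofFunction l' h0').caratheodory := by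
    intro s hs
    refine OuterMeasure.ofFunction_caratheodory fun t => ?_
    refine le_iInf fun B => le_iInf fun hB => le_iInf fun h => le_trans ?_ (hadd B s hB hs)
    exact add_le_add (hl (hB.inter hs) (inter_subset_inter_left _ h))
      (hl (hB.diff hs) (sdiff_subset_sdiff_left h))
  refine ⟨(OuterMeasure.ofFunction l' h0').toMeasure hc, fun B hB => ?_, fun κ hκ => ?_⟩
  · rw [toMeasure_apply _ _ hB]
    exact (OuterMeasure.ofFunction_le B).trans (hl hB subset_rfl)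
  · refine Measure.le_iff.2 fun B hB => ?_
    rw [toMeasure_apply _ _ hB]
    have : κ.toOuterMeasure ≤ OuterMeasure.ofFunction l' h0' :=
      OuterMeasure.le_ofFunction.2 fun t => le_iInf fun B => le_iInf fun hB => le_iInf fun h =>
        (measure_mono h).trans (hκ B hB)
    exact this B

omit [MeasurableSpace X] in
/-- Limits of set functions along an ultrafilter. -/
lemma Acip_lim (U : Ultrafilter ℕ) (A : ℕ → Set X → ℝ≥0∞) :
    ∃ l : Set X → ℝ≥0∞, ∀ B, Tendsto (fun N => A N B) U (𝓝 (l B)) :=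
  ⟨fun B => (U.map fun N => A N B).lim, fun B => (U.map fun N => A N B).le_nhds_lim⟩

/-- A setwise limit of measures dominated by a finite measure is a measure. -/
lemma Acip_measure {m : Measure X} [IsFiniteMeasure m] {C : ℝ≥0∞} (hC : C ≠ ⊤) (U : Ultrafilter ℕ)
    (A : ℕ → Measure X) (hA : ∀ N B, MeasurableSet B → A N B ≤ C * m B) :
    ∃ ν : Measure X, ∀ B, MeasurableSet B → Tendsto (fun N => A N B) U (𝓝 (ν B)) := by
  obtain ⟨l, hl⟩ := Acip_lim U fun N B => A N B
  have h0 : l ∅ = 0 := tendsto_nhds_unique (hl ∅) (by simp)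
  have hfin : ∀ (f : ℕ → Set X) (n : ℕ), Tendsto (fun N => ∑ i ∈ Finset.range n, A N (f i)) U
      (𝓝 (∑ i ∈ Finset.range n, l (f i))) := fun f n => tendsto_finsetSum _ fun i _ => hl _
  suffices hσ : ∀ f : ℕ → Set X, (∀ i, MeasurableSet (f i)) → Pairwise (Function.onFun Disjoint f) →
      l (⋃ i, f i) = ∑' i, l (f i) from
    ⟨Measure.ofMeasurable (fun s _ => l s) h0 hσ,
      fun B hB => by rw [Measure.ofMeasurable_apply _ hB]; exact hl B⟩
  intro f hf hd
  refine le_antisymm ?_ ?_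
  · have h1 : ∀ n, l (⋃ i, f i) ≤ (∑' i, l (f i)) + C * ∑' i, m (f (i + n)) := by
      intro n
      have h3 : ∀ N, A N (⋃ i, f i) ≤
          ∑ i ∈ Finset.range n, A N (f i) + C * ∑' i, m (f (i + n)) := by
        intro N
        have h4 : ∑' i, A N (f (i + n)) ≤ ∑' i, C * m (f (i + n)) :=
          ENNReal.tsum_le_tsum fun i => hA N (f (i + n)) (hf (i + n))
        exact (measure_iUnion hd hf).trans_le ((Summable.sum_add_tsum_nat_add'
          (f := fun i => A N (f i)) (k := n) ENNReal.summable).symm.trans_le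
          (add_le_add le_rfl (h4.trans_eq ENNReal.tsum_mul_left)))
      generalize C * ∑' i, m (f (i + n)) = c at h3 ⊢
      have h5 : l (⋃ i, f i) ≤ ∑ i ∈ Finset.range n, l (f i) + c :=
        le_of_tendsto_of_tendsto' (hl (⋃ i, f i)) ((hfin f n).add_const c) h3
      have h6 : ∑ i ∈ Finset.range n, l (f i) ≤ ∑' i, l (f i) :=
        ENNReal.sum_le_tsum (f := fun i => l (f i)) (Finset.range n)
      exact h5.trans (add_le_add h6 le_rfl)
    have h2 : Tendsto (fun n => (∑' i, l (f i)) + C * ∑' i, m (f (i + n))) atTop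
        (𝓝 ((∑' i, l (f i)) + C * 0)) := by
      have h7 : ∑' i, m (f i) ≠ ⊤ := by
        rw [← measure_iUnion hd hf]
        exact measure_ne_top _ _
      exact (ENNReal.Tendsto.const_mul (ENNReal.tendsto_sum_nat_add (fun i => m (f i)) h7)
        (Or.inr hC)).const_add _
    simpa using ge_of_tendsto' h2 h1
  · rw [ENNReal.tsum_eq_iSup_nat]
    refine iSup_le fun n => le_of_tendsto_of_tendsto' (hfin f n) (hl _) fun N => ?_
    rw [measure_iUnion hd hf]
    exact ENNReal.sum_le_tsum _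

lemma Acip_inv_mul {a : ℝ≥0∞} (ha : a ≠ ⊤) :
    Tendsto (fun N : ℕ => (N : ℝ≥0∞)⁻¹ * a) atTop (𝓝 0) := by
  simpa using ENNReal.Tendsto.mul_const ENNReal.tendsto_inv_nat_nhds_zero (Or.inr ha)

lemma Acip_avg_le {N : ℕ} {f : ℕ → ℝ≥0∞} {c : ℝ≥0∞} (h : ∀ n, f n ≤ c) :
    (N : ℝ≥0∞)⁻¹ * ∑ n ∈ Finset.range N, f n ≤ c := by
  have h1 : ∑ n ∈ Finset.range N, f n ≤ N * c := by
    simpa using Finset.sum_le_card_nsmul (Finset.range N) f c fun n _ => h n
  refine (mul_le_mul_right h1 _).trans ?_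
  rw [← mul_assoc]
  exact mul_le_of_le_one_left' (ENNReal.inv_mul_le_one _)

/-- An invariant absolutely continuous measure above the limit of the good parts of the
iterates. -/
lemma exists_invariant {m : Measure X} [IsFiniteMeasure m] {T : X → X} (hT : Measurable T)
    (hns : m.map T ≪ m) {H : ℕ → Set X} (hH : ∀ n, MeasurableSet (H n)) {C θ : ℝ≥0∞}
    (hC : C ≠ ⊤) (hθ : ∀ N : ℕ, θ * N ≤ ∑ n ∈ Finset.range N, m (H n))
    (hd : ∀ n B, MeasurableSet B → m (H n ∩ T^[n] ⁻¹' B) ≤ C * m B) :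
    ∃ μ ν : Measure X, IsFiniteMeasure μ ∧ μ ≪ m ∧ μ.map T = μ ∧ ν ≤ μ ∧ θ ≤ ν univ ∧
      ∀ Ω, MeasurableSet Ω → T ⁻¹' Ω = Ω → ∀ c : ℝ≥0∞,
        (∀ᶠ n in atTop, m (H n ∩ Ω) ≤ c) → ν Ω ≤ c := by
  let U : Ultrafilter ℕ := Ultrafilter.of atTop
  have hU : (U : Filter ℕ) ≤ atTop := Ultrafilter.of_le _
  let A : ℕ → Measure X := fun N =>
    (N : ℝ≥0∞)⁻¹ • ∑ n ∈ Finset.range N, (m.restrict (H n)).map T^[n]
  have hA : ∀ N B, MeasurableSet B →
      A N B = (N : ℝ≥0∞)⁻¹ * ∑ n ∈ Finset.range N, m (H n ∩ T^[n] ⁻¹' B) := by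
    intro N B hB
    simp only [A, Measure.smul_apply, smul_eq_mul, Measure.finsetSum_apply]
    congr 1
    refine Finset.sum_congr rfl fun n _ => ?_
    rw [Measure.map_apply (hT.iterate n) hB, Measure.restrict_apply (hT.iterate n hB), inter_comm]
  obtain ⟨ν, hν⟩ := Acip_measure hC U A fun N B hB => by
    rw [hA N B hB]
    exact Acip_avg_le fun n => hd n B hB
  obtain ⟨l, hl⟩ := Acip_lim U fun N (B : Set X) =>
    (N : ℝ≥0∞)⁻¹ * ∑ n ∈ Finset.range N, m (T^[n] ⁻¹' B)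
  obtain ⟨μ, h1, h2⟩ := Acip_greatest l (tendsto_nhds_unique (hl ∅) (by simp)) fun B s hB hs => by
    refine le_of_tendsto_of_tendsto' ((hl _).add (hl _)) (hl _) fun N => le_of_eq ?_
    rw [← mul_add, ← Finset.sum_add_distrib]
    congr 1
    refine Finset.sum_congr rfl fun n _ => ?_
    rw [preimage_inter, preimage_sdiff, measure_inter_add_sdiff _ (hT.iterate n hs)]
  have hfin : IsFiniteMeasure μ := ⟨lt_of_le_of_lt ((h1 _ MeasurableSet.univ).trans
    (le_of_tendsto' (hl _) fun N => Acip_avg_le fun n => measure_mono (subset_univ _)))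
    (measure_lt_top m univ)⟩
  have hq : Measure.QuasiMeasurePreserving T m m := ⟨hT, hns⟩
  refine ⟨μ, ν, hfin, Measure.AbsolutelyContinuous.mk fun B hB h => ?_, ?_, h2 ν fun B hB => ?_, ?_,
    fun Ω hΩ hi c hc => ?_⟩
  · refine le_antisymm ((h1 B hB).trans (le_of_tendsto' (hl _) fun N => Acip_avg_le fun n => ?_))
      zero_le
    exact ((hq.iterate n).preimage_null h).le
  · refine Measure.eq_of_le_of_measure_univ_eq (h2 _ fun B hB => ?_) ?_
    · rw [Measure.map_apply hT hB]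
      refine (h1 _ (hT hB)).trans ?_
      have := (hl B).add ((Acip_inv_mul (measure_ne_top m univ)).mono_left hU)
      rw [add_zero] at this
      refine le_of_tendsto_of_tendsto' (hl _) this fun N => ?_
      rw [← mul_add]
      refine mul_le_mul_right ?_ _
      have e : ∀ n, T^[n] ⁻¹' (T ⁻¹' B) = T^[n + 1] ⁻¹' B := fun n => by
        rw [Function.iterate_succ', preimage_comp]
      simp only [e]
      refine le_trans le_self_add (le_trans (Finset.sum_range_succ' (fun n => m (T^[n] ⁻¹' B)) N).ge ?_)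
      rw [Finset.sum_range_succ]
      exact add_le_add_right (measure_mono (subset_univ _)) _
    · rw [Measure.map_apply hT MeasurableSet.univ, preimage_univ]
  · refine le_of_tendsto_of_tendsto' (hν B hB) (hl B) fun N => ?_
    rw [hA N B hB]
    exact mul_le_mul_right (Finset.sum_le_sum fun n _ => measure_mono inter_subset_right) _
  · refine ge_of_tendsto (hν _ MeasurableSet.univ) (hU ((eventually_gt_atTop 0).mono fun N hN => ?_))
    show θ ≤ A N univ
    rw [hA N _ MeasurableSet.univ]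
    simp only [preimage_univ, inter_univ]
    refine le_trans (le_of_eq ?_) (mul_le_mul_right (hθ N) _)
    rw [mul_comm θ, ← mul_assoc, ENNReal.inv_mul_cancel (by exact_mod_cast hN.ne') (by simp), one_mul]
  · obtain ⟨k, hk⟩ := eventually_atTop.1 hc
    have := ((Acip_inv_mul (a := k * m univ) (by finiteness)).mono_left hU).const_add c
    rw [add_zero] at this
    refine le_of_tendsto_of_tendsto' (hν Ω hΩ) this fun N => ?_
    rw [hA N Ω hΩ]
    have e : ∀ n, T^[n] ⁻¹' Ω = Ω := fun n => (Function.IsFixedPt.preimage_iterate hi n).eq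
    simp only [e]
    have h3 : ∑ n ∈ Finset.range N, m (H n ∩ Ω) ≤ ∑ n ∈ Finset.range N, c + k * m univ := by
      rw [← Finset.sum_filter_add_sum_filter_not _ (fun n => k ≤ n)]
      refine add_le_add ((Finset.sum_le_sum fun n hn => hk n (Finset.mem_filter.1 hn).2).trans
        (Finset.sum_le_sum_of_subset (Finset.filter_subset _ _))) ?_
      refine le_trans (Finset.sum_le_sum_of_subset (t := Finset.range k) fun n hn => ?_) ?_
      · exact Finset.mem_range.2 (not_le.1 (Finset.mem_filter.1 hn).2)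
      · simpa using Finset.sum_le_card_nsmul (Finset.range k) (fun n => m (H n ∩ Ω)) (m univ)
          fun n _ => measure_mono (subset_univ _)
    refine (mul_le_mul_right h3 _).trans ?_
    rw [mul_add]
    exact add_le_add_left (Acip_avg_le fun _ => le_rfl) _

/-- An atom of the algebra of invariant sets. -/
lemma exists_atom {m ν : Measure X} [IsFiniteMeasure m] [IsFiniteMeasure ν] {T : X → X}
    {C : ℝ≥0∞} (hC : C ≠ ⊤) (h0 : ν univ ≠ 0)
    (h : ∀ Ω, MeasurableSet Ω → T ⁻¹' Ω = Ω → ν Ω ≤ C * m Ω ^ 2) :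
    ∃ Ω, MeasurableSet Ω ∧ T ⁻¹' Ω = Ω ∧ ν Ω ≠ 0 ∧
      ∀ E, MeasurableSet E → T ⁻¹' E = E → m (Ω ∩ E) = 0 ∨ m (Ω \ E) = 0 := by
  let G : Set X → Prop := fun Ω => MeasurableSet Ω ∧ T ⁻¹' Ω = Ω ∧ m Ω ≠ 0 ∧
    ν univ * m Ω ≤ m univ * ν Ω
  have hu : G univ := ⟨MeasurableSet.univ, rfl, fun h1 => h0 (by
    simpa [h1] using h univ MeasurableSet.univ rfl), (mul_comm _ _).le⟩
  have low : ∀ Ω, G Ω → ν univ ≤ m univ * C * m Ω := by
    intro Ω hΩ
    have h1 := hΩ.2.2.2.trans (mul_le_mul_right (h Ω hΩ.1 hΩ.2.1) _)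
    rw [sq, ← mul_assoc, ← mul_assoc] at h1
    exact (ENNReal.mul_le_mul_iff_left hΩ.2.2.1 (measure_ne_top _ _)).1 h1
  have step : ∀ (n : ℕ) (Ω : {Ω // G Ω}), ∃ Ω' : {Ω // G Ω}, Ω'.1 ⊆ Ω.1 ∧
      ∀ W, G W → W ⊆ Ω.1 → m Ω'.1 ≤ m W + (n + 1 : ℝ≥0∞)⁻¹ := by
    intro n Ω
    have h1 : ⨅ W : {W // G W ∧ W ⊆ Ω.1}, m W.1 <
        (⨅ W : {W // G W ∧ W ⊆ Ω.1}, m W.1) + (n + 1 : ℝ≥0∞)⁻¹ :=
      ENNReal.lt_add_right (ne_top_of_le_ne_top (measure_ne_top m Ω.1)
        (iInf_le_of_le ⟨Ω.1, Ω.2, subset_rfl⟩ le_rfl)) (by simp)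
    obtain ⟨W, hW⟩ := iInf_lt_iff.1 h1
    exact ⟨⟨W.1, W.2.1⟩, W.2.2, fun W' a b =>
      hW.le.trans (add_le_add_left (iInf_le (fun W : {W // G W ∧ W ⊆ Ω.1} => m W.1) ⟨W', a, b⟩) _)⟩
  choose f hf using step
  let s : ℕ → {Ω // G Ω} := fun n => Nat.rec ⟨univ, hu⟩ f n
  have anti : Antitone fun n => (s n).1 := antitone_nat_of_succ_le fun n => (hf n (s n)).1
  have hm : MeasurableSet (⋂ n, (s n).1) := MeasurableSet.iInter fun n => (s n).2.1
  have hi : T ⁻¹' (⋂ n, (s n).1) = ⋂ n, (s n).1 := by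
    rw [preimage_iInter]
    exact iInter_congr fun n => (s n).2.2.1
  have t1 : Tendsto (fun n => m (s n).1) atTop (𝓝 (m (⋂ n, (s n).1))) :=
    tendsto_measure_iInter_atTop (fun n => (s n).2.1.nullMeasurableSet) anti
      ⟨0, measure_ne_top _ _⟩
  have t2 : Tendsto (fun n => ν (s n).1) atTop (𝓝 (ν (⋂ n, (s n).1))) :=
    tendsto_measure_iInter_atTop (fun n => (s n).2.1.nullMeasurableSet) anti
      ⟨0, measure_ne_top _ _⟩
  have a1 : m (⋂ n, (s n).1) ≠ 0 := fun h1 => h0 (by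
    have := ge_of_tendsto' (ENNReal.Tendsto.const_mul (a := m univ * C) t1 (Or.inr (by finiteness)))
      fun n => low _ (s n).2
    simpa [h1] using this)
  have a2 : ν univ * m (⋂ n, (s n).1) ≤ m univ * ν (⋂ n, (s n).1) :=
    ge_of_tendsto' (ENNReal.Tendsto.const_mul t2 (Or.inr (measure_ne_top _ _))) fun n =>
      (mul_le_mul_right (measure_mono (iInter_subset _ n)) _).trans (s n).2.2.2.2
  have a3 : ∀ W, G W → W ⊆ ⋂ n, (s n).1 → m (⋂ n, (s n).1) ≤ m W := by
    intro W hW hs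
    have t3 : Tendsto (fun n : ℕ => m W + (n + 1 : ℝ≥0∞)⁻¹) atTop (𝓝 (m W + 0)) := by
      refine Tendsto.const_add _ ?_
      simpa [Function.comp_def] using
        ENNReal.tendsto_inv_nat_nhds_zero.comp (tendsto_add_atTop_nat 1)
    rw [add_zero] at t3
    exact ge_of_tendsto' t3 fun n => (measure_mono (iInter_subset _ (n + 1))).trans
      ((hf n (s n)).2 W hW (hs.trans (iInter_subset _ n)))
  refine ⟨_, hm, hi, fun h1 => ?_, fun E hE hiE => ?_⟩
  · rw [h1, mul_zero, nonpos_iff_eq_zero, mul_eq_zero] at a2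
    exact a2.elim h0 a1
  · generalize ⋂ n, (s n).1 = Ω at *
    by_contra hc
    push Not at hc
    have e1 := measure_inter_add_sdiff (μ := m) Ω hE
    have e2 := measure_inter_add_sdiff (μ := ν) Ω hE
    have b1 : m univ * ν (Ω ∩ E) < ν univ * m (Ω ∩ E) := not_le.1 fun h1 => by
      have := a3 _ ⟨hm.inter hE, by rw [preimage_inter, hi, hiE], hc.1, h1⟩ inter_subset_left
      rw [← e1] at this
      exact absurd this (ENNReal.lt_add_right (measure_ne_top _ _) hc.2).not_ge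
    have b2 : m univ * ν (Ω \ E) < ν univ * m (Ω \ E) := not_le.1 fun h1 => by
      have := a3 _ ⟨hm.diff hE, by rw [preimage_sdiff, hi, hiE], hc.2, h1⟩ sdiff_subset
      rw [← e1, add_comm] at this
      exact absurd this (ENNReal.lt_add_right (measure_ne_top _ _) hc.1).not_ge
    have := ENNReal.add_lt_add b1 b2
    rw [← mul_add, ← mul_add, e1, e2] at this
    exact absurd a2 this.not_ge

theorem exists_acip {m : Measure X} [IsFiniteMeasure m] {T : X → X} (hT : Measurable T)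
    (hns : m.map T ≪ m) {H : ℕ → Set X} (hH : ∀ n, MeasurableSet (H n)) {C θ : ℝ≥0∞}
    (hC : C ≠ ⊤) (hθ0 : θ ≠ 0) (hθ : ∀ N : ℕ, θ * N ≤ ∑ n ∈ Finset.range N, m (H n))
    (hd : ∀ n B, MeasurableSet B → m (H n ∩ T^[n] ⁻¹' B) ≤ C * m B)
    (hs : ∀ Ω, MeasurableSet Ω → T ⁻¹' Ω = Ω → ∀ ε : ℝ≥0∞, 0 < ε →
      ∀ᶠ n in atTop, m (H n ∩ Ω) ≤ C * m Ω ^ 2 + ε) :
    ∃ μ : Measure X, IsProbabilityMeasure μ ∧ μ ≪ m ∧ Ergodic T μ ∧
      ∀ E, MeasurableSet E → T ⁻¹' E = E → (∀ x, (∃ᶠ n in atTop, x ∈ H n) → x ∈ E) →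
        ∀ᵐ x ∂μ, x ∈ E := by
  obtain ⟨μ, ν, hμ, hac, hinv, hle, hθν, hν⟩ := exists_invariant hT hns hH hC hθ hd
  have : IsFiniteMeasure ν := isFiniteMeasure_of_le μ hle
  obtain ⟨Ω, hΩ, hi, h0, hat⟩ := exists_atom (m := m) (ν := ν) (T := T) hC
    (fun h => hθ0 (le_antisymm (hθν.trans h.le) zero_le)) fun Ω a b =>
      ENNReal.le_of_forall_pos_le_add fun ε hε _ => hν Ω a b _ (hs Ω a b ε (by exact_mod_cast hε))
  have h1 : μ Ω ≠ 0 := fun h => h0 (le_antisymm ((hle Ω).trans h.le) zero_le)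
  have hz : ∀ E, MeasurableSet E → m (Ω ∩ E) = 0 → ∀ᵐ x ∂(ProbabilityTheory.cond μ Ω), x ∉ E := by
    intro E hE h
    rw [← measure_eq_zero_iff_ae_notMem, ProbabilityTheory.cond_apply hΩ, hac h, mul_zero]
  have hz' : ∀ E, MeasurableSet E → m (Ω \ E) = 0 → ∀ᵐ x ∂(ProbabilityTheory.cond μ Ω), x ∈ E :=
    fun E hE h => (hz Eᶜ hE.compl h).mono fun x hx => not_not.1 hx
  refine ⟨ProbabilityTheory.cond μ Ω, ProbabilityTheory.cond_isProbabilityMeasure h1,
    ProbabilityTheory.cond_absolutelyContinuous.trans hac, ⟨?_, ⟨fun E hE hiE => ?_⟩⟩,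
    fun E hE hiE hl => (hat E hE hiE).elim (fun h => absurd ?_ h0) (hz' E hE)⟩
  · have := (MeasurePreserving.restrict_preimage ⟨hT, hinv⟩ hΩ).smul_measure (μ Ω)⁻¹
    rwa [hi] at this
  · exact eventuallyConst_set.2 ((hat E hE hiE).symm.imp (hz' E hE) (hz E hE))
  · have t1 : Tendsto (fun N => m (Ω ∩ ⋃ n ≥ N, H n)) atTop (𝓝 (m (⋂ N, Ω ∩ ⋃ n ≥ N, H n))) :=
      tendsto_measure_iInter_atTop (fun N => (hΩ.inter (MeasurableSet.iUnion fun n =>
        MeasurableSet.iUnion fun _ => hH n)).nullMeasurableSet)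
        (fun N N' hN => inter_subset_inter_right _ (biUnion_subset_biUnion_left fun n hn =>
          le_trans hN hn)) ⟨0, measure_ne_top _ _⟩
    have e : m (⋂ N, Ω ∩ ⋃ n ≥ N, H n) = 0 := by
      refine measure_mono_null (fun x hx => ?_) h
      rw [mem_iInter] at hx
      refine ⟨(hx 0).1, hl x (frequently_atTop.2 fun N => ?_)⟩
      simpa using (hx N).2
    rw [e] at t1
    refine le_antisymm (ENNReal.le_of_forall_pos_le_add fun ε hε _ => ?_) zero_le
    rw [zero_add]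
    refine hν Ω hΩ hi _ ((t1.eventually (ge_mem_nhds (ENNReal.coe_pos.2 hε))).mono fun N hN => ?_)
    refine le_trans (measure_mono fun x hx => ?_) hN
    exact ⟨hx.2, mem_biUnion (le_refl N) hx.1⟩

end Pool.Agent.Work.MP_14af4f_an
end

-- merged part: Pool.Agent.Work.MP_14af4f_an.Osel
section
/-!
The deterministic part of the multiplicative ergodic theorem in dimension two.
-/

open Set Filter Topology

namespace Pool.Agent.Work.MP_14af4f_an

/-- the area form -/
def oselW (a b : P2) : ℝ := a.1 * b.2 - a.2 * b.1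

lemma osel_pl (a b c : P2) : oselW a c • b = oselW a b • c + oselW b c • a := by
  ext <;> simp [oselW] <;> ring

lemma osel_symm (a b : P2) : |oselW a b| = |oselW b a| := by
  rw [← abs_neg]; congr 1; simp [oselW]; ring

lemma osel_tri {E : Type} [NormedAddCommGroup E] [NormedSpace ℝ E] (A : P2 →L[ℝ] E) (a b c : P2) :
    |oselW a c| * ‖A b‖ ≤ |oselW a b| * ‖A c‖ + |oselW b c| * ‖A a‖ := by
  have h := congrArg A (osel_pl a b c)
  rw [map_add, map_smul, map_smul, map_smul] at h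
  have h2 := norm_add_le (oselW a b • A c) (oselW b c • A a)
  rwa [← h, norm_smul, norm_smul, norm_smul, Real.norm_eq_abs, Real.norm_eq_abs,
    Real.norm_eq_abs] at h2

lemma osel_tri' (a b c : P2) : |oselW a c| * ‖b‖ ≤ |oselW a b| * ‖c‖ + |oselW b c| * ‖a‖ :=
  osel_tri (ContinuousLinearMap.id ℝ P2) a b c

lemma osel_le (a b : P2) : |oselW a b| ≤ 2 * ‖a‖ * ‖b‖ := by
  refine (abs_sub _ _).trans ?_
  rw [abs_mul, abs_mul]
  have h1 := mul_le_mul (norm_fst_le a) (norm_snd_le b) (norm_nonneg _) (norm_nonneg _)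
  have h2 := mul_le_mul (norm_snd_le a) (norm_fst_le b) (norm_nonneg _) (norm_nonneg _)
  simp only [Real.norm_eq_abs] at h1 h2
  linarith only [h1, h2]

lemma osel_det (A : P2 →L[ℝ] P2) (a b : P2) : oselW (A a) (A b) = A.det * oselW a b := by
  rw [det_eq, clm_apply_eq A a, clm_apply_eq A b]
  simp [oselW]; ring

/-- the sup norm through the area form -/
lemma osel_norm (a : P2) : ∃ e : P2, ‖e‖ = 1 ∧ |oselW a e| = ‖a‖ ∧ ∀ b, |oselW b e| ≤ ‖b‖ := by
  rcases le_total |a.1| |a.2| with h | h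
  · refine ⟨(1, 0), by simp, ?_, fun b => ?_⟩
    · simp [oselW, Prod.norm_def, h]
    · simpa [oselW] using norm_snd_le b
  · refine ⟨(0, 1), by simp, ?_, fun b => ?_⟩
    · simp [oselW, Prod.norm_def, h]
    · simpa [oselW] using norm_fst_le b

lemma osel_adj (A : P2 →L[ℝ] P2) (v : P2) : |A.det| * ‖v‖ ≤ 2 * ‖A‖ * ‖A v‖ := by
  obtain ⟨e, h1, h2, -⟩ := osel_norm v
  have h3 := osel_le (A v) (A e)
  have h4 := A.le_opNorm e
  rw [osel_det, abs_mul, h2] at h3
  rw [h1, mul_one] at h4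
  linarith only [h3, h4, norm_nonneg (A v), mul_nonneg_of_nonpos_of_nonpos (Mathlib.Tactic.Linarith.sub_nonpos_of_le h4) (Mathlib.Tactic.Linarith.sub_nonpos_of_le (norm_nonneg (A v)))]

/-- the most contracted direction -/
lemma osel_dir (A : P2 →L[ℝ] P2) : ∃ s : P2, ‖s‖ = 1 ∧ (A.det ≠ 0 →
    ‖A‖ * ‖A s‖ ≤ 2 * |A.det| ∧ ∀ u, |oselW s u| * ‖A‖ ≤ 2 * ‖A u‖) := by
  by_cases hd : A.det = 0
  · exact ⟨(1, 0), by simp, fun h => absurd hd h⟩
  set a := (A (1, 0)).1
  set b := (A (0, 1)).1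
  set c := (A (1, 0)).2
  set d := (A (0, 1)).2
  have e1 : ∀ u : P2, (A u).1 = u.1 * a + u.2 * b := fun u => by rw [clm_apply_eq A u]; simp [a, b]
  have e2 : ∀ u : P2, (A u).2 = u.1 * c + u.2 * d := fun u => by rw [clm_apply_eq A u]; simp [c, d]
  have ed : A.det = a * d - b * c := det_eq A
  have row : ∀ (r u : P2), |u.1 * r.1 + u.2 * r.2| ≤ 2 * ‖r‖ * ‖u‖ := fun r u => by
    have := osel_le (-r.2, r.1) u
    rw [Prod.norm_def, norm_neg, max_comm, ← Prod.norm_def, ← abs_neg] at this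
    convert this using 2
    simp [oselW]; ring
  have key : ∀ r : P2, ‖((a, b) : P2)‖ ≤ ‖r‖ → ‖((c, d) : P2)‖ ≤ ‖r‖ →
      ‖A (-r.2, r.1)‖ = |A.det| → (∀ u : P2, |u.1 * r.1 + u.2 * r.2| ≤ ‖A u‖) →
      ∃ s : P2, ‖s‖ = 1 ∧ (A.det ≠ 0 →
        ‖A‖ * ‖A s‖ ≤ 2 * |A.det| ∧ ∀ u, |oselW s u| * ‖A‖ ≤ 2 * ‖A u‖) := by
    intro r h1 h2 h3 h4
    have hA : ‖A‖ ≤ 2 * ‖r‖ := by
      refine ContinuousLinearMap.opNorm_le_bound _ (by positivity) fun u => ?_
      rw [Prod.norm_def, e1, e2]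
      have := norm_nonneg u
      exact max_le ((row (a, b) u).trans (by gcongr)) ((row (c, d) u).trans (by gcongr))
    have hr : 0 < ‖r‖ := norm_pos_iff.2 fun h => hd (by
      rw [h] at h3
      simpa [show (((0 : ℝ), (0 : ℝ)) : P2) = 0 from rfl] using h3.symm)
    have hn : ‖((-r.2, r.1) : P2)‖ = ‖r‖ := by
      rw [Prod.norm_def, norm_neg, max_comm, ← Prod.norm_def]
    refine ⟨‖r‖⁻¹ • (-r.2, r.1), by rw [norm_smul, hn, norm_inv, norm_norm, inv_mul_cancel₀ hr.ne'],
      fun _ => ⟨?_, fun u => ?_⟩⟩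
    · rw [map_smul, norm_smul, h3, norm_inv, norm_norm]
      calc _ ≤ 2 * ‖r‖ * (‖r‖⁻¹ * |A.det|) := by gcongr
        _ = _ := by field_simp
    · have e : oselW (‖r‖⁻¹ • ((-r.2, r.1) : P2)) u = -(‖r‖⁻¹ * (u.1 * r.1 + u.2 * r.2)) := by
        simp [oselW]; ring
      rw [e, abs_neg, abs_mul, abs_inv, abs_norm]
      calc _ ≤ ‖r‖⁻¹ * ‖A u‖ * (2 * ‖r‖) := by gcongr; exact h4 u
        _ = _ := by field_simp
  rcases le_total ‖((a, b) : P2)‖ ‖((c, d) : P2)‖ with h | h
  · refine key (c, d) h le_rfl ?_ fun u => ?_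
    · rw [Prod.norm_def, e1 (-(c, d).2, (c, d).1), e2 (-(c, d).2, (c, d).1), ed]
      simp only [Real.norm_eq_abs]
      rw [show -d * c + c * d = 0 by ring, abs_zero, max_eq_left (abs_nonneg _), ← abs_neg]
      congr 1; ring
    · rw [← e2]; exact norm_snd_le (A u)
  · refine key (a, b) le_rfl h ?_ fun u => ?_
    · rw [Prod.norm_def, e1 (-(a, b).2, (a, b).1), e2 (-(a, b).2, (a, b).1), ed]
      simp only [Real.norm_eq_abs]
      rw [show -b * a + a * b = 0 by ring, abs_zero, max_eq_right (abs_nonneg _)]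
      congr 1; ring
    · rw [← e1]; exact norm_fst_le (A u)

/-- upper exponential rate -/
def OselUp (f : ℕ → ℝ) (l : ℝ) : Prop := ∀ ε > 0, ∀ᶠ n : ℕ in atTop, f n ≤ Real.exp ((l + ε) * n)

/-- lower exponential rate -/
def OselLo (f : ℕ → ℝ) (l : ℝ) : Prop := ∀ ε > 0, ∀ᶠ n : ℕ in atTop, Real.exp ((l - ε) * n) ≤ f n

lemma osel_of_tendsto {f : ℕ → ℝ} {l : ℝ} (h0 : ∀ᶠ n in atTop, 0 < f n)
    (h : Tendsto (fun n : ℕ => Real.log (f n) / n) atTop (𝓝 l)) : OselUp f l ∧ OselLo f l := by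
  constructor
  · intro ε hε
    filter_upwards [h0, h.eventually (gt_mem_nhds (lt_add_of_pos_right l hε)),
      eventually_gt_atTop 0] with n h1 h2 h3
    rw [div_lt_iff₀ (by exact_mod_cast h3)] at h2
    exact (Real.log_le_iff_le_exp h1).1 h2.le
  · intro ε hε
    filter_upwards [h0, h.eventually (lt_mem_nhds (sub_lt_self l hε)),
      eventually_gt_atTop 0] with n h1 h2 h3
    rw [lt_div_iff₀ (by exact_mod_cast h3)] at h2
    exact (Real.le_log_iff_exp_le h1).1 h2.le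

lemma osel_tendsto {f : ℕ → ℝ} {l : ℝ} (h1 : OselUp f l) (h2 : OselLo f l) :
    Tendsto (fun n : ℕ => Real.log (f n) / n) atTop (𝓝 l) := by
  rw [Metric.tendsto_nhds]
  intro ε hε
  filter_upwards [h1 (ε / 2) (by positivity), h2 (ε / 2) (by positivity), eventually_gt_atTop 0]
    with n a1 a2 a3
  have a4 : (0 : ℝ) < n := by exact_mod_cast a3
  have a5 : 0 < f n := (Real.exp_pos _).trans_le a2
  have b1 := (div_le_iff₀ a4).2 ((Real.log_le_iff_le_exp a5).2 a1)
  have b2 := (le_div_iff₀ a4).2 ((Real.le_log_iff_exp_le a5).2 a2)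
  rw [Real.dist_eq, abs_lt]
  constructor <;> linarith only [hε, b2, b1]

lemma osel_const (C : ℝ) {ε : ℝ} (hε : 0 < ε) : ∀ᶠ n : ℕ in atTop, C ≤ Real.exp (ε * n) :=
  (Real.tendsto_exp_atTop.comp (tendsto_natCast_atTop_atTop.const_mul_atTop hε)).eventually_ge_atTop C

lemma OselUp.of_mul {f g k : ℕ → ℝ} {a b : ℝ} (C : ℝ) (hg : OselLo g a) (hk : OselUp k (a + b))
    (h : ∀ᶠ n in atTop, 0 ≤ k n ∧ 0 ≤ f n ∧ g n * f n ≤ C * k n) : OselUp f b := by
  intro ε hε
  filter_upwards [hg (ε / 3) (by positivity), hk (ε / 3) (by positivity),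
    osel_const C (ε := ε / 3) (by positivity), h] with n a1 a2 a3 ⟨a4, a5, a6⟩
  have b1 := (mul_le_mul_of_nonneg_right a1 a5).trans
    (a6.trans (mul_le_mul a3 a2 a4 (Real.exp_pos _).le))
  rw [← le_div_iff₀' (Real.exp_pos _), ← Real.exp_add, ← Real.exp_sub] at b1
  exact b1.trans_eq (congrArg _ (by ring))

lemma OselLo.of_mul {f g k : ℕ → ℝ} {a b : ℝ} (C : ℝ) (hg : OselUp g a) (hk : OselLo k (a + b))
    (h : ∀ᶠ n in atTop, 0 ≤ g n ∧ 0 ≤ f n ∧ k n ≤ C * g n * f n) : OselLo f b := by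
  intro ε hε
  filter_upwards [hg (ε / 3) (by positivity), hk (ε / 3) (by positivity),
    osel_const C (ε := ε / 3) (by positivity), h] with n a1 a2 a3 ⟨a4, a5, a6⟩
  have b1 := a2.trans (a6.trans (mul_le_mul_of_nonneg_right
    (mul_le_mul a3 a1 a4 (Real.exp_pos _).le) a5))
  rw [← div_le_iff₀' (by positivity), ← Real.exp_add, ← Real.exp_sub] at b1
  exact le_of_eq_of_le (congrArg _ (by ring)) b1

lemma oselLo_one : OselLo (fun _ => 1) 0 := fun ε hε => Eventually.of_forall fun n =>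
  Real.exp_le_one_iff.2 (by linarith only [hε, Nat.cast_nonneg (α := ℝ) n, mul_nonneg_of_nonpos_of_nonpos (Mathlib.Tactic.Linarith.sub_nonpos_of_le (Mathlib.Tactic.Linarith.natCast_nonneg ℝ n)) (le_of_lt (Mathlib.Tactic.Linarith.sub_neg_of_lt hε))])

lemma oselUp_one : OselUp (fun _ => 1) 0 := fun ε hε => Eventually.of_forall fun n =>
  Real.one_le_exp (by linarith only [hε, Nat.cast_nonneg (α := ℝ) n, mul_nonneg_of_nonpos_of_nonpos (Mathlib.Tactic.Linarith.sub_nonpos_of_le (Mathlib.Tactic.Linarith.natCast_nonneg ℝ n)) (le_of_lt (Mathlib.Tactic.Linarith.sub_neg_of_lt hε))])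

lemma OselUp.mul {f g : ℕ → ℝ} {a b : ℝ} (hf : OselUp f a) (hg : OselUp g b) (h0 : ∀ n, 0 ≤ g n) :
    OselUp (fun n => f n * g n) (a + b) := by
  intro ε hε
  filter_upwards [hf (ε / 2) (by positivity), hg (ε / 2) (by positivity)] with n a1 a2
  refine (mul_le_mul a1 a2 (h0 n) (Real.exp_pos _).le).trans_eq ?_
  rw [← Real.exp_add]; congr 1; ring

lemma OselUp.add {f g : ℕ → ℝ} {a : ℝ} (hf : OselUp f a) (hg : OselUp g a) :
    OselUp (fun n => f n + g n) a := by
  intro ε hε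
  filter_upwards [hf (ε / 2) (by positivity), hg (ε / 2) (by positivity),
    osel_const 2 (ε := ε / 2) (by positivity)] with n a1 a2 a3
  have := mul_le_mul_of_nonneg_right a3 (Real.exp_pos ((a + ε / 2) * n)).le
  rw [← Real.exp_add, show ε / 2 * n + (a + ε / 2) * n = (a + ε) * n by ring] at this
  linarith only [a1, a2, this]

lemma OselLo.succ {f : ℕ → ℝ} {a : ℝ} (hf : OselLo f a) : OselLo (fun n => f (n + 1)) a := by
  intro ε hε
  filter_upwards [(tendsto_add_atTop_nat 1).eventually (hf (ε / 2) (by positivity)),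
    osel_const (Real.exp (ε / 2 - a)) (ε := ε / 2) (by positivity)] with n a1 a2
  refine le_trans (Real.exp_le_exp.2 ?_) a1
  have := Real.exp_le_exp.1 a2
  push_cast
  linarith only [this]

/-- directions which move slowly converge -/
lemma osel_limit {s : ℕ → P2} (hs : ∀ n, ‖s n‖ = 1) {κ : ℝ} (hκ : κ < 0)
    (h : OselUp (fun n => |oselW (s n) (s (n + 1))|) κ) :
    ∃ t : P2, ‖t‖ = 1 ∧ OselUp (fun n => |oselW (s n) t|) κ := by
  obtain ⟨t, ht, φ, hφ, hlim⟩ := (isCompact_sphere (0 : P2) 1).tendsto_subseq (x := s)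
    fun n => by simpa using hs n
  refine ⟨t, by simpa using ht, fun ε hε => ?_⟩
  obtain ⟨δ, hδ0, hδ1, hδ2⟩ : ∃ δ, 0 < δ ∧ δ ≤ ε / 2 ∧ κ + δ < 0 :=
    ⟨min (ε / 2) (-κ / 2), lt_min (by positivity) (by linarith only [hκ]), min_le_left _ _, by
      linarith only [hκ, min_le_right (ε / 2) (-κ / 2)]⟩
  obtain ⟨N, hN⟩ := eventually_atTop.1 (h δ hδ0)
  set q := Real.exp (κ + δ) with hq
  have q0 : 0 < q := Real.exp_pos _
  have q1 : 0 < 1 - q := sub_pos.2 (Real.exp_lt_one_iff.2 hδ2)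
  have eq : ∀ n : ℕ, Real.exp ((κ + δ) * n) = q ^ n := fun n => by
    rw [mul_comm, Real.exp_nat_mul]
  filter_upwards [eventually_ge_atTop N, osel_const (1 - q)⁻¹ (ε := ε / 2) (by positivity)]
    with n hn hc
  have h1 : ∀ k, n ≤ k → |oselW (s n) (s k)| ≤ (1 - q)⁻¹ * (q ^ n - q ^ k) := by
    intro k hk
    induction k, hk using Nat.le_induction with
    | base => simp [oselW, mul_comm]
    | succ k hk ih =>
      have a1 := osel_tri' (s n) (s k) (s (k + 1))
      have a2 := hN k (hn.trans hk)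
      rw [hs, hs, hs] at a1
      rw [eq] at a2
      have a3 : (1 - q)⁻¹ * (q ^ n - q ^ (k + 1)) = (1 - q)⁻¹ * (q ^ n - q ^ k) + q ^ k := by
        field_simp; ring
      linarith only [ih, a1, a2, a3]
  have h2 : |oselW (s n) t| ≤ (1 - q)⁻¹ * q ^ n := by
    have hc : Continuous fun x : P2 => |oselW (s n) x| := by unfold oselW; fun_prop
    refine le_of_tendsto ((hc.tendsto t).comp hlim) ?_
    filter_upwards [eventually_ge_atTop n] with k hk
    refine (h1 (φ k) (hk.trans (hφ.id_le k))).trans ?_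
    exact mul_le_mul_of_nonneg_left (sub_le_self _ (by positivity)) (by positivity)
  refine h2.trans ((mul_le_mul_of_nonneg_right hc (by positivity)).trans ?_)
  rw [← eq, ← Real.exp_add]
  exact Real.exp_le_exp.2 (by linarith only [hδ1, Nat.cast_nonneg (α := ℝ) n, mul_nonneg_of_nonpos_of_nonpos (Mathlib.Tactic.Linarith.sub_nonpos_of_le (Mathlib.Tactic.Linarith.natCast_nonneg ℝ n)) (Mathlib.Tactic.Linarith.sub_nonpos_of_le hδ1)])

theorem oseledets_seq {A : ℕ → P2 →L[ℝ] P2} {L l1 l2 : ℝ}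
    (hL : ∀ n v, ‖A (n + 1) v‖ ≤ L * ‖A n v‖) (hd : ∀ᶠ n in atTop, (A n).det ≠ 0)
    (h1 : Tendsto (fun n : ℕ => Real.log ‖A n‖ / n) atTop (𝓝 l1))
    (h2 : Tendsto (fun n : ℕ => Real.log |(A n).det| / n) atTop (𝓝 (l1 + l2))) :
    l2 ≤ l1 ∧ ∃ s : P2, s ≠ 0 ∧ Tendsto (fun n : ℕ => Real.log ‖A n s‖ / n) atTop (𝓝 l2) ∧
      ∀ v : P2, (∀ c : ℝ, v ≠ c • s) →
        Tendsto (fun n : ℕ => Real.log ‖A n v‖ / n) atTop (𝓝 l1) := by
  have hA : ∀ᶠ n in atTop, 0 < ‖A n‖ := hd.mono fun n hn => norm_pos_iff.2 fun h => hn (by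
    rw [det_eq, h]; simp)
  obtain ⟨aU, aL⟩ := osel_of_tendsto hA h1
  obtain ⟨dU, dL⟩ := osel_of_tendsto (hd.mono fun n hn => abs_pos.2 hn) h2
  have up : ∀ v, OselUp (fun n => ‖A n v‖) l1 := fun v =>
    OselUp.of_mul ‖v‖ oselLo_one (by rwa [zero_add]) (Eventually.of_forall fun n =>
      ⟨norm_nonneg _, norm_nonneg _, by rw [one_mul, mul_comm]; exact (A n).le_opNorm v⟩)
  have lo : ∀ v, v ≠ 0 → OselLo (fun n => ‖A n v‖) l2 := fun v hv =>
    OselLo.of_mul (2 / ‖v‖) aU dL (Eventually.of_forall fun n => ⟨norm_nonneg _, norm_nonneg _, by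
      rw [div_mul_eq_mul_div, div_mul_eq_mul_div, le_div_iff₀ (norm_pos_iff.2 hv)]
      exact osel_adj (A n) v⟩)
  have e0 : ((1, 0) : P2) ≠ 0 := by simp
  have hle : l2 ≤ l1 := by
    refine le_of_forall_pos_le_add fun ε hε => ?_
    obtain ⟨n, ⟨a1, a2⟩, a3⟩ := (((up (1, 0) (ε / 2) (by positivity)).and
      (lo _ e0 (ε / 2) (by positivity))).and (eventually_gt_atTop 0)).exists
    have := le_of_mul_le_mul_right (Real.exp_le_exp.1 (a2.trans a1)) (by exact_mod_cast a3)
    linarith only [this]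
  refine ⟨hle, ?_⟩
  rcases hle.eq_or_lt with rfl | hlt
  · exact ⟨(1, 0), e0, osel_tendsto (up _) (lo _ e0), fun v hv =>
      osel_tendsto (up v) (lo v (by simpa using hv 0))⟩
  choose s hs hs' using fun n => osel_dir (A n)
  have c1 : OselUp (fun n => ‖A n (s n)‖) l2 :=
    OselUp.of_mul 2 aL dU (hd.mono fun n hn => ⟨abs_nonneg _, norm_nonneg _, (hs' n hn).1⟩)
  have c2 : OselUp (fun n => |oselW (s n) (s (n + 1))|) (l2 - l1) :=
    OselUp.of_mul (2 * L) aL.succ (by rwa [add_sub_cancel])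
      (((tendsto_add_atTop_nat 1).eventually hd).mono fun n hn => ⟨norm_nonneg _, abs_nonneg _, by
        have a1 := (hs' _ hn).2 (s n)
        rw [osel_symm] at a1
        linarith [hL n (s n)]⟩)
  obtain ⟨t, ht, c3⟩ := osel_limit hs (sub_neg.2 hlt) c2
  have t0 : t ≠ 0 := by rintro rfl; simp at ht
  refine ⟨t, t0, osel_tendsto ?_ (lo t t0), fun v hv => osel_tendsto (up v) ?_⟩
  · have c4 := c1.add (by simpa using c3.mul aU fun n => norm_nonneg _)
    refine OselUp.of_mul 1 oselLo_one (by rwa [zero_add]) (Eventually.of_forall fun n =>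
      ⟨by positivity, norm_nonneg _, ?_⟩)
    obtain ⟨e, a1, a2, a3⟩ := osel_norm (s n)
    have a4 := osel_tri (A n) (s n) t e
    have a5 := (A n).le_opNorm e
    have a6 := a3 t
    rw [a2, hs] at a4
    rw [a1, mul_one] at a5
    rw [ht] at a6
    have a7 := mul_le_mul_of_nonneg_left a5 (abs_nonneg (oselW (s n) t))
    have a8 := mul_le_mul_of_nonneg_right a6 (norm_nonneg (A n (s n)))
    linarith only [a4, a7, a8]
  · have w0 : 0 < |oselW t v| := abs_pos.2 fun h => by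
      obtain ⟨e, -, a2, -⟩ := osel_norm t
      have a3 := osel_pl t v e
      have a4 : oselW t e ≠ 0 := fun h => by rw [h, ht] at a2; simp at a2
      rw [h, zero_smul, zero_add] at a3
      exact hv ((oselW t e)⁻¹ * oselW v e) (by rw [mul_smul, ← a3, inv_smul_smul₀ a4])
    have c4 : OselUp (fun n => |oselW (s n) t|) (l2 - l1) := c3
    refine OselLo.of_mul (4 / |oselW t v|) oselUp_one (by rwa [zero_add]) ?_
    filter_upwards [hd, c4 ((l1 - l2) / 2) (by linarith),
      osel_const (2 * ‖v‖ / |oselW t v|) (ε := (l1 - l2) / 2) (by linarith)] with n hn a1 a2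
    refine ⟨zero_le_one, norm_nonneg _, ?_⟩
    have a3 := (hs' n hn).2 v
    have a4 := osel_tri' t (s n) v
    rw [hs, ht, osel_symm t (s n)] at a4
    have a5 := mul_le_mul a1 a2 (by positivity) (Real.exp_pos _).le
    rw [← Real.exp_add, show (l2 - l1 + (l1 - l2) / 2) * n + (l1 - l2) / 2 * n = 0 by ring,
      Real.exp_zero, ← mul_div_assoc, div_le_one w0] at a5
    rw [mul_one, div_mul_eq_mul_div, le_div_iff₀ w0]
    have a6 := mul_le_mul_of_nonneg_left (show |oselW t v| ≤ 2 * |oselW (s n) v| by linarith only [a4, a5])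
      (norm_nonneg (A n))
    linarith only [a3, a6]

end Pool.Agent.Work.MP_14af4f_an
end
end

-- merged part: Pool.Agent.Work.MP_14af4f_an.TwoPos
section
-- merged part: Pool.Agent.Work.MP_14af4f_an.GoodDef
section
/-!
Uniform exponential growth of all tangent vectors along almost every orbit.
-/

open Set Filter MeasureTheory

namespace Pool.Agent.Work.MP_14af4f_an

/-- `f` has a compactly supported ergodic absolutely continuous invariant probability measure
along almost every orbit of which every tangent vector grows exponentially. -/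
def Good (f : P2 → P2) : Prop :=
  ∃ μ : Measure P2, IsProbabilityMeasure μ ∧ μ ≪ volume ∧ Ergodic f μ ∧
    (∃ K : Set P2, IsCompact K ∧ μ Kᶜ = 0) ∧
    ∃ χ : ℝ, 0 < χ ∧ ∀ᵐ z ∂μ, ∀ᶠ n : ℕ in atTop, ∀ v : P2,
      Real.exp (χ * n) * ‖v‖ ≤ ‖fderiv ℝ f^[n] z v‖

end Pool.Agent.Work.MP_14af4f_an
end

-- merged part: Pool.Agent.Work.MP_14af4f_an.Branch
section
/-!
Hyperbolic times, inverse branches and the bound of the density.
-/

open Set Filter Topology MeasureTheory
open scoped ENNReal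

namespace Pool.Agent.Work.MP_14af4f_an

noncomputable section

/-- The loss of expansion together with the recurrence to the critical set. -/
def Bf (F : P2 → P2) (d : ℕ) (J t0 : ℝ) (z : P2) : ℝ≥0∞ :=
  LL J (jac F z) + ENNReal.ofReal (8 * Real.log (J / (2 * d))) * LL t0 (jac F z)

/-- Hyperbolic times. -/
def HT (F : P2 → P2) (d : ℕ) (J t0 : ℝ) (n : ℕ) (z : P2) : Prop :=
  ∀ k < n, ∑ i ∈ Finset.Ico k n, Bf F d J t0 (F^[i] z) ≤
    ENNReal.ofReal ((Real.log (J / (2 * d)) - 1 / 2) * (n - k : ℕ))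

/-- The dynamical ball. -/
def dyn (F : P2 → P2) (r : ℝ) (n : ℕ) (x : P2) : Set P2 :=
  {p | ∀ k ≤ n, ‖F^[k] p - F^[k] x‖ ≤ r * Real.exp (-((n - k : ℕ) : ℝ) / 4)}

variable {F : P2 → P2} {d : ℕ} {h ρ δ K J t0 ρ0 : ℝ}

lemma Branch_jac_ne {n : ℕ} {x : P2} (hn : HT F d J t0 n x) {k : ℕ} (hk : k < n) :
    jac F (F^[k] x) ≠ 0 := by
  intro h0
  have h1 := hn k hk
  have h2 : Bf F d J t0 (F^[k] x) ≤ ∑ i ∈ Finset.Ico k n, Bf F d J t0 (F^[i] x) :=
    Finset.single_le_sum (f := fun i => Bf F d J t0 (F^[i] x)) (fun _ _ => zero_le)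
      (Finset.mem_Ico.2 ⟨le_rfl, hk⟩)
  have h3 : Bf F d J t0 (F^[k] x) = ⊤ := by
    simp [Bf, LL, h0]
  rw [h3] at h2
  exact absurd (h2.trans h1) (by simp)

lemma HT.prod_le (H : Hyp F d h ρ δ K J t0 ρ0) {n : ℕ} {x : P2} (hx : x ∈ strip h)
    (hn : HT F d J t0 n x) {k : ℕ} (hk : k < n) :
    (2 * d) ^ (n - k) * Real.exp (((n - k : ℕ) : ℝ) / 2) ≤
        ∏ i ∈ Finset.Ico k n, |jac F (F^[i] x)| ∧
      t0 * Real.exp (-((n - k : ℕ) : ℝ) / 8) ≤ |jac F (F^[k] x)| := by
  have hA := H.A_ge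
  have hd : (0 : ℝ) < 2 * d := by
    have : (2 : ℝ) ≤ d := by exact_mod_cast H.d2
    linarith only [this]
  have hJ := H.J_pos
  set A := Real.log (J / (2 * d)) with hAdef
  have hne : ∀ i ∈ Finset.Ico k n, jac F (F^[i] x) ≠ 0 := fun i hi =>
    Branch_jac_ne hn (Finset.mem_Ico.1 hi).2
  have hm : (0 : ℝ) ≤ ((n - k : ℕ) : ℝ) := Nat.cast_nonneg _
  have hrhs : 0 ≤ (A - 1 / 2) * ((n - k : ℕ) : ℝ) := mul_nonneg (by linarith only [hA]) hm
  constructor
  · have hmem : ∀ i, F^[i] x ∈ strip h := fun i => H.mapsTo'.iterate i hx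
    have hlog : ∀ i ∈ Finset.Ico k n, 0 ≤ Real.log (J / |jac F (F^[i] x)|) := by
      intro i hi
      apply Real.log_nonneg
      rw [le_div_iff₀ (abs_pos.2 (hne i hi))]
      simpa using H.jac_le _ (hmem i)
    have h1 : ENNReal.ofReal (∑ i ∈ Finset.Ico k n, Real.log (J / |jac F (F^[i] x)|)) ≤
        ENNReal.ofReal ((A - 1 / 2) * ((n - k : ℕ) : ℝ)) := by
      rw [ENNReal.ofReal_sum_of_nonneg hlog]
      refine le_trans (Finset.sum_le_sum fun i hi => ?_) (hn k hk)
      have : LL J (jac F (F^[i] x)) = ENNReal.ofReal (Real.log (J / |jac F (F^[i] x)|)) := by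
        simp [LL, hne i hi]
      rw [← this]
      exact le_self_add
    rw [ENNReal.ofReal_le_ofReal_iff hrhs] at h1
    have hpos : ∀ i ∈ Finset.Ico k n, 0 < |jac F (F^[i] x)| := fun i hi => abs_pos.2 (hne i hi)
    have hP : 0 < ∏ i ∈ Finset.Ico k n, |jac F (F^[i] x)| := Finset.prod_pos hpos
    have h2 : ∑ i ∈ Finset.Ico k n, Real.log (J / |jac F (F^[i] x)|) =
        ((n - k : ℕ) : ℝ) * Real.log J - Real.log (∏ i ∈ Finset.Ico k n, |jac F (F^[i] x)|) := by
      rw [Real.log_prod (fun i hi => (hpos i hi).ne'),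
        Finset.sum_congr rfl (fun i hi => Real.log_div hJ.ne' (hpos i hi).ne'),
        Finset.sum_sub_distrib]
      simp
    have h3 : A = Real.log J - Real.log (2 * d) := by
      rw [hAdef, Real.log_div hJ.ne' hd.ne']
    rw [← Real.log_le_log_iff (by positivity) hP, Real.log_mul (by positivity) (by positivity),
      Real.log_pow, Real.log_exp]
    rw [h2, h3] at h1
    linarith only [h1]
  · have h1 := hn k hk
    have h2 : Bf F d J t0 (F^[k] x) ≤ ∑ i ∈ Finset.Ico k n, Bf F d J t0 (F^[i] x) :=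
      Finset.single_le_sum (f := fun i => Bf F d J t0 (F^[i] x)) (fun _ _ => zero_le)
        (Finset.mem_Ico.2 ⟨le_rfl, hk⟩)
    have hk0 := Branch_jac_ne hn hk
    have h3 : ENNReal.ofReal (8 * A) * ENNReal.ofReal (Real.log (t0 / |jac F (F^[k] x)|)) ≤
        ENNReal.ofReal ((A - 1 / 2) * ((n - k : ℕ) : ℝ)) := by
      refine le_trans ?_ (h2.trans h1)
      have : LL t0 (jac F (F^[k] x)) = ENNReal.ofReal (Real.log (t0 / |jac F (F^[k] x)|)) := by
        simp [LL, hk0]
      rw [← this]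
      exact le_add_self
    rw [← ENNReal.ofReal_mul (by linarith only [hA]), ENNReal.ofReal_le_ofReal_iff hrhs] at h3
    have hp : 0 < |jac F (F^[k] x)| := abs_pos.2 hk0
    have h4 : Real.log (t0 / |jac F (F^[k] x)|) ≤ ((n - k : ℕ) : ℝ) / 8 := by
      by_contra hc
      push Not at hc
      linarith only [h3, hc, hA, mul_nonneg_of_nonpos_of_nonpos (Mathlib.Tactic.Linarith.sub_nonpos_of_le hA) (le_of_lt (Mathlib.Tactic.Linarith.sub_neg_of_lt hc))]
    rw [Real.log_div H.t0_pos.ne' hp.ne'] at h4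
    rw [← Real.log_le_log_iff (mul_pos H.t0_pos (Real.exp_pos _)) hp,
      Real.log_mul H.t0_pos.ne' (Real.exp_pos _).ne', Real.log_exp]
    linarith only [h4]

/-- Approximation by the derivative on a small ball. -/
lemma Branch_approx (H : Hyp F d h ρ δ K J t0 ρ0) {x : P2} (hx : x ∈ strip (h - ρ)) {ε : ℝ}
    (hε : ε ≤ ρ) {a b : P2} (ha : a ∈ Metric.closedBall x ε) (hb : b ∈ Metric.closedBall x ε) :
    ‖F a - F b - fderiv ℝ F x (a - b)‖ ≤ K * ε * ‖a - b‖ := by
  have hsub : Metric.closedBall x ε ⊆ strip h := by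
    intro p hp
    have h1 : |p.2 - x.2| ≤ ε := by
      have := norm_snd_le (p - x)
      rw [mem_closedBall_iff_norm] at hp
      simpa using this.trans hp
    have h2 : |x.2| ≤ h - ρ := hx
    have h3 := abs_sub_abs_le_abs_sub p.2 x.2
    show |p.2| ≤ h
    linarith only [hε, h1, h2, h3]
  have hxs : x ∈ strip h := strip_mono (by linarith [H.ρ_pos]) hx
  refine Convex.norm_image_sub_le_of_norm_fderiv_le' (𝕜 := ℝ) (s := Metric.closedBall x ε)
    (fun p hp => H.diff p (hsub hp)) (fun p hp => ?_) (convex_closedBall x ε) hb ha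
  refine (H.lip p (hsub hp) x hxs).trans ?_
  exact mul_le_mul_of_nonneg_left (mem_closedBall_iff_norm.1 hp) H.K_nonneg

lemma Branch_ball_subset {x : P2} (hx : x ∈ strip (h - ρ)) {ε : ℝ} (hε : ε ≤ ρ) :
    Metric.closedBall x ε ⊆ strip h := by
  intro p hp
  have h1 : |p.2 - x.2| ≤ ε := by
    have := norm_snd_le (p - x)
    rw [mem_closedBall_iff_norm] at hp
    simpa using this.trans hp
  have h2 : |x.2| ≤ h - ρ := hx
  have h3 := abs_sub_abs_le_abs_sub p.2 x.2
  show |p.2| ≤ h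
  linarith

/-- Expansion on a small ball. -/
lemma Branch_expand (H : Hyp F d h ρ δ K J t0 ρ0) {x : P2} (hx : x ∈ strip (h - ρ)) {ε θ : ℝ}
    (hε : ε ≤ ρ) (hθ : K * ε ≤ (1 - θ) * (|jac F x| / (2 * d))) {a b : P2}
    (ha : a ∈ Metric.closedBall x ε) (hb : b ∈ Metric.closedBall x ε) :
    θ * (|jac F x| / (2 * d)) * ‖a - b‖ ≤ ‖F a - F b‖ := by
  have hd : (0 : ℝ) < 2 * d := by
    have : (2 : ℝ) ≤ d := by exact_mod_cast H.d2
    linarith only [this]
  have hxs : x ∈ strip h := strip_mono (by linarith [H.ρ_pos]) hx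
  have h1 := Branch_approx H hx hε ha hb
  have h2 := H.jac_mul_le hxs (a - b)
  have h3 : |jac F x| / (2 * d) * ‖a - b‖ ≤ ‖fderiv ℝ F x (a - b)‖ := by
    rw [div_mul_eq_mul_div, div_le_iff₀ hd]
    linarith
  have h4 : ‖fderiv ℝ F x (a - b)‖ ≤ ‖F a - F b‖ + ‖F a - F b - fderiv ℝ F x (a - b)‖ := by
    have := norm_sub_le (F a - F b) (F a - F b - fderiv ℝ F x (a - b))
    simpa using this
  have h5 := mul_le_mul_of_nonneg_right hθ (norm_nonneg (a - b))
  linarith only [h1, h3, h4, h5]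

/-- Local surjectivity on a small ball. -/
lemma Branch_surj (H : Hyp F d h ρ δ K J t0 ρ0) {x : P2} (hx : x ∈ strip (h - ρ)) {ε θ : ℝ}
    (hε0 : 0 ≤ ε) (hε : ε ≤ ρ) (hj : jac F x ≠ 0)
    (hθ : K * ε ≤ (1 - θ) * (|jac F x| / (2 * d))) :
    SurjOn F (Metric.closedBall x ε)
      (Metric.closedBall (F x) (θ * (|jac F x| / (2 * d)) * ε)) := by
  have hd : (0 : ℝ) < 2 * d := by
    have : (2 : ℝ) ≤ d := by exact_mod_cast H.d2
    linarith only [this]
  have hxs : x ∈ strip h := strip_mono (by linarith [H.ρ_pos]) hx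
  have hp : 0 < |jac F x| := abs_pos.2 hj
  have hinj : Function.Injective (fderiv ℝ F x) := by
    rw [injective_iff_map_eq_zero]
    intro v hv
    have := H.jac_mul_le hxs v
    rw [hv, norm_zero, mul_zero] at this
    have h2 : ‖v‖ ≤ 0 := by
      by_contra hc
      push Not at hc
      linarith only [this, hp, hc, mul_pos hp hc]
    exact norm_le_zero_iff.1 h2
  have hsurj : Function.Surjective (fderiv ℝ F x) :=
    (LinearMap.injective_iff_surjective (f := (fderiv ℝ F x : P2 →ₗ[ℝ] P2))).1 hinj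
  let N : (fderiv ℝ F x).NonlinearRightInverse :=
    { toFun := fun y => (hsurj y).choose
      nnnorm := ⟨2 * d / |jac F x|, by positivity⟩
      bound' := fun y => by
        have := H.jac_mul_le hxs (hsurj y).choose
        rw [(hsurj y).choose_spec] at this
        show ‖(hsurj y).choose‖ ≤ 2 * d / |jac F x| * ‖y‖
        rw [div_mul_eq_mul_div, le_div_iff₀ hp]
        linarith only [hsurj, this]
      right_inv' := fun y => (hsurj y).choose_spec }
  have hap : ApproximatesLinearOn F (fderiv ℝ F x) (Metric.closedBall x ε)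
      ⟨K * ε, mul_nonneg H.K_nonneg hε0⟩ := fun a ha b hb => Branch_approx H hx hε ha hb
  have hs := hap.surjOn_closedBall_of_nonlinearRightInverse N hε0 (Subset.refl _)
  refine hs.mono (Subset.refl _) (Metric.closedBall_subset_closedBall ?_)
  refine mul_le_mul_of_nonneg_right ?_ hε0
  show θ * (|jac F x| / (2 * d)) ≤ (2 * d / |jac F x|)⁻¹ - K * ε
  rw [inv_div]
  linarith only [hθ]

lemma Branch_sum_exp (n : ℕ) :
    ∑ k ∈ Finset.range n, Real.exp (-((n - k : ℕ) : ℝ) / 8) ≤ 8 := by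
  have key : ∀ n : ℕ, ∑ k ∈ Finset.range n, Real.exp (-((k + 1 : ℕ) : ℝ) / 8) ≤
      8 - 8 * Real.exp (-(n : ℝ) / 8) := by
    intro n
    induction n with
    | zero => simp
    | succ n ih =>
      rw [Finset.sum_range_succ]
      have h1 : Real.exp (-(n : ℝ) / 8) =
          Real.exp (-((n + 1 : ℕ) : ℝ) / 8) * Real.exp (1 / 8) := by
        rw [← Real.exp_add]
        congr 1
        push_cast
        ring
      have h2 : 1 / 8 + 1 ≤ Real.exp (1 / 8) := Real.add_one_le_exp _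
      have h3 := Real.exp_pos (-((n + 1 : ℕ) : ℝ) / 8)
      linarith only [ih, h1, h2, h3, mul_nonneg_of_nonpos_of_nonpos (Mathlib.Tactic.Linarith.sub_nonpos_of_le h2) (le_of_lt (Mathlib.Tactic.Linarith.sub_neg_of_lt h3))]
  have h1 : ∑ k ∈ Finset.range n, Real.exp (-((n - k : ℕ) : ℝ) / 8) =
      ∑ k ∈ Finset.range n, Real.exp (-((k + 1 : ℕ) : ℝ) / 8) := by
    rw [← Finset.sum_range_reflect]
    refine Finset.sum_congr rfl fun k hk => ?_
    have := Finset.mem_range.1 hk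
    have h2 : n - (n - 1 - k) = k + 1 := by omega
    rw [h2]
  rw [h1]
  have := key n
  have h3 := Real.exp_pos (-(n : ℝ) / 8)
  linarith only [this, h3]

/-- Products of close numbers are comparable. -/
lemma Branch_prod (a b η : ℕ → ℝ) (n : ℕ) (hη : ∀ k < n, 0 ≤ η k)
    (hab : ∀ k < n, |b k - a k| ≤ η k * |a k|) (hs : ∑ k ∈ Finset.range n, η k ≤ 1 / 2) :
    (1 - ∑ k ∈ Finset.range n, η k) * |∏ k ∈ Finset.range n, a k| ≤
        |∏ k ∈ Finset.range n, b k| ∧
      (1 - ∑ k ∈ Finset.range n, η k) * |∏ k ∈ Finset.range n, b k| ≤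
        |∏ k ∈ Finset.range n, a k| := by
  induction n with
  | zero => simp
  | succ n ih =>
    rw [Finset.sum_range_succ] at hs ⊢
    have hn := hη n (Nat.lt_succ_self n)
    have hS : 0 ≤ ∑ k ∈ Finset.range n, η k :=
      Finset.sum_nonneg fun k hk => hη k (Nat.lt_succ_of_lt (Finset.mem_range.1 hk))
    obtain ⟨i1, i2⟩ := ih (fun k hk => hη k (Nat.lt_succ_of_lt hk))
      (fun k hk => hab k (Nat.lt_succ_of_lt hk)) (by linarith only [hs, hn])
    rw [Finset.prod_range_succ, Finset.prod_range_succ, abs_mul, abs_mul]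
    set S := ∑ k ∈ Finset.range n, η k
    set P := |∏ k ∈ Finset.range n, a k|
    set Q := |∏ k ∈ Finset.range n, b k|
    have hP : 0 ≤ P := abs_nonneg _
    have hQ : 0 ≤ Q := abs_nonneg _
    have h1 := hab n (Nat.lt_succ_self n)
    have h2 := abs_sub_abs_le_abs_sub (b n) (a n)
    have h3 := abs_sub_abs_le_abs_sub (a n) (b n)
    rw [abs_sub_comm] at h3
    have ha := abs_nonneg (a n)
    have hb := abs_nonneg (b n)
    have e1 : (1 - η n) * |a n| ≤ |b n| := by linarith only [h1, h3]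
    have e2 : |b n| ≤ (1 + η n) * |a n| := by linarith only [h1, h2]
    constructor
    · calc (1 - (S + η n)) * (P * |a n|) ≤ ((1 - S) * (1 - η n)) * (P * |a n|) := by
            apply mul_le_mul_of_nonneg_right _ (mul_nonneg hP ha)
            linarith only [hn, hS, mul_nonneg_of_nonpos_of_nonpos (Mathlib.Tactic.Linarith.sub_nonpos_of_le hn) (Mathlib.Tactic.Linarith.sub_nonpos_of_le hS)]
        _ = ((1 - S) * P) * ((1 - η n) * |a n|) := by ring
        _ ≤ Q * |b n| := by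
            apply mul_le_mul i1 e1 (mul_nonneg (by linarith only [hs, hS]) ha) hQ
    · calc (1 - (S + η n)) * (Q * |b n|) ≤ (1 - (S + η n)) * (Q * ((1 + η n) * |a n|)) := by
            apply mul_le_mul_of_nonneg_left _ (by linarith only [hs])
            exact mul_le_mul_of_nonneg_left e2 hQ
        _ = ((1 - (S + η n)) * (1 + η n)) * (Q * |a n|) := by ring
        _ ≤ (1 - S) * (Q * |a n|) := by
            apply mul_le_mul_of_nonneg_right _ (mul_nonneg hQ ha)
            linarith only [hn, hS, mul_nonneg_of_nonpos_of_nonpos (Mathlib.Tactic.Linarith.sub_nonpos_of_le hn) (Mathlib.Tactic.Linarith.sub_nonpos_of_le hn), mul_nonneg_of_nonpos_of_nonpos (Mathlib.Tactic.Linarith.sub_nonpos_of_le hn) (Mathlib.Tactic.Linarith.sub_nonpos_of_le hS)]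
        _ = ((1 - S) * Q) * |a n| := by ring
        _ ≤ P * |a n| := mul_le_mul_of_nonneg_right i2 ha

/-- The inverse branch at a hyperbolic time. -/
lemma Hyp.branch (H : Hyp F d h ρ δ K J t0 ρ0) :
    ∃ r, 0 < r ∧ r ≤ 1 ∧ r ≤ ρ ∧ ∀ n, ∀ x ∈ strip (h - ρ), HT F d J t0 n x →
      (∀ p ∈ dyn F r n x, ∀ q ∈ dyn F r n x, ∀ k ≤ n, ‖F^[k] p - F^[k] q‖ ≤
        Real.exp (-((n - k : ℕ) : ℝ) / 4) * ‖F^[n] p - F^[n] q‖) ∧
      SurjOn F^[n] (dyn F r n x) (Metric.closedBall (F^[n] x) r) ∧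
      jac F^[n] x ≠ 0 ∧ ∀ p ∈ dyn F r n x,
        |jac F^[n] x| ≤ 2 * |jac F^[n] p| ∧ |jac F^[n] p| ≤ 2 * |jac F^[n] x| := by
  have hd2 : (2 : ℝ) ≤ d := by exact_mod_cast H.d2
  have hd : (0 : ℝ) < 2 * d := by linarith only [hd2]
  have hK := H.K_nonneg
  have ht := H.t0_pos
  have hρ := H.ρ_pos
  obtain ⟨r, hr0, hr1, hrρ, hrK⟩ : ∃ r : ℝ, 0 < r ∧ r ≤ 1 ∧ r ≤ ρ ∧ 128 * d * K * r ≤ t0 := by
    have hq : 0 < 128 * d * K + 1 := by positivity
    refine ⟨min (min 1 ρ) (t0 / (128 * d * K + 1)), by positivity,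
      (min_le_left _ _).trans (min_le_left _ _), (min_le_left _ _).trans (min_le_right _ _), ?_⟩
    have h1 : min (min 1 ρ) (t0 / (128 * d * K + 1)) ≤ t0 / (128 * d * K + 1) := min_le_right _ _
    have h2 : 0 < min (min 1 ρ) (t0 / (128 * d * K + 1)) := by positivity
    rw [le_div_iff₀ hq] at h1
    linarith only [h1, h2]
  refine ⟨r, hr0, hr1, hrρ, fun n x hx hn => ?_⟩
  have hxs : x ∈ strip h := strip_mono (by linarith) hx
  have hmem : ∀ i, F^[i] x ∈ strip (h - ρ) := fun i =>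
    (H.mapsTo.mono_left (strip_mono (by linarith))).iterate i hx
  set θ := Real.exp (-1 / 4) with hθ
  have hθ0 : 0 < θ := Real.exp_pos _
  have hθ1 : θ ≤ 4 / 5 := by
    have h1 : 1 / 4 + 1 ≤ Real.exp (1 / 4) := Real.add_one_le_exp _
    have h2 : θ * Real.exp (1 / 4) = 1 := by
      rw [hθ, ← Real.exp_add]
      norm_num
    linarith only [h2, hθ0, h1, mul_nonneg_of_nonpos_of_nonpos (le_of_lt (Mathlib.Tactic.Linarith.sub_neg_of_lt hθ0)) (Mathlib.Tactic.Linarith.sub_nonpos_of_le h1)]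
  set R : ℕ → ℝ := fun k => r * Real.exp (-((n - k : ℕ) : ℝ) / 4) with hR
  set c : ℕ → ℝ := fun k => θ * (|jac F (F^[k] x)| / (2 * d)) with hc
  have hexp1 : ∀ k, Real.exp (-((n - k : ℕ) : ℝ) / 4) ≤ 1 := fun k => by
    apply Real.exp_le_one_iff.2
    have : (0 : ℝ) ≤ ((n - k : ℕ) : ℝ) := Nat.cast_nonneg _
    linarith
  have hR0 : ∀ k, 0 ≤ R k := fun k => by positivity
  have hRρ : ∀ k, R k ≤ ρ := fun k => by
    have := mul_le_mul_of_nonneg_left (hexp1 k) hr0.le
    simp only [hR]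
    linarith only [hrρ, this]
  have hsq : ∀ k, Real.exp (-((n - k : ℕ) : ℝ) / 4) =
      Real.exp (-((n - k : ℕ) : ℝ) / 8) * Real.exp (-((n - k : ℕ) : ℝ) / 8) := fun k => by
    rw [← Real.exp_add]
    congr 1
    ring
  have hexp8 : ∀ k, Real.exp (-((n - k : ℕ) : ℝ) / 8) ≤ 1 := fun k => by
    apply Real.exp_le_one_iff.2
    have : (0 : ℝ) ≤ ((n - k : ℕ) : ℝ) := Nat.cast_nonneg _
    linarith
  -- the basic smallness
  have hsmall : ∀ k < n, 128 * d * K * R k ≤
      Real.exp (-((n - k : ℕ) : ℝ) / 8) * |jac F (F^[k] x)| := by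
    intro k hk
    have h1 := (HT.prod_le H hxs hn hk).2
    have h2 := Real.exp_pos (-((n - k : ℕ) : ℝ) / 8)
    calc 128 * d * K * R k = (128 * d * K * r) * Real.exp (-((n - k : ℕ) : ℝ) / 8) *
          Real.exp (-((n - k : ℕ) : ℝ) / 8) := by
          simp only [hR]
          rw [hsq]
          ring
      _ ≤ t0 * Real.exp (-((n - k : ℕ) : ℝ) / 8) * Real.exp (-((n - k : ℕ) : ℝ) / 8) := by
          gcongr
      _ ≤ |jac F (F^[k] x)| * Real.exp (-((n - k : ℕ) : ℝ) / 8) := by gcongr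
      _ = _ := mul_comm _ _
  have hKR : ∀ k < n, ∀ ε, 0 ≤ ε → ε ≤ R k →
      K * ε ≤ (1 - θ) * (|jac F (F^[k] x)| / (2 * d)) := by
    intro k hk ε hε0 hε
    have h1 := hsmall k hk
    have h2 := hexp8 k
    have h3 := abs_nonneg (jac F (F^[k] x))
    have h4 : 128 * d * K * R k ≤ |jac F (F^[k] x)| := by (refine le_of_not_gt fun h_nl => ?_; linarith only [h_nl, h1, hθ0, hθ1, h2, h3, mul_pos_of_neg_of_neg (Mathlib.Tactic.Linarith.sub_neg_of_lt hθ0) (Mathlib.Tactic.Linarith.sub_neg_of_lt h_nl), mul_nonneg_of_nonpos_of_nonpos (Mathlib.Tactic.Linarith.sub_nonpos_of_le hθ1) (le_of_lt (Mathlib.Tactic.Linarith.sub_neg_of_lt h_nl)), mul_nonneg_of_nonpos_of_nonpos (Mathlib.Tactic.Linarith.sub_nonpos_of_le h2) (Mathlib.Tactic.Linarith.sub_nonpos_of_le h3)])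
    have h5 : K * ε ≤ K * R k := mul_le_mul_of_nonneg_left hε hK
    have h6 : 64 * (K * R k) ≤ |jac F (F^[k] x)| / (2 * d) := by
      rw [le_div_iff₀ hd]
      linarith only [h4]
    have h7 : 0 ≤ K * R k := mul_nonneg hK (hR0 k)
    linarith only [h5, h6, h7, hθ1, mul_nonneg_of_nonpos_of_nonpos (Mathlib.Tactic.Linarith.sub_nonpos_of_le hθ1) (Mathlib.Tactic.Linarith.sub_nonpos_of_le h6), mul_nonneg_of_nonpos_of_nonpos (Mathlib.Tactic.Linarith.sub_nonpos_of_le hθ1) (Mathlib.Tactic.Linarith.sub_nonpos_of_le h7)]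
  have hc0 : ∀ k < n, 0 < c k := fun k hk => by
    have := abs_pos.2 (Branch_jac_ne hn hk)
    simp only [hc]
    positivity
  have hcprod : ∀ k ≤ n, Real.exp (((n - k : ℕ) : ℝ) / 4) ≤ ∏ i ∈ Finset.Ico k n, c i := by
    intro k hk
    rcases hk.eq_or_lt with rfl | hk
    · simp
    have h1 := (HT.prod_le H hxs hn hk).1
    simp only [hc]
    rw [Finset.prod_mul_distrib, Finset.prod_div_distrib, Finset.prod_const, Finset.prod_const,
      Nat.card_Ico, ← mul_div_assoc, le_div_iff₀ (by positivity)]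
    have h2 : θ ^ (n - k) * Real.exp (((n - k : ℕ) : ℝ) / 2) =
        Real.exp (((n - k : ℕ) : ℝ) / 4) := by
      rw [hθ, ← Real.exp_nat_mul, ← Real.exp_add]
      congr 1
      ring
    calc Real.exp (((n - k : ℕ) : ℝ) / 4) * (2 * d) ^ (n - k) =
          θ ^ (n - k) * ((2 * d) ^ (n - k) * Real.exp (((n - k : ℕ) : ℝ) / 2)) := by
          rw [← h2]
          ring
      _ ≤ _ := by gcongr
  have hball : ∀ p ∈ dyn F r n x, ∀ k ≤ n, F^[k] p ∈ Metric.closedBall (F^[k] x) (R k) :=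
    fun p hp k hk => mem_closedBall_iff_norm.2 (hp k hk)
  refine ⟨fun p hp q hq k hk => ?_, fun y hy => ?_, ?_, fun p hp => ?_⟩
  · have key : ∀ k ≤ n, (∏ i ∈ Finset.Ico k n, c i) * ‖F^[k] p - F^[k] q‖ ≤
        ‖F^[n] p - F^[n] q‖ := by
      intro k hk
      induction hk using Nat.decreasingInduction with
      | self => simp
      | of_succ k hk ih =>
        refine le_trans ?_ ih
        rw [Finset.prod_eq_prod_Ico_succ_bot hk, mul_comm (c k), mul_assoc]
        refine mul_le_mul_of_nonneg_left ?_ (Finset.prod_nonneg fun i hi =>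
          (hc0 i (Finset.mem_Ico.1 hi).2).le)
        rw [Function.iterate_succ_apply', Function.iterate_succ_apply']
        exact Branch_expand H (hmem k) (hRρ k) (hKR k hk _ (hR0 k) le_rfl)
          (hball p hp k hk.le) (hball q hq k hk.le)
    have h1 := key k hk
    have h2 := mul_le_mul_of_nonneg_right (hcprod k hk) (norm_nonneg (F^[k] p - F^[k] q))
    have h3 : Real.exp (-((n - k : ℕ) : ℝ) / 4) * Real.exp (((n - k : ℕ) : ℝ) / 4) = 1 := by
      rw [← Real.exp_add, ← Real.exp_zero]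
      congr 1
      ring
    calc ‖F^[k] p - F^[k] q‖ = Real.exp (-((n - k : ℕ) : ℝ) / 4) *
          (Real.exp (((n - k : ℕ) : ℝ) / 4) * ‖F^[k] p - F^[k] q‖) := by
          rw [← mul_assoc, h3, one_mul]
      _ ≤ _ := mul_le_mul_of_nonneg_left (h2.trans h1) (Real.exp_pos _).le
  · set s : ℕ → ℝ := fun k => r / ∏ i ∈ Finset.Ico k n, c i with hs
    have hs0 : ∀ k, 0 ≤ s k := fun k => div_nonneg hr0.le (Finset.prod_nonneg fun i hi =>
      (hc0 i (Finset.mem_Ico.1 hi).2).le)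
    have hsR : ∀ k ≤ n, s k ≤ R k := by
      intro k hk
      have h1 := hcprod k hk
      have h2 := Real.exp_pos (((n - k : ℕ) : ℝ) / 4)
      simp only [hs, hR]
      rw [neg_div, Real.exp_neg, ← div_eq_mul_inv]
      exact div_le_div_of_nonneg_left hr0.le h2 h1
    have key : ∀ k ≤ n, ∃ p, F^[n - k] p = y ∧
        ∀ i ≤ n - k, ‖F^[i] p - F^[k + i] x‖ ≤ s (k + i) := by
      intro k hk
      induction hk using Nat.decreasingInduction with
      | self =>
        refine ⟨y, by simp, fun i hi => ?_⟩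
        have : i = 0 := by omega
        subst this
        simpa [hs] using mem_closedBall_iff_norm.1 hy
      | of_succ k hk ih =>
        obtain ⟨p, hp, hp'⟩ := ih
        have hsk : c k * s k = s (k + 1) := by
          have h1 := hc0 k hk
          have h2 : 0 < ∏ i ∈ Finset.Ico (k + 1) n, c i :=
            Finset.prod_pos fun i hi => hc0 i (Finset.mem_Ico.1 hi).2
          simp only [hs]
          rw [Finset.prod_eq_prod_Ico_succ_bot hk]
          field_simp
        have hsu := Branch_surj H (hmem k) (hs0 k) ((hsR k hk.le).trans (hRρ k))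
          (Branch_jac_ne hn hk) (hKR k hk _ (hs0 k) (hsR k hk.le))
        have hpm : p ∈ Metric.closedBall (F (F^[k] x)) (c k * s k) := by
          rw [hsk, mem_closedBall_iff_norm]
          have := hp' 0 (Nat.zero_le _)
          simpa [Function.iterate_succ_apply'] using this
        obtain ⟨p', hp'm, hpp⟩ := hsu hpm
        refine ⟨p', ?_, fun i hi => ?_⟩
        · have : n - k = (n - (k + 1)) + 1 := by omega
          rw [this, Function.iterate_succ_apply, hpp, hp]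
        · rcases i with _ | i
          · simpa using mem_closedBall_iff_norm.1 hp'm
          · rw [Function.iterate_succ_apply, hpp]
            have := hp' i (by omega)
            have e : k + 1 + i = k + (i + 1) := by ring
            rwa [e] at this
    obtain ⟨p, hp, hp'⟩ := key 0 (Nat.zero_le _)
    refine ⟨p, fun k hk => ?_, by simpa using hp⟩
    have := hp' k (by simpa using hk)
    simp only [zero_add] at this
    exact this.trans (hsR k hk)
  · rw [H.jac_iterate n hxs]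
    exact Finset.prod_ne_zero_iff.2 fun i hi => Branch_jac_ne hn (Finset.mem_range.1 hi)
  · have hps : ∀ k ≤ n, F^[k] p ∈ strip h := fun k hk =>
      Branch_ball_subset (hmem k) (hRρ k) (hball p hp k hk)
    have hp0 : p ∈ strip h := hps 0 (Nat.zero_le _)
    rw [H.jac_iterate n hxs, H.jac_iterate n hp0]
    have hsum : ∑ k ∈ Finset.range n, Real.exp (-((n - k : ℕ) : ℝ) / 8) / 16 ≤ 1 / 2 := by
      rw [← Finset.sum_div]
      have := Branch_sum_exp n
      linarith only [this]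
    obtain ⟨i1, i2⟩ := Branch_prod (fun k => jac F (F^[k] x)) (fun k => jac F (F^[k] p))
      (fun k => Real.exp (-((n - k : ℕ) : ℝ) / 8) / 16) n (fun k _ => by positivity)
      (fun k hk => by
        have h1 := H.jac_lip (hps k hk.le) (strip_mono (by linarith only [hρ]) (hmem k))
        have h2 : ‖F^[k] p - F^[k] x‖ ≤ R k := hp k hk.le
        have h3 := hsmall k hk
        have h4 : 8 * d * K * ‖F^[k] p - F^[k] x‖ ≤ 8 * d * K * R k :=
          mul_le_mul_of_nonneg_left h2 (by positivity)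
        show |jac F (F^[k] p) - jac F (F^[k] x)| ≤ _
        linarith only [h1, h3, h4]) hsum
    have ha := abs_nonneg (∏ k ∈ Finset.range n, jac F (F^[k] x))
    have hb := abs_nonneg (∏ k ∈ Finset.range n, jac F (F^[k] p))
    constructor <;> linarith only [i1, hsum, ha, i2, hb, mul_nonneg_of_nonpos_of_nonpos (Mathlib.Tactic.Linarith.sub_nonpos_of_le hsum) (Mathlib.Tactic.Linarith.sub_nonpos_of_le ha), mul_nonneg_of_nonpos_of_nonpos (Mathlib.Tactic.Linarith.sub_nonpos_of_le hsum) (Mathlib.Tactic.Linarith.sub_nonpos_of_le hb)]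

end

end Pool.Agent.Work.MP_14af4f_an
end

-- merged part: Pool.Agent.Work.MP_14af4f_an.Density
section
/-!
The bound of the density at hyperbolic times.
-/

open Set Filter Topology MeasureTheory
open scoped ENNReal

namespace Pool.Agent.Work.MP_14af4f_an

noncomputable section

variable {F : P2 → P2} {d : ℕ} {h ρ δ K J t0 ρ0 : ℝ}

/-- The square of the grid of mesh `a` that contains `z`. -/
def Density_sq (a : ℝ) (z : P2) : Set P2 := {w | ⌊w.1 / a⌋ = ⌊z.1 / a⌋ ∧ ⌊w.2 / a⌋ = ⌊z.2 / a⌋}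

lemma Density_sq_eq {a : ℝ} (ha : 0 < a) (z : P2) : Density_sq a z =
    Ico (⌊z.1 / a⌋ * a) ((⌊z.1 / a⌋ + 1) * a) ×ˢ Ico (⌊z.2 / a⌋ * a) ((⌊z.2 / a⌋ + 1) * a) := by
  ext w
  simp only [Density_sq, mem_ofPred_eq, mem_prod, mem_Ico, Int.floor_eq_iff (a := w.1 / a),
    Int.floor_eq_iff (a := w.2 / a), le_div_iff₀ ha, div_lt_iff₀ ha]

lemma Density_sq_meas {a : ℝ} (ha : 0 < a) (z : P2) : MeasurableSet (Density_sq a z) := by
  rw [Density_sq_eq ha]
  exact measurableSet_Ico.prod measurableSet_Ico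

lemma Density_sq_vol {a : ℝ} (ha : 0 < a) (z : P2) :
    volume (Density_sq a z) = ENNReal.ofReal a * ENNReal.ofReal a := by
  rw [Density_sq_eq ha, Measure.volume_eq_prod, Measure.prod_prod, Real.volume_Ico,
    Real.volume_Ico]
  congr 2 <;> ring

lemma Density_sq_dist {a : ℝ} (ha : 0 < a) {z w w' : P2} (hw : w ∈ Density_sq a z)
    (hw' : w' ∈ Density_sq a z) : ‖w - w'‖ ≤ a := by
  have k : ∀ x y : ℝ, ⌊x / a⌋ = ⌊y / a⌋ → ‖x - y‖ ≤ a := fun x y e => by
    have := Int.abs_sub_lt_one_of_floor_eq_floor e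
    rw [← sub_div, abs_div, abs_of_pos ha, div_lt_one ha] at this
    exact this.le
  rw [Prod.norm_def]
  exact max_le (k _ _ (hw.1.trans hw'.1.symm)) (k _ _ (hw.2.trans hw'.2.symm))

lemma Density_red {a : ℝ} (ha : 0 < a) (ha1 : a ≤ 1) (z : P2) (B : Set P2) :
    volume (red ⁻¹' B ∩ Density_sq a z) ≤ 3 * volume B := by
  have h1 : red ⁻¹' B ∩ Density_sq a z ⊆ (fun w => w + (-((⌊z.1⌋ - 1 : ℤ) : ℝ), 0)) ⁻¹' B ∪
      ((fun w => w + (-((⌊z.1⌋ : ℤ) : ℝ), 0)) ⁻¹' B ∪
        (fun w => w + (-((⌊z.1⌋ + 1 : ℤ) : ℝ), 0)) ⁻¹' B) := by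
    rintro w ⟨hw, hw'⟩
    have e : w + (-((⌊w.1⌋ : ℤ) : ℝ), 0) = red w := by
      ext
      · simp [red, Int.fract, sub_eq_add_neg]
      · simp [red]
    have h2 : |w.1 - z.1| ≤ 1 := ((norm_fst_le (w - z)).trans
      (Density_sq_dist ha hw' ⟨rfl, rfl⟩)).trans ha1
    obtain ⟨h3, h4⟩ := abs_le.1 h2
    have h5 : ⌊z.1⌋ - 1 ≤ ⌊w.1⌋ := by
      rw [← Int.floor_sub_one]
      exact Int.floor_mono (by linarith only [h3])
    have h6 : ⌊w.1⌋ ≤ ⌊z.1⌋ + 1 := by
      rw [← Int.floor_add_one]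
      exact Int.floor_mono (by linarith)
    rw [mem_preimage, ← e] at hw
    simp only [mem_union, mem_preimage]
    rcases (show ⌊w.1⌋ = ⌊z.1⌋ - 1 ∨ ⌊w.1⌋ = ⌊z.1⌋ ∨ ⌊w.1⌋ = ⌊z.1⌋ + 1 by omega) with e | e | e
    · exact Or.inl (e ▸ hw)
    · exact Or.inr (Or.inl (e ▸ hw))
    · exact Or.inr (Or.inr (e ▸ hw))
  refine (measure_mono h1).trans ((measure_union_le _ _).trans
    ((add_le_add le_rfl (measure_union_le _ _)).trans (le_of_eq ?_)))
  simp only [measure_preimage_add_right]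
  ring

lemma Density_dyn_meas (hF : Measurable F) (r : ℝ) (n : ℕ) (x : P2) :
    MeasurableSet (dyn F r n x) := by
  have : dyn F r n x = ⋂ k, ⋂ (_ : k ≤ n),
      {p | ‖F^[k] p - F^[k] x‖ ≤ r * Real.exp (-((n - k : ℕ) : ℝ) / 4)} := by
    ext p
    simp [dyn]
  rw [this]
  exact MeasurableSet.iInter fun k => MeasurableSet.iInter fun _ =>
    measurableSet_le ((hF.iterate k).sub_const _).norm measurable_const

/-- The bound of the density. -/
lemma Hyp.density (H : Hyp F d h ρ δ K J t0 ρ0) (hF : Measurable F) :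
    ∃ C : ℝ≥0∞, C ≠ ⊤ ∧ ∀ (n : ℕ) (X : Set P2), X ⊆ strip (h - ρ) → ∀ B, MeasurableSet B →
      volume {z ∈ X | HT F d J t0 n z ∧ red (F^[n] z) ∈ B} ≤
        C * volume B * volume (Metric.cthickening (Real.exp (-(n : ℝ) / 4)) X) := by
  obtain ⟨r, r0, r1, rρ, hb⟩ := H.branch
  obtain ⟨a, ha⟩ : ∃ a, a = r / 2 := ⟨_, rfl⟩
  have a0 : 0 < a := by linarith only [r0, ha]
  obtain ⟨q, hq⟩ : ∃ q, q = ENNReal.ofReal a * ENNReal.ofReal a := ⟨_, rfl⟩
  have q0 : q ≠ 0 := by simp [hq, a0]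
  have q1 : q ≠ ⊤ := by simp [hq, ENNReal.mul_eq_top]
  refine ⟨12 / q, ENNReal.div_ne_top (by simp) q0, fun n X hX B hB => ?_⟩
  obtain ⟨U, hU⟩ : ∃ U : P2 → Set P2, ∀ x, U x =
      dyn F r n x ∩ F^[n] ⁻¹' Density_sq a (F^[n] x) := ⟨_, fun _ => rfl⟩
  have self : ∀ x, x ∈ dyn F r n x := fun x k _ => by
    rw [sub_self, norm_zero]
    positivity
  have meas : ∀ x, MeasurableSet (U x) := fun x => by
    rw [hU]
    exact (Density_dyn_meas hF _ _ _).inter (hF.iterate n (Density_sq_meas a0 _))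
  have near : ∀ x, ∀ p ∈ dyn F r n x, ‖p - x‖ ≤ r * Real.exp (-(n : ℝ) / 4) :=
    fun x p hp => hp 0 (Nat.zero_le _)
  have e1 : Real.exp (-(n : ℝ) / 4) ≤ 1 :=
    Real.exp_le_one_iff.2 (by linarith only [show (0 : ℝ) ≤ n from Nat.cast_nonneg _])
  have sub : ∀ x ∈ X, HT F d J t0 n x → ∀ x' ∈ X, HT F d J t0 n x' → ∀ p ∈ U x, p ∈ U x' →
      U x ⊆ U x' := by
    intro x hx ht x' hx' ht' p hp hp' z hz
    rw [hU] at hp hp' hz ⊢
    refine ⟨fun k hk => ?_, hz.2.1.trans (hp.2.1.symm.trans hp'.2.1),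
      hz.2.2.trans (hp.2.2.symm.trans hp'.2.2)⟩
    have b1 := (hb n x (hX hx) ht).1 z hz.1 p hp.1 k hk
    have b2 := (hb n x' (hX hx') ht').1 p hp'.1 x' (self x') k hk
    have b3 := Density_sq_dist a0 hz.2 hp.2
    have b4 := Density_sq_dist a0 hp'.2 (show F^[n] x' ∈ Density_sq a (F^[n] x') from ⟨rfl, rfl⟩)
    have b5 := norm_sub_le_norm_sub_add_norm_sub (F^[k] z) (F^[k] p) (F^[k] x')
    have b6 := Real.exp_pos (-((n - k : ℕ) : ℝ) / 4)
    (refine le_of_not_gt fun h_nl => ?_; linarith only [h_nl, b1, b2, b5, r1, ha, b6, a0, b3, b4, mul_nonneg_of_nonpos_of_nonpos (Mathlib.Tactic.Linarith.sub_nonpos_of_le r1) (le_of_lt (Mathlib.Tactic.Linarith.sub_neg_of_lt h_nl)), Mathlib.Tactic.Linarith.zero_mul_eq (sub_eq_zero_of_eq ha) (Mathlib.Tactic.Linarith.sub_neg_of_lt b6), Mathlib.Tactic.Linarith.zero_mul_eq (sub_eq_zero_of_eq ha) (Mathlib.Tactic.Linarith.sub_neg_of_lt h_nl), mul_pos_of_neg_of_neg (Mathlib.Tactic.Linarith.sub_neg_of_lt a0) (Mathlib.Tactic.Linarith.sub_neg_of_lt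 h_nl), mul_nonneg_of_nonpos_of_nonpos (Mathlib.Tactic.Linarith.sub_nonpos_of_le b3) (le_of_lt (Mathlib.Tactic.Linarith.sub_neg_of_lt b6)), mul_nonneg_of_nonpos_of_nonpos (Mathlib.Tactic.Linarith.sub_nonpos_of_le b4) (le_of_lt (Mathlib.Tactic.Linarith.sub_neg_of_lt b6))])
  have main : ∀ x ∈ X, HT F d J t0 n x → volume (U x) ≠ 0 ∧
      volume (U x ∩ F^[n] ⁻¹' (red ⁻¹' B)) ≤ 12 / q * volume B * volume (U x) := by
    intro x hx ht
    obtain ⟨c1, c2, -, c4⟩ := hb n x (hX hx) ht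
    have cv : ∀ s ⊆ dyn F r n x, MeasurableSet s →
        ∫⁻ p in s, ENNReal.ofReal |jac F^[n] p| = volume (F^[n] '' s) := by
      intro s hs ms
      refine lintegral_abs_det_fderiv_eq_addHaar_image volume ms (fun p hp => ?_) ?_
      · refine (H.hasFDerivAt_iterate n ?_).1.hasFDerivAt.hasFDerivWithinAt
        have b1 : |p.2 - x.2| ≤ r * Real.exp (-(n : ℝ) / 4) :=
          (norm_snd_le (p - x)).trans (near x p (hs hp))
        have b2 : |x.2| ≤ h - ρ := hX hx
        have b3 := abs_sub_abs_le_abs_sub p.2 x.2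
        show |p.2| ≤ h
        linarith only [rρ, b1, b2, b3, r0, e1, mul_nonneg_of_nonpos_of_nonpos (le_of_lt (Mathlib.Tactic.Linarith.sub_neg_of_lt r0)) (Mathlib.Tactic.Linarith.sub_nonpos_of_le e1)]
      · intro p hp p' hp' e
        have := c1 p (hs hp) p' (hs hp') 0 (Nat.zero_le _)
        rw [e, sub_self, norm_zero, mul_zero] at this
        exact sub_eq_zero.1 (norm_le_zero_iff.1 this)
    have sU : U x ⊆ dyn F r n x := hU x ▸ inter_subset_left
    obtain ⟨j, hj⟩ : ∃ j, j = ENNReal.ofReal |jac F^[n] x| := ⟨_, rfl⟩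
    have two : ∀ t : ℝ, ENNReal.ofReal (2 * t) = 2 * ENNReal.ofReal t := fun t => by
      rw [ENNReal.ofReal_mul (by norm_num), ENNReal.ofReal_ofNat]
    have lo : q ≤ 2 * j * volume (U x) := by
      calc q = volume (Density_sq a (F^[n] x)) := by rw [hq, Density_sq_vol a0]
        _ ≤ volume (F^[n] '' U x) := by
          refine measure_mono fun w hw => ?_
          obtain ⟨p, p1, rfl⟩ := c2 (show w ∈ Metric.closedBall (F^[n] x) r from by
            rw [mem_closedBall_iff_norm]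
            exact (Density_sq_dist a0 hw ⟨rfl, rfl⟩).trans (by linarith only [r0, ha]))
          exact ⟨p, hU x ▸ ⟨p1, hw⟩, rfl⟩
        _ = _ := (cv _ sU (meas x)).symm
        _ ≤ ∫⁻ _ in U x, 2 * j := setLIntegral_mono' (meas x) fun p hp => by
          rw [hj, ← two]
          exact ENNReal.ofReal_le_ofReal (c4 p (sU hp)).2
        _ = _ := by rw [setLIntegral_const]
    have ms : MeasurableSet (U x ∩ F^[n] ⁻¹' (red ⁻¹' B)) :=
      (meas x).inter (hF.iterate n (measurable_red hB))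
    have up : j * volume (U x ∩ F^[n] ⁻¹' (red ⁻¹' B)) ≤ 2 * (3 * volume B) := by
      calc j * volume (U x ∩ F^[n] ⁻¹' (red ⁻¹' B))
          = ∫⁻ _ in U x ∩ F^[n] ⁻¹' (red ⁻¹' B), j := by rw [setLIntegral_const]
        _ ≤ ∫⁻ p in U x ∩ F^[n] ⁻¹' (red ⁻¹' B), 2 * ENNReal.ofReal |jac F^[n] p| :=
          setLIntegral_mono' ms fun p hp => by
            rw [hj, ← two]
            exact ENNReal.ofReal_le_ofReal (c4 p (sU hp.1)).1
        _ = 2 * volume (F^[n] '' (U x ∩ F^[n] ⁻¹' (red ⁻¹' B))) := by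
          rw [lintegral_const_mul' _ _ (by simp), cv _ (inter_subset_left.trans sU) ms]
        _ ≤ _ := by
          refine mul_le_mul_right ((measure_mono ?_).trans
            (Density_red a0 (by linarith only [r1, ha]) (F^[n] x) B)) _
          rintro _ ⟨p, hp, rfl⟩
          have h1 := hp.1
          rw [hU] at h1
          exact ⟨hp.2, h1.2⟩
    refine ⟨fun h0 => q0 (by simpa [h0] using lo), ?_⟩
    rw [ENNReal.div_eq_inv_mul, mul_assoc, mul_assoc, ← ENNReal.mul_le_iff_le_inv q0 q1]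
    calc q * volume (U x ∩ F^[n] ⁻¹' (red ⁻¹' B))
        ≤ 2 * j * volume (U x) * volume (U x ∩ F^[n] ⁻¹' (red ⁻¹' B)) := mul_le_mul_left lo _
      _ = 2 * volume (U x) * (j * volume (U x ∩ F^[n] ⁻¹' (red ⁻¹' B))) := by ring
      _ ≤ 2 * volume (U x) * (2 * (3 * volume B)) := mul_le_mul_right up _
      _ = _ := by ring
  obtain ⟨S, hS⟩ : ∃ S : Set (Set P2), S = {V | ∃ x ∈ X, HT F d J t0 n x ∧ V = U x} := ⟨_, rfl⟩
  have ex : ∀ V : S, ∃ x ∈ X, HT F d J t0 n x ∧ V.1 = U x := fun V => by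
    have := V.2
    simp only [hS] at this
    exact this
  have mS : ∀ V : S, MeasurableSet V.1 := fun V => by
    obtain ⟨x, -, -, e⟩ := ex V
    exact e ▸ meas x
  have dj : Pairwise (Function.onFun Disjoint fun V : S => V.1) := by
    intro V V' ne
    obtain ⟨x, x1, x2, e⟩ := ex V
    obtain ⟨y, y1, y2, e'⟩ := ex V'
    refine Set.disjoint_left.2 fun p hp hp' => ne (Subtype.ext ?_)
    simp only [e, e'] at hp hp' ⊢
    exact (sub x x1 x2 y y1 y2 p hp hp').antisymm (sub y y1 y2 x x1 x2 p hp' hp)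
  have cnt : Countable S := by
    have := Measure.countable_meas_pos_of_disjoint_iUnion (μ := volume) mS dj
    rw [← Set.countable_univ_iff]
    refine this.mono fun V _ => ?_
    obtain ⟨x, x1, x2, e⟩ := ex V
    exact pos_iff_ne_zero.2 (e ▸ (main x x1 x2).1)
  calc volume {z ∈ X | HT F d J t0 n z ∧ red (F^[n] z) ∈ B}
      ≤ volume (⋃ V : S, V.1 ∩ F^[n] ⁻¹' (red ⁻¹' B)) := by
        refine measure_mono fun z hz => mem_iUnion.2
          ⟨⟨U z, by rw [hS]; exact ⟨z, hz.1, hz.2.1, rfl⟩⟩, ?_, hz.2.2⟩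
        show z ∈ U z
        rw [hU]
        exact ⟨self z, rfl, rfl⟩
    _ ≤ ∑' V : S, volume (V.1 ∩ F^[n] ⁻¹' (red ⁻¹' B)) := measure_iUnion_le _
    _ ≤ ∑' V : S, 12 / q * volume B * volume V.1 := ENNReal.tsum_le_tsum fun V => by
        obtain ⟨x, x1, x2, e⟩ := ex V
        exact e ▸ (main x x1 x2).2
    _ = 12 / q * volume B * volume (⋃ V : S, V.1) := by
        rw [ENNReal.tsum_mul_left, measure_iUnion dj mS]
    _ ≤ _ := by
        refine mul_le_mul_right (measure_mono (iUnion_subset fun V p hp => ?_)) _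
        obtain ⟨x, x1, -, e⟩ := ex V
        rw [e, hU] at hp
        refine Metric.mem_cthickening_of_dist_le p x _ _ x1 ?_
        rw [dist_eq_norm]
        exact (near x p hp.1).trans (mul_le_of_le_one_left (Real.exp_pos _).le r1)

end

end Pool.Agent.Work.MP_14af4f_an
end

-- merged part: Pool.Agent.Work.MP_14af4f_an.Maximal
section
/-!
The maximal ergodic lemma and record times.
-/

open Set Filter Topology MeasureTheory
open scoped ENNReal

namespace Pool.Agent.Work.MP_14af4f_an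

variable {X : Type} [MeasurableSpace X]

/-- The running maximum of the Birkhoff sums. -/
noncomputable def Maximal_M {X : Type} (T : X → X) (ψ : X → ℝ) : ℕ → X → ℝ
  | 0 => fun _ => 0
  | N + 1 => fun x => max 0 (ψ x + Maximal_M T ψ N (T x))

lemma Maximal_M_nonneg {X : Type} (T : X → X) (ψ : X → ℝ) (N : ℕ) (x : X) :
    0 ≤ Maximal_M T ψ N x := by
  cases N with
  | zero => simp [Maximal_M]
  | succ N => simp [Maximal_M]

lemma Maximal_M_mono_succ {X : Type} (T : X → X) (ψ : X → ℝ) (N : ℕ) :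
    ∀ x : X, Maximal_M T ψ N x ≤ Maximal_M T ψ (N + 1) x := by
  induction N with
  | zero => intro x; exact Maximal_M_nonneg T ψ 1 x
  | succ N ih =>
    intro x
    have := ih (T x)
    show max 0 (ψ x + Maximal_M T ψ N (T x)) ≤ max 0 (ψ x + Maximal_M T ψ (N + 1) (T x))
    exact max_le_max le_rfl (by linarith)

lemma Maximal_M_mono {X : Type} (T : X → X) (ψ : X → ℝ) (x : X) :
    Monotone fun N => Maximal_M T ψ N x :=
  monotone_nat_of_le_succ fun N => Maximal_M_mono_succ T ψ N x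

lemma Maximal_sum_le {X : Type} (T : X → X) (ψ : X → ℝ) (N : ℕ) :
    ∀ x : X, birkhoffSum T ψ N x ≤ Maximal_M T ψ N x := by
  induction N with
  | zero => intro x; simp [Maximal_M]
  | succ N ih =>
    intro x
    rw [birkhoffSum_succ']
    have := ih (T x)
    show _ ≤ max 0 (ψ x + Maximal_M T ψ N (T x))
    exact le_max_of_le_right (by linarith)

lemma Maximal_M_integrable {μ : Measure X} [IsFiniteMeasure μ] {T : X → X}
    (hT : MeasurePreserving T μ μ) {ψ : X → ℝ} (hψ : Integrable ψ μ) (N : ℕ) :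
    Integrable (Maximal_M T ψ N) μ := by
  induction N with
  | zero => exact integrable_const (0 : ℝ)
  | succ N ih =>
    have h1 : Integrable (fun x => Maximal_M T ψ N (T x)) μ := hT.integrable_comp_of_integrable ih
    have h2 : Integrable (fun x => ψ x + Maximal_M T ψ N (T x)) μ := hψ.add h1
    exact (integrable_const (0 : ℝ)).sup h2

lemma unbounded_invariant (T : X → X) (ψ : X → ℝ) :
    T ⁻¹' {x | ¬BddAbove (range fun n => birkhoffSum T ψ n x)} =
      {x | ¬BddAbove (range fun n => birkhoffSum T ψ n x)} := by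
  ext x
  simp only [mem_preimage, mem_ofPred_eq]
  refine not_congr ⟨?_, ?_⟩
  · rintro ⟨C, hC⟩
    refine ⟨max 0 (ψ x + C), ?_⟩
    rintro _ ⟨n, rfl⟩
    cases n with
    | zero => simp
    | succ n =>
      have := hC ⟨n, rfl⟩
      simp only at this ⊢
      rw [birkhoffSum_succ']
      exact le_max_of_le_right (by linarith)
  · rintro ⟨C, hC⟩
    refine ⟨C - ψ x, ?_⟩
    rintro _ ⟨n, rfl⟩
    have := hC ⟨n + 1, rfl⟩
    simp only at this ⊢
    rw [birkhoffSum_succ'] at this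
    linarith

/-- The maximal ergodic lemma. -/
lemma integral_nonneg_of_unbounded {μ : Measure X} [IsFiniteMeasure μ] {T : X → X}
    (hT : MeasurePreserving T μ μ) {ψ : X → ℝ} (hψ : Integrable ψ μ) (hm : Measurable ψ)
    (h : ∀ᵐ x ∂μ, ¬BddAbove (range fun n => birkhoffSum T ψ n x)) : 0 ≤ ∫ x, ψ x ∂μ := by
  have hI := Maximal_M_integrable hT hψ
  have hIT : ∀ N, Integrable (fun x => Maximal_M T ψ N (T x)) μ := fun N =>
    hT.integrable_comp_of_integrable (hI N)
  have hF : ∀ N x, max (-Maximal_M T ψ N (T x)) (ψ x) =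
      Maximal_M T ψ (N + 1) x - Maximal_M T ψ N (T x) := by
    intro N x
    show _ = max 0 (ψ x + Maximal_M T ψ N (T x)) - _
    rcases le_total 0 (ψ x + Maximal_M T ψ N (T x)) with h0 | h0
    · rw [max_eq_right h0, max_eq_right (by linarith)]; ring
    · rw [max_eq_left h0, max_eq_left (by linarith)]; ring
  have hpos : ∀ N, 0 ≤ ∫ x, max (-Maximal_M T ψ N (T x)) (ψ x) ∂μ := by
    intro N
    simp_rw [hF N]
    rw [integral_sub (hI _) (hIT _)]
    have e : ∫ x, Maximal_M T ψ N (T x) ∂μ = ∫ x, Maximal_M T ψ N x ∂μ := by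
      have := integral_map (μ := μ) hT.measurable.aemeasurable
        (f := Maximal_M T ψ N) (by rw [hT.map_eq]; exact (hI N).aestronglyMeasurable)
      rw [hT.map_eq] at this
      exact this.symm
    rw [e, sub_nonneg]
    exact integral_mono (hI _) (hI _) fun x => Maximal_M_mono_succ T ψ N x
  have hlim : Tendsto (fun N => ∫ x, max (-Maximal_M T ψ N (T x)) (ψ x) ∂μ) atTop
      (𝓝 (∫ x, ψ x ∂μ)) := by
    refine tendsto_integral_of_dominated_convergence (fun x => |ψ x|) ?_ hψ.abs ?_ ?_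
    · intro N
      simp_rw [hF N]
      exact ((hI _).sub (hIT _)).aestronglyMeasurable
    · intro N
      refine Eventually.of_forall fun x => ?_
      rw [Real.norm_eq_abs, abs_le]
      have h0 := Maximal_M_nonneg T ψ N (T x)
      refine ⟨le_max_of_le_right (neg_abs_le _), max_le ?_ (le_abs_self _)⟩
      have := abs_nonneg (ψ x)
      linarith
    · filter_upwards [h] with x hx
      have hx' : x ∈ T ⁻¹' {x | ¬BddAbove (range fun n => birkhoffSum T ψ n x)} := by
        rw [unbounded_invariant]; exact hx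
      simp only [mem_preimage, mem_ofPred_eq, not_bddAbove_iff] at hx'
      obtain ⟨_, ⟨n, rfl⟩, hn⟩ := hx' (-ψ x)
      refine tendsto_const_nhds.congr' ?_
      filter_upwards [eventually_ge_atTop n] with N hN
      have h1 := Maximal_sum_le T ψ n (T x)
      have h2 : Maximal_M T ψ n (T x) ≤ Maximal_M T ψ N (T x) := Maximal_M_mono T ψ (T x) hN
      simp only at hn
      rw [max_eq_right (by linarith only [hn, h1, h2])]
  exact ge_of_tendsto' hlim hpos

lemma measurableSet_unbounded {T : X → X} (hT : Measurable T) {ψ : X → ℝ} (hm : Measurable ψ) :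
    MeasurableSet {x | ¬BddAbove (range fun n => birkhoffSum T ψ n x)} := by
  have hS : ∀ n, Measurable fun x => birkhoffSum T ψ n x := by
    intro n
    unfold birkhoffSum
    exact Finset.measurable_sum _ fun i _ => hm.comp (hT.iterate i)
  have e : {x | ¬BddAbove (range fun n => birkhoffSum T ψ n x)} =
      ⋂ C : ℕ, ⋃ n : ℕ, {x | (C : ℝ) < birkhoffSum T ψ n x} := by
    ext x
    simp only [mem_ofPred_eq, not_bddAbove_iff, mem_iInter, mem_iUnion]
    constructor
    · intro h C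
      obtain ⟨_, ⟨n, rfl⟩, hn⟩ := h C
      exact ⟨n, hn⟩
    · intro h c
      obtain ⟨C, hC⟩ := exists_nat_ge c
      obtain ⟨n, hn⟩ := h C
      exact ⟨_, ⟨n, rfl⟩, lt_of_le_of_lt hC hn⟩
  rw [e]
  exact MeasurableSet.iInter fun C => MeasurableSet.iUnion fun n =>
    measurableSet_lt measurable_const (hS n)

/-- The truncated cost has small integral. -/
lemma Maximal_trunc {μ : Measure X} [IsProbabilityMeasure μ] {T : X → X} (hT : Ergodic T μ)
    {L : X → ℝ≥0∞} (hL : Measurable L) {a c : ℝ} (ha : 0 ≤ a) (hac : a < c) {H : ℕ → Set X}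
    (hH : ∀ n, ∀ x ∈ H n, ∑ i ∈ Finset.range n, L (T^[i] x) ≤ ENNReal.ofReal (a * n))
    (hE : ∀ E, MeasurableSet E → T ⁻¹' E = E → (∀ x, (∃ᶠ n in atTop, x ∈ H n) → x ∈ E) →
      ∀ᵐ x ∂μ, x ∈ E) (M : ℕ) :
    ∫⁻ x, min (L x) M ∂μ ≤ ENNReal.ofReal c := by
  have hne : ∀ x, min (L x) (M : ℝ≥0∞) ≠ ⊤ := fun x =>
    ne_top_of_le_ne_top (ENNReal.natCast_ne_top M) (min_le_right _ _)
  have hmin : Measurable fun x => min (L x) (M : ℝ≥0∞) := hL.min measurable_const
  have hfin : ∫⁻ x, min (L x) M ∂μ ≠ ⊤ := by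
    refine ne_top_of_le_ne_top (b := ∫⁻ _, (M : ℝ≥0∞) ∂μ) ?_
      (lintegral_mono fun x => min_le_right _ _)
    simp
  have hint : Integrable (fun x => (min (L x) (M : ℝ≥0∞)).toReal) μ :=
    integrable_toReal_of_lintegral_ne_top hmin.aemeasurable hfin
  set ψ : X → ℝ := fun x => c - (min (L x) (M : ℝ≥0∞)).toReal with hψ
  have hψm : Measurable ψ := measurable_const.sub hmin.ennreal_toReal
  have hψi : Integrable ψ μ := (integrable_const c).sub hint
  have hae := hE _ (measurableSet_unbounded hT.measurable hψm) (unbounded_invariant T ψ) (by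
    intro x hx
    simp only [mem_ofPred_eq, not_bddAbove_iff]
    intro d
    obtain ⟨n0, hn0⟩ := exists_nat_gt (d / (c - a))
    obtain ⟨n, hn, hnn⟩ := (hx.and_eventually (eventually_ge_atTop n0)).exists
    refine ⟨_, ⟨n, rfl⟩, ?_⟩
    have h1 : ∑ i ∈ Finset.range n, (min (L (T^[i] x)) (M : ℝ≥0∞)).toReal ≤ a * n := by
      rw [← ENNReal.toReal_sum fun i _ => hne _]
      refine ENNReal.toReal_le_of_le_ofReal (by positivity) (le_trans ?_ (hH n x hn))
      exact Finset.sum_le_sum fun i _ => min_le_left _ _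
    have h2 : birkhoffSum T ψ n x =
        c * n - ∑ i ∈ Finset.range n, (min (L (T^[i] x)) (M : ℝ≥0∞)).toReal := by
      simp [birkhoffSum, hψ, Finset.sum_sub_distrib, mul_comm]
    have h3 : (n0 : ℝ) ≤ n := by exact_mod_cast hnn
    have h4 : d < n * (c - a) := by
      rw [div_lt_iff₀ (by linarith only [hac])] at hn0
      linarith only [hn0, hac, h3, mul_nonneg_of_nonpos_of_nonpos (le_of_lt (Mathlib.Tactic.Linarith.sub_neg_of_lt hac)) (Mathlib.Tactic.Linarith.sub_nonpos_of_le h3)]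
    simp only
    rw [h2]
    linarith only [h1, h4])
  have h0 := integral_nonneg_of_unbounded hT.toMeasurePreserving hψi hψm hae
  rw [hψ, integral_sub (integrable_const c) hint, integral_toReal hmin.aemeasurable
    (Eventually.of_forall fun x => (hne x).lt_top)] at h0
  simp only [integral_const, probReal_univ, smul_eq_mul, one_mul, sub_nonneg] at h0
  rw [← ENNReal.ofReal_toReal hfin]
  exact ENNReal.ofReal_le_ofReal h0

/-- From infinitely many good times to all times. -/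
theorem ae_sum_le {μ : Measure X} [IsProbabilityMeasure μ] {T : X → X} (hT : Ergodic T μ)
    {L : X → ℝ≥0∞} (hL : Measurable L) {a b : ℝ} (ha : 0 ≤ a) (hab : a < b) {H : ℕ → Set X}
    (hH : ∀ n, ∀ x ∈ H n, ∑ i ∈ Finset.range n, L (T^[i] x) ≤ ENNReal.ofReal (a * n))
    (hE : ∀ E, MeasurableSet E → T ⁻¹' E = E → (∀ x, (∃ᶠ n in atTop, x ∈ H n) → x ∈ E) →
      ∀ᵐ x ∂μ, x ∈ E) :
    ∀ᵐ x ∂μ, ∃ C : ℝ, ∀ n : ℕ,
      ∑ i ∈ Finset.range n, L (T^[i] x) ≤ ENNReal.ofReal (b * n + C) := by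
  have hc : ∀ M : ℕ, ∫⁻ x, min (L x) M ∂μ ≤ ENNReal.ofReal ((a + b) / 2) :=
    Maximal_trunc hT hL ha (by linarith only [hab]) hH hE
  have hLle : ∫⁻ x, L x ∂μ ≤ ENNReal.ofReal ((a + b) / 2) := by
    have e : ∀ x, L x = ⨆ M : ℕ, min (L x) M := by
      intro x
      have := inf_iSup_eq (L x) (fun M : ℕ => (M : ℝ≥0∞))
      rw [ENNReal.iSup_natCast, inf_top_eq] at this
      exact this
    calc ∫⁻ x, L x ∂μ = ∫⁻ x, ⨆ M : ℕ, min (L x) M ∂μ := lintegral_congr e
      _ = ⨆ M : ℕ, ∫⁻ x, min (L x) M ∂μ := by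
          refine lintegral_iSup (fun M => hL.min measurable_const) ?_
          intro M M' h x
          exact min_le_min le_rfl (by exact_mod_cast h)
      _ ≤ _ := iSup_le hc
  have hfin : ∫⁻ x, L x ∂μ ≠ ⊤ := ne_top_of_le_ne_top ENNReal.ofReal_ne_top hLle
  have hlt : ∀ᵐ x ∂μ, L x < ⊤ := ae_lt_top hL hfin
  have hint : Integrable (fun x => (L x).toReal) μ :=
    integrable_toReal_of_lintegral_ne_top hL.aemeasurable hfin
  set ψ : X → ℝ := fun x => (L x).toReal - b with hψ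
  have hψm : Measurable ψ := hL.ennreal_toReal.sub measurable_const
  have hψi : Integrable ψ μ := hint.sub (integrable_const b)
  have hneg : ∫ x, ψ x ∂μ < 0 := by
    rw [hψ, integral_sub hint (integrable_const b), integral_toReal hL.aemeasurable hlt]
    simp only [integral_const, probReal_univ, smul_eq_mul, one_mul, sub_neg]
    have := ENNReal.toReal_le_of_le_ofReal (by linarith only [ha, hab]) hLle
    linarith
  have hall : ∀ᵐ x ∂μ, ∀ i : ℕ, L (T^[i] x) < ⊤ := by
    rw [ae_all_iff]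
    intro i
    exact (hT.toMeasurePreserving.iterate i).quasiMeasurePreserving.ae hlt
  rcases hT.toPreErgodic.ae_mem_or_ae_notMem (measurableSet_unbounded hT.measurable hψm)
    (unbounded_invariant T ψ) with h | h
  · exact absurd (integral_nonneg_of_unbounded hT.toMeasurePreserving hψi hψm h) (not_le.2 hneg)
  · filter_upwards [h, hall] with x hx hxi
    simp only [mem_ofPred_eq, not_not] at hx
    obtain ⟨C, hC⟩ := hx
    refine ⟨C, fun n => ?_⟩
    have h1 := hC ⟨n, rfl⟩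
    have h2 : birkhoffSum T ψ n x = ∑ i ∈ Finset.range n, (L (T^[i] x)).toReal - b * n := by
      simp [birkhoffSum, hψ, Finset.sum_sub_distrib, mul_comm]
    simp only at h1
    rw [h2, ← ENNReal.toReal_sum fun i _ => (hxi i).ne] at h1
    rw [← ENNReal.ofReal_toReal (ENNReal.sum_ne_top.2 fun i _ => (hxi i).ne)]
    exact ENNReal.ofReal_le_ofReal (by linarith)

/-- Counting the record times of a sequence. -/
lemma pliss (B : ℕ → ℝ≥0∞) {a : ℝ} (ha : 0 ≤ a) (N : ℕ) :
    ENNReal.ofReal (a * N) ≤ ∑ i ∈ Finset.range N, B i + ENNReal.ofReal a *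
      ∑ n ∈ Finset.range N, indicator {n : ℕ | ∀ k < n + 1, ∑ i ∈ Finset.Ico k (n + 1), B i ≤
        ENNReal.ofReal (a * (n + 1 - k : ℕ))} (fun _ => (1 : ℝ≥0∞)) n := by
  set S : Set ℕ := {n : ℕ | ∀ k < n + 1, ∑ i ∈ Finset.Ico k (n + 1), B i ≤
        ENNReal.ofReal (a * (n + 1 - k : ℕ))} with hS
  induction N using Nat.strong_induction_on with
  | _ N ih =>
    cases N with
    | zero => simp
    | succ N =>
      by_cases hN : N ∈ S
      · have h1 := ih N (Nat.lt_succ_self N)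
        rw [Finset.sum_range_succ, Finset.sum_range_succ, indicator_of_mem hN, mul_add, mul_one]
        have e : ENNReal.ofReal (a * ((N + 1 : ℕ) : ℝ)) =
            ENNReal.ofReal (a * N) + ENNReal.ofReal a := by
          rw [← ENNReal.ofReal_add (by positivity) ha]
          congr 1
          push_cast
          ring
        rw [e, ← add_assoc]
        gcongr
        refine h1.trans ?_
        gcongr
        exact le_self_add
      · simp only [hS, mem_ofPred_eq, not_forall, not_le] at hN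
        obtain ⟨k, hk, hlt⟩ := hN
        have h1 := ih k hk
        have e : ENNReal.ofReal (a * ((N + 1 : ℕ) : ℝ)) =
            ENNReal.ofReal (a * k) + ENNReal.ofReal (a * (N + 1 - k : ℕ)) := by
          rw [← ENNReal.ofReal_add (by positivity) (by positivity)]
          congr 1
          rw [Nat.cast_sub hk.le]
          ring
        rw [e, ← Finset.sum_range_add_sum_Ico B hk.le]
        calc ENNReal.ofReal (a * k) + ENNReal.ofReal (a * (N + 1 - k : ℕ))
            ≤ (∑ i ∈ Finset.range k, B i + ENNReal.ofReal a *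
                ∑ n ∈ Finset.range k, indicator S (fun _ => (1 : ℝ≥0∞)) n) +
                ∑ i ∈ Finset.Ico k (N + 1), B i := add_le_add h1 hlt.le
          _ ≤ (∑ i ∈ Finset.range k, B i + ENNReal.ofReal a *
                ∑ n ∈ Finset.range (N + 1), indicator S (fun _ => (1 : ℝ≥0∞)) n) +
                ∑ i ∈ Finset.Ico k (N + 1), B i := by
              gcongr
          _ = _ := by ring

end Pool.Agent.Work.MP_14af4f_an
end

-- merged part: Pool.Agent.Work.MP_14af4f_an.Erg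
section
/-!
The ergodic absolutely continuous invariant measure of the annulus map.
-/

open Set Filter Topology MeasureTheory
open scoped ENNReal

namespace Pool.Agent.Work.MP_14af4f_an

/-- Local diffeomorphisms are nonsingular. -/
lemma null_inter_preimage {f : P2 → P2} {s N : Set P2}
    (hs : ∀ z ∈ s, ∃ A : P2 →L[ℝ] P2, HasStrictFDerivAt f A z ∧ A.det ≠ 0)
    (hN : volume N = 0) : volume (s ∩ f ⁻¹' N) = 0 := by
  refine measure_null_of_locally_null _ fun z hz => ?_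
  obtain ⟨A, hA, hdet⟩ := hs z hz.1
  rw [← A.coe_toContinuousLinearEquivOfDetNeZero hdet] at hA
  set e := A.toContinuousLinearEquivOfDetNeZero hdet
  obtain ⟨u, hzu, huo, hu⟩ := hA.approximates_deriv_on_open_nhds
  have h1 := hu.antilipschitz (e.subsingleton_or_nnnorm_symm_pos.imp id fun h' =>
    NNReal.half_lt_self <| ne_of_gt <| inv_pos.2 h')
  have h2 := h1.hausdorffMeasure_preimage_le (d := 2) (by norm_num) N
  rw [hausdorffMeasure_prod_real, hN, mul_zero] at h2
  refine ⟨u ∩ f ⁻¹' N, ?_, ?_⟩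
  · exact mem_nhdsWithin.2 ⟨u, huo, hzu, fun w hw => ⟨hw.1, hw.2.2⟩⟩
  · have h3 : u ∩ f ⁻¹' N = Subtype.val '' (u.domRestrict f ⁻¹' N) := by
      ext w
      exact ⟨fun hw => ⟨⟨w, hw.1⟩, hw.2, rfl⟩, by rintro ⟨x, hx, rfl⟩; exact ⟨x.2, hx⟩⟩
    rw [h3, ← hausdorffMeasure_prod_real,
      isometry_subtype_coe.hausdorffMeasure_image (Or.inl (by norm_num))]
    exact le_antisymm h2 bot_le

variable {F : P2 → P2} {d : ℕ} {h ρ δ K J t0 ρ0 : ℝ}

lemma Erg_measurable_Bf (F : P2 → P2) (d : ℕ) (J t0 : ℝ) : Measurable (Bf F d J t0) :=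
  ((measurable_LL J).comp (measurable_jac F)).add
    (((measurable_LL t0).comp (measurable_jac F)).const_mul _)

lemma Hyp.lintegral_Bf (H : Hyp F d h ρ δ K J t0 ρ0) (hF : Measurable F) (n : ℕ) :
    ∫⁻ z in dom (h - ρ), Bf F d J t0 (F^[n] z) ≤
      ENNReal.ofReal (Real.log (J / (2 * d)) - 1) * volume (dom (h - ρ)) := by
  have hA := H.A_ge
  have hB : ∀ γ, Cv 1 ρ0 2 h γ → ∫⁻ t in Icc (0 : ℝ) 1, Bf F d J t0 (γ t) ≤
      ENNReal.ofReal (Real.log (J / (2 * d)) - 1) := fun γ hγ => by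
    simp only [Bf]
    have m1 : AEMeasurable (fun t => LL J (jac F (γ t))) (volume.restrict (Icc 0 1)) :=
      ((measurable_LL J).comp (measurable_jac F)).comp_aemeasurable hγ.aemeasurable
    rw [lintegral_add_left' m1, lintegral_const_mul' _ _ ENNReal.ofReal_ne_top]
    calc _ ≤ ENNReal.ofReal (Real.log (J / (2 * d)) - 2) + ENNReal.ofReal
          (8 * Real.log (J / (2 * d))) * ENNReal.ofReal (1 / (8 * Real.log (J / (2 * d)))) := by
          gcongr
          exacts [H.avg1 γ hγ, H.avg2 γ hγ]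
      _ = _ := by
          rw [← ENNReal.ofReal_mul (by linarith only [hA]), mul_one_div_cancel (by linarith only [hA]),
            ← ENNReal.ofReal_add (by linarith) zero_le_one]
          congr 1; ring
  have hm : Measurable fun z => Bf F d J t0 (F^[n] z) :=
    (Erg_measurable_Bf F d J t0).comp (hF.iterate n)
  rw [dom, Measure.volume_eq_prod, ← Measure.prod_restrict, lintegral_prod_symm _ hm.aemeasurable,
    Measure.prod_prod, Real.volume_Ico, sub_zero, ENNReal.ofReal_one, one_mul,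
    ← setLIntegral_const]
  refine setLIntegral_mono' measurableSet_Icc fun y hy => H.equi hB n ?_
  linarith only [hy, H, abs_le.2 hy, H.ρ_pos]

lemma Hyp.measurableSet_HT (hF : Measurable F) (n : ℕ) : MeasurableSet {z | HT F d J t0 n z} := by
  simp only [HT, Set.ofPred_forall]
  refine MeasurableSet.iInter fun k => MeasurableSet.iInter fun _ => ?_
  exact measurableSet_le (Finset.measurable_sum _ fun i _ =>
    (Erg_measurable_Bf F d J t0).comp (hF.iterate i)) measurable_const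

lemma Erg_volume_dom (a : ℝ) : volume (dom a) = ENNReal.ofReal (2 * a) := by
  rw [dom, Measure.volume_eq_prod, Measure.prod_prod, Real.volume_Ico, Real.volume_Icc]
  simp [two_mul]

lemma Hyp.sum_HT (H : Hyp F d h ρ δ K J t0 ρ0) (hF : Measurable F) :
    ∃ θ : ℝ≥0∞, θ ≠ 0 ∧ ∀ N : ℕ,
      θ * N ≤ ∑ n ∈ Finset.range N, volume (dom (h - ρ) ∩ {z | HT F d J t0 n z}) := by
  have hA := H.A_ge
  have hρ := H.ρ_lt
  set A := Real.log (J / (2 * d)) with hAdef
  refine ⟨ENNReal.ofReal ((h - ρ) / (A - 1 / 2)), by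
    rw [Ne, ENNReal.ofReal_eq_zero, not_le]; exact div_pos (by linarith) (by linarith only [hA]), fun N => ?_⟩
  set S := ∑ n ∈ Finset.range N, volume (dom (h - ρ) ∩ {z | HT F d J t0 (n + 1) z}) with hS
  have hm : ∀ i, Measurable fun z => Bf F d J t0 (F^[i] z) := fun i =>
    (Erg_measurable_Bf F d J t0).comp (hF.iterate i)
  have h1 : ENNReal.ofReal ((A - 1 / 2) * N) * volume (dom (h - ρ)) ≤
      N * (ENNReal.ofReal (A - 1) * volume (dom (h - ρ))) + ENNReal.ofReal (A - 1 / 2) * S := by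
    calc _ = ∫⁻ _z in dom (h - ρ), ENNReal.ofReal ((A - 1 / 2) * N) := (setLIntegral_const _ _).symm
      _ ≤ ∫⁻ z in dom (h - ρ), (∑ i ∈ Finset.range N, Bf F d J t0 (F^[i] z) +
          ENNReal.ofReal (A - 1 / 2) * ∑ n ∈ Finset.range N,
            indicator {z | HT F d J t0 (n + 1) z} (fun _ => (1 : ℝ≥0∞)) z) :=
          lintegral_mono fun z => pliss (fun i => Bf F d J t0 (F^[i] z)) (by linarith only [hA]) N
      _ ≤ _ := by
          rw [lintegral_add_left (Finset.measurable_sum _ fun i _ => hm i),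
            lintegral_const_mul' _ _ ENNReal.ofReal_ne_top, lintegral_finsetSum _ fun i _ => hm i,
            lintegral_finsetSum _ fun n _ => measurable_const.indicator (Hyp.measurableSet_HT hF _)]
          refine add_le_add ((Finset.sum_le_sum fun i _ => H.lintegral_Bf hF i).trans
            (le_of_eq (by rw [Finset.sum_const, Finset.card_range, nsmul_eq_mul])))
            (le_of_eq ?_)
          congr 1
          refine Finset.sum_congr rfl fun n _ => ?_
          rw [lintegral_indicator_const (Hyp.measurableSet_HT hF _), one_mul,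
            Measure.restrict_apply (Hyp.measurableSet_HT hF _), inter_comm]
  have h2 : S ≤ ∑ n ∈ Finset.range N, volume (dom (h - ρ) ∩ {z | HT F d J t0 n z}) := by
    rcases N with _ | N
    · simp [hS]
    · rw [hS, Finset.sum_range_succ, Finset.sum_range_succ']
      refine add_le_add le_rfl (measure_mono fun z hz => ⟨hz.1, fun k hk => ?_⟩)
      omega
  refine le_trans ?_ h2
  rw [Erg_volume_dom, ← ENNReal.ofReal_mul (by linarith only [hA, Nat.cast_nonneg (α := ℝ) N, mul_nonneg_of_nonpos_of_nonpos (Mathlib.Tactic.Linarith.sub_nonpos_of_le (Mathlib.Tactic.Linarith.natCast_nonneg ℝ N)) (Mathlib.Tactic.Linarith.sub_nonpos_of_le hA)]),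
    ← ENNReal.ofReal_mul (by linarith), ← ENNReal.ofReal_natCast,
    ← ENNReal.ofReal_mul (Nat.cast_nonneg N)] at h1
  have e : (A - 1 / 2) * N * (2 * (h - ρ))
      = N * ((A - 1) * (2 * (h - ρ))) + (A - 1 / 2) * ((h - ρ) / (A - 1 / 2) * N) := by
    have : A - 1 / 2 ≠ 0 := by linarith only [hA]
    rw [← mul_assoc (A - 1 / 2) ((h - ρ) / _), mul_div_cancel₀ _ this]; ring
  have p1 : 0 ≤ (h - ρ) / (A - 1 / 2) := div_nonneg (by linarith only [hρ]) (by linarith only [hA])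
  rw [e, ENNReal.ofReal_add (mul_nonneg (Nat.cast_nonneg N) (mul_nonneg (by linarith only [hA]) (by linarith only [hρ])))
    (mul_nonneg (by linarith only [hA]) (by positivity)),
    ENNReal.add_le_add_iff_left ENNReal.ofReal_ne_top, ENNReal.ofReal_mul (by linarith only [hA]),
    ENNReal.mul_le_mul_iff_right (by rw [Ne, ENNReal.ofReal_eq_zero]; linarith only [hA])
      ENNReal.ofReal_ne_top, ENNReal.ofReal_mul p1, ENNReal.ofReal_natCast] at h1
  exact h1

lemma Hyp.expansion (H : Hyp F d h ρ δ K J t0 ρ0) {z : P2} (hz : z ∈ strip h) {n : ℕ} {C : ℝ}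
    (hC : 0 ≤ C) (hs : ∑ i ∈ Finset.range n, LL J (jac F (F^[i] z)) ≤
      ENNReal.ofReal ((Real.log (J / (2 * d)) - 1 / 4) * n + C)) (v : P2) :
    Real.exp (n / 4 - C) * ‖v‖ ≤ ‖fderiv ℝ F^[n] z v‖ := by
  have hA := H.A_ge
  have hJ := H.J_pos
  have hd : (0 : ℝ) < d := by exact_mod_cast lt_of_lt_of_le (by norm_num) H.d2
  have hz' : ∀ i, F^[i] z ∈ strip h := fun i => H.mapsTo'.iterate i hz
  have h0 : ∀ i ∈ Finset.range n, jac F (F^[i] z) ≠ 0 := fun i hi h0 => by
    have := (Finset.single_le_sum (f := fun i => LL J (jac F (F^[i] z))) (fun _ _ => bot_le)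
      hi).trans hs
    simp [LL, h0] at this
  have h1 : ∑ i ∈ Finset.range n, Real.log (J / |jac F (F^[i] z)|)
      ≤ (Real.log (J / (2 * d)) - 1 / 4) * n + C := by
    rw [← ENNReal.ofReal_le_ofReal_iff (by linarith only [hC, hA, Nat.cast_nonneg (α := ℝ) n, mul_nonneg_of_nonpos_of_nonpos (Mathlib.Tactic.Linarith.sub_nonpos_of_le (Mathlib.Tactic.Linarith.natCast_nonneg ℝ n)) (Mathlib.Tactic.Linarith.sub_nonpos_of_le hA)]),
      ENNReal.ofReal_sum_of_nonneg fun i hi => Real.log_nonneg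
        ((one_le_div (abs_pos.2 (h0 i hi))).2 (H.jac_le _ (hz' i)))]
    refine le_of_eq_of_le (Finset.sum_congr rfl fun i hi => ?_) hs
    rw [LL, if_neg (h0 i hi)]
  have h2 : ∀ k : ℕ, (∏ i ∈ Finset.range k, |jac F (F^[i] z)| / (2 * d)) * ‖v‖
      ≤ ‖fderiv ℝ F^[k] z v‖ := fun k => by
    induction k with
    | zero => simp
    | succ k ih =>
      rw [(H.hasFDerivAt_iterate k hz).2, Finset.prod_range_succ, ContinuousLinearMap.comp_apply]
      have h3 := H.jac_mul_le (hz' k) (fderiv ℝ F^[k] z v)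
      rw [mul_right_comm, mul_comm, div_mul_eq_mul_div, div_le_iff₀' (by positivity)]
      exact (mul_le_mul_of_nonneg_left ih (abs_nonneg _)).trans h3
  refine le_trans (mul_le_mul_of_nonneg_right ?_ (norm_nonneg v)) (h2 n)
  have h3 : ∀ i ∈ Finset.range n, |jac F (F^[i] z)| / (2 * d)
      = Real.exp (Real.log (J / (2 * d)) - Real.log (J / |jac F (F^[i] z)|)) := fun i hi => by
    have := abs_pos.2 (h0 i hi)
    rw [Real.exp_sub, Real.exp_log (by positivity), Real.exp_log (by positivity)]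
    field_simp
  rw [Finset.prod_congr rfl h3, ← Real.exp_sum, Finset.sum_sub_distrib, Real.exp_le_exp]
  simp only [Finset.sum_const, Finset.card_range, nsmul_eq_mul]
  linarith only [h1]

lemma Erg_red_add_int (z : P2) (k : ℤ) : red (z + ((k : ℝ), 0)) = red z := by
  simp [red]

lemma Erg_red_null {N : Set P2} (hN : volume N = 0) : volume (red ⁻¹' N) = 0 := by
  refine measure_mono_null (t := ⋃ k : ℤ, (fun z : P2 => z + (((-k : ℤ) : ℝ), 0)) ⁻¹' N)
    (fun z hz => mem_iUnion.2 ⟨⌊z.1⌋, ?_⟩) (measure_iUnion_null fun k => ?_)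
  · have : z + (((-⌊z.1⌋ : ℤ) : ℝ), 0) = red z := by
      ext
      · simp [red, Int.fract, sub_eq_add_neg]
      · simp [red]
    rw [mem_preimage, this]; exact hz
  · rw [measure_preimage_add_right, hN]

lemma Hyp.Erg_strict (H : Hyp F d h ρ δ K J t0 ρ0) {z : P2} (hz : |z.2| < h) :
    HasStrictFDerivAt F (fderiv ℝ F z) z := by
  have hn := strip_mem_nhds hz
  refine hasStrictFDerivAt_of_hasFDerivAt_of_continuousAt
    (Filter.mem_of_superset hn fun y hy => (H.diff y hy).hasFDerivAt) ?_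
  rw [ContinuousAt, tendsto_iff_norm_sub_tendsto_zero]
  have h1 : Tendsto (fun y : P2 => K * ‖y - z‖) (𝓝 z) (𝓝 0) := by
    have : Continuous fun y : P2 => K * ‖y - z‖ := by fun_prop
    simpa using this.tendsto z
  exact squeeze_zero' (Eventually.of_forall fun _ => norm_nonneg _)
    (Filter.mem_of_superset hn fun y hy => H.lip y hy z hz.le) h1

theorem Hyp.exists_ergodic (H : Hyp F d h ρ δ K J t0 ρ0) :
    ∃ (T : P2 → P2) (μ : Measure P2), Measurable T ∧ (∀ z ∈ dom (h - ρ), T z = red (F z)) ∧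
      IsProbabilityMeasure μ ∧ μ ≪ volume ∧ μ (dom (h - ρ))ᶜ = 0 ∧ Ergodic T μ ∧
      ∀ᵐ z ∂μ, ∃ C : ℝ, ∀ (n : ℕ) (v : P2),
        Real.exp (n / 4 - C) * ‖v‖ ≤ ‖fderiv ℝ F^[n] z v‖ := by
  classical
  obtain ⟨G, hG, hGF, H'⟩ := H.exists_measurable
  have hρ := H.ρ_pos
  have hA := H.A_ge
  have e : h - ρ / 2 - ρ / 2 = h - ρ := by ring
  set D := dom (h - ρ) with hD
  have hDm : MeasurableSet D := measurableSet_dom _
  have hDs : D ⊆ strip (h - ρ) := (dom_subset_cdom _).trans (cdom_subset_strip _)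
  have hs1 : strip (h - ρ) ⊆ strip (h - ρ / 2) := strip_mono (by linarith only [hρ])
  have hs2 : strip (h - ρ) ⊆ strip h := strip_mono (by linarith only [hρ])
  have hlt : ∀ z ∈ strip (h - ρ), |z.2| < h - ρ / 2 := fun z hz =>
    lt_of_le_of_lt hz (by linarith only [hρ])
  have hGs : MapsTo G (strip (h - ρ)) (strip (h - ρ)) := fun z hz => e ▸ H'.mapsTo (hs1 hz)
  have hDv : volume D ≠ ⊤ := by rw [hD, Erg_volume_dom]; exact ENNReal.ofReal_ne_top
  set T : P2 → P2 := D.piecewise (red ∘ G) id with hT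
  have hTm : Measurable T := (measurable_red.comp hG).piecewise hDm measurable_id
  have hTD : ∀ z ∈ D, T z = red (G z) := fun z hz => piecewise_eq_of_mem _ _ _ hz
  have hit : ∀ n, ∀ z ∈ D, T^[n] z = red (G^[n] z) := fun n z hz => by
    induction n with
    | zero => exact (red_of_mem_dom hz).symm
    | succ n ih =>
      have hw := hGs.iterate n (hDs hz)
      rw [Function.iterate_succ_apply', Function.iterate_succ_apply', ih,
        hTD _ (red_mem_dom hw)]
      have := H'.iterate_per 1 ⌊(G^[n] z).1⌋ (hs1 (hDs (red_mem_dom hw)))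
      rw [red_add_floor, Function.iterate_one] at this
      rw [this, Erg_red_add_int]
  have hitD : ∀ n, ∀ z ∈ D, red (G^[n] z) ∈ D := fun n z hz =>
    red_mem_dom (hGs.iterate n (hDs hz))
  have hjac : ∀ n, ∀ z ∈ D, jac G (T^[n] z) = jac G (G^[n] z) := fun n z hz => by
    have := H'.fderiv_per ⌊(G^[n] z).1⌋ (hlt _ (hDs (hitD n z hz)))
    rw [red_add_floor] at this
    rw [hit n z hz, jac, jac, this]
  set m : Measure P2 := volume.restrict D with hm
  have : IsFiniteMeasure m := isFiniteMeasure_restrict.2 hDv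
  have hj0 : ∀ᵐ z ∂m, jac G z ≠ 0 := by
    have h1 := H'.lintegral_Bf hG 0
    rw [e] at h1
    filter_upwards [ae_lt_top (Erg_measurable_Bf G d J t0) (ne_top_of_le_ne_top
      (ENNReal.mul_ne_top ENNReal.ofReal_ne_top hDv) h1)] with z hz h0
    simp [Bf, LL, h0] at hz
  have hns : m.map T ≪ m := by
    refine Measure.AbsolutelyContinuous.mk fun N hN h0 => ?_
    rw [Measure.map_apply hTm hN]
    rw [hm, Measure.restrict_apply hN] at h0
    have h1 := null_inter_preimage (f := G) (s := D ∩ {z | jac G z ≠ 0})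
      (fun z hz => ⟨_, H'.Erg_strict (hlt _ (hDs hz.1)), hz.2⟩) (Erg_red_null h0)
    rw [measure_eq_zero_iff_ae_notMem] at h1 ⊢
    filter_upwards [hj0, ae_restrict_of_ae h1, ae_restrict_mem hDm] with z h2 h3 h4 h5
    exact h3 ⟨⟨h4, h2⟩, hTD z h4 ▸ h5, hitD 1 z h4⟩
  set Hn : ℕ → Set P2 := fun n => D ∩ {z | HT G d J t0 n z} with hHn
  have hHm : ∀ n, MeasurableSet (Hn n) := fun n => hDm.inter (Hyp.measurableSet_HT hG n)
  obtain ⟨θ, hθ0, hθ⟩ := H'.sum_HT hG
  obtain ⟨C, hC, hden⟩ := H'.density hG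
  rw [e] at hθ hden
  set V := volume (Metric.cthickening 1 (cdom (h - ρ))) with hV
  have hVt : V ≠ ⊤ := (isCompact_cdom _).cthickening.measure_lt_top.ne
  obtain ⟨μ, hμ, hμm, hμT, hE⟩ := exists_acip (m := m) hTm hns hHm (C := C * (V + 1)) (θ := θ)
    (ENNReal.mul_ne_top hC (by simpa using hVt)) hθ0
    (fun N => (hθ N).trans (le_of_eq (Finset.sum_congr rfl fun n _ => by
      rw [hm, Measure.restrict_eq_self _ inter_subset_left])))
    (fun n B hB => by
      rw [hm, Measure.restrict_apply' hDm, Measure.restrict_apply hB]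
      calc _ ≤ volume {z ∈ D | HT G d J t0 n z ∧ red (G^[n] z) ∈ B ∩ D} := by
            refine measure_mono fun z hz => ?_
            exact ⟨hz.2, hz.1.1.2, hit n z hz.2 ▸ hz.1.2, hitD n z hz.2⟩
        _ ≤ _ := hden n D hDs _ (hB.inter hDm)
        _ ≤ _ := by
            rw [mul_right_comm]
            gcongr
            refine le_trans (measure_mono ?_) le_self_add
            refine (Metric.cthickening_mono ?_ _).trans
              (Metric.cthickening_subset_of_subset _ (dom_subset_cdom _))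
            rw [Real.exp_le_one_iff]
            linarith only [Nat.cast_nonneg (α := ℝ) n])
    (fun Ω hΩ hTΩ ε hε => by
      have hX : MeasurableSet (Ω ∩ D) := hΩ.inter hDm
      have hXt : volume (Ω ∩ D) ≠ ⊤ := ne_top_of_le_ne_top hDv (measure_mono inter_subset_right)
      have hε2 : ε / 2 ≠ 0 := (ENNReal.half_pos hε.ne').ne'
      obtain ⟨Kc, hKX, hK, hKε⟩ := hX.exists_isCompact_sdiff_lt hXt hε2
      have hΩT : MapsTo T Ω Ω := hTΩ.ge
      have h1 : Tendsto (fun n : ℕ => Real.exp (-(n : ℝ) / 4)) atTop (𝓝 0) :=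
        Real.tendsto_exp_atBot.comp ((tendsto_neg_atTop_atBot.comp
          tendsto_natCast_atTop_atTop).atBot_div_const (by norm_num))
      have h2 := ENNReal.Tendsto.const_mul (a := C * volume (Ω ∩ D))
        ((tendsto_measure_cthickening_of_isCompact (μ := volume) hK).comp h1)
        (Or.inr (ENNReal.mul_ne_top hC hXt))
      have h3 : C * volume (Ω ∩ D) * volume Kc < C * volume (Ω ∩ D) * volume Kc + ε / 2 :=
        ENNReal.lt_add_right (ENNReal.mul_ne_top (ENNReal.mul_ne_top hC hXt)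
          hK.measure_lt_top.ne) hε2
      filter_upwards [h2.eventually_lt_const h3] with n hn
      rw [hm, Measure.restrict_apply' hDm, Measure.restrict_apply hΩ]
      calc _ ≤ volume ({z ∈ Kc | HT G d J t0 n z ∧ red (G^[n] z) ∈ Ω ∩ D} ∪ (Ω ∩ D) \ Kc) := by
            refine measure_mono fun z hz => ?_
            by_cases hzK : z ∈ Kc
            · exact Or.inl ⟨hzK, hz.1.1.2, hit n z hz.2 ▸ hΩT.iterate n hz.1.2, hitD n z hz.2⟩
            · exact Or.inr ⟨⟨hz.1.2, hz.2⟩, hzK⟩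
        _ ≤ (C * volume (Ω ∩ D) * volume Kc + ε / 2) + ε / 2 :=
            (measure_union_le _ _).trans (add_le_add
              ((hden n Kc (hKX.trans (inter_subset_right.trans hDs)) _ hX).trans hn.le) hKε.le)
        _ ≤ _ := by
            rw [add_assoc, ENNReal.add_halves, sq, mul_assoc]
            gcongr
            exact le_mul_of_one_le_right' le_add_self)
  have hμD : ∀ᵐ z ∂μ, z ∈ D := hμm.ae_le (ae_restrict_mem hDm)
  refine ⟨T, μ, hTm, fun z hz => by rw [hTD z hz, hGF (hs2 (hDs hz))], hμ,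
    hμm.trans (Measure.absolutelyContinuous_of_le Measure.restrict_le_self), hμD, hμT, ?_⟩
  have hsum := ae_sum_le hμT (L := fun z => LL J (jac G z))
    ((measurable_LL J).comp (measurable_jac G)) (a := Real.log (J / (2 * d)) - 1 / 2)
    (b := Real.log (J / (2 * d)) - 1 / 4) (by linarith only [hA]) (by linarith only []) (H := Hn)
    (fun n x hx => by
      rcases Nat.eq_zero_or_pos n with rfl | hn
      · simp
      · have h1 := hx.2 0 hn
        rw [← Finset.range_eq_Ico, Nat.sub_zero] at h1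
        exact le_trans (Finset.sum_le_sum fun i _ => by
          rw [hjac i x hx.1]; exact le_self_add) h1) hE
  filter_upwards [hsum, hμD] with z ⟨C', hC'⟩ hz
  refine ⟨max C' 0, fun n v => ?_⟩
  have h1 : EqOn G^[n] F^[n] (strip h) := fun w hw => by
    induction n with
    | zero => rfl
    | succ n ih =>
      rw [Function.iterate_succ_apply', Function.iterate_succ_apply', ih,
        hGF (H.mapsTo'.iterate n hw)]
  rw [← (h1.eventuallyEq_of_mem (strip_mem_nhds ((hlt z (hDs hz)).trans (by linarith only [hρ])))).fderiv_eq]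
  refine H'.expansion (hs1 (hDs hz)) (le_max_right _ _) ?_ v
  refine le_trans (le_of_eq (Finset.sum_congr rfl fun i _ => by rw [hjac i z hz]))
    ((hC' n).trans (ENNReal.ofReal_le_ofReal (by linarith only [le_max_left C' 0])))

end Pool.Agent.Work.MP_14af4f_an
end

-- merged part: Pool.Agent.Work.MP_14af4f_an.Transfer
section
/-!
Transfer of the measure to a map of the plane having the annulus map as a return map.
-/

open Set Filter Topology MeasureTheory
open scoped ENNReal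

namespace Pool.Agent.Work.MP_14af4f_an

lemma Transfer_det_iff (A : P2 →L[ℝ] P2) : A.det ≠ 0 ↔ Function.Injective A := by
  have h1 : A.det ≠ 0 ↔ IsUnit (A : P2 →ₗ[ℝ] P2) := by
    rw [LinearMap.isUnit_iff_isUnit_det, isUnit_iff_ne_zero]
  rw [h1, LinearMap.isUnit_iff_ker_eq_bot, LinearMap.ker_eq_bot]
  rfl

lemma Transfer_surj {A : P2 →L[ℝ] P2} (hA : Function.Injective A) : Function.Surjective A := by
  have : Function.Injective (A : P2 →ₗ[ℝ] P2) := hA
  exact LinearMap.injective_iff_surjective.1 this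

lemma Transfer_contDiff_iterate {f : P2 → P2} (hf : ContDiff ℝ 1 f) (n : ℕ) :
    ContDiff ℝ 1 f^[n] := by
  induction n with
  | zero => exact contDiff_id
  | succ n ih => rw [Function.iterate_succ']; exact hf.comp ih

lemma Transfer_diff_iterate {f : P2 → P2} (hf : ContDiff ℝ 1 f) (n : ℕ) :
    Differentiable ℝ f^[n] :=
  (Transfer_contDiff_iterate hf n).differentiable one_ne_zero

lemma Transfer_norm_iterate {f : P2 → P2} (hf : ContDiff ℝ 1 f) {L : ℝ} (hL : 0 ≤ L) {w : P2}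
    (hw : ∀ m, ‖fderiv ℝ f (f^[m] w)‖ ≤ L) (i : ℕ) (v : P2) :
    ‖fderiv ℝ f^[i] w v‖ ≤ L ^ i * ‖v‖ := by
  induction i with
  | zero => simp
  | succ i ih =>
    rw [Function.iterate_succ', fderiv_comp w (hf.differentiable one_ne_zero _)
      (Transfer_diff_iterate hf i w), ContinuousLinearMap.comp_apply]
    calc _ ≤ ‖fderiv ℝ f (f^[i] w)‖ * ‖fderiv ℝ f^[i] w v‖ := ContinuousLinearMap.le_opNorm _ _
      _ ≤ L * (L ^ i * ‖v‖) := mul_le_mul (hw i) ih (norm_nonneg _) hL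
      _ = L ^ (i + 1) * ‖v‖ := by ring

lemma Transfer_per_int {E : Type} {Ξ : P2 → E} (hp : ∀ z, Ξ (z + (1, 0)) = Ξ z) (m : ℤ) (z : P2) :
    Ξ (z + ((m : ℝ), 0)) = Ξ z := by
  have h1 : Function.Periodic Ξ ((1, 0) : P2) := hp
  have h2 := h1.zsmul m z
  have h3 : m • ((1, 0) : P2) = ((m : ℝ), 0) := by ext <;> simp
  rwa [h3] at h2

lemma Transfer_red {E : Type} {Ξ : P2 → E} (hp : ∀ z, Ξ (z + (1, 0)) = Ξ z) (z : P2) :
    Ξ (red z) = Ξ z := by
  rw [← Transfer_per_int hp ⌊z.1⌋ (red z), red_add_floor]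

lemma Transfer_fderiv_per {Ξ : P2 → P2} (hp : ∀ z, Ξ (z + (1, 0)) = Ξ z) (z : P2) :
    fderiv ℝ Ξ (z + (1, 0)) = fderiv ℝ Ξ z := by
  have h1 : (fun x => Ξ (x + (1, 0))) = Ξ := funext hp
  rw [← fderiv_comp_add_right, h1]

/-- Uniform two-sided bounds for the derivative of the chart. -/
lemma Transfer_chart_bound {Ξ : P2 → P2} {h : ℝ}
    (hΞ : ∀ z ∈ strip h, ContDiffAt ℝ 1 Ξ z ∧ (fderiv ℝ Ξ z).det ≠ 0)
    (hp : ∀ z, Ξ (z + (1, 0)) = Ξ z) :
    ∃ L : ℝ, 1 ≤ L ∧ ∀ z ∈ strip h, ∀ v : P2,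
      ‖fderiv ℝ Ξ z v‖ ≤ L * ‖v‖ ∧ ‖v‖ ≤ L * ‖fderiv ℝ Ξ z v‖ := by
  have hcont : ContinuousOn (fderiv ℝ Ξ) (cdom h) := fun z hz =>
    (((hΞ z (cdom_subset_strip h hz)).1.fderiv_right (m := 0)
      (by norm_num)).continuousAt).continuousWithinAt
  obtain ⟨B, hB⟩ := (isCompact_cdom h).exists_bound_of_continuousOn hcont
  have hK : IsCompact (cdom h ×ˢ Metric.sphere (0 : P2) 1) :=
    (isCompact_cdom h).prod (isCompact_sphere _ _)
  have hc2 : ContinuousOn (fun p : P2 × P2 => ‖fderiv ℝ Ξ p.1 p.2‖)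
      (cdom h ×ˢ Metric.sphere (0 : P2) 1) := by
    apply ContinuousOn.norm
    exact (hcont.comp continuousOn_fst (fun p hp => hp.1)).clm_apply continuousOn_snd
  have hpos : ∀ p ∈ cdom h ×ˢ Metric.sphere (0 : P2) 1, (0 : ℝ) < ‖fderiv ℝ Ξ p.1 p.2‖ := by
    intro p hp'
    have hinj := (Transfer_det_iff _).1 (hΞ p.1 (cdom_subset_strip h hp'.1)).2
    have hv : p.2 ≠ 0 := by
      intro h0
      have := hp'.2
      rw [h0] at this
      simp at this
    refine norm_pos_iff.2 fun h0 => hv (hinj ?_)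
    rw [h0, map_zero]
  obtain ⟨c, hc0, hc⟩ := hK.exists_forall_le' hc2 hpos
  refine ⟨max 1 (max B c⁻¹), le_max_left _ _, fun z hz v => ?_⟩
  have hz' : red z ∈ cdom h := dom_subset_cdom h (red_mem_dom hz)
  rw [← Transfer_red (Transfer_fderiv_per hp) z]
  constructor
  · calc _ ≤ ‖fderiv ℝ Ξ (red z)‖ * ‖v‖ := ContinuousLinearMap.le_opNorm _ _
      _ ≤ _ := mul_le_mul_of_nonneg_right
        ((hB _ hz').trans ((le_max_left _ _).trans (le_max_right _ _))) (norm_nonneg _)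
  · by_cases hv : v = 0
    · simp [hv]
    have hn : 0 < ‖v‖ := norm_pos_iff.2 hv
    have h1 := hc (red z, ‖v‖⁻¹ • v) ⟨hz', by
      simp [norm_smul, inv_mul_cancel₀ hn.ne']⟩
    simp only [map_smul, norm_smul, norm_inv, norm_norm] at h1
    have h2 : ‖v‖ ≤ c⁻¹ * ‖fderiv ℝ Ξ (red z) v‖ := by
      rw [inv_mul_eq_div, le_div_iff₀ hc0]
      rw [inv_mul_eq_div, le_div_iff₀ hn] at h1
      linarith only [h1]
    exact h2.trans (mul_le_mul_of_nonneg_right
      ((le_max_right _ _).trans (le_max_right _ _)) (norm_nonneg _))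

lemma Transfer_semiconj {F f Ξ : P2 → P2} {h : ℝ} {N : ℕ} (hF : MapsTo F (strip h) (strip h))
    (hs : ∀ z ∈ strip h, f^[N] (Ξ z) = Ξ (F z)) (n : ℕ) {z : P2} (hz : z ∈ strip h) :
    f^[N * n] (Ξ z) = Ξ (F^[n] z) := by
  induction n with
  | zero => simp
  | succ n ih =>
    rw [Nat.mul_succ, Nat.add_comm, Function.iterate_add_apply, ih, hs _ (hF.iterate n hz),
      Function.iterate_succ_apply']

/-- The average of the images of a measure. -/
noncomputable def Transfer_avg (μ : Measure P2) (g : ℕ → P2 → P2) (N : ℕ) : Measure P2 :=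
  (N : ℝ≥0∞)⁻¹ • ∑ k ∈ Finset.range N, μ.map (g k)

lemma Transfer_avg_apply {μ : Measure P2} {g : ℕ → P2 → P2} (hg : ∀ k, Measurable (g k)) (N : ℕ)
    {s : Set P2} (hs : MeasurableSet s) :
    Transfer_avg μ g N s = (N : ℝ≥0∞)⁻¹ * ∑ k ∈ Finset.range N, μ (g k ⁻¹' s) := by
  rw [Transfer_avg, Measure.smul_apply, Measure.finsetSum_apply, smul_eq_mul]
  congr 1
  exact Finset.sum_congr rfl fun k _ => Measure.map_apply (hg k) hs

lemma Transfer_avg_null {μ : Measure P2} {g : ℕ → P2 → P2} (hg : ∀ k, Measurable (g k)) (N : ℕ)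
    {s : Set P2} (hs : MeasurableSet s) (h0 : ∀ k < N, μ (g k ⁻¹' s) = 0) :
    Transfer_avg μ g N s = 0 := by
  rw [Transfer_avg_apply hg N hs, Finset.sum_eq_zero fun k hk => h0 k (Finset.mem_range.1 hk),
    mul_zero]

lemma Transfer_avg_const {μ : Measure P2} {g : ℕ → P2 → P2} (hg : ∀ k, Measurable (g k)) {N : ℕ}
    (hN : 0 < N) {s E : Set P2} (hs : MeasurableSet s) (h0 : ∀ k, g k ⁻¹' s = E) :
    Transfer_avg μ g N s = μ E := by
  rw [Transfer_avg_apply hg N hs]
  simp only [h0, Finset.sum_const, Finset.card_range, nsmul_eq_mul]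
  rw [← mul_assoc, ENNReal.inv_mul_cancel (by exact_mod_cast hN.ne') (ENNReal.natCast_ne_top N),
    one_mul]

lemma Transfer_measurableSet {f : P2 → P2} (hf : ContDiff ℝ 1 f) (χ : ℝ) :
    MeasurableSet {w : P2 | ∀ᶠ n : ℕ in atTop, ∀ v : P2,
      Real.exp (χ * n) * ‖v‖ ≤ ‖fderiv ℝ f^[n] w v‖} := by
  have h1 : {w : P2 | ∀ᶠ n : ℕ in atTop, ∀ v : P2,
      Real.exp (χ * n) * ‖v‖ ≤ ‖fderiv ℝ f^[n] w v‖} = ⋃ m : ℕ, ⋂ n : ℕ, ⋂ _ : m ≤ n, ⋂ v : P2,
        {w : P2 | Real.exp (χ * n) * ‖v‖ ≤ ‖fderiv ℝ f^[n] w v‖} := by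
    ext w
    simp only [eventually_atTop, mem_ofPred_eq, mem_iUnion, mem_iInter]
  rw [h1]
  refine MeasurableSet.iUnion fun m => IsClosed.measurableSet ?_
  refine isClosed_iInter fun n => isClosed_iInter fun _ => isClosed_iInter fun v => ?_
  refine isClosed_le continuous_const ?_
  exact (((Transfer_contDiff_iterate hf n).continuous_fderiv one_ne_zero).clm_apply
    continuous_const).norm

theorem good_of_semiconj {F : P2 → P2} {d : ℕ} {h ρ δ K J t0 ρ0 : ℝ}
    (H : Hyp F d h ρ δ K J t0 ρ0) {f Ξ : P2 → P2} (hf : ContDiff ℝ 1 f) {N : ℕ} (hN : 0 < N)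
    (hc : Continuous Ξ) (hΞ : ∀ z ∈ strip h, ContDiffAt ℝ 1 Ξ z ∧ (fderiv ℝ Ξ z).det ≠ 0)
    (hp : ∀ z, Ξ (z + (1, 0)) = Ξ z) (hs : ∀ z ∈ strip h, f^[N] (Ξ z) = Ξ (F z)) : Good f := by
  obtain ⟨T, μ, hT, hTF, hμ, hac, hD, herg, hexp⟩ := H.exists_ergodic
  have hρ := H.ρ_pos
  have hsub : strip (h - ρ) ⊆ strip h := strip_mono (by linarith only [hρ])
  have hDs : dom (h - ρ) ⊆ strip (h - ρ) := (dom_subset_cdom _).trans (cdom_subset_strip _)
  have hlt : ∀ z ∈ strip (h - ρ), |z.2| < h := fun z hz => lt_of_le_of_lt hz (by linarith only [hρ])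
  have haeD : ∀ᵐ z ∂μ, z ∈ dom (h - ρ) := hD
  set g : ℕ → P2 → P2 := fun k => f^[k] ∘ Ξ with hg
  have hgc : ∀ k, Continuous (g k) := fun k => (hf.continuous.iterate k).comp hc
  have hgm : ∀ k, Measurable (g k) := fun k => (hgc k).measurable
  have hfm : Measurable f := hf.continuous.measurable
  have hΞd : ∀ z ∈ strip h, DifferentiableAt ℝ Ξ z := fun z hz =>
    (hΞ z hz).1.differentiableAt one_ne_zero
  have hgd : ∀ k, ∀ z ∈ strip h, ContDiffAt ℝ 1 (g k) z := fun k z hz =>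
    (Transfer_contDiff_iterate hf k).contDiffAt.comp z (hΞ z hz).1
  have hNT : ∀ z ∈ dom (h - ρ), f^[N] (Ξ z) = Ξ (T z) := fun z hz => by
    rw [hs z (hsub (hDs hz)), hTF z hz, Transfer_red hp]
  -- derivative of `g (N * n)`
  have hder : ∀ n, ∀ z ∈ strip (h - ρ), ∀ u : P2,
      fderiv ℝ (g (N * n)) z u = fderiv ℝ Ξ (F^[n] z) (fderiv ℝ F^[n] z u) := by
    intro n z hz u
    have h1 : g (N * n) =ᶠ[𝓝 z] Ξ ∘ F^[n] := by
      filter_upwards [strip_mem_nhds (hlt z hz)] with x hx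
      exact Transfer_semiconj H.mapsTo' hs n hx
    rw [h1.fderiv_eq, fderiv_comp z (hΞd _ (H.mapsTo'.iterate n (hsub hz)))
      (H.hasFDerivAt_iterate n (hsub hz)).1, ContinuousLinearMap.comp_apply]
  have hadd : ∀ a b, ∀ z ∈ strip h, ∀ u : P2,
      fderiv ℝ (g (a + b)) z u = fderiv ℝ f^[a] (g b z) (fderiv ℝ (g b) z u) := by
    intro a b z hz u
    have h1 : g (a + b) = f^[a] ∘ g b := by
      funext x
      simp only [hg, Function.comp_apply, Function.iterate_add_apply]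
    rw [h1, fderiv_comp z (Transfer_diff_iterate hf a _)
      ((hgd b z hz).differentiableAt one_ne_zero), ContinuousLinearMap.comp_apply]
  -- injectivity of the derivative of `g k`
  have hinj : ∀ z ∈ strip (h - ρ), (∃ C : ℝ, ∀ (n : ℕ) (v : P2),
      Real.exp (n / 4 - C) * ‖v‖ ≤ ‖fderiv ℝ F^[n] z v‖) → ∀ k ≤ N,
      Function.Injective (fderiv ℝ (g k) z) := by
    rintro z hz ⟨C, hC⟩ k hk
    rw [injective_iff_map_eq_zero]
    intro u hu
    have h1 := hadd (N - k) k z (hsub hz) u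
    rw [hu, map_zero, Nat.sub_add_cancel hk] at h1
    have h2 := hder 1 z hz u
    rw [mul_one, h1] at h2
    have h3 := (Transfer_det_iff _).1 (hΞ _ (H.mapsTo'.iterate 1 (hsub hz))).2
    rw [injective_iff_map_eq_zero] at h3
    have h4 := hC 1 u
    rw [h3 _ h2.symm, norm_zero] at h4
    have h5 := Real.exp_pos (((1 : ℕ) : ℝ) / 4 - C)
    have h6 : ‖u‖ ≤ 0 := by
      by_contra h7
      have := mul_pos h5 (lt_of_not_ge h7)
      linarith only [h4, this]
    exact norm_le_zero_iff.1 h6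
  -- the compact support
  set S : Set P2 := ⋃ k ∈ Finset.range N, g k '' cdom (h - ρ) with hS
  have hSc : IsCompact S := (Finset.range N).isCompact_biUnion fun k _ =>
    (isCompact_cdom _).image (hgc k)
  have hFs : MapsTo F (strip (h - ρ)) (strip (h - ρ)) := H.mapsTo.mono_left hsub
  have horb : ∀ z ∈ strip (h - ρ), ∀ m, f^[m] (Ξ z) ∈ S := by
    intro z hz m
    have h1 : f^[m] (Ξ z) = g (m % N) (red (F^[m / N] z)) := by
      simp only [hg, Function.comp_apply]
      rw [Transfer_red hp, ← Transfer_semiconj H.mapsTo' hs _ (hsub hz),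
        ← Function.iterate_add_apply, Nat.mod_add_div]
    rw [h1]
    exact mem_biUnion (Finset.mem_coe.2 (Finset.mem_range.2 (Nat.mod_lt _ hN)))
      (mem_image_of_mem _ (dom_subset_cdom _ (red_mem_dom (hFs.iterate _ hz))))
  refine ⟨Transfer_avg μ g N, ⟨?_⟩, ?_, ⟨⟨hfm, ?_⟩, ⟨?_⟩⟩, ⟨S, hSc, ?_⟩, 1 / (8 * N),
    by positivity, ?_⟩
  · rw [Transfer_avg_const hgm hN MeasurableSet.univ (fun k => preimage_univ), measure_univ]
  · refine Measure.AbsolutelyContinuous.mk fun B hB hB0 => ?_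
    refine Transfer_avg_null hgm N hB fun k hk => ?_
    set G : Set P2 := {z | z ∈ strip h ∧ (fderiv ℝ (g k) z).det ≠ 0} with hG
    have h1 : volume (G ∩ g k ⁻¹' B) = 0 := by
      refine null_inter_preimage (fun z hz => ⟨_, ?_, hz.2⟩) hB0
      exact (hgd k z hz.1).hasStrictFDerivAt one_ne_zero
    have h2 : μ Gᶜ = 0 := by
      have : ∀ᵐ z ∂μ, z ∈ G := by
        filter_upwards [haeD, hexp] with z hz hz'
        exact ⟨hsub (hDs hz), (Transfer_det_iff _).2 (hinj z (hDs hz) hz' k hk.le)⟩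
      exact this
    refine measure_mono_null (t := (G ∩ g k ⁻¹' B) ∪ Gᶜ) (fun z hz => ?_)
      (measure_union_null (hac h1) h2)
    by_cases hzG : z ∈ G
    · exact Or.inl ⟨hzG, hz⟩
    · exact Or.inr hzG
  · ext s hs'
    rw [Measure.map_apply hfm hs', Transfer_avg_apply hgm N (hfm hs'),
      Transfer_avg_apply hgm N hs']
    congr 1
    have h1 : ∀ k, g k ⁻¹' (f ⁻¹' s) = g (k + 1) ⁻¹' s := by
      intro k
      ext x
      simp only [hg, mem_preimage, Function.comp_apply, Function.iterate_succ_apply']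
    have h2 : μ (g N ⁻¹' s) = μ (g 0 ⁻¹' s) := by
      rw [← herg.toMeasurePreserving.measure_preimage (hgm 0 hs').nullMeasurableSet]
      refine measure_congr ?_
      filter_upwards [haeD] with z hz
      change (f^[N] (Ξ z) ∈ s) = (Ξ (T z) ∈ s)
      rw [hNT z hz]
    simp only [h1]
    obtain ⟨M, rfl⟩ : ∃ M, N = M + 1 := ⟨N - 1, by omega⟩
    rw [Finset.sum_range_succ, Finset.sum_range_succ' (fun k => μ (g k ⁻¹' s)), h2]
  · intro s hs' hinv
    have h1 : ∀ k, g k ⁻¹' s = Ξ ⁻¹' s := by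
      intro k
      have : f^[k] ⁻¹' s = s := by
        rw [preimage_iterate_eq]
        exact Function.IsFixedPt.iterate hinv k
      simp only [hg, preimage_comp, this]
    have h2 : T ⁻¹' (Ξ ⁻¹' s) =ᵐ[μ] Ξ ⁻¹' s := by
      filter_upwards [haeD] with z hz
      change (Ξ (T z) ∈ s) = (z ∈ Ξ ⁻¹' s)
      rw [← hNT z hz, ← h1 N]
      rfl
    rw [eventuallyConst_set']
    rcases herg.quasiErgodic.ae_empty_or_univ₀ (hc.measurable hs').nullMeasurableSet h2 with
      h3 | h3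
    · left
      rw [ae_eq_empty] at h3 ⊢
      rw [Transfer_avg_const hgm hN hs' h1, h3]
    · right
      rw [ae_eq_univ] at h3 ⊢
      rw [Transfer_avg_const hgm hN hs'.compl (E := (Ξ ⁻¹' s)ᶜ)
        (fun k => by rw [preimage_compl, h1]), h3]
  · refine Transfer_avg_null hgm N hSc.isClosed.measurableSet.compl fun k _ => ?_
    refine measure_mono_null (fun z hz => ?_) hD
    intro hzD
    exact hz (horb z (hDs hzD) k)
  · obtain ⟨L1, hL1, hL1b⟩ := Transfer_chart_bound hΞ hp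
    obtain ⟨L2, hL2⟩ := hSc.exists_bound_of_continuousOn
      (hf.continuous_fderiv one_ne_zero).continuousOn
    set L := max L1 L2 with hL
    have hL1' : L1 ≤ L := le_max_left _ _
    have hLone : 1 ≤ L := hL1.trans hL1'
    have hLpos : 0 < L := lt_of_lt_of_le one_pos hLone
    have hit : ∀ z ∈ strip (h - ρ), ∀ m i, i ≤ N → ∀ v : P2,
        ‖fderiv ℝ f^[i] (f^[m] (Ξ z)) v‖ ≤ L ^ N * ‖v‖ := by
      intro z hz m i hi v
      refine (Transfer_norm_iterate hf hLpos.le (fun m' => ?_) i v).trans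
        (mul_le_mul_of_nonneg_right (pow_le_pow_right₀ hLone hi) (norm_nonneg _))
      rw [← Function.iterate_add_apply]
      exact (hL2 _ (horb z hz _)).trans (le_max_right _ _)
    refine Transfer_avg_null hgm N (Transfer_measurableSet hf (1 / (8 * N))).compl
      fun j hj => ?_
    have : ∀ᵐ z ∂μ, g j z ∈ {w : P2 | ∀ᶠ n : ℕ in atTop, ∀ v : P2,
        Real.exp (1 / (8 * N) * n) * ‖v‖ ≤ ‖fderiv ℝ f^[n] w v‖} := by
      filter_upwards [haeD, hexp] with z hz hz'
      have hzs := hDs hz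
      have hsurj := Transfer_surj (hinj z hzs hz' j hj.le)
      obtain ⟨C, hC⟩ := hz'
      have hNr : (0 : ℝ) < N := by exact_mod_cast hN
      have hev : ∀ᶠ n : ℕ in atTop, (8 * N) * (C + Real.log (L ^ (2 * N + 2))) ≤ (n : ℝ) :=
        tendsto_natCast_atTop_atTop.eventually_ge_atTop _
      filter_upwards [hev] with n' hn' v
      obtain ⟨u, rfl⟩ := hsurj v
      set n := (j + n') / N + 1 with hn
      have hdm := Nat.mod_add_div (j + n') N
      have hml := Nat.mod_lt (j + n') hN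
      have hNn : N * n = N * ((j + n') / N) + N := by rw [hn]; ring
      set i := N * n - (j + n') with hi
      have hiN : i ≤ N := by omega
      have hsum : N * n = i + (n' + j) := by omega
      -- upper bound for `v`
      have e1 : ‖fderiv ℝ (g j) z u‖ ≤ L ^ N * (L * ‖u‖) := by
        have h1 := hadd j 0 z (hsub hzs) u
        rw [add_zero] at h1
        rw [h1]
        refine (hit z hzs 0 j hj.le _).trans
          (mul_le_mul_of_nonneg_left ?_ (pow_nonneg hLpos.le _))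
        exact (hL1b z (hsub hzs) u).1.trans (mul_le_mul_of_nonneg_right hL1' (norm_nonneg _))
      have e2 : ‖fderiv ℝ (g (N * n)) z u‖ ≤
          L ^ N * ‖fderiv ℝ f^[n'] (g j z) (fderiv ℝ (g j) z u)‖ := by
        rw [hsum, hadd i (n' + j) z (hsub hzs), hadd n' j z (hsub hzs)]
        exact hit z hzs (n' + j) i hiN _
      have e3 : Real.exp (n / 4 - C) * ‖u‖ ≤ L * ‖fderiv ℝ (g (N * n)) z u‖ := by
        rw [hder n z hzs]
        refine (hC n u).trans (((hL1b _ (H.mapsTo'.iterate n (hsub hzs)) _).2).trans ?_)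
        exact mul_le_mul_of_nonneg_right hL1' (norm_nonneg _)
      have hLp : 0 < L ^ (2 * N + 2) := pow_pos hLpos _
      have e4 : Real.exp (1 / (8 * N) * n') * L ^ (2 * N + 2) ≤ Real.exp (n / 4 - C) := by
        rw [← Real.exp_log hLp, ← Real.exp_add]
        refine Real.exp_le_exp.2 ?_
        have h1 : (n' : ℝ) ≤ N * n := by
          have : n' ≤ N * n := by omega
          exact_mod_cast this
        have h2 : 1 / (8 * (N : ℝ)) * n' ≤ n / 8 := by
          rw [div_mul_eq_mul_div, one_mul, div_le_div_iff₀ (by positivity) (by norm_num)]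
          linarith only [h1]
        have h3 : C + Real.log (L ^ (2 * N + 2)) ≤ 1 / (8 * (N : ℝ)) * n' := by
          rw [div_mul_eq_mul_div, one_mul, le_div_iff₀ (by positivity)]
          linarith only [hn']
        linarith only [h2, h3]
      set W := ‖fderiv ℝ f^[n'] (g j z) (fderiv ℝ (g j) z u)‖ with hW
      have hE := Real.exp_pos (1 / (8 * (N : ℝ)) * n')
      have hA : 0 < L ^ N * L := mul_pos (pow_pos hLpos _) hLpos
      have e5 : L ^ (2 * N + 2) = (L ^ N * L) * (L ^ N * L) := by ring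
      have e6 : Real.exp (1 / (8 * N) * n') * ((L ^ N * L) * (L ^ N * L)) * ‖u‖ ≤
          (L ^ N * L) * W := by
        calc _ ≤ Real.exp (n / 4 - C) * ‖u‖ := by
              rw [← e5]; exact mul_le_mul_of_nonneg_right e4 (norm_nonneg _)
          _ ≤ L * (L ^ N * W) := e3.trans (mul_le_mul_of_nonneg_left e2 hLpos.le)
          _ = _ := by ring
      have e7 : Real.exp (1 / (8 * N) * n') * (L ^ N * (L * ‖u‖)) ≤ W := by
        refine le_of_mul_le_mul_left ?_ hA
        calc _ = Real.exp (1 / (8 * N) * n') * ((L ^ N * L) * (L ^ N * L)) * ‖u‖ := by ring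
          _ ≤ _ := e6
      exact (mul_le_mul_of_nonneg_left e1 hE.le).trans e7
    exact this

end Pool.Agent.Work.MP_14af4f_an
end

-- merged part: Pool.Agent.Work.MP_14af4f_an.Kingman
section
/-!
The subadditive ergodic theorem for bounded cocycles.
-/

open Set Filter Topology MeasureTheory

namespace Pool.Agent.Work.MP_14af4f_an

/-- The points whose lower growth rate is below `q`. -/
def Kingman_S {X : Type} (b : ℕ → X → ℝ) (q : ℝ) : Set X :=
  {x | ∃ r : ℚ, (r : ℝ) < q ∧ ∃ᶠ n : ℕ in atTop, b n x < r * n}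

lemma Kingman_meas {X : Type} [MeasurableSpace X] {b : ℕ → X → ℝ} (hb : ∀ n, Measurable (b n))
    (q : ℝ) : MeasurableSet (Kingman_S b q) := by
  have e : Kingman_S b q =
      ⋃ r : ℚ, ⋃ _ : (r : ℝ) < q, ⋂ N : ℕ, ⋃ n : ℕ, ⋃ _ : N ≤ n, {x | b n x < r * n} := by
    ext x
    simp only [Kingman_S, mem_ofPred_eq, frequently_atTop, mem_iUnion, mem_iInter, exists_prop]
  rw [e]
  exact MeasurableSet.iUnion fun r => MeasurableSet.iUnion fun _ => MeasurableSet.iInter fun N =>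
    MeasurableSet.iUnion fun n => MeasurableSet.iUnion fun _ =>
      measurableSet_lt (hb n) measurable_const

lemma Kingman_pre {X : Type} {T : X → X} {b : ℕ → X → ℝ}
    (hs : ∀ n m x, b (n + m) x ≤ b n x + b m (T^[n] x)) (q : ℝ) :
    T ⁻¹' Kingman_S b q ⊆ Kingman_S b q := by
  rintro x ⟨r, hr, hx⟩
  obtain ⟨r', h1, h2⟩ := exists_rat_btwn hr
  refine ⟨r', h2, ?_⟩
  rw [frequently_atTop] at hx ⊢
  intro N
  obtain ⟨K, hK⟩ := exists_nat_ge ((b 1 x - r') / (r' - r))
  obtain ⟨n, hn, hlt⟩ := hx (max N K)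
  refine ⟨1 + n, by have := le_max_left N K; omega, ?_⟩
  have h3 := hs 1 n x
  have h4 : (K : ℝ) ≤ n := by exact_mod_cast le_trans (le_max_right N K) hn
  rw [div_le_iff₀ (by linarith only [h1])] at hK
  simp only [Function.iterate_one] at h3
  push_cast
  linarith only [hK, hlt, h3, h1, h4, mul_nonneg_of_nonpos_of_nonpos (le_of_lt (Mathlib.Tactic.Linarith.sub_neg_of_lt h1)) (Mathlib.Tactic.Linarith.sub_nonpos_of_le h4)]

lemma Kingman_lin {X : Type} {T : X → X} {b : ℕ → X → ℝ} {C : ℝ}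
    (hs : ∀ n m x, b (n + m) x ≤ b n x + b m (T^[n] x)) {x : X}
    (hx : ∀ i, b 1 (T^[i] x) ≤ C) (N : ℕ) : b (N + 1) x ≤ C * ((N + 1 : ℕ) : ℝ) := by
  induction N with
  | zero => simpa using hx 0
  | succ N ih =>
    have h1 := hs (N + 1) 1 x
    have h2 := hx (N + 1)
    push_cast at ih ⊢
    linarith

/-- The covering argument along one orbit. -/
lemma Kingman_cover {X : Type} {T : X → X} {b : ℕ → X → ℝ} {C q : ℝ} (hC : 0 ≤ C) (hq : 0 ≤ q)
    (hs : ∀ n m x, b (n + m) x ≤ b n x + b m (T^[n] x)) {M : ℕ} (hM : 1 ≤ M) {B : Set X}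
    (hB : ∀ x, x ∉ B → ∃ n, 1 ≤ n ∧ n ≤ M ∧ b n x ≤ q * n) (N : ℕ) :
    ∀ x, (∀ i, b 1 (T^[i] x) ≤ C) → 1 ≤ N →
      b N x ≤ q * N + C * birkhoffSum T (B.indicator fun _ => (1 : ℝ)) N x + C * M := by
  have hnn : ∀ n x, 0 ≤ birkhoffSum T (B.indicator fun _ => (1 : ℝ)) n x := fun n x =>
    Finset.sum_nonneg fun i _ => indicator_nonneg (fun _ _ => zero_le_one) _
  induction N using Nat.strong_induction_on with
  | _ N ih =>
    intro x hx hN
    have hgood : ∀ n i, b 1 (T^[i] (T^[n] x)) ≤ C := fun n i => by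
      rw [← Function.iterate_add_apply]; exact hx _
    by_cases hNM : N ≤ M
    · obtain ⟨k, rfl⟩ : ∃ k, N = k + 1 := ⟨N - 1, by omega⟩
      have h1 := Kingman_lin hs hx k
      have h2 : ((k + 1 : ℕ) : ℝ) ≤ M := by exact_mod_cast hNM
      have h3 := mul_le_mul_of_nonneg_left h2 hC
      have h4 := mul_nonneg hC (hnn (k + 1) x)
      have h5 : 0 ≤ q * ((k + 1 : ℕ) : ℝ) := by positivity
      linarith only [h1, h3, h4, h5]
    · by_cases hxB : x ∈ B
      · obtain ⟨k, rfl⟩ : ∃ k, N = 1 + k := ⟨N - 1, by omega⟩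
        have h1 := hs 1 k x
        have h2 := ih k (by omega) (T^[1] x) (hgood 1) (by omega)
        have h3 := hx 0
        rw [birkhoffSum_add, birkhoffSum_one, indicator_of_mem hxB]
        simp only [Function.iterate_zero, id_eq] at h3
        push_cast
        linarith only [hq, h1, h2, h3]
      · obtain ⟨n, hn1, hnM, hn⟩ := hB x hxB
        obtain ⟨k, rfl⟩ : ∃ k, N = n + k := ⟨N - n, by omega⟩
        have h1 := hs n k x
        have h2 := ih k (by omega) (T^[n] x) (hgood n) (by omega)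
        have h4 := mul_nonneg hC (hnn n x)
        rw [birkhoffSum_add]
        push_cast
        linarith only [hn, h1, h2, h4]

/-- One-sided ergodic theorem for visits to a set. -/
lemma Kingman_visits {X : Type} [MeasurableSpace X] {μ : Measure X} [IsProbabilityMeasure μ]
    {T : X → X} (hT : Ergodic T μ) {B : Set X} (hB : MeasurableSet B) {e : ℝ}
    (he : μ.real B < e) :
    ∀ᵐ x ∂μ, ∃ K : ℝ, ∀ n : ℕ, birkhoffSum T (B.indicator fun _ => (1 : ℝ)) n x ≤ e * n + K := by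
  set ψ : X → ℝ := fun x => B.indicator (fun _ => (1 : ℝ)) x - e with hψ
  have hi : Integrable (B.indicator fun _ => (1 : ℝ)) μ := (integrable_const 1).indicator hB
  have hψm : Measurable ψ := (measurable_const.indicator hB).sub measurable_const
  have hψi : Integrable ψ μ := hi.sub (integrable_const e)
  have hneg : ∫ x, ψ x ∂μ < 0 := by
    rw [hψ, integral_sub hi (integrable_const e), integral_indicator_const _ hB]
    simpa using he
  rcases hT.toPreErgodic.ae_mem_or_ae_notMem (measurableSet_unbounded hT.measurable hψm)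
    (unbounded_invariant T ψ) with h | h
  · exact absurd (integral_nonneg_of_unbounded hT.toMeasurePreserving hψi hψm h) (not_le.2 hneg)
  · filter_upwards [h] with x hx
    simp only [not_not] at hx
    obtain ⟨K, hK⟩ := hx
    refine ⟨K, fun n => ?_⟩
    have h1 := hK ⟨n, rfl⟩
    have h2 : birkhoffSum T ψ n x =
        birkhoffSum T (B.indicator fun _ => (1 : ℝ)) n x - e * n := by
      simp [birkhoffSum, hψ, Finset.sum_sub_distrib, mul_comm]
    simp only at h1
    linarith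

/-- The upper bound. -/
lemma Kingman_upper {X : Type} [MeasurableSpace X] {μ : Measure X} [IsProbabilityMeasure μ]
    {T : X → X} (hT : Ergodic T μ) {b : ℕ → X → ℝ} (hb : ∀ n, Measurable (b n)) {C q : ℝ}
    (hC : 0 ≤ C) (hq : 0 ≤ q) (hx : ∀ᵐ x ∂μ, ∀ i, b 1 (T^[i] x) ≤ C)
    (hs : ∀ n m x, b (n + m) x ≤ b n x + b m (T^[n] x)) (hS : ∀ᵐ x ∂μ, x ∈ Kingman_S b q)
    {ε : ℝ} (hε : 0 < ε) : ∀ᵐ x ∂μ, ∀ᶠ n : ℕ in atTop, b n x ≤ (q + ε) * n := by
  set B : ℕ → Set X := fun M => {x | ∀ n : ℕ, 1 ≤ n → n ≤ M → q * n < b n x} with hBdef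
  have hBm : ∀ M, MeasurableSet (B M) := by
    intro M
    have e : B M = ⋂ n : ℕ, ⋂ _ : 1 ≤ n, ⋂ _ : n ≤ M, {x | q * n < b n x} := by
      ext x; simp [hBdef]
    rw [e]
    exact MeasurableSet.iInter fun n => MeasurableSet.iInter fun _ =>
      MeasurableSet.iInter fun _ => measurableSet_lt measurable_const (hb n)
  have hanti : Antitone B := fun M M' h x hx n h1 h2 => hx n h1 (h2.trans h)
  have hnull : μ (⋂ M, B M) = 0 := by
    refine measure_mono_null ?_ (ae_iff.1 hS)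
    rintro x hx ⟨r, hr, hf⟩
    obtain ⟨n, hlt, hn⟩ := (hf.and_eventually (eventually_ge_atTop 1)).exists
    have h1 := mem_iInter.1 hx n n hn le_rfl
    have h2 : (0 : ℝ) ≤ n := Nat.cast_nonneg n
    linarith only [hlt, h1, hr, mul_nonneg_of_nonpos_of_nonpos (Mathlib.Tactic.Linarith.sub_nonpos_of_le (Mathlib.Tactic.Linarith.natCast_nonneg ℝ n)) (le_of_lt (Mathlib.Tactic.Linarith.sub_neg_of_lt hr))]
  have hlim : Tendsto (fun M => μ (B M)) atTop (𝓝 0) := by
    rw [← hnull]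
    exact tendsto_measure_iInter_atTop (fun M => (hBm M).nullMeasurableSet) hanti
      ⟨0, measure_ne_top _ _⟩
  have hlim' : Tendsto (fun M => μ.real (B M)) atTop (𝓝 0) := by
    exact (ENNReal.tendsto_toReal ENNReal.zero_ne_top).comp hlim
  have hδ : 0 < ε / (2 * (C + 1)) := by positivity
  obtain ⟨M, hM, hM1⟩ := ((hlim'.eventually (gt_mem_nhds hδ)).and (eventually_ge_atTop 1)).exists
  filter_upwards [hx, Kingman_visits hT (hBm M) hM] with x hx1 hx2
  obtain ⟨K, hK⟩ := hx2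
  obtain ⟨N, hN⟩ := exists_nat_ge ((C * K + C * M) / (ε / 2))
  filter_upwards [eventually_ge_atTop N, eventually_ge_atTop 1] with n hn hn1
  have h1 := Kingman_cover hC hq hs hM1 (B := B M) (by
    intro y hy
    simp only [hBdef, mem_ofPred_eq, not_forall, not_lt] at hy
    obtain ⟨k, a1, a2, a3⟩ := hy
    exact ⟨k, a1, a2, a3⟩) n x hx1 hn1
  have h2 := mul_le_mul_of_nonneg_left (hK n) hC
  have h3 : (N : ℝ) ≤ n := by exact_mod_cast hn
  rw [div_le_iff₀ (by positivity)] at hN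
  have h4 : C * (ε / (2 * (C + 1))) ≤ ε / 2 := by
    rw [← mul_div_assoc, div_le_div_iff₀ (by positivity) (by positivity)]
    linarith only [hε]
  have h5 : (0 : ℝ) ≤ n := Nat.cast_nonneg n
  have h6 := mul_le_mul_of_nonneg_right h4 h5
  linarith only [hN, h1, h2, h6, hε, h3, mul_nonneg_of_nonpos_of_nonpos (le_of_lt (Mathlib.Tactic.Linarith.sub_neg_of_lt hε)) (Mathlib.Tactic.Linarith.sub_nonpos_of_le h3)]

theorem kingman {X : Type} [MeasurableSpace X] {μ : Measure X} [IsProbabilityMeasure μ]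
    {T : X → X} (hT : Ergodic T μ) {b : ℕ → X → ℝ} (hb : ∀ n, Measurable (b n)) {C : ℝ}
    (h0 : ∀ n x, 0 ≤ b n x) (hC : ∀ᵐ x ∂μ, b 1 x ≤ C)
    (hs : ∀ n m x, b (n + m) x ≤ b n x + b m (T^[n] x)) :
    ∃ c : ℝ, ∀ᵐ x ∂μ, Tendsto (fun n : ℕ => b n x / n) atTop (𝓝 c) := by
  have hC0 : 0 ≤ C := by
    obtain ⟨x, hx⟩ := hC.exists
    exact (h0 1 x).trans hx
  have hx : ∀ᵐ x ∂μ, ∀ i, b 1 (T^[i] x) ≤ C := by
    rw [ae_all_iff]
    intro i
    exact (hT.toMeasurePreserving.iterate i).quasiMeasurePreserving.ae hC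
  set Q : Set ℝ := {q | ∀ᵐ x ∂μ, x ∈ Kingman_S b q} with hQ
  have hne : Q.Nonempty := by
    obtain ⟨r, hr⟩ := exists_rat_gt C
    refine ⟨r + 1, ?_⟩
    filter_upwards [hx] with x hx
    refine ⟨r, by linarith, Eventually.frequently ?_⟩
    filter_upwards [eventually_ge_atTop 1] with n hn
    obtain ⟨k, rfl⟩ : ∃ k, n = k + 1 := ⟨n - 1, by omega⟩
    have h1 := Kingman_lin hs hx k
    have h2 : (0 : ℝ) < ((k + 1 : ℕ) : ℝ) := by positivity
    linarith only [h1, hr, h2, mul_pos_of_neg_of_neg (Mathlib.Tactic.Linarith.sub_neg_of_lt hr) (Mathlib.Tactic.Linarith.sub_neg_of_lt h2)]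
  have hlow : ∀ q ∈ Q, 0 ≤ q := by
    intro q hq
    have hq' : ∀ᵐ x ∂μ, x ∈ Kingman_S b q := hq
    obtain ⟨x, r, hr, hf⟩ := hq'.exists
    obtain ⟨n, hn⟩ := hf.exists
    by_contra hneg
    have h1 := h0 n x
    have h2 : (0 : ℝ) ≤ n := Nat.cast_nonneg n
    have h3 : (r : ℝ) ≤ 0 := by linarith
    linarith only [hn, h1, hr, hneg, mul_nonneg_of_nonpos_of_nonpos (Mathlib.Tactic.Linarith.sub_nonpos_of_le (Mathlib.Tactic.Linarith.natCast_nonneg ℝ n)) (le_of_lt (Mathlib.Tactic.Linarith.sub_neg_of_lt hr)), mul_nonneg_of_nonpos_of_nonpos (Mathlib.Tactic.Linarith.sub_nonpos_of_le (Mathlib.Tactic.Linarith.natCast_nonneg ℝ n)) (le_of_lt (Mathlib.Tactic.Linarith.sub_neg_of_lt (lt_of_not_ge hneg)))]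
  have hbdd : BddBelow Q := ⟨0, hlow⟩
  refine ⟨sInf Q, ?_⟩
  have hup : ∀ ε : ℝ, 0 < ε → ∀ᵐ x ∂μ, ∀ᶠ n : ℕ in atTop, b n x ≤ (sInf Q + ε) * n := by
    intro ε hε
    obtain ⟨q, hq, hlt⟩ := exists_lt_of_csInf_lt hne (show sInf Q < sInf Q + ε / 2 by linarith only [hε])
    filter_upwards [Kingman_upper hT hb hC0 (hlow q hq) hx hs hq (half_pos hε)] with x hx
    filter_upwards [hx] with n hn
    have h2 : (0 : ℝ) ≤ n := Nat.cast_nonneg n
    linarith only [hn, hlt, mul_nonneg_of_nonpos_of_nonpos (Mathlib.Tactic.Linarith.sub_nonpos_of_le (Mathlib.Tactic.Linarith.natCast_nonneg ℝ n)) (le_of_lt (Mathlib.Tactic.Linarith.sub_neg_of_lt hlt))]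
  have hlo : ∀ ε : ℝ, 0 < ε → ∀ᵐ x ∂μ, ∀ᶠ n : ℕ in atTop, (sInf Q - ε) * n ≤ b n x := by
    intro ε hε
    have hnot : sInf Q - ε / 2 ∉ Q := fun h => by
      have := csInf_le hbdd h
      linarith
    rcases hT.ae_empty_or_univ_of_preimage_ae_le (Kingman_meas hb (sInf Q - ε / 2)).nullMeasurableSet
      (LE.le.eventuallyLE (Kingman_pre hs _)) with h | h
    · have h' : ∀ᵐ x ∂μ, x ∉ Kingman_S b (sInf Q - ε / 2) :=
        measure_eq_zero_iff_ae_notMem.1 (ae_eq_empty.1 h)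
      obtain ⟨r, h1, h2⟩ := exists_rat_btwn (show sInf Q - ε < sInf Q - ε / 2 by linarith)
      filter_upwards [h'] with x hx
      have h3 : ¬∃ᶠ n : ℕ in atTop, b n x < r * n := fun hf => hx ⟨r, h2, hf⟩
      rw [not_frequently] at h3
      filter_upwards [h3] with n hn
      have h4 : (0 : ℝ) ≤ n := Nat.cast_nonneg n
      linarith only [hn, h1, mul_nonneg_of_nonpos_of_nonpos (Mathlib.Tactic.Linarith.sub_nonpos_of_le (Mathlib.Tactic.Linarith.natCast_nonneg ℝ n)) (le_of_lt (Mathlib.Tactic.Linarith.sub_neg_of_lt h1))]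
    · refine absurd ?_ hnot
      show ∀ᵐ x ∂μ, x ∈ Kingman_S b (sInf Q - ε / 2)
      filter_upwards [h] with x hx
      exact hx.mpr (mem_univ x)
  have h1 := ae_all_iff.2 fun k : ℕ => hup (1 / ((k : ℝ) + 1)) (by positivity)
  have h2 := ae_all_iff.2 fun k : ℕ => hlo (1 / ((k : ℝ) + 1)) (by positivity)
  filter_upwards [h1, h2] with x a1 a2
  rw [tendsto_order]
  constructor
  · intro a ha
    obtain ⟨k, hk⟩ := exists_nat_one_div_lt (sub_pos.2 ha)
    filter_upwards [a2 k, eventually_ge_atTop 1] with n hn hn1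
    have h4 : (0 : ℝ) < n := by exact_mod_cast hn1
    rw [lt_div_iff₀ h4]
    linarith only [hn, hk, h4, mul_pos_of_neg_of_neg (Mathlib.Tactic.Linarith.sub_neg_of_lt hk) (Mathlib.Tactic.Linarith.sub_neg_of_lt h4)]
  · intro a ha
    obtain ⟨k, hk⟩ := exists_nat_one_div_lt (sub_pos.2 ha)
    filter_upwards [a1 k, eventually_ge_atTop 1] with n hn hn1
    have h4 : (0 : ℝ) < n := by exact_mod_cast hn1
    rw [div_lt_iff₀ h4]
    linarith only [hn, hk, h4, mul_pos_of_neg_of_neg (Mathlib.Tactic.Linarith.sub_neg_of_lt hk) (Mathlib.Tactic.Linarith.sub_neg_of_lt h4)]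

end Pool.Agent.Work.MP_14af4f_an
end

-- merged part: Pool.Agent.Work.MP_14af4f_an.TwoPos
section
/-!
From the growth of all tangent vectors to the Lyapunov exponents.
-/

open Set Filter Topology MeasureTheory Real

namespace Pool.Agent.Work.MP_14af4f_an

lemma TwoPos_det {A : P2 →L[ℝ] P2} (h : ∀ v, ‖v‖ ≤ ‖A v‖) : 1 ≤ |A.det| := by
  have e1 : A ((A (0, 1)).2, -(A (1, 0)).2) = (A.det, 0) := by
    rw [clm_apply_eq, det_eq]; ext <;> simp <;> ring
  have e2 : A (-(A (0, 1)).1, (A (1, 0)).1) = (0, A.det) := by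
    rw [clm_apply_eq, det_eq]; ext <;> simp <;> ring
  have h1 := h ((A (0, 1)).2, -(A (1, 0)).2)
  have h2 := h (-(A (0, 1)).1, (A (1, 0)).1)
  have h3 := h (1, 0)
  rw [e1] at h1
  rw [e2] at h2
  simp only [Prod.norm_def, Real.norm_eq_abs, abs_zero, abs_neg, abs_one, max_le_iff, le_max_iff,
    abs_nonneg, max_eq_left, max_eq_right] at h1 h2 h3
  rcases h3 with ⟨h4, -⟩ | ⟨h4, -⟩
  · exact h4.trans h2.2
  · exact h4.trans h1.2

lemma TwoPos_smul {u : ℕ → P2} {l c : ℝ} (hc : c ≠ 0) (h0 : ∀ᶠ n in atTop, u n ≠ 0)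
    (h : Tendsto (fun n : ℕ => log ‖u n‖ / n) atTop (𝓝 l)) :
    Tendsto (fun n : ℕ => log ‖c • u n‖ / n) atTop (𝓝 l) := by
  have h1 := (tendsto_const_div_atTop_nhds_zero_nat (log |c|)).add h
  rw [zero_add] at h1
  refine h1.congr' ?_
  filter_upwards [h0] with n hn
  rw [norm_smul, Real.norm_eq_abs, log_mul (abs_ne_zero.2 hc) (norm_ne_zero_iff.2 hn), add_div]

theorem twoPos_of_good {f : P2 → P2} (hf : ContDiff ℝ 1 f) (H : Good f) : TwoPos f := by
  obtain ⟨μ, hμ, hac, herg, ⟨K, hK, hKμ⟩, χ, hχ, hgrow⟩ := H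
  have hd := Transfer_diff_iterate hf
  have hcont : ∀ n, Continuous (fderiv ℝ f^[n]) := fun n =>
    (Transfer_contDiff_iterate hf n).continuous_fderiv one_ne_zero
  have chain : ∀ n m z, fderiv ℝ f^[n + m] z = (fderiv ℝ f^[m] (f^[n] z)).comp (fderiv ℝ f^[n] z) :=
    fun n m z => by
      rw [add_comm, Function.iterate_add, fderiv_comp z (hd m _) (hd n z)]
  obtain ⟨L, hL⟩ := hK.exists_bound_of_continuousOn (hcont 1).continuousOn
  obtain ⟨L', hL'⟩ := hK.exists_bound_of_continuousOn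
    (ContinuousLinearMap.continuous_det.comp (hcont 1)).continuousOn
  have hK' : ∀ᵐ z ∂μ, z ∈ K := hKμ
  obtain ⟨l1, h1⟩ := kingman herg (b := fun n z => log⁺ ‖fderiv ℝ f^[n] z‖) (C := log⁺ L)
    (fun n => (continuous_posLog.comp (hcont n).norm).measurable) (fun _ _ => posLog_nonneg)
    (hK'.mono fun z hz => posLog_le_posLog (norm_nonneg _) (hL z hz)) fun n m z => by
      rw [chain, add_comm]
      exact (posLog_le_posLog (norm_nonneg _) (ContinuousLinearMap.opNorm_comp_le _ _)).trans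
        posLog_mul
  obtain ⟨l, h2⟩ := kingman herg (b := fun n z => log⁺ |(fderiv ℝ f^[n] z).det|) (C := log⁺ L')
    (fun n => (continuous_posLog.comp
      (ContinuousLinearMap.continuous_det.comp (hcont n)).abs).measurable) (fun _ _ => posLog_nonneg)
    (hK'.mono fun z hz => posLog_le_posLog (abs_nonneg _) (hL' z hz)) fun n m z => by
      have : (fderiv ℝ f^[n + m] z).det =
          (fderiv ℝ f^[m] (f^[n] z)).det * (fderiv ℝ f^[n] z).det := by
        rw [chain]; exact LinearMap.det_comp _ _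
      simp only [this, abs_mul]
      rw [add_comm]
      exact posLog_mul
  have horb : ∀ᵐ z ∂μ, ∀ n, f^[n] z ∈ K := ae_all_iff.2 fun n =>
    (herg.toMeasurePreserving.iterate n).quasiMeasurePreserving.ae hK'
  have main : ∀ᵐ z ∂μ, χ ≤ l - l1 ∧ l - l1 ≤ l1 ∧ ∃ s : P2, s ≠ 0 ∧
      (∀ c : ℝ, c ≠ 0 → HasExponent f z (c • s) (l - l1)) ∧
      ∀ v : P2, (∀ c : ℝ, v ≠ c • s) → HasExponent f z v l1 := by
    filter_upwards [hgrow, h1, h2, horb] with z g a1 a2 o
    have g1 : ∀ᶠ n : ℕ in atTop, ∀ v, ‖v‖ ≤ ‖fderiv ℝ f^[n] z v‖ := g.mono fun n hn v =>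
      (le_mul_of_one_le_left (norm_nonneg v) (one_le_exp (by positivity))).trans (hn v)
    have g2 := g1.mono fun n hn => TwoPos_det hn
    obtain ⟨le, s, s0, hs, hv⟩ := oseledets_seq (A := fun n => fderiv ℝ f^[n] z) (L := L) (l1 := l1)
      (l2 := l - l1) (fun n v => by
        rw [chain, ContinuousLinearMap.comp_apply]
        exact (ContinuousLinearMap.le_opNorm _ _).trans
          (mul_le_mul_of_nonneg_right (hL _ (o n)) (norm_nonneg _)))
      (g2.mono fun n hn h0 => by rw [h0, abs_zero] at hn; linarith)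
      (a1.congr' (g1.mono fun n hn => by
        have h3 : (1 : ℝ) ≤ ‖fderiv ℝ f^[n] z‖ := by
          have := (hn (1, 0)).trans (ContinuousLinearMap.le_opNorm _ _)
          simpa using this
        simp only [posLog_eq_log (h3.trans (le_abs_self _))]))
      (by
        rw [add_sub_cancel]
        exact a2.congr' (g2.mono fun n hn => by
          simp only [posLog_eq_log (hn.trans (le_abs_self _))]))
    have sp : 0 < ‖s‖ := norm_pos_iff.2 s0
    refine ⟨?_, le, s, s0, fun c hc => ?_, hv⟩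
    · have t1 := (tendsto_const_div_atTop_nhds_zero_nat (log ‖s‖)).const_add χ
      rw [add_zero] at t1
      refine le_of_tendsto_of_tendsto t1 hs ?_
      filter_upwards [g, eventually_gt_atTop 0] with n hn n0
      have n1 : (0 : ℝ) < n := by exact_mod_cast n0
      have := log_le_log (by positivity) (hn s)
      rw [log_mul (exp_pos _).ne' sp.ne', log_exp] at this
      rw [le_div_iff₀ n1, add_mul, div_mul_cancel₀ _ n1.ne']
      exact this
    · simp only [HasExponent, map_smul]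
      exact TwoPos_smul hc (g1.mono fun n hn h0 => by
        have := hn s
        rw [h0, norm_zero] at this
        linarith) hs
  obtain ⟨z, hz1, hz2, -⟩ := main.exists
  exact ⟨μ, hμ, hac, herg, l1, l - l1, by linarith, hz2, main.mono fun z hz => hz.2.2⟩

end Pool.Agent.Work.MP_14af4f_an
end
end
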