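import Mathlib

/-!
The notions used in the statement.
-/

open Set

namespace Pool.Agent.Work.MP_14af4f_an

/-- The plane. -/
abbrev P2 := ℝ × ℝ

/-- The product family `(a, x, y) ↦ (x ^ 2 + a, y ^ 2 + a)`. -/
def prodFam (p : ℝ × P2) : P2 := (p.2.1 ^ 2 + p.1, p.2.2 ^ 2 + p.1)

/-- The derivatives of order at most `r` of two families differ by less than `δ` on `S`. -/
def CloseOn (r : ℕ) (S : Set (ℝ × P2)) (δ : ℝ) (F G : ℝ × P2 → P2) : Prop :=
  ∀ j ≤ r, ∀ p ∈ S, ‖iteratedFDeriv ℝ j F p - iteratedFDeriv ℝ j G p‖ < δ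

end Pool.Agent.Work.MP_14af4f_an
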