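import Pool.Agent.Work.MP_14af4f_an.StTDef
import Pool.Agent.Work.MP_14af4f_an.TwoPos

-- merged part: Pool.Agent.Work.MP_14af4f_an.StT
section
-- merged part: Pool.Agent.Work.MP_14af4f_an.StTLim
section
/-!
The stage folding the fibres: the limit in thin annuli.
-/

open Set Filter Topology Real

namespace Pool.Agent.Work.MP_14af4f_an

noncomputable section

/-- The argument of the folds in annulus coordinates. -/
def StTLim_s (k : ℕ) (q : ℝ × P2) : ℝ :=
  ph k (Psi q.1 q.2).2 + q.2.2 / ((Psi q.1 q.2).1 + c0 (Psi q.1 q.2).2)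

open Classical in
/-- The displacement produced by the folds. -/
def StTLim_E (k : ℕ) (q : ℝ × P2) : ℝ :=
  if q.2 ∈ arc then TT k (StTLim_s k q) - StTLim_s k q else 0

/-- The corrected displacement. -/
def StTLim_D (k : ℕ) (q : ℝ × P2) : ℝ :=
  StTLim_E k q - (TT k (ph k (Psi q.1 q.2).2) - ph k (Psi q.1 q.2).2) / 2 *
    (1 + ((Psi q.1 q.2).1 + q.1 * StTLim_E k q) / c0 (Psi q.1 q.2).2)

/-- The smooth family describing the lifts. -/
def StTLim_P (k : ℕ) (q : ℝ × P2) : P2 × ℝ :=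
  ((√(1 + q.1 * q.2.2) + q.1 * StTLim_D k q * cos (2 * π * q.2.1),
    -(q.1 * StTLim_D k q * sin (2 * π * q.2.1))),
    q.2.2 + 2 * (Psi q.1 q.2).1 * StTLim_D k q + q.1 * StTLim_D k q ^ 2)

lemma StTLim_Psi0 (z : P2) : Psi 0 z = (cos (2 * π * z.1), sin (2 * π * z.1)) := by
  simp [Psi]

lemma StTLim_c0_pos (Y : ℝ) : 0 < c0 Y := lt_of_lt_of_le (by norm_num) (c0_ge Y)

lemma StTLim_cd_ph (k : ℕ) : ContDiff ℝ 2 (ph k) := by
  have : ContDiff ℝ 2 pf := contDiff_pf.of_le (by norm_cast)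
  exact contDiff_const.mul this

lemma StTLim_cd_c0 : ContDiff ℝ 2 c0 := contDiff_c0.of_le (by norm_cast)

lemma StTLim_cd_TT (k : ℕ) : ContDiff ℝ 2 (TT k) :=
  (contDiff_TT k).of_le (by norm_cast)

lemma StTLim_cd_Psi (z : P2) : ContDiffAt ℝ 2 (fun q : ℝ × P2 => Psi q.1 q.2) (0, z) :=
  contDiffAt_Psi_param (by simp)

lemma StTLim_cd_s (k : ℕ) {z : P2} (hz : 0 ≤ cos (2 * π * z.1)) :
    ContDiffAt ℝ 2 (StTLim_s k) (0, z) := by
  have h1 := (StTLim_cd_Psi z).fst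
  have h2 := (StTLim_cd_Psi z).snd
  refine ((StTLim_cd_ph k).contDiffAt.comp _ h2).add
    (ContDiffAt.div (by fun_prop) (h1.add (StTLim_cd_c0.contDiffAt.comp _ h2)) ?_)
  have := StTLim_c0_pos (Psi 0 z).2
  have h3 : (Psi 0 z).1 = cos (2 * π * z.1) := by rw [StTLim_Psi0]
  simp only [h3]
  linarith

lemma StTLim_ph_far (k : ℕ) {Y : ℝ} (h : 88 / 100 ≤ |Y|) : ph k Y ≤ -(11 / 10) * (8 * 2 ^ k) := by
  have h1 := pf_far h
  have h2 : (0 : ℝ) < 8 * 2 ^ k := by positivity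
  unfold ph
  linarith only [h1, h2, mul_nonneg_of_nonpos_of_nonpos (Mathlib.Tactic.Linarith.sub_nonpos_of_le h1) (le_of_lt (Mathlib.Tactic.Linarith.sub_neg_of_lt h2))]

lemma StTLim_off {z : P2} (hz : z ∉ arc) (hc : 0 ≤ cos (2 * π * z.1)) :
    89 / 100 ≤ |sin (2 * π * z.1)| := by
  by_contra h
  push Not at h
  rcases hc.eq_or_lt with h0 | h0
  · have h1 := sin_sq_add_cos_sq (2 * π * z.1)
    rw [← h0, ← sq_abs] at h1
    linarith only [h, h1, abs_nonneg (sin (2 * π * z.1)), mul_nonneg_of_nonpos_of_nonpos (le_of_lt (Mathlib.Tactic.Linarith.sub_neg_of_lt h)) (Mathlib.Tactic.Linarith.sub_nonpos_of_le (abs_nonneg (sin ((2 : ℝ) * π * z.1))))]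
  · exact hz ⟨h0, h⟩

lemma StTLim_cd_E {k : ℕ} {h : ℝ} (hh : 0 ≤ h) (hk : 100 * (h + 2) ≤ 8 * 2 ^ k) {z : P2}
    (hz : z ∈ strip (h + 1)) : ContDiffAt ℝ 2 (StTLim_E k) (0, z) := by
  by_cases ha : z ∈ arc
  · have hs := StTLim_cd_s k (z := z) ha.1.le
    refine (((StTLim_cd_TT k).contDiffAt.comp _ hs).sub hs).congr_of_eventuallyEq ?_
    have : ∀ᶠ q : ℝ × P2 in 𝓝 (0, z), q.2 ∈ arc :=
      continuous_snd.continuousAt.eventually (isOpen_arc.mem_nhds ha)
    filter_upwards [this] with q hq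
    simp [StTLim_E, hq]
  refine (contDiffAt_const (c := (0 : ℝ))).congr_of_eventuallyEq ?_
  rcases lt_or_ge (cos (2 * π * z.1)) 0 with hc | hc
  · have h1 : Continuous fun q : ℝ × P2 => cos (2 * π * q.2.1) := by fun_prop
    have : ∀ᶠ q : ℝ × P2 in 𝓝 (0, z), cos (2 * π * q.2.1) < 0 :=
      ContinuousAt.eventually_lt (f := fun q : ℝ × P2 => cos (2 * π * q.2.1)) (g := fun _ => 0)
        h1.continuousAt continuousAt_const hc
    filter_upwards [this] with q hq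
    have : q.2 ∉ arc := fun h => absurd h.1 (not_lt.2 hq.le)
    simp [StTLim_E, this]
  · have h1 := StTLim_off ha hc
    have h2 : StTLim_s k (0, z) < -(8 * 2 ^ k) := by
      have h3 := StTLim_ph_far k (Y := sin (2 * π * z.1)) (by linarith only [h1])
      have h4 := c0_ge (sin (2 * π * z.1))
      have h5 : z.2 ≤ h + 1 := (abs_le.1 hz).2
      have h6 : z.2 / (cos (2 * π * z.1) + c0 (sin (2 * π * z.1))) ≤ 4 * (h + 1) := by
        rw [div_le_iff₀ (by linarith only [hc, h4])]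
        linarith only [hh, hc, h4, h5, mul_nonneg_of_nonpos_of_nonpos (Mathlib.Tactic.Linarith.sub_nonpos_of_le hh) (Mathlib.Tactic.Linarith.sub_nonpos_of_le hc), mul_nonneg_of_nonpos_of_nonpos (Mathlib.Tactic.Linarith.sub_nonpos_of_le hh) (Mathlib.Tactic.Linarith.sub_nonpos_of_le h4)]
      simp only [StTLim_s, StTLim_Psi0]
      linarith only [hh, hk, h3, h6]
    have : ∀ᶠ q : ℝ × P2 in 𝓝 (0, z), StTLim_s k q < -(8 * 2 ^ k) :=
      (StTLim_cd_s k hc).continuousAt.eventually (gt_mem_nhds h2)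
    filter_upwards [this] with q hq
    simp [StTLim_E, TT_left k hq.le]

lemma StTLim_cd_D {k : ℕ} {h : ℝ} (hh : 0 ≤ h) (hk : 100 * (h + 2) ≤ 8 * 2 ^ k) {z : P2}
    (hz : z ∈ strip (h + 1)) : ContDiffAt ℝ 2 (StTLim_D k) (0, z) := by
  have h1 := (StTLim_cd_Psi z).fst
  have h2 := (StTLim_cd_Psi z).snd
  have h3 := StTLim_cd_E hh hk hz
  have h4 := (StTLim_cd_ph k).contDiffAt.comp _ h2
  refine h3.sub ((((((StTLim_cd_TT k).contDiffAt.comp _ h4)).sub h4).div_const 2).mul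
    (contDiffAt_const.add (ContDiffAt.div (h1.add (contDiffAt_fst.mul h3))
      (StTLim_cd_c0.contDiffAt.comp _ h2) (StTLim_c0_pos _).ne')))

lemma StTLim_cd_P {k : ℕ} {h : ℝ} (hh : 0 ≤ h) (hk : 100 * (h + 2) ≤ 8 * 2 ^ k) {z : P2}
    (hz : z ∈ strip (h + 1)) : ContDiffAt ℝ 2 (StTLim_P k) (0, z) := by
  have h1 := (StTLim_cd_Psi z).fst
  have h3 := StTLim_cd_D hh hk hz
  have h4 : ContDiffAt ℝ 2 (fun q : ℝ × P2 => √(1 + q.1 * q.2.2)) (0, z) :=
    ContDiffAt.sqrt (by fun_prop) (by simp)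
  have h5 : ContDiffAt ℝ 2 (fun q : ℝ × P2 => cos (2 * π * q.2.1)) (0, z) := by fun_prop
  have h6 : ContDiffAt ℝ 2 (fun q : ℝ × P2 => sin (2 * π * q.2.1)) (0, z) := by fun_prop
  have h7 : ContDiffAt ℝ 2 (fun q : ℝ × P2 => q.2.2) (0, z) := by fun_prop
  refine ContDiffAt.prodMk (ContDiffAt.prodMk (h4.add ((contDiffAt_fst.mul h3).mul h5))
    ((contDiffAt_fst.mul h3).mul h6).neg) ?_
  exact (h7.add ((contDiffAt_const.mul h1).mul h3)).add (contDiffAt_fst.mul (h3.pow 2))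

lemma StTLim_E_eq {k : ℕ} {h w : ℝ} (hh : 0 ≤ h) (hk : 100 * (h + 2) ≤ 8 * 2 ^ k) (hw : 0 < w)
    (hw1 : w * (h + 1) ≤ 1 / 50) (hw2 : w * (8 * 2 ^ k) ≤ 1 / 10) {z : P2}
    (hz : z ∈ strip (h + 1)) :
    TT k (ph k (Psi w z).2 + ((Psi w z).1 - c0 (Psi w z).2) / w) -
      (ph k (Psi w z).2 + ((Psi w z).1 - c0 (Psi w z).2) / w) = StTLim_E k (w, z) := by
  obtain ⟨hz1, hz2⟩ := abs_le.1 (show |z.2| ≤ h + 1 from hz)
  have hl : 49 / 50 ≤ 1 + w * z.2 := by linarith only [hw, hw2, hh, hk, hz1, mul_nonneg_of_nonpos_of_nonpos (Mathlib.Tactic.Linarith.sub_nonpos_of_le hh) (le_of_lt (Mathlib.Tactic.Linarith.sub_neg_of_lt hw)), mul_nonneg_of_nonpos_of_nonpos (Mathlib.Tactic.Linarith.sub_nonpos_of_le hk) (le_of_lt (Mathlib.Tactic.Linarith.sub_neg_of_lt hw)), mul_nonneg_of_nonpos_of_nonpos (le_of_lt (Mathlib.Tactic.Linarith.sub_neg_of_lt hw)) (Mathlib.Tactic.Linarith.sub_nonpos_of_le hz1)]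
  have hu : 1 + w * z.2 ≤ 51 / 50 := by linarith only [hw, hw2, hh, hk, hz2, mul_nonneg_of_nonpos_of_nonpos (Mathlib.Tactic.Linarith.sub_nonpos_of_le hh) (le_of_lt (Mathlib.Tactic.Linarith.sub_neg_of_lt hw)), mul_nonneg_of_nonpos_of_nonpos (Mathlib.Tactic.Linarith.sub_nonpos_of_le hk) (le_of_lt (Mathlib.Tactic.Linarith.sub_neg_of_lt hw)), mul_nonneg_of_nonpos_of_nonpos (le_of_lt (Mathlib.Tactic.Linarith.sub_neg_of_lt hw)) (Mathlib.Tactic.Linarith.sub_nonpos_of_le hz2)]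
  have hsq := Psi_sq (w := w) (z := z) (by linarith only [hl])
  set r := √(1 + w * z.2) with hr
  have hr2 : r ^ 2 = 1 + w * z.2 := sq_sqrt (by linarith only [hl])
  have hr0 : 0 ≤ r := sqrt_nonneg _
  have hrl : 98 / 99 ≤ r := by (refine le_of_not_gt fun h_nl => ?_; linarith only [h_nl, hw, hw2, hr2, hh, hk, hz1, hr0, mul_nonneg_of_nonpos_of_nonpos (Mathlib.Tactic.Linarith.sub_nonpos_of_le hh) (le_of_lt (Mathlib.Tactic.Linarith.sub_neg_of_lt hw)), mul_nonneg_of_nonpos_of_nonpos (Mathlib.Tactic.Linarith.sub_nonpos_of_le hk) (le_of_lt (Mathlib.Tactic.Linarith.sub_neg_of_lt hw)), mul_nonneg_of_nonpos_of_nonpos (le_of_lt (Mathlib.Tactic.Linarith.sub_neg_of_lt hw)) (Mathlib.Tactic.Linarith.sub_nonpos_of_le hz1), mul_nonneg_of_nonpos_of_nonpos (Mathlib.Tactic.Linarith.sub_nonpos_of_le hr0) (le_of_lt (Mathlib.Tactic.Linarith.sub_neg_of_lt h_nl))])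
  have hru : r ≤ 101 / 100 := by (refine le_of_not_gt fun h_nl => ?_; linarith only [h_nl, hw, hw1, hu, hr2, hh, hr0, mul_nonneg_of_nonpos_of_nonpos (Mathlib.Tactic.Linarith.sub_nonpos_of_le hh) (le_of_lt (Mathlib.Tactic.Linarith.sub_neg_of_lt hw)), mul_nonneg_of_nonpos_of_nonpos (Mathlib.Tactic.Linarith.sub_nonpos_of_le hr0) (le_of_lt (Mathlib.Tactic.Linarith.sub_neg_of_lt h_nl))])
  have hX : (Psi w z).1 = r * cos (2 * π * z.1) := rfl
  have hY : |(Psi w z).2| = r * |sin (2 * π * z.1)| := by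
    rw [show (Psi w z).2 = r * sin (2 * π * z.1) from rfl, abs_mul, abs_of_nonneg hr0]
  have hc0 := c0_ge (Psi w z).2
  have hZ : (0 : ℝ) < 8 * 2 ^ k := by positivity
  by_cases ha : z ∈ arc
  · have h1 : |(Psi w z).2| ≤ 9 / 10 := by
      rw [hY]; (refine le_of_not_gt fun h_nl => ?_; linarith only [h_nl, hw, hw2, hr2, hrl, ha, hh, hk, hz2, hl, hr0, ha.2, abs_nonneg (sin (2 * π * z.1)), mul_nonneg_of_nonpos_of_nonpos (Mathlib.Tactic.Linarith.sub_nonpos_of_le hh) (le_of_lt (Mathlib.Tactic.Linarith.sub_neg_of_lt hw)), mul_nonneg_of_nonpos_of_nonpos (Mathlib.Tactic.Linarith.sub_nonpos_of_le hk) (le_of_lt (Mathlib.Tactic.Linarith.sub_neg_of_lt hw)), mul_nonneg_of_nonpos_of_nonpos (le_of_lt (Mathlib.Tactic.Linarith.sub_neg_of_lt hw)) (Mathlib.Tactic.Linarith.sub_nonpos_of_le hz2), mul_nonneg_of_nonpos_of_nonpos (Mathlib.Tactic.Linarith.sub_nonpos_of_le hl) (le_of_lt (Mathlib.Tactic.Linarith.sub_neg_of_lt ha.right)), Mathlib.Tactic.Linarith.zero_mul_eq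 (sub_eq_zero_of_eq hr2) (Mathlib.Tactic.Linarith.sub_neg_of_lt ha.right), mul_nonneg_of_nonpos_of_nonpos (Mathlib.Tactic.Linarith.sub_nonpos_of_le hr0) (le_of_lt (Mathlib.Tactic.Linarith.sub_neg_of_lt h_nl))])
    have h2 := c0_sq_eq h1
    have h3 : 0 ≤ (Psi w z).1 := by rw [hX]; exact mul_nonneg hr0 ha.1.le
    have h4 : ((Psi w z).1 - c0 (Psi w z).2) / w = z.2 / ((Psi w z).1 + c0 (Psi w z).2) := by
      rw [div_eq_div_iff hw.ne' (by linarith only [hc0, h3])]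
      linear_combination hsq - h2
    rw [h4]
    simp [StTLim_E, StTLim_s, ha]
  have : ph k (Psi w z).2 + ((Psi w z).1 - c0 (Psi w z).2) / w ≤ -(8 * 2 ^ k) := by
    rcases lt_or_ge (cos (2 * π * z.1)) 0 with hc | hc
    · have h1 : (Psi w z).1 ≤ 0 := by rw [hX]; exact mul_nonpos_of_nonneg_of_nonpos hr0 hc.le
      have h2 : ph k (Psi w z).2 ≤ 2 * (8 * 2 ^ k) := by
        have := pf_le (Psi w z).2
        unfold ph
        linarith only [this, hh, hk, mul_nonneg_of_nonpos_of_nonpos (Mathlib.Tactic.Linarith.sub_nonpos_of_le hh) (Mathlib.Tactic.Linarith.sub_nonpos_of_le this), mul_nonneg_of_nonpos_of_nonpos (Mathlib.Tactic.Linarith.sub_nonpos_of_le hk) (Mathlib.Tactic.Linarith.sub_nonpos_of_le this)]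
      have h3 : ((Psi w z).1 - c0 (Psi w z).2) / w ≤ -(3 * (8 * 2 ^ k)) := by
        rw [div_le_iff₀ hw]
        linarith only [hw2, hc0, h1]
      linarith only [h2, h3]
    · have h1 := StTLim_off ha hc
      have h2 := StTLim_ph_far k (Y := (Psi w z).2) (by rw [hY]; linarith only [hw, hw2, hrl, hh, hk, hr0, h1, mul_nonneg_of_nonpos_of_nonpos (Mathlib.Tactic.Linarith.sub_nonpos_of_le hh) (le_of_lt (Mathlib.Tactic.Linarith.sub_neg_of_lt hw)), mul_nonneg_of_nonpos_of_nonpos (Mathlib.Tactic.Linarith.sub_nonpos_of_le hk) (le_of_lt (Mathlib.Tactic.Linarith.sub_neg_of_lt hw)), mul_nonneg_of_nonpos_of_nonpos (Mathlib.Tactic.Linarith.sub_nonpos_of_le hr0) (Mathlib.Tactic.Linarith.sub_nonpos_of_le h1)])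
      have h3 : 0 ≤ (Psi w z).1 := by rw [hX]; exact mul_nonneg hr0 hc
      have h4 := c0_sq_ge (Psi w z).2
      have h5 : ((Psi w z).1 - c0 (Psi w z).2) / w ≤ 4 * (h + 1) := by
        rw [div_le_iff₀ hw]
        have h6 : 0 ≤ w * (h + 1) := by positivity
        have h7 : w * z.2 ≤ w * (h + 1) := by linarith only [hw, hz2, mul_nonneg_of_nonpos_of_nonpos (le_of_lt (Mathlib.Tactic.Linarith.sub_neg_of_lt hw)) (Mathlib.Tactic.Linarith.sub_nonpos_of_le hz2)]
        by_contra h8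
        push Not at h8
        linarith only [hw, hsq, h4, h7, h8, hh, hc0, h6, h3, mul_nonneg_of_nonpos_of_nonpos (Mathlib.Tactic.Linarith.sub_nonpos_of_le hh) (le_of_lt (Mathlib.Tactic.Linarith.sub_neg_of_lt hw)), mul_nonneg_of_nonpos_of_nonpos (Mathlib.Tactic.Linarith.sub_nonpos_of_le hc0) (Mathlib.Tactic.Linarith.sub_nonpos_of_le h6), mul_nonneg_of_nonpos_of_nonpos (Mathlib.Tactic.Linarith.sub_nonpos_of_le hc0) (le_of_lt (Mathlib.Tactic.Linarith.sub_neg_of_lt h8)), mul_nonneg_of_nonpos_of_nonpos (Mathlib.Tactic.Linarith.sub_nonpos_of_le h3) (Mathlib.Tactic.Linarith.sub_nonpos_of_le h6), mul_nonneg_of_nonpos_of_nonpos (Mathlib.Tactic.Linarith.sub_nonpos_of_le h3) (le_of_lt (Mathlib.Tactic.Linarith.sub_neg_of_lt h8))]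
      linarith only [hh, hk, h2, h5]
  rw [TT_left k this]
  simp [StTLim_E, ha]

lemma StTLim_Tp {k : ℕ} {h w : ℝ} (hh : 0 ≤ h) (hk : 100 * (h + 2) ≤ 8 * 2 ^ k) (hw : 0 < w)
    (hw1 : w * (h + 1) ≤ 1 / 50) (hw2 : w * (8 * 2 ^ k) ≤ 1 / 10) {z : P2}
    (hz : z ∈ strip (h + 1)) :
    Tp k w (Psi w z) = (-(Psi w z).2, (Psi w z).1 + w * StTLim_D k (w, z)) := by
  have h1 := StTLim_E_eq hh hk hw hw1 hw2 hz
  have h2 : X1 k w (Psi w z) = (Psi w z).1 + w * StTLim_E k (w, z) := by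
    rw [← h1, X1]
    field_simp
    ring
  simp only [Tp, h2, StTLim_D]
  congr 1
  ring

end

theorem lrz_T0 {k : ℕ} {h : ℝ} (hh : 0 ≤ h) (hk : 100 * (h + 2) ≤ 8 * 2 ^ k) :
    LRz h (SN 1 h (T0 k)) := by
  refine lrz_of_param (b := 1 / 4) (G := Tp k) (P := StTLim_P k) hh ?_ (per_T0 k)
    (fun z hz => StTLim_cd_P hh hk hz) ?_ ?_
  · filter_upwards [self_mem_nhdsWithin] with w (hw : 0 < w) using rl_Tp k hw.ne'
  · have e1 : ∀ᶠ w in 𝓝 (0 : ℝ), w * (h + 1) ≤ 1 / 50 :=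
      (continuous_id.mul continuous_const).continuousAt.eventually
        (ge_mem_nhds (show (0 : ℝ) * (h + 1) < 1 / 50 by norm_num))
    have e2 : ∀ᶠ w in 𝓝 (0 : ℝ), w * (8 * 2 ^ k) ≤ 1 / 10 :=
      (continuous_id.mul continuous_const).continuousAt.eventually
        (ge_mem_nhds (show (0 : ℝ) * (8 * 2 ^ k) < 1 / 10 by norm_num))
    filter_upwards [self_mem_nhdsWithin, nhdsWithin_le_nhds e1, nhdsWithin_le_nhds e2]
      with w (hw : 0 < w) hw1 hw2 z hz
    rw [StTLim_Tp hh hk hw hw1 hw2 hz]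
    have hl : 0 ≤ 1 + w * z.2 := by linarith only [hw, hw2, hh, hk, hz, (abs_le.1 (show |z.2| ≤ h + 1 from hz)).1, mul_nonneg_of_nonpos_of_nonpos (Mathlib.Tactic.Linarith.sub_nonpos_of_le hh) (le_of_lt (Mathlib.Tactic.Linarith.sub_neg_of_lt hw)), mul_nonneg_of_nonpos_of_nonpos (Mathlib.Tactic.Linarith.sub_nonpos_of_le hk) (le_of_lt (Mathlib.Tactic.Linarith.sub_neg_of_lt hw)), mul_nonneg_of_nonpos_of_nonpos (le_of_lt (Mathlib.Tactic.Linarith.sub_neg_of_lt hw))   (Mathlib.Tactic.Linarith.sub_nonpos_of_le     (abs_le.mp         (have this := hz;         this)).left)]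
    constructor
    · have ha : 2 * π * (((1 : ℕ) : ℝ) * z.1 + 1 / 4) = 2 * π * z.1 + π / 2 := by
        push_cast; ring
      rw [ha]
      have h1 := sin_sq_add_cos_sq (2 * π * z.1)
      simp only [rt, StTLim_P, cos_add_pi_div_two, sin_add_pi_div_two]
      set D := StTLim_D k (w, z)
      simp only [Psi]
      refine Prod.ext ?_ ?_
      · simp only
        linear_combination √(1 + w * z.2) * h1
      · simp only
        ring
    · have h1 := Psi_sq hl
      simp only [StTLim_P]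
      rw [div_eq_iff hw.ne']
      linear_combination h1
  · intro z _
    refine ⟨by simp [StTLim_P], ?_⟩
    have h1 := sin_sq_add_cos_sq (2 * π * z.1)
    have h2 := StTLim_c0_pos (sin (2 * π * z.1))
    have hZ : (0 : ℝ) < 8 * 2 ^ k := by positivity
    refine Prod.ext (by simp [T0]) ?_
    by_cases ha : z ∈ arc
    · have h3 := c0_sq_eq (Y := sin (2 * π * z.1)) (by linarith only [ha, ha.2])
      have h4 : c0 (sin (2 * π * z.1)) = cos (2 * π * z.1) :=
        (pow_left_inj₀ h2.le ha.1.le two_ne_zero).1 (by linarith only [h1, h3])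
      have h5 : cos (2 * π * z.1) ≠ 0 := ha.1.ne'
      simp only [T0, StTLim_P, StTLim_D, StTLim_E, StTLim_s, StTLim_Psi0, ha, if_true, h4, sarg,
        ← two_mul]
      field_simp
      ring
    · simp only [T0, StTLim_P, StTLim_D, StTLim_E, StTLim_Psi0, ha, if_false]
      by_cases hs : 88 / 100 ≤ |sin (2 * π * z.1)|
      · have h3 := StTLim_ph_far k hs
        rw [TT_left k (by linarith only [hh, hk, h3])]
        ring
      · push Not at hs
        have h3 := c0_sq_eq (Y := sin (2 * π * z.1)) (by linarith only [hs])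
        have hc : cos (2 * π * z.1) ≤ 0 := by
          by_contra h4
          exact ha ⟨not_le.1 h4, by linarith only [hs]⟩
        have h4 : c0 (sin (2 * π * z.1)) = -cos (2 * π * z.1) :=
          (pow_left_inj₀ h2.le (neg_nonneg.2 hc) two_ne_zero).1 (by linarith only [h1, h3])
        have h5 : cos (2 * π * z.1) ≠ 0 := by
          intro h6; rw [h4, h6] at h2; simp at h2
        rw [h4]
        field_simp
        ring

end Pool.Agent.Work.MP_14af4f_an
end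

-- merged part: Pool.Agent.Work.MP_14af4f_an.StTA
section
/-!
The stage folding the fibres: derivatives.
-/

open Set Filter Topology Real
open scoped ContDiff

namespace Pool.Agent.Work.MP_14af4f_an

noncomputable section

/-- The fibre map over the arc. -/
def StT_f (k : ℕ) (z : P2) : ℝ :=
  2 * cos (2 * π * z.1) * (TT k (sarg k z) - TT k (ph k (sin (2 * π * z.1))))

/-- The horizontal derivative of the phase. -/
def StT_z (k : ℕ) (z : P2) : ℝ :=
  8 * 2 ^ k * (13 / 10 - 100 * exp (100 * (sin (2 * π * z.1) - 87 / 100))) *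
    (cos (2 * π * z.1) * (2 * π))

/-- The horizontal derivative of the correction. -/
def StT_r (z : P2) : ℝ := z.2 * (π * sin (2 * π * z.1)) / cos (2 * π * z.1) ^ 2

lemma StT_fderiv {F : P2 → P2} {φ : P2 → ℝ} {z : P2} (h : F =ᶠ[𝓝 z] fun z => (z.1 + 1 / 4, φ z))
    (hφ : DifferentiableAt ℝ φ z) (v : P2) : fderiv ℝ F z v = (v.1, fderiv ℝ φ z v) := by
  have : HasFDerivAt (fun z : P2 => (z.1 + 1 / 4, φ z))
      ((ContinuousLinearMap.fst ℝ ℝ ℝ).prod (fderiv ℝ φ z)) z :=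
    (hasFDerivAt_fst.add_const _).prodMk hφ.hasFDerivAt
  rw [h.fderiv_eq, this.fderiv]
  rfl

lemma StT_jac {F : P2 → P2} {φ : P2 → ℝ} {z : P2} (h : F =ᶠ[𝓝 z] fun z => (z.1 + 1 / 4, φ z))
    (hφ : DifferentiableAt ℝ φ z) : jac F z = fderiv ℝ φ z (0, 1) := by
  rw [jac, det_eq, StT_fderiv h hφ, StT_fderiv h hφ]
  simp

lemma StT_contDiff_ph (k : ℕ) : ContDiff ℝ ∞ fun z : P2 => ph k (sin (2 * π * z.1)) := by
  have := contDiff_pf
  unfold ph
  fun_prop

lemma StT_contDiffAt_sarg (k : ℕ) {z : P2} (hz : z ∈ arc) : ContDiffAt ℝ ∞ (sarg k) z := by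
  have h : 2 * cos (2 * π * z.1) ≠ 0 := by linarith [hz.1]
  exact (StT_contDiff_ph k).contDiffAt.add (ContDiffAt.div (by fun_prop) (by fun_prop) h)

lemma StT_contDiffAt_f (k : ℕ) {z : P2} (hz : z ∈ arc) : ContDiffAt ℝ ∞ (StT_f k) z :=
  ContDiffAt.mul (by fun_prop) (((contDiff_TT k).contDiffAt.comp z (StT_contDiffAt_sarg k hz)).sub
    ((contDiff_TT k).comp (StT_contDiff_ph k)).contDiffAt)

lemma StT_line_angle (z v : P2) :
    HasDerivAt (fun t : ℝ => 2 * π * (z + t • v).1) (2 * π * v.1) 0 := by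
  simpa using (((hasDerivAt_id (0 : ℝ)).mul_const v.1).const_add z.1).const_mul (2 * π)

lemma StT_line_ph (k : ℕ) (z v : P2) :
    HasDerivAt (fun t : ℝ => ph k (sin (2 * π * (z + t • v).1))) (StT_z k z * v.1) 0 := by
  have h := (StT_line_angle z v).sin
  have h2 := ((hasDerivAt_pf (sin (2 * π * (z + (0 : ℝ) • v).1))).comp 0 h).const_mul (8 * 2 ^ k)
  refine h2.congr_deriv ?_
  simp only [StT_z, zero_smul, add_zero]
  ring

lemma StT_line_sarg (k : ℕ) {z : P2} (hz : z ∈ arc) (v : P2) :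
    HasDerivAt (fun t : ℝ => sarg k (z + t • v))
      ((StT_z k z + StT_r z) * v.1 + v.2 / (2 * cos (2 * π * z.1))) 0 := by
  have hc : cos (2 * π * z.1) ≠ 0 := hz.1.ne'
  have h1 : HasDerivAt (fun t : ℝ => (z + t • v).2) v.2 0 := by
    simpa using ((hasDerivAt_id (0 : ℝ)).mul_const v.2).const_add z.2
  have h2 := (StT_line_ph k z v).add (h1.div ((StT_line_angle z v).cos.const_mul 2) (by simpa using hc))
  refine h2.congr_deriv ?_
  simp only [StT_r, zero_smul, add_zero]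
  field_simp
  ring

lemma StT_hasDerivAt_TT (k : ℕ) (s : ℝ) : HasDerivAt (TT k) (deriv (TT k) s) s :=
  ((contDiff_TT k).differentiable (by simp) s).hasDerivAt

lemma StT_contDiff_deriv (k : ℕ) : ContDiff ℝ ∞ (deriv (TT k)) :=
  (contDiff_infty_iff_deriv.1 (contDiff_TT k)).2

lemma StT_fderiv_f (k : ℕ) {z : P2} (hz : z ∈ arc) (v : P2) : fderiv ℝ (StT_f k) z v =
    -(4 * π * sin (2 * π * z.1) * v.1) * (TT k (sarg k z) - TT k (ph k (sin (2 * π * z.1)))) +
      2 * cos (2 * π * z.1) * (deriv (TT k) (sarg k z) *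
        ((StT_z k z + StT_r z) * v.1 + v.2 / (2 * cos (2 * π * z.1))) -
        deriv (TT k) (ph k (sin (2 * π * z.1))) * (StT_z k z * v.1)) := by
  refine fderiv_apply_of_hasDerivAt ((StT_contDiffAt_f k hz).differentiableAt (by simp)) ?_
  have h1 := (StT_hasDerivAt_TT k (sarg k (z + (0 : ℝ) • v))).comp 0 (StT_line_sarg k hz v)
  have h2 := (StT_hasDerivAt_TT k (ph k (sin (2 * π * (z + (0 : ℝ) • v).1)))).comp 0
    (StT_line_ph k z v)
  have h3 := ((StT_line_angle z v).cos.const_mul 2).mul (h1.sub h2)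
  refine h3.congr_deriv ?_
  simp only [zero_smul, add_zero, Pi.sub_apply, Function.comp_apply]
  ring

lemma StT_on (k : ℕ) {z : P2} (hz : z ∈ arc) : T0 k =ᶠ[𝓝 z] fun z => (z.1 + 1 / 4, StT_f k z) :=
  T0_eventually_on k hz

lemma StT_jac_on (k : ℕ) {z : P2} (hz : z ∈ arc) : jac (T0 k) z = deriv (TT k) (sarg k z) := by
  have hc : cos (2 * π * z.1) ≠ 0 := hz.1.ne'
  rw [StT_jac (StT_on k hz) ((StT_contDiffAt_f k hz).differentiableAt (by simp)),
    StT_fderiv_f k hz]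
  simp only [mul_zero, neg_zero, zero_mul, zero_add, sub_zero]
  field_simp

lemma StT_fderiv_jac_on (k : ℕ) {z : P2} (hz : z ∈ arc) (v : P2) :
    fderiv ℝ (jac (T0 k)) z v = deriv (deriv (TT k)) (sarg k z) *
      ((StT_z k z + StT_r z) * v.1 + v.2 / (2 * cos (2 * π * z.1))) := by
  have h : jac (T0 k) =ᶠ[𝓝 z] fun z => deriv (TT k) (sarg k z) := by
    filter_upwards [isOpen_arc.mem_nhds hz] with y hy using StT_jac_on k hy
  rw [h.fderiv_eq]
  refine fderiv_apply_of_hasDerivAt ((((StT_contDiff_deriv k).contDiffAt.comp z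
    (StT_contDiffAt_sarg k hz))).differentiableAt (by simp)) ?_
  have h1 := (((StT_contDiff_deriv k).differentiable (by simp)
    (sarg k (z + (0 : ℝ) • v))).hasDerivAt).comp 0 (StT_line_sarg k hz v)
  refine h1.congr_deriv ?_
  simp only [zero_smul, add_zero]

lemma StT_jac_off {F : P2 → P2} {z : P2} (h : F =ᶠ[𝓝 z] fun z => (z.1 + 1 / 4, z.2)) :
    jac F =ᶠ[𝓝 z] fun _ => 1 := by
  filter_upwards [h.eventually_nhds] with y hy
  rw [StT_jac hy differentiableAt_snd, fderiv_snd]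
  rfl

lemma StT_z_le (k : ℕ) {z : P2} (hz : z ∈ arc) : |StT_z k z| ≤ 5040 * (8 * 2 ^ k) := by
  have h1 := pf_deriv_le (le_of_lt (lt_of_abs_lt hz.2))
  have h2 : |cos (2 * π * z.1) * (2 * π)| ≤ 63 / 10 := by
    rw [abs_mul, abs_of_pos (by positivity : 0 < 2 * π)]
    linarith only [abs_cos_le_one (2 * π * z.1), pi_lt_d2, pi_pos, abs_nonneg (cos (2 * π * z.1)), mul_nonneg_of_nonpos_of_nonpos (Mathlib.Tactic.Linarith.sub_nonpos_of_le (abs_cos_le_one ((2 : ℝ) * π * z.1))) (le_of_lt (Mathlib.Tactic.Linarith.sub_neg_of_lt pi_pos))]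
  rw [StT_z, abs_mul, abs_mul, abs_of_pos (by positivity : (0 : ℝ) < 8 * 2 ^ k)]
  calc _ ≤ 8 * 2 ^ k * 800 * (63 / 10 : ℝ) := by gcongr
    _ = _ := by ring

lemma StT_z_ge (k : ℕ) {z : P2} (hz : z ∈ arc) (h : |pf (sin (2 * π * z.1))| ≤ 104 / 100) :
    4 / 5 * (8 * 2 ^ k) ≤ |StT_z k z| := by
  have h1 := pf_deriv_ge h
  have h2 : 27 / 10 ≤ |cos (2 * π * z.1) * (2 * π)| := by
    have := cos_ge_of_arc hz
    rw [abs_of_pos (by positivity)]
    linarith only [this, pi_gt_three, mul_nonneg_of_nonpos_of_nonpos (Mathlib.Tactic.Linarith.sub_nonpos_of_le this) (le_of_lt (Mathlib.Tactic.Linarith.sub_neg_of_lt pi_gt_three))]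
  rw [StT_z, abs_mul, abs_mul, abs_of_pos (by positivity : (0 : ℝ) < 8 * 2 ^ k)]
  calc 4 / 5 * (8 * 2 ^ k : ℝ) ≤ 8 * 2 ^ k * (3 / 10) * (27 / 10) := by
        have : (0 : ℝ) < 2 ^ k := by positivity
        linarith only [this]
    _ ≤ _ := by gcongr

lemma StT_r_le {z : P2} (hz : z ∈ arc) : |StT_r z| ≤ 16 * |z.2| := by
  have hc := cos_ge_of_arc hz
  have h2 : |π * sin (2 * π * z.1)| ≤ 315 / 100 := by
    rw [abs_mul, abs_of_pos pi_pos]
    linarith only [abs_sin_le_one (2 * π * z.1), pi_lt_d2, pi_pos, abs_nonneg (sin (2 * π * z.1)), mul_nonneg_of_nonpos_of_nonpos (Mathlib.Tactic.Linarith.sub_nonpos_of_le (abs_sin_le_one ((2 : ℝ) * π * z.1))) (le_of_lt (Mathlib.Tactic.Linarith.sub_neg_of_lt pi_pos))]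
  rw [StT_r, abs_div, abs_mul, abs_of_pos (by positivity : 0 < cos (2 * π * z.1) ^ 2),
    div_le_iff₀ (by positivity)]
  have h3 : 2025 / 10000 ≤ cos (2 * π * z.1) ^ 2 := by linarith only [hc, mul_nonneg_of_nonpos_of_nonpos (Mathlib.Tactic.Linarith.sub_nonpos_of_le hc) (Mathlib.Tactic.Linarith.sub_nonpos_of_le hc)]
  have := abs_nonneg z.2
  linarith only [this, h2, h3, mul_nonneg_of_nonpos_of_nonpos (Mathlib.Tactic.Linarith.sub_nonpos_of_le (sq_nonneg (cos ((2 : ℝ) * π * z.1)))) (Mathlib.Tactic.Linarith.sub_nonpos_of_le this), mul_nonneg_of_nonpos_of_nonpos (Mathlib.Tactic.Linarith.sub_nonpos_of_le h2) (Mathlib.Tactic.Linarith.sub_nonpos_of_le this), mul_nonneg_of_nonpos_of_nonpos (Mathlib.Tactic.Linarith.sub_nonpos_of_le h3) (Mathlib.Tactic.Linarith.sub_nonpos_of_le this)]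

lemma StT_div_le {z : P2} (hz : z ∈ arc) (x : ℝ) : |x / (2 * cos (2 * π * z.1))| ≤ 6 / 5 * |x| := by
  have hc := cos_ge_of_arc hz
  rw [abs_div, abs_of_pos (by positivity : 0 < 2 * cos (2 * π * z.1)), div_le_iff₀ (by positivity)]
  have := abs_nonneg x
  linarith only [this, hc, mul_nonneg_of_nonpos_of_nonpos (Mathlib.Tactic.Linarith.sub_nonpos_of_le hc) (Mathlib.Tactic.Linarith.sub_nonpos_of_le this)]

lemma StT_lip {k : ℕ} {a : ℝ} (h : ∀ s, |deriv (TT k) s| ≤ a) (s s' : ℝ) :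
    |TT k s - TT k s'| ≤ a * |s - s'| :=
  convex_univ.norm_image_sub_le_of_norm_deriv_le (f := TT k)
    (fun x _ => (StT_hasDerivAt_TT k x).differentiableAt) (fun x _ => h x) (mem_univ s') (mem_univ s)

lemma StT_f_le {k : ℕ} {a : ℝ} (h : ∀ s, |deriv (TT k) s| ≤ a) {z : P2} (hz : z ∈ arc) :
    |StT_f k z| ≤ a * |z.2| := by
  have hc : 0 < 2 * cos (2 * π * z.1) := by linarith only [hz, hz.1]
  have h1 := StT_lip h (sarg k z) (ph k (sin (2 * π * z.1)))
  rw [sarg, add_sub_cancel_left, abs_div, abs_of_pos hc, ← sarg] at h1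
  rw [StT_f, abs_mul, abs_of_pos hc]
  calc _ ≤ 2 * cos (2 * π * z.1) * (a * (|z.2| / (2 * cos (2 * π * z.1)))) := by gcongr
    _ = _ := by have := hz.1.ne'; field_simp

end

end Pool.Agent.Work.MP_14af4f_an
end

-- merged part: Pool.Agent.Work.MP_14af4f_an.StT
section
/-!
The stage folding the fibres: estimates, and the composition of four stages.
-/

open Set Filter Topology Real

namespace Pool.Agent.Work.MP_14af4f_an

lemma StT_snd_on (k : ℕ) {z : P2} (hz : z ∈ arc) : (T0 k z).2 = StT_f k z := by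
  simp only [T0, if_pos hz, StT_f]

lemma StT_snd_le {k : ℕ} {a : ℝ} (ha : 1 ≤ a) (h : ∀ s, |deriv (TT k) s| ≤ a) (z : P2) :
    |(T0 k z).2| ≤ a * |z.2| := by
  by_cases hz : z ∈ arc
  · rw [StT_snd_on k hz]; exact StT_f_le h hz
  · simp only [T0, if_neg hz]
    linarith only [ha, abs_nonneg z.2, mul_nonneg_of_nonpos_of_nonpos (Mathlib.Tactic.Linarith.sub_nonpos_of_le ha) (Mathlib.Tactic.Linarith.sub_nonpos_of_le (abs_nonneg z.2))]

lemma StT_sk {k : ℕ} {a h : ℝ} (ha : 1 ≤ a) (hd : ∀ s, |deriv (TT k) s| ≤ a) (hh : 0 ≤ h)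
    (hk : 100 * (h + 1) ≤ 8 * 2 ^ k) :
    Sk (T0 k) 1 h (a * h + 1) (a * (20160 * (8 * 2 ^ k) + 50 * h)) a := by
  have off : ∀ z ∈ strip h, z ∉ arc → T0 k =ᶠ[𝓝 z] fun z => (z.1 + 1 / 4, z.2) := fun z hz =>
    T0_eventually_off hk (strip_mono (by linarith) hz)
  refine ⟨hh, per_T0 k, fun z hz => ?_, ⟨1 / 4, fun z => by simp [T0]⟩, fun z hz => ?_,
    fun z hz => ?_, fun z hz => ?_⟩
  · by_cases hz' : z ∈ arc
    · refine ContDiffAt.congr_of_eventuallyEq ?_ (StT_on k hz')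
      exact ContDiffAt.prodMk (by fun_prop) ((StT_contDiffAt_f k hz').of_le (by norm_cast))
    · exact ContDiffAt.congr_of_eventuallyEq (by fun_prop) (off z hz hz')
  · have := StT_snd_le ha hd z
    have h2 : |z.2| ≤ h := hz
    linarith only [this, h2, ha, mul_nonneg_of_nonpos_of_nonpos (Mathlib.Tactic.Linarith.sub_nonpos_of_le ha) (Mathlib.Tactic.Linarith.sub_nonpos_of_le h2)]
  · by_cases hz' : z ∈ arc
    · rw [StT_fderiv (StT_on k hz') ((StT_contDiffAt_f k hz').differentiableAt (by simp)),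
        StT_fderiv_f k hz']
      have h2 : |z.2| ≤ h := hz
      have e1 := StT_lip hd (sarg k z) (ph k (sin (2 * π * z.1)))
      rw [sarg, add_sub_cancel_left, ← sarg] at e1
      have e1' : |TT k (sarg k z) - TT k (ph k (sin (2 * π * z.1)))| ≤ a * (6 / 5 * h) :=
        e1.trans (by have := StT_div_le hz' z.2; gcongr; linarith only [h2, this])
      have e2 := StT_z_le k hz'
      have e3 := StT_r_le hz'
      have e4 : |4 * π * sin (2 * π * z.1)| ≤ 13 := by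
        rw [abs_mul, abs_of_pos (by positivity : 0 < 4 * π)]
        linarith only [abs_sin_le_one (2 * π * z.1), pi_lt_d2, pi_pos, abs_nonneg (sin (2 * π * z.1)), mul_nonneg_of_nonpos_of_nonpos (Mathlib.Tactic.Linarith.sub_nonpos_of_le (abs_sin_le_one ((2 : ℝ) * π * z.1))) (le_of_lt (Mathlib.Tactic.Linarith.sub_neg_of_lt pi_pos))]
      have e5 : |2 * cos (2 * π * z.1)| ≤ 2 := by
        rw [abs_mul, abs_two]; linarith only [abs_cos_le_one (2 * π * z.1)]
      have e6 : |StT_z k z + StT_r z| ≤ 5040 * (8 * 2 ^ k) + 16 * h :=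
        (abs_add_le _ _).trans (by linarith only [h2, e2, e3])
      simp only [mul_one, zero_div, add_zero]
      have ha0 : 0 ≤ a := by linarith only [ha]
      calc _ ≤ 13 * (a * (6 / 5 * h)) +
            2 * (a * (5040 * (8 * 2 ^ k) + 16 * h) + a * (5040 * (8 * 2 ^ k))) := by
            refine (abs_add_le _ _).trans (add_le_add ?_ ?_)
            · rw [abs_mul, abs_neg]; gcongr
            · rw [abs_mul]
              refine mul_le_mul e5 ((abs_sub _ _).trans (add_le_add ?_ ?_)) (abs_nonneg _) zero_le_two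
              · rw [abs_mul]; gcongr; exact hd _
              · rw [abs_mul]; gcongr; exact hd _
        _ ≤ _ := by linarith only [ha0, hh, mul_nonneg ha0 hh]
    · rw [StT_fderiv (off z hz hz') differentiableAt_snd, fderiv_snd]
      simp only [ContinuousLinearMap.coe_snd', abs_zero]
      positivity
  · by_cases hz' : z ∈ arc
    · rw [StT_fderiv (StT_on k hz') ((StT_contDiffAt_f k hz').differentiableAt (by simp)),
        ← StT_jac (StT_on k hz') ((StT_contDiffAt_f k hz').differentiableAt (by simp)),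
        StT_jac_on k hz']
      exact hd _
    · rw [StT_fderiv (off z hz hz') differentiableAt_snd, fderiv_snd]
      simpa using ha

lemma StT_tr {k : ℕ} {σ h u0 cA KA : ℝ} (hσ : 0 ≤ σ) (hh : 0 ≤ h) (hu : u0 < 1)
    (hK : 0 < KA) (hk : 1000 * (σ + h + 2) ≤ 8 * 2 ^ k)
    (H : ∀ s, |deriv (deriv (TT k)) s| ≤ KA ∧
      (|deriv (TT k) s| ≤ u0 → cA ≤ |deriv (deriv (TT k)) s| ∧ |s| ≤ 8 * 2 ^ k)) :
    Tr (T0 k) 1 σ h u0 (cA * (3 / 10 * (8 * 2 ^ k))) (KA * (8000 * (8 * 2 ^ k))) := by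
  intro z hz v hv1 hv2
  have h2 : |z.2| ≤ h := hz
  by_cases hz' : z ∈ arc
  · rw [StT_fderiv_jac_on k hz', StT_jac_on k hz', abs_mul]
    have e2 := StT_z_le k hz'
    have e3 := StT_r_le hz'
    have e4 := StT_div_le hz' v.2
    have v1 : 1 / 2 ≤ |v.1| := by rw [abs_of_pos (by linarith only [hv1, (abs_le.1 hv1).1])]; linarith only [hv1, (abs_le.1 hv1).1]
    have v2 : |v.1| ≤ 3 / 2 := by rw [abs_le]; constructor <;> linarith only [hv1, (abs_le.1 hv1).1, (abs_le.1 hv1).2]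
    have e5 : |StT_r z * v.1 + v.2 / (2 * cos (2 * π * z.1))| ≤ 1 / 10 * (8 * 2 ^ k) := by
      refine (abs_add_le _ _).trans ?_
      have : |StT_r z * v.1| ≤ 16 * h * (3 / 2) := by rw [abs_mul]; gcongr; linarith only [h2, e3]
      linarith only [hσ, hh, hk, hv2, e4, this]
    rw [add_mul, add_assoc]
    refine ⟨mul_le_mul (H _).1 ((abs_add_le _ _).trans ?_) (abs_nonneg _) hK.le, fun hs => ?_⟩
    · have : |StT_z k z * v.1| ≤ 5040 * (8 * 2 ^ k) * (3 / 2) := by rw [abs_mul]; gcongr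
      linarith only [hσ, hh, hk, e5, this]
    · obtain ⟨c1, c2⟩ := (H _).2 hs
      have e6 : |pf (sin (2 * π * z.1))| ≤ 104 / 100 := by
        have e7 : |ph k (sin (2 * π * z.1))| ≤ 8 * 2 ^ k * (104 / 100) := by
          have := StT_div_le hz' z.2
          have e : ph k (sin (2 * π * z.1)) = sarg k z - z.2 / (2 * cos (2 * π * z.1)) := by
            rw [sarg]; ring
          rw [e]
          refine (abs_sub _ _).trans ?_
          linarith only [hσ, hh, hk, h2, c2, this]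
        rw [ph, abs_mul, abs_of_pos (by positivity : (0 : ℝ) < 8 * 2 ^ k)] at e7
        exact le_of_mul_le_mul_left e7 (by positivity)
      have e8 : 4 / 5 * (8 * 2 ^ k) * (1 / 2) ≤ |StT_z k z * v.1| := by
        rw [abs_mul]; have := StT_z_ge k hz' e6; gcongr
      refine mul_le_mul c1 ?_ (by positivity) (abs_nonneg _)
      have := abs_sub_abs_le_abs_add (StT_z k z * v.1) (StT_r z * v.1 + v.2 / (2 * cos (2 * π * z.1)))
      linarith only [e5, e8, this]
  · have := StT_jac_off (T0_eventually_off (k := k) (h := h) (by linarith only [hσ, hh, hk])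
      (strip_mono (by linarith) hz) hz')
    rw [this.fderiv_eq, this.eq_of_nhds]
    refine ⟨by simp; positivity, fun h1 => ?_⟩
    rw [abs_one] at h1
    linarith only [hu, h1]

theorem pack_T : ∃ a1 CT C0 : ℝ, 1 ≤ a1 ∧ 0 ≤ CT ∧ 0 ≤ C0 ∧ ∀ σ h : ℝ, 0 ≤ σ → 0 ≤ h →
    ∃ F0 α, 0 ≤ α ∧ α ≤ CT * (σ + h + 1) ∧
      Pack (SN 1 h F0) F0 1 1 σ h (2 * α + a1 * σ + 1) (a1 * h + 1) α a1 (2 * a1) C0 ∧
      LRz h (SN 1 h F0) ∧ (∀ z, (F0 z).1 = z.1 + 1 / 4) ∧
      (∀ z ∈ strip h, |(F0 z).2| ≤ a1 * |z.2|) ∧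
      ∀ z ∈ strip h, 0 < cos (2 * π * z.1) → |sin (2 * π * z.1)| ≤ 72 / 100 →
        |(F0 z).2| ≤ 16 := by
  obtain ⟨a, u0, cA, KA, ha, hu0, hu1, hc, hK, H⟩ := exists_TT_bounds
  have hlog : 0 ≤ log (2 * (2 * a) / u0) := log_nonneg (by rw [le_div_iff₀ hu0]; linarith only [ha, hu0, hu1])
  refine ⟨a, a * 10 ^ 8, log (2 * (2 * a) / u0) + (32000 * KA + 2) / (cA * (3 / 10)), ha,
    by positivity, by positivity, fun σ h hσ hh => ?_⟩
  obtain ⟨n, hn1, hn2⟩ := exists_nat_pow_near (x := 125 * (σ + h + 2)) (y := (2 : ℝ))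
    (by linarith only [hu0, hu1, hσ, hh]) one_lt_two
  have hk : 1000 * (σ + h + 2) ≤ 8 * 2 ^ (n + 1) := by linarith only [hn2]
  have hk' : (8 : ℝ) * 2 ^ (n + 1) ≤ 2000 * (σ + h + 2) := by rw [pow_succ]; linarith only [hn1]
  generalize n + 1 = k at hk hk'
  have hd : ∀ s, |deriv (TT k) s| ≤ a := fun s => (H k s).1
  have S := StT_sk ha hd hh (k := k) (by linarith only [hu0, hu1, hσ, hh, hk])
  have T := StT_tr hσ hh hu1 hK hk fun s => (H k s).2
  have hZ : (1 : ℝ) ≤ 8 * 2 ^ k := by linarith only [hu0, hu1, hσ, hh, hk]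
  have E := e0_of_tr S.c2 hu0 (by positivity) (by positivity) (show u0 ≤ 2 * a by linarith only [ha, hu0, hu1]) T
  have P := pack_stage S zero_le_one hσ hu0 (by positivity) T (by push_cast; linarith)
    (by positivity) E
  refine ⟨T0 k, _, by positivity, by linarith only [ha, hu0, hu1, hσ, hh, hk', mul_nonneg_of_nonpos_of_nonpos (Mathlib.Tactic.Linarith.sub_nonpos_of_le ha) (Mathlib.Tactic.Linarith.sub_nonpos_of_le hσ), mul_nonneg_of_nonpos_of_nonpos (Mathlib.Tactic.Linarith.sub_nonpos_of_le ha) (Mathlib.Tactic.Linarith.sub_nonpos_of_le hh), mul_nonneg_of_nonpos_of_nonpos (Mathlib.Tactic.Linarith.sub_nonpos_of_le ha) (Mathlib.Tactic.Linarith.sub_nonpos_of_le hk')], P.mono le_rfl (by linarith only []) le_rfl S.d1 S.d2 ?_,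
    lrz_T0 hh (by linarith only [hu0, hu1, hσ, hh, hk]), fun z => rfl, fun z _ => StT_snd_le ha hd z, fun z hz h1 h2 => ?_⟩
  · refine add_le_add le_rfl ?_
    rw [div_le_div_iff₀ (by positivity) (by positivity)]
    have : cA * (3 / 10) * (2 * u0) ≤ cA * (3 / 10) * (2 * (8 * 2 ^ k)) := by gcongr; linarith only [hu0, hu1, hσ, hh, hk]
    linarith only [this]
  · have hz' : z ∈ arc := ⟨h1, by linarith only [hu0, hu1, h2]⟩
    have e1 : |ph k (sin (2 * π * z.1))| ≤ 8 * 2 ^ k * (95 / 100) := by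
      rw [ph, abs_mul, abs_of_pos (by positivity : (0 : ℝ) < 8 * 2 ^ k)]
      gcongr
      exact pf_mid h2
    have e2 : |sarg k z| ≤ 8 * 2 ^ k := by
      have := StT_div_le hz' z.2
      have h2 : |z.2| ≤ h := hz
      exact (abs_add_le _ _).trans (by linarith only [hu0, hu1, hσ, hh, hk, e1, this, h2])
    have e3 := TT_osc k e2 (e1.trans (by linarith only [hu0, hu1, hσ, hh, hk]))
    rw [StT_snd_on k hz', StT_f, abs_mul, abs_mul, abs_two]
    (refine le_of_not_gt fun h_nl => ?_; linarith only [h_nl, hu0, hu1, e3, abs_cos_le_one (2 * π * z.1), abs_nonneg (cos (2 * π * z.1)), abs_nonneg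
      (TT k (sarg k z) - TT k (ph k (sin (2 * π * z.1)))), mul_pos_of_neg_of_neg (Mathlib.Tactic.Linarith.sub_neg_of_lt hu0) (Mathlib.Tactic.Linarith.sub_neg_of_lt h_nl), mul_pos_of_neg_of_neg (Mathlib.Tactic.Linarith.sub_neg_of_lt hu1) (Mathlib.Tactic.Linarith.sub_neg_of_lt h_nl), mul_nonneg_of_nonpos_of_nonpos (Mathlib.Tactic.Linarith.sub_nonpos_of_le e3) (Mathlib.Tactic.Linarith.sub_nonpos_of_le (abs_nonneg (cos ((2 : ℝ) * π * z.1))))])

lemma StT_cover (τ : ℝ) : (0 < cos (2 * π * τ) ∧ |sin (2 * π * τ)| ≤ 72 / 100) ∨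
    (0 < cos (2 * π * (τ + 1 / 4)) ∧ |sin (2 * π * (τ + 1 / 4))| ≤ 72 / 100) ∨
    (0 < cos (2 * π * (τ + 1 / 4 + 1 / 4)) ∧ |sin (2 * π * (τ + 1 / 4 + 1 / 4))| ≤ 72 / 100) ∨
    (0 < cos (2 * π * (τ + 1 / 4 + 1 / 4 + 1 / 4)) ∧
      |sin (2 * π * (τ + 1 / 4 + 1 / 4 + 1 / 4))| ≤ 72 / 100) := by
  have e : ∀ x : ℝ, 2 * π * (x + 1 / 4) = 2 * π * x + π / 2 := fun x => by ring
  simp only [e, cos_add_pi_div_two, sin_add_pi_div_two, abs_neg, neg_neg]
  have h := sin_sq_add_cos_sq (2 * π * τ)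
  generalize sin (2 * π * τ) = s at *
  generalize cos (2 * π * τ) = c at *
  by_cases h1 : |s| ≤ 72 / 100
  · rcases lt_trichotomy c 0 with hc | hc | hc
    · exact Or.inr (Or.inr (Or.inl ⟨by linarith only [hc], h1⟩))
    · exfalso; have := abs_le.1 h1; linarith only [h, hc, this, Mathlib.Tactic.Linarith.zero_mul_eq (sub_eq_zero_of_eq hc) (sub_eq_zero_of_eq hc), mul_nonneg_of_nonpos_of_nonpos (Mathlib.Tactic.Linarith.sub_nonpos_of_le this.left) (Mathlib.Tactic.Linarith.sub_nonpos_of_le this.right)]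
    · exact Or.inl ⟨hc, h1⟩
  · have h2 : |c| ≤ 72 / 100 := by
      have := sq_abs s
      have := sq_abs c
      nlinarith [abs_nonneg c]
    rcases lt_trichotomy s 0 with hs | hs | hs
    · exact Or.inr (Or.inl ⟨by linarith only [hs], h2⟩)
    · exfalso; have := abs_le.1 h2; linarith only [h, hs, this, Mathlib.Tactic.Linarith.zero_mul_eq (sub_eq_zero_of_eq hs) (sub_eq_zero_of_eq hs), mul_nonneg_of_nonpos_of_nonpos (Mathlib.Tactic.Linarith.sub_nonpos_of_le this.left) (Mathlib.Tactic.Linarith.sub_nonpos_of_le this.right)]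
    · exact Or.inr (Or.inr (Or.inr ⟨hs, h2⟩))

lemma StT_rec {a CT α σ h X : ℝ} (ha : 1 ≤ a) (hC : 0 ≤ CT) (h1 : α ≤ CT * (σ + h + 1))
    (h2 : σ + h + 1 ≤ X) (hσ : 0 ≤ σ) (hh : 0 ≤ h) :
    α ≤ CT * X ∧ 2 * α + a * σ + 1 + (a * h + 1) + 1 ≤ (2 * CT + a + 3) * X := by
  have e1 : α ≤ CT * X := h1.trans (by gcongr)
  have e2 : a * (σ + h) ≤ a * X := by gcongr; linarith
  exact ⟨e1, by linarith only [h2, hσ, hh, e1, e2]⟩

lemma StT_num {a W Y X h : ℝ} (ha : 1 ≤ a) (hW : 0 ≤ W) (hh : 0 ≤ h) (hY : 0 ≤ Y) (hX : 0 ≤ X)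
    (hYX : 4 * a ^ 3 * Y = W * X) :
    1 ≤ 16 * a ^ 4 + W ∧ 1 ≤ 2 * a * (2 * a) * (2 * a) * (2 * a) ∧
    a * (a * (a * (a * h + 1) + 1) + 1) + 1 ≤ (16 * a ^ 4 + W) * (h + 1) ∧
    Y + a * (Y + a * (Y + a * Y)) ≤ (16 * a ^ 4 + W) * X ∧
    a * (a * (a * a)) ≤ 16 * a ^ 4 + W ∧ a * (a * (a * 16)) ≤ 16 * a ^ 4 + W ∧
    a * (a * 16) ≤ a * (a * (a * 16)) ∧ a * 16 ≤ a * (a * (a * 16)) ∧
    16 ≤ a * (a * (a * 16)) := by
  have a2 : 1 ≤ a ^ 2 := one_le_pow₀ ha
  have a3 : a ^ 2 ≤ a ^ 3 := pow_le_pow_right₀ ha (by norm_num)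
  have a4 : a ^ 3 ≤ a ^ 4 := pow_le_pow_right₀ ha (by norm_num)
  have a1 : a ≤ a ^ 2 := by simpa using pow_le_pow_right₀ ha (show 1 ≤ 2 by norm_num)
  have e1 : 0 ≤ a ^ 4 * h := by positivity
  have e2 : 0 ≤ W * h := by positivity
  have e3 : 0 ≤ a ^ 4 * X := by positivity
  have e4 : (1 + a + a ^ 2 + a ^ 3) * Y ≤ 4 * a ^ 3 * Y :=
    mul_le_mul_of_nonneg_right (by linarith only [a2, a3, a1]) hY
  refine ⟨by linarith only [hW, a2, a3, a4], ?_, ?_, ?_, ?_, ?_, ?_, ?_, ?_⟩ <;> ring_nf <;> ring_nf at e4 hYX e1 e2 e3 <;>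
    linarith only [a2, a3, a4, hW, a1, e1, e2, e3, e4, hYX]

theorem pack_T4 : ∃ C J e : ℝ, 1 ≤ C ∧ 1 ≤ J ∧ 0 ≤ e ∧ ∀ σ h : ℝ, 0 ≤ σ → 0 ≤ h →
    ∃ 𝓕 F0 σ', 0 ≤ σ' ∧
      Pack 𝓕 F0 1 1 σ h σ' (C * (h + 1)) (C * (σ + h + 1)) C J e ∧ LRz h 𝓕 ∧
      ∀ z ∈ strip h, |(F0 z).2| ≤ C := by
  obtain ⟨a, CT, C0, ha, hCT, hC0, H⟩ := pack_T
  obtain ⟨C1, hC1⟩ : ∃ C1, C1 = 2 * CT + a + 3 := ⟨_, rfl⟩
  have hC1' : 1 ≤ C1 := by linarith only [ha, hCT, hC1]
  have ha0 : 0 ≤ a := by linarith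
  have hC10 : 0 ≤ C1 := by linarith
  have hW : 0 ≤ 4 * a ^ 3 * CT * C1 ^ 3 := by positivity
  obtain ⟨n1, n2, -⟩ := StT_num (Y := 0) (X := 0) ha hW le_rfl le_rfl le_rfl (by ring)
  refine ⟨16 * a ^ 4 + 4 * a ^ 3 * CT * C1 ^ 3, 2 * a * (2 * a) * (2 * a) * (2 * a),
    C0 + C0 + C0 + C0, n1, n2, by positivity, fun σ h hσ hh => ?_⟩
  obtain ⟨F1, α1, p1, q1, P1, L1, f1, s1, t1⟩ := H σ h hσ hh
  obtain ⟨F2, α2, p2, q2, P2', L2, f2, s2, t2⟩ := H (2 * α1 + a * σ + 1) (a * h + 1)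
    (by positivity) (by positivity)
  obtain ⟨F3, α3, p3, q3, P3, L3, f3, s3, t3⟩ := H (2 * α2 + a * (2 * α1 + a * σ + 1) + 1)
    (a * (a * h + 1) + 1) (by positivity) (by positivity)
  obtain ⟨F4, α4, p4, q4, P4, L4, f4, s4, t4⟩ :=
    H (2 * α3 + a * (2 * α2 + a * (2 * α1 + a * σ + 1) + 1) + 1) (a * (a * (a * h + 1) + 1) + 1)
      (by positivity) (by positivity)
  have Q2 := P1.comp (by simpa using P2')
  have Q3 := Q2.comp (by simpa using P3)
  have Q4 := Q3.comp (by simpa using P4)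
  have M := ((L1.comp L2 P1.ls.mapsTo).comp L3 Q2.ls.mapsTo).comp L4 Q3.ls.mapsTo
  obtain ⟨r1, x1⟩ := StT_rec ha hCT q1 le_rfl hσ hh
  obtain ⟨r2, x2⟩ := StT_rec ha hCT q2 x1 (by positivity) (by positivity)
  obtain ⟨r3, x3⟩ := StT_rec ha hCT q3 x2 (by positivity) (by positivity)
  obtain ⟨r4, -⟩ := StT_rec ha hCT q4 x3 (by positivity) (by positivity)
  rw [← hC1] at r2 r3 r4
  have hX1 : 0 ≤ σ + h + 1 := by positivity
  have y1 : σ + h + 1 ≤ C1 * (σ + h + 1) := le_mul_of_one_le_left hX1 hC1'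
  have y2 := mul_le_mul_of_nonneg_left y1 hC10
  have y3 := mul_le_mul_of_nonneg_left y2 hC10
  have z1 := r1.trans (mul_le_mul_of_nonneg_left (y1.trans (y2.trans y3)) hCT)
  have z2 := r2.trans (mul_le_mul_of_nonneg_left (y2.trans y3) hCT)
  have z3 := r3.trans (mul_le_mul_of_nonneg_left y3 hCT)
  obtain ⟨-, -, n3, n4, n5, n6, n7, n8, n9⟩ := StT_num ha hW hh (p1.trans z1) hX1 (by ring)
  refine ⟨_, _, _, by positivity, Q4.mono le_rfl le_rfl n3 (fun z hz => (Q4.sk.d1 z hz).trans ?_)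
    (fun z hz => (Q4.sk.d2 z hz).trans n5) le_rfl, M, fun z hz => ?_⟩
  · simp only [Nat.cast_one, mul_one]
    refine le_trans ?_ n4
    gcongr
  · have m1 : F1 z ∈ strip (a * h + 1) := (P1.sk.ht z hz).trans (sub_le_self _ zero_le_one)
    have m2 : F2 (F1 z) ∈ strip (a * (a * h + 1) + 1) :=
      (P2'.sk.ht _ m1).trans (sub_le_self _ zero_le_one)
    have m3 : F3 (F2 (F1 z)) ∈ strip (a * (a * (a * h + 1) + 1) + 1) :=
      (P3.sk.ht _ m2).trans (sub_le_self _ zero_le_one)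
    have b2 := s2 _ m1
    have b3 := s3 _ m2
    have b4 := s4 _ m3
    have up : ∀ {x y u : ℝ}, x ≤ a * y → y ≤ u → x ≤ a * u := fun h1 h2 =>
      h1.trans (mul_le_mul_of_nonneg_left h2 ha0)
    show |(F4 (F3 (F2 (F1 z)))).2| ≤ _
    refine le_trans ?_ n6
    rcases StT_cover z.1 with ⟨c, s⟩ | ⟨c, s⟩ | ⟨c, s⟩ | ⟨c, s⟩
    · exact up b4 (up b3 (up b2 (t1 z hz c s)))
    · exact (up b4 (up b3 (t2 _ m1 (by rwa [f1]) (by rwa [f1])))).trans n7
    · exact (up b4 (t3 _ m2 (by rwa [f2, f1]) (by rwa [f2, f1]))).trans n8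
    · exact (t4 _ m3 (by rwa [f3, f2, f1]) (by rwa [f3, f2, f1])).trans n9

end Pool.Agent.Work.MP_14af4f_an
end
end

-- merged part: Pool.Agent.Work.MP_14af4f_an.Main
section
-- merged part: Pool.Agent.Work.MP_14af4f_an.StWA
section
/-!
The stages expanding the angle and the stage contracting the fibres.
-/

open Set Filter Topology Real MeasureTheory
open scoped ContDiff

namespace Pool.Agent.Work.MP_14af4f_an

noncomputable section

/-- The coefficient of the quadratic map. -/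
def γ0 : ℝ := 1601 / 80

/-- The quadratic map of the plane. -/
def Wp (p : P2) : P2 := (p.1 ^ 2 - p.2 ^ 2, 2 * p.1 * p.2 + γ0 * (p.1 ^ 2 + p.2 ^ 2 - 1))

/-- Its limit in thin annuli. -/
def W0 (z : P2) : P2 := (2 * z.1, 2 * (1 + γ0 * sin (4 * π * z.1)) * z.2)

/-- A radial map of the plane. -/
def Np (b : ℝ) (p : P2) : P2 := (√(b + (1 - b) * (p.1 ^ 2 + p.2 ^ 2)))⁻¹ • p

lemma rl_Wp : Rl Wp := by
  have h1 := rl_lin (a := 40) (b := 1) (c := 1) (d := 40) (by norm_num) (by norm_num)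
  have h2 := rl_lin (a := 1 / 1599) (b := -(1 / 1599)) (c := 1 / 80) (d := 1 / 80) (by norm_num)
    (by norm_num)
  refine ((((h1.comp rl_foldX).comp rl_foldY).comp h2).comp (rl_transl 0 (-γ0))).of_eq fun p => ?_
  simp only [Wp, γ0, Function.comp]
  ext <;> simp only <;> ring

/-- The normalising factor. -/
def StWA_n (b x : ℝ) : ℝ := √(b + (1 - b) * x ^ 2)

lemma StWA_pos {b : ℝ} (h0 : 0 < b) (h1 : b < 1) (x : ℝ) : 0 < b + (1 - b) * x ^ 2 := by
  have : 0 ≤ (1 - b) * x ^ 2 := mul_nonneg (by linarith) (sq_nonneg x)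
  linarith

lemma StWA_n_pos {b : ℝ} (h0 : 0 < b) (h1 : b < 1) (x : ℝ) : 0 < StWA_n b x :=
  Real.sqrt_pos.2 (StWA_pos h0 h1 x)

lemma StWA_n_sq {b : ℝ} (h0 : 0 < b) (h1 : b < 1) (x : ℝ) :
    StWA_n b x ^ 2 = b + (1 - b) * x ^ 2 := Real.sq_sqrt (StWA_pos h0 h1 x).le

lemma StWA_n_smooth {b : ℝ} (h0 : 0 < b) (h1 : b < 1) : ContDiff ℝ ∞ (StWA_n b) :=
  ContDiff.sqrt (by fun_prop) fun x => (StWA_pos h0 h1 x).ne'

lemma StWA_deriv {b : ℝ} (h0 : 0 < b) (h1 : b < 1) (x : ℝ) :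
    0 < deriv (fun x => x / StWA_n b x) x := by
  have hp := StWA_n_pos h0 h1 x
  have hs := StWA_n_sq h0 h1 x
  have e1 : HasDerivAt (fun x : ℝ => b + (1 - b) * x ^ 2) ((1 - b) * (2 * x)) x := by
    simpa using ((hasDerivAt_pow 2 x).const_mul (1 - b)).const_add b
  have e2 : HasDerivAt (StWA_n b) ((1 - b) * (2 * x) / (2 * StWA_n b x)) x :=
    e1.sqrt (StWA_pos h0 h1 x).ne'
  have e3 := ((hasDerivAt_id x).div e2 hp.ne').deriv
  have e4 : deriv (fun x => x / StWA_n b x) x =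
      (1 * StWA_n b x - x * ((1 - b) * (2 * x) / (2 * StWA_n b x))) / StWA_n b x ^ 2 := e3
  have e5 : 1 * StWA_n b x - x * ((1 - b) * (2 * x) / (2 * StWA_n b x)) = b / StWA_n b x := by
    field_simp
    linarith only [hs]
  rw [e4, e5]
  positivity

lemma rl_Np {b : ℝ} (h0 : 0 < b) (h1 : b < 1) : Rl (Np b) := by
  have hn := StWA_n_smooth h0 h1
  have hp := StWA_n_pos h0 h1
  have a1 : Rl fun p => (p.1, (fun x => √b / StWA_n b x) p.1 * p.2) :=
    rl_overY (contDiff_const.div hn fun x => (hp x).ne')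
  have a2 : Rl fun p => ((fun x => x / StWA_n b x) p.1, p.2) :=
    rl_diffX (contDiff_id.div hn fun x => (hp x).ne') (StWA_deriv h0 h1)
  have H := a1.comp a2
  refine (((H.comp rl_swap).comp H).comp rl_swap).of_eq fun p => ?_
  have hb : 0 < √b := Real.sqrt_pos.2 h0
  have hbs : √b ^ 2 = b := Real.sq_sqrt h0.le
  have hN : 0 < b + (1 - b) * (p.1 ^ 2 + p.2 ^ 2) := by
    have : 0 ≤ (1 - b) * (p.1 ^ 2 + p.2 ^ 2) := mul_nonneg (by linarith) (by positivity)
    linarith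
  have hN' : 0 < √(b + (1 - b) * (p.1 ^ 2 + p.2 ^ 2)) := Real.sqrt_pos.2 hN
  have hx := hp p.1
  have key : StWA_n b (√b / StWA_n b p.1 * p.2) =
      √b * √(b + (1 - b) * (p.1 ^ 2 + p.2 ^ 2)) / StWA_n b p.1 := by
    refine (pow_left_inj₀ (hp _).le (by positivity) two_ne_zero).1 ?_
    rw [StWA_n_sq h0 h1, div_pow, mul_pow, mul_pow, div_pow, hbs, Real.sq_sqrt hN.le,
      eq_div_iff (by positivity)]
    have := StWA_n_sq h0 h1 p.1
    field_simp
    rw [this]; ring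
  simp only [Np, Function.comp, key]
  ext
  · simp only [Prod.smul_fst, smul_eq_mul]
    field_simp
  · simp only [Prod.smul_snd, smul_eq_mul]
    field_simp

lemma StWA_small {h : ℝ} (hh : 0 ≤ h) :
    ∀ᶠ w in 𝓝[>] (0 : ℝ), 0 < w ∧ ∀ z ∈ strip (h + 1), |w * z.2| < 1 := by
  have h1 : (0 : ℝ) < 1 / (h + 1) := by positivity
  filter_upwards [Ioo_mem_nhdsGT h1] with w hw
  refine ⟨hw.1, fun z hz => ?_⟩
  have h2 : |z.2| ≤ h + 1 := hz
  have h3 : w * (h + 1) < 1 := (lt_div_iff₀ (by positivity)).1 hw.2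
  rw [abs_mul, abs_of_pos hw.1]
  exact lt_of_le_of_lt (mul_le_mul_of_nonneg_left h2 hw.1.le) h3

lemma lrz_W0 {h : ℝ} (hh : 0 ≤ h) : LRz h (SN 2 h W0) := by
  refine lrz_of_param hh (b := 0) (G := fun _ => Wp)
    (P := fun q => ((1 + q.1 * q.2.2 * (1 + γ0 * sin (4 * π * q.2.1)),
      q.1 * q.2.2 * γ0 * cos (4 * π * q.2.1)),
      2 * q.2.2 * (1 + γ0 * sin (4 * π * q.2.1)) + q.1 * q.2.2 ^ 2 *
        ((1 + γ0 * sin (4 * π * q.2.1)) ^ 2 + γ0 ^ 2 * cos (4 * π * q.2.1) ^ 2)))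
    (Eventually.of_forall fun _ => rl_Wp) ?_ ?_ ?_ ?_
  · intro z
    have e : sin (4 * π * (z.1 + 1)) = sin (4 * π * z.1) := by
      rw [show 4 * π * (z.1 + 1) = 4 * π * z.1 + 2 * π + 2 * π by ring, sin_add_two_pi,
        sin_add_two_pi]
    ext
    · simp [W0]; ring
    · simp [W0, e]
  · intro z _
    fun_prop
  · filter_upwards [StWA_small hh] with w hw z hz
    have h1 : 0 ≤ 1 + w * z.2 := by linarith only [hw, hz, (abs_lt.1 (hw.2 z hz)).1]
    have h2 : √(1 + w * z.2) ^ 2 = 1 + w * z.2 := Real.sq_sqrt h1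
    have e0 : 2 * π * (((2 : ℕ) : ℝ) * z.1 + 0) = 4 * π * z.1 := by push_cast; ring
    have ec : cos (4 * π * z.1) = cos (2 * π * z.1) ^ 2 - sin (2 * π * z.1) ^ 2 := by
      rw [← cos_two_mul']; congr 1; ring
    have es : sin (4 * π * z.1) = 2 * sin (2 * π * z.1) * cos (2 * π * z.1) := by
      rw [← sin_two_mul]; congr 1; ring
    have e1 := sin_sq_add_cos_sq (2 * π * z.1)
    have e2 := sin_sq_add_cos_sq (4 * π * z.1)
    have eW : Wp (Psi w z) = ((1 + w * z.2) * cos (4 * π * z.1),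
        (1 + w * z.2) * sin (4 * π * z.1) + γ0 * (w * z.2)) := by
      simp only [Wp, Psi]
      ext
      · simp only
        rw [ec, mul_pow, mul_pow, h2]; ring
      · simp only
        rw [es, mul_pow, mul_pow, h2]
        linear_combination (2 * sin (2 * π * z.1) * cos (2 * π * z.1)) * h2 +
          γ0 * (1 + w * z.2) * e1
    rw [e0, eW]
    refine ⟨?_, ?_⟩
    · simp only [rt]
      ext
      · simp only
        linear_combination (1 + w * z.2) * e2
      · simp only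
        ring
    · simp only
      rw [div_eq_iff hw.1.ne']
      linear_combination ((1 + w * z.2) ^ 2 - γ0 ^ 2 * (w * z.2) ^ 2) * e2
  · intro z _
    refine ⟨by simp, ?_⟩
    simp only [W0]
    ext
    · simp
    · simp only; ring

lemma lrz_lin {b h : ℝ} (h0 : 0 < b) (h1 : b < 1) (hh : 0 ≤ h) : LRz h (SN 1 h (lin b)) := by
  refine lrz_of_param hh (b := 0) (G := fun _ => Np b)
    (P := fun q => ((√(1 + q.1 * q.2.2) / √(1 + (1 - b) * (q.1 * q.2.2)), 0),
      b * q.2.2 / (1 + (1 - b) * (q.1 * q.2.2))))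
    (Eventually.of_forall fun _ => rl_Np h0 h1) ?_ ?_ ?_ ?_
  · intro z
    ext <;> simp [lin]
  · intro z _
    refine ContDiffAt.prodMk (ContDiffAt.prodMk (ContDiffAt.div ?_ ?_ (by simp)) contDiffAt_const)
      (ContDiffAt.div (by fun_prop) (by fun_prop) (by simp))
    · exact ContDiffAt.sqrt (by fun_prop) (by simp)
    · exact ContDiffAt.sqrt (by fun_prop) (by simp)
  · filter_upwards [StWA_small hh] with w hw z hz
    have h2 := abs_lt.1 (hw.2 z hz)
    have h3 : 0 ≤ 1 + w * z.2 := by linarith [h2.1]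
    have h4 : 0 < 1 + (1 - b) * (w * z.2) := by linarith only [h0, h1, h2, h2.1, mul_pos_of_neg_of_neg (Mathlib.Tactic.Linarith.sub_neg_of_lt h0) (Mathlib.Tactic.Linarith.sub_neg_of_lt h0), mul_pos_of_neg_of_neg (Mathlib.Tactic.Linarith.sub_neg_of_lt h0) (Mathlib.Tactic.Linarith.sub_neg_of_lt h1), mul_pos_of_neg_of_neg (Mathlib.Tactic.Linarith.sub_neg_of_lt h1) (Mathlib.Tactic.Linarith.sub_neg_of_lt h2.left)]
    have h5 : √(1 + w * z.2) ^ 2 = 1 + w * z.2 := Real.sq_sqrt h3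
    have h6 : √(1 + (1 - b) * (w * z.2)) ^ 2 = 1 + (1 - b) * (w * z.2) := Real.sq_sqrt h4.le
    have h7 : 0 < √(1 + (1 - b) * (w * z.2)) := Real.sqrt_pos.2 h4
    have e0 : 2 * π * (((1 : ℕ) : ℝ) * z.1 + 0) = 2 * π * z.1 := by push_cast; ring
    have e1 := sin_sq_add_cos_sq (2 * π * z.1)
    have eN : Np b (Psi w z) =
        (√(1 + w * z.2) / √(1 + (1 - b) * (w * z.2)) * cos (2 * π * z.1),
          √(1 + w * z.2) / √(1 + (1 - b) * (w * z.2)) * sin (2 * π * z.1)) := by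
      rw [Np, Psi_sq h3, show b + (1 - b) * (1 + w * z.2) = 1 + (1 - b) * (w * z.2) by ring]
      simp only [Psi]
      ext
      · simp only [Prod.smul_fst, smul_eq_mul]; ring
      · simp only [Prod.smul_snd, smul_eq_mul]; ring
    rw [e0, eN]
    refine ⟨?_, ?_⟩
    · simp only [rt]
      ext
      · simp only
        linear_combination (√(1 + w * z.2) / √(1 + (1 - b) * (w * z.2))) * e1
      · simp only
        ring
    · simp only
      rw [mul_pow, mul_pow, ← mul_add, cos_sq_add_sin_sq, div_pow, h5, h6]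
      have h9 := hw.1.ne'
      have h8 := h4.ne'
      rw [mul_one, div_eq_div_iff h9 h8, sub_mul, div_mul_cancel₀ _ h8]
      ring
  · intro z _
    refine ⟨by simp, ?_⟩
    simp [lin]

lemma StWA_log_sin (c : ℝ) {D : ℕ} (hD : 1 ≤ D) :
    IntervalIntegrable (fun s => log (sin (c + 2 * π * D * s))) volume 0 1 ∧
      ∫ s in (0 : ℝ)..1, log (sin (c + 2 * π * D * s)) = -log 2 := by
  have hD' : (0 : ℝ) < D := by exact_mod_cast hD
  have hk : (0 : ℝ) < 2 * π * D := by positivity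
  constructor
  · have h1 := ((intervalIntegrable_log_sin (a := c) (b := c + 2 * π * D)).comp_add_left
      c).comp_mul_left (c := 2 * π * D)
    simpa [div_self hk.ne'] using h1
  · have hper : Function.Periodic (fun x => log (sin x)) π := fun x => by
      simp only [sin_add_pi, log_neg_eq_log]
    rw [intervalIntegral.integral_comp_add_mul (fun x => log (sin x)) hk.ne']
    have e : c + 2 * π * D * 1 = c + 2 * π * D * 0 + ((2 * D : ℕ) : ℤ) • π := by
      rw [zsmul_eq_mul]; push_cast; ring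
    rw [e, hper.intervalIntegral_add_zsmul_eq _ _ fun _ _ => intervalIntegrable_log_sin,
      hper.intervalIntegral_add_eq _ 0, zero_add, integral_log_sin_zero_pi, zsmul_eq_mul,
      smul_eq_mul]
    push_cast
    field_simp

lemma StWA_ae_ne (c : ℝ) {D : ℕ} (hD : 1 ≤ D) : ∀ᵐ s : ℝ, sin (c + 2 * π * D * s) ≠ 0 := by
  have hD' : (0 : ℝ) < D := by exact_mod_cast hD
  have hk : (0 : ℝ) < 2 * π * D := by positivity
  have h : {s : ℝ | sin (c + 2 * π * D * s) = 0} ⊆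
      range fun n : ℤ => (n * π - c) / (2 * π * D) := by
    intro s hs
    obtain ⟨n, hn⟩ := sin_eq_zero_iff.1 hs
    refine ⟨n, ?_⟩
    simp only
    rw [hn, div_eq_iff hk.ne']; ring
  rw [ae_iff]
  simp only [ne_eq, not_not]
  exact measure_mono_null h ((countable_range _).measure_zero _)

lemma integral_log_W (τ : ℝ) {D : ℕ} (hD : 1 ≤ D) :
    IntervalIntegrable (fun s => log (1 + γ0 * sin (4 * π * (τ + D * s)))) volume 0 1 ∧
      ∫ s in (0 : ℝ)..1, log (1 + γ0 * sin (4 * π * (τ + D * s))) = log (γ0 / 2) := by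
  have hγ : (0 : ℝ) < γ0 := by norm_num [γ0]
  obtain ⟨α, hα⟩ : ∃ α, sin α = -(1 / γ0) :=
    ⟨arcsin (-(1 / γ0)), sin_arcsin (by norm_num [γ0]) (by norm_num [γ0])⟩
  have key : ∀ s : ℝ, 1 + γ0 * sin (4 * π * (τ + D * s)) = 2 * γ0 *
      sin (2 * π * τ - α / 2 + 2 * π * D * s) *
        sin (2 * π * τ + α / 2 + π / 2 + 2 * π * D * s) := by
    intro s
    have h1 := sin_sub_sin (4 * π * (τ + D * s)) α
    rw [show 2 * π * τ + α / 2 + π / 2 + 2 * π * D * s =
        (4 * π * (τ + D * s) + α) / 2 + π / 2 by ring, sin_add_pi_div_two,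
      show 2 * π * τ - α / 2 + 2 * π * D * s = (4 * π * (τ + D * s) - α) / 2 by ring]
    rw [hα] at h1
    have h2 : γ0 * (1 / γ0) = 1 := by field_simp
    linear_combination γ0 * h1 - h2
  obtain ⟨i1, v1⟩ := StWA_log_sin (2 * π * τ - α / 2) hD
  obtain ⟨i2, v2⟩ := StWA_log_sin (2 * π * τ + α / 2 + π / 2) hD
  have hae : ∀ᵐ s : ℝ, log (1 + γ0 * sin (4 * π * (τ + D * s))) = log (2 * γ0) +
      log (sin (2 * π * τ - α / 2 + 2 * π * D * s)) +
        log (sin (2 * π * τ + α / 2 + π / 2 + 2 * π * D * s)) := by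
    filter_upwards [StWA_ae_ne (2 * π * τ - α / 2) hD, StWA_ae_ne (2 * π * τ + α / 2 + π / 2) hD]
      with s h1 h2
    rw [key, log_mul (mul_ne_zero (by positivity) h1) h2, log_mul (by positivity) h1]
  have i0 : IntervalIntegrable (fun _ : ℝ => log (2 * γ0)) volume 0 1 := intervalIntegrable_const
  constructor
  · exact ((i0.add i1).add i2).congr_ae (ae_restrict_of_ae (hae.mono fun s hs => hs.symm))
  · rw [intervalIntegral.integral_congr_ae (hae.mono fun s hs _ => hs),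
      intervalIntegral.integral_add (i0.add i1) i2, intervalIntegral.integral_add i0 i1, v1, v2,
      intervalIntegral.integral_const, log_mul (by norm_num) hγ.ne', log_div hγ.ne' (by norm_num)]
    simp only [sub_zero, smul_eq_mul, one_mul]
    ring

end

end Pool.Agent.Work.MP_14af4f_an
end

-- merged part: Pool.Agent.Work.MP_14af4f_an.StW
section
/-!
The stages expanding the angle: estimates.
-/

open Set Filter Topology Real MeasureTheory
open scoped ContDiff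

namespace Pool.Agent.Work.MP_14af4f_an

noncomputable section

lemma StW_fd {a : ℝ} {m : ℝ → ℝ} (hm : Differentiable ℝ m) {F : P2 → P2}
    (hF : ∀ z, F z = (a * z.1, m z.1 * z.2)) (z v : P2) :
    fderiv ℝ F z v = (a * v.1, deriv m z.1 * v.1 * z.2 + m z.1 * v.2) := by
  have hF' : F = fun z : P2 => (a * z.1, m z.1 * z.2) := funext hF
  have h1 : HasFDerivAt (fun z : P2 => m z.1)
      ((ContinuousLinearMap.toSpanSingleton ℝ (deriv m z.1)).comp
        (ContinuousLinearMap.fst ℝ ℝ ℝ)) z :=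
    (hm z.1).hasDerivAt.hasFDerivAt.comp z hasFDerivAt_fst
  have h2 := ((hasFDerivAt_fst (𝕜 := ℝ) (p := z)).const_mul a).prodMk
    (h1.mul (hasFDerivAt_snd (𝕜 := ℝ) (p := z)))
  rw [hF']
  erw [h2.fderiv]
  ext
  · simp
  · simp
    ring

lemma StW_γ0_gt : (20 : ℝ) < γ0 := by
  unfold γ0
  norm_num

/-- The multiplier of the fibres. -/
def StW_g (τ : ℝ) : ℝ := 2 * (1 + γ0 * sin (4 * π * τ))

lemma StW_g_smooth : ContDiff ℝ ∞ StW_g := by
  unfold StW_g
  fun_prop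

lemma StW_g_deriv (τ : ℝ) : HasDerivAt StW_g (8 * π * γ0 * cos (4 * π * τ)) τ := by
  have h1 : HasDerivAt (fun τ : ℝ => 4 * π * τ) (4 * π) τ := by
    simpa using (hasDerivAt_id τ).const_mul (4 * π)
  have h2 := ((h1.sin.const_mul γ0).const_add 1).const_mul 2
  have h3 : 8 * π * γ0 * cos (4 * π * τ) = 2 * (γ0 * (cos (4 * π * τ) * (4 * π))) := by ring
  rw [h3]
  exact h2

lemma StW_g_per : Function.Periodic StW_g 1 := by
  intro τ
  unfold StW_g
  have : 4 * π * (τ + 1) = 4 * π * τ + ((2 : ℕ) : ℝ) * (2 * π) := by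
    push_cast
    ring
  rw [this, sin_add_nat_mul_two_pi]

lemma StW_W0 (z : P2) : W0 z = (2 * z.1, StW_g z.1 * z.2) := rfl

lemma StW_g_abs (τ : ℝ) : |StW_g τ| ≤ 2 * (1 + γ0) := by
  have h := StW_γ0_gt
  have h1 := neg_one_le_sin (4 * π * τ)
  have h2 := sin_le_one (4 * π * τ)
  unfold StW_g
  rw [abs_le]
  constructor <;> linarith only [h1, h, h2, mul_nonneg_of_nonpos_of_nonpos (le_of_lt (Mathlib.Tactic.Linarith.sub_neg_of_lt h)) (Mathlib.Tactic.Linarith.sub_nonpos_of_le h1), mul_nonneg_of_nonpos_of_nonpos (le_of_lt (Mathlib.Tactic.Linarith.sub_neg_of_lt h)) (Mathlib.Tactic.Linarith.sub_nonpos_of_le h2)]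

lemma StW_g_diff : Differentiable ℝ StW_g := fun τ => (StW_g_deriv τ).differentiableAt

lemma StW_jac (z : P2) : jac W0 z = 2 * StW_g z.1 := by
  rw [jac, det_eq, StW_fd StW_g_diff StW_W0, StW_fd StW_g_diff StW_W0]
  simp

lemma StW_jac_fd (z v : P2) :
    fderiv ℝ (jac W0) z v = 16 * π * γ0 * cos (4 * π * z.1) * v.1 := by
  have h0 : jac W0 = fun z : P2 => 2 * StW_g z.1 := funext StW_jac
  have h1 := (((StW_g_deriv z.1).const_mul 2).hasFDerivAt.comp z
    (hasFDerivAt_fst (𝕜 := ℝ) (p := z))).fderiv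
  rw [h0]
  erw [h1]
  simp
  ring

lemma StW_sk {h : ℝ} (hh : 0 ≤ h) :
    Sk W0 2 h (2 * (1 + γ0) * h + 1) (8 * π * γ0 * h) (2 * (1 + γ0)) where
  h_nonneg := hh
  per := by
    intro z
    rw [StW_W0, StW_W0]
    ext
    · simp
      ring
    · simp [StW_g_per z.1]
  c2 := by
    refine c2_of_contDiff ?_ _
    unfold W0
    fun_prop
  fst := ⟨0, fun z => by simp [W0]⟩
  ht := by
    intro z hz
    rw [StW_W0, abs_mul, add_sub_cancel_right]
    exact mul_le_mul (StW_g_abs _) hz (abs_nonneg _) (by linarith only [StW_γ0_gt])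
  d1 := by
    intro z hz
    rw [StW_fd StW_g_diff StW_W0, (StW_g_deriv z.1).deriv]
    have h1 : 0 < 8 * π * γ0 := by
      have := StW_γ0_gt
      positivity
    simp only [mul_one, mul_zero, add_zero]
    rw [abs_mul, abs_mul, abs_of_pos h1]
    refine mul_le_mul ?_ hz (abs_nonneg _) h1.le
    exact mul_le_of_le_one_right h1.le (abs_cos_le_one _)
  d2 := by
    intro z _
    rw [StW_fd StW_g_diff StW_W0]
    simpa using StW_g_abs z.1

lemma StW_tr {σ h : ℝ} {D : ℝ} (hD : 1 ≤ D) : Tr W0 D σ h 4 1 (16 * π * γ0 * (D + 1 / 2)) := by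
  intro z _ v hv _
  have hγ := StW_γ0_gt
  have h1 : 0 < 16 * π * γ0 := by positivity
  obtain ⟨hv1, hv2⟩ := abs_le.1 hv
  have hv0 : 0 < v.1 := by linarith only [hD, hv1]
  rw [StW_jac_fd, abs_mul, abs_mul, abs_of_pos h1, abs_of_pos hv0]
  constructor
  · exact mul_le_mul (mul_le_of_le_one_right h1.le (abs_cos_le_one _)) (by linarith only [hv2]) hv0.le h1.le
  · intro hj
    rw [StW_jac, StW_g, abs_le] at hj
    have hs1 : sin (4 * π * z.1) ≤ 1 / 10 := by (refine le_of_not_gt fun h_nl => ?_; linarith only [h_nl, hγ, hj, hj.2, mul_pos_of_neg_of_neg (Mathlib.Tactic.Linarith.sub_neg_of_lt hγ) (Mathlib.Tactic.Linarith.sub_neg_of_lt h_nl)])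
    have hs2 : -(1 / 10) ≤ sin (4 * π * z.1) := by (refine le_of_not_gt fun h_nl => ?_; linarith only [h_nl, hj, hγ, hs1, hj.1, mul_nonneg_of_nonpos_of_nonpos (le_of_lt (Mathlib.Tactic.Linarith.sub_neg_of_lt hγ)) (Mathlib.Tactic.Linarith.sub_nonpos_of_le hs1), mul_pos_of_neg_of_neg (Mathlib.Tactic.Linarith.sub_neg_of_lt hγ) (Mathlib.Tactic.Linarith.sub_neg_of_lt h_nl)])
    have hc : 1 / 2 ≤ |cos (4 * π * z.1)| := by
      refine le_of_sq_le_sq ?_ (abs_nonneg _)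
      rw [sq_abs, cos_sq']
      (refine le_of_not_gt fun h_nl => ?_; linarith only [h_nl, hγ, hj, hs2, hs1, mul_pos_of_neg_of_neg (Mathlib.Tactic.Linarith.sub_neg_of_lt hγ) (Mathlib.Tactic.Linarith.sub_neg_of_lt h_nl), mul_nonneg_of_nonpos_of_nonpos (Mathlib.Tactic.Linarith.sub_nonpos_of_le hj.left) (Mathlib.Tactic.Linarith.sub_nonpos_of_le hs1)])
    have h3 : 4 ≤ 16 * π * γ0 := by linarith only [hγ, pi_gt_three, mul_pos_of_neg_of_neg (Mathlib.Tactic.Linarith.sub_neg_of_lt hγ) (Mathlib.Tactic.Linarith.sub_neg_of_lt pi_gt_three)]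
    calc (1 : ℝ) = 4 * (1 / 2) * (1 / 2) := by norm_num
      _ ≤ 16 * π * γ0 * |cos (4 * π * z.1)| * v.1 := by
        refine mul_le_mul (mul_le_mul h3 hc (by norm_num) h1.le) (by linarith only [hD, hv1]) (by norm_num) ?_
        positivity

lemma StW_countable_sin (c : ℝ) : {u : ℝ | sin u = c}.Countable := by
  by_cases h : ∃ x, sin x = c
  · obtain ⟨x, rfl⟩ := h
    refine ((countable_range fun k : ℤ => 2 * k * π + x).union
      (countable_range fun k : ℤ => (2 * k + 1) * π - x)).mono ?_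
    intro u hu
    obtain ⟨k, hk | hk⟩ := sin_eq_sin_iff.1 (show sin x = sin u from hu.symm)
    · exact Or.inl ⟨k, hk.symm⟩
    · exact Or.inr ⟨k, hk.symm⟩
  · have : {u : ℝ | sin u = c} = ∅ := by
      ext u
      simpa using fun hu => h ⟨u, hu⟩
    rw [this]
    exact countable_empty

lemma StW_log_lip {J t a b : ℝ} (hJ : 0 < J) (ht : 0 < t) :
    log (J / max |a| t) ≤ log (J / max |b| t) + |a - b| / t := by
  have ha : 0 < max |a| t := lt_max_of_lt_right ht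
  have hb : 0 < max |b| t := lt_max_of_lt_right ht
  rw [log_div hJ.ne' ha.ne', log_div hJ.ne' hb.ne']
  have h1 : max |b| t ≤ max |a| t + |a - b| := by
    refine max_le ?_ ?_
    · have := abs_sub_abs_le_abs_sub b a
      rw [abs_sub_comm b a] at this
      linarith [le_max_left |a| t]
    · linarith [le_max_right |a| t, abs_nonneg (a - b)]
  have h2 : log (max |b| t) - log (max |a| t) ≤ max |b| t / max |a| t - 1 := by
    rw [← log_div hb.ne' ha.ne']
    exact log_le_sub_one_of_pos (div_pos hb ha)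
  have h3 : max |b| t / max |a| t - 1 ≤ |a - b| / max |a| t := by
    rw [div_sub_one ha.ne']
    exact div_le_div_of_nonneg_right (by linarith) ha.le
  have h4 : |a - b| / max |a| t ≤ |a - b| / t :=
    div_le_div_of_nonneg_left (abs_nonneg _) ht (le_max_right _ _)
  linarith only [h2, h3, h4]

lemma StW_g_lip (x y : ℝ) : |2 * StW_g x - 2 * StW_g y| ≤ 16 * π * γ0 * |x - y| := by
  have hγ := StW_γ0_gt
  have h1 : 2 * StW_g x - 2 * StW_g y = 4 * γ0 * (sin (4 * π * x) - sin (4 * π * y)) := by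
    unfold StW_g
    ring
  have h2 := abs_sin_sub_sin_le (4 * π * x) (4 * π * y)
  rw [← mul_sub, abs_mul, abs_of_pos (by positivity : 0 < 4 * π)] at h2
  rw [h1, abs_mul, abs_of_pos (by positivity : 0 < 4 * γ0)]
  calc 4 * γ0 * |sin (4 * π * x) - sin (4 * π * y)| ≤ 4 * γ0 * (4 * π * |x - y|) :=
        mul_le_mul_of_nonneg_left h2 (by positivity)
    _ = 16 * π * γ0 * |x - y| := by ring

lemma StW_line (τ : ℝ) {D : ℕ} (hD : 1 ≤ D) {t : ℝ} (ht : 0 < t) :
    ∫⁻ s in Icc (0 : ℝ) 1, ENNReal.ofReal (log (8 * γ0 / max |2 * StW_g (τ + D * s)| t)) ≤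
      ENNReal.ofReal (log 4) := by
  have hγ := StW_γ0_gt
  obtain ⟨hi, hv⟩ := integral_log_W τ hD
  have hD' : (0 : ℝ) < D := by exact_mod_cast hD
  set φ : ℝ → ℝ := fun s => log (2 * γ0) - log (1 + γ0 * sin (4 * π * (τ + D * s))) with hφ
  have hint : IntegrableOn φ (Icc 0 1) volume := by
    rw [← intervalIntegrable_iff_integrableOn_Icc_of_le zero_le_one]
    exact intervalIntegrable_const.sub hi
  have hval : ∫ s in Icc (0 : ℝ) 1, φ s = log 4 := by
    rw [integral_Icc_eq_integral_Ioc, ← intervalIntegral.integral_of_le zero_le_one, hφ,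
      intervalIntegral.integral_sub intervalIntegrable_const hi, hv]
    simp only [intervalIntegral.integral_const, sub_zero, smul_eq_mul, one_mul]
    rw [← log_div (by positivity) (by positivity)]
    congr 1
    field_simp
    norm_num
  have habs : ∀ u : ℝ, |1 + γ0 * sin u| ≤ 2 * γ0 := by
    intro u
    have h1 := neg_one_le_sin u
    have h2 := sin_le_one u
    rw [abs_le]
    constructor <;> linarith only [hγ, h1, h2, mul_nonneg_of_nonpos_of_nonpos (le_of_lt (Mathlib.Tactic.Linarith.sub_neg_of_lt hγ)) (Mathlib.Tactic.Linarith.sub_nonpos_of_le h1), mul_nonneg_of_nonpos_of_nonpos (le_of_lt (Mathlib.Tactic.Linarith.sub_neg_of_lt hγ)) (Mathlib.Tactic.Linarith.sub_nonpos_of_le h2)]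
  have hpos : ∀ s, 0 ≤ φ s := by
    intro s
    simp only [hφ, sub_nonneg]
    rw [← log_abs]
    rcases (abs_nonneg (1 + γ0 * sin (4 * π * (τ + D * s)))).eq_or_lt with h | h
    · rw [← h, log_zero]
      exact log_nonneg (by linarith only [hγ])
    · exact log_le_log h (habs _)
  have hc : {s : ℝ | sin (4 * π * (τ + D * s)) = -1 / γ0}.Countable := by
    refine (StW_countable_sin (-1 / γ0)).preimage
      (f := fun s : ℝ => 4 * π * (τ + D * s)) ?_
    intro x y hxy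
    have h1 : (4 * π) ≠ 0 := by positivity
    exact mul_left_cancel₀ hD'.ne' (add_left_cancel (mul_left_cancel₀ h1 hxy))
  rw [← hval, ofReal_integral_eq_lintegral_ofReal hint (Eventually.of_forall hpos)]
  refine lintegral_mono_ae (ae_restrict_of_ae ?_)
  filter_upwards [hc.ae_notMem volume] with s hs
  refine ENNReal.ofReal_le_ofReal ?_
  have hne : 1 + γ0 * sin (4 * π * (τ + D * s)) ≠ 0 := by
    intro h0
    apply hs
    field_simp
    linarith only [h0]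
  have h1 : |2 * StW_g (τ + D * s)| = 4 * |1 + γ0 * sin (4 * π * (τ + D * s))| := by
    rw [StW_g, ← mul_assoc, abs_mul]
    norm_num
  have h2 : 0 < |1 + γ0 * sin (4 * π * (τ + D * s))| := abs_pos.2 hne
  calc log (8 * γ0 / max |2 * StW_g (τ + D * s)| t)
      ≤ log (8 * γ0 / |2 * StW_g (τ + D * s)|) := by
        refine log_le_log (div_pos (by positivity) (lt_max_of_lt_right ht)) ?_
        exact div_le_div_of_nonneg_left (by positivity) (by rw [h1]; positivity) (le_max_left _ _)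
    _ = φ s := by
        simp only [hφ]
        rw [h1, ← log_abs (1 + _), ← log_div (by positivity) h2.ne']
        congr 1
        field_simp
        norm_num

lemma StW_e0 {σ h : ℝ} {D : ℕ} (hD : 1 ≤ D) : E0 W0 D σ h (8 * γ0) (log 4) := by
  intro ε hε t ht
  have hγ := StW_γ0_gt
  have h1 : 0 < 16 * π * γ0 := by positivity
  refine ⟨ε * t / (16 * π * γ0), by positivity, fun c hc => ?_⟩
  choose! v hv using fun s hs => (hc s hs).2
  have hmv : ∀ s ∈ Icc (0 : ℝ) 1, |(c s).1 - ((c 0).1 + D * s)| ≤ ε * t / (16 * π * γ0) := by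
    intro s hs
    have hd : ∀ x ∈ Icc (0 : ℝ) 1,
        HasDerivWithinAt (fun x => (c x).1 - D * x) ((v x).1 - D) (Icc 0 1) x := by
      intro x hx
      have h2 : HasDerivAt (fun x : ℝ => (D : ℝ) * x) D x := by
        simpa using (hasDerivAt_id x).const_mul (D : ℝ)
      have h5 : HasDerivAt (fun x => (c x).1) (v x).1 x :=
        (ContinuousLinearMap.fst ℝ ℝ ℝ).hasFDerivAt.comp_hasDerivAt x (hv x hx).1
      exact (h5.sub h2).hasDerivWithinAt
    have h3 := norm_image_sub_le_of_norm_deriv_le_segment' hd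
      (fun x hx => (hv x (Ico_subset_Icc_self hx)).2.1) s hs
    rw [Real.norm_eq_abs] at h3
    have h4 : (c s).1 - ((c 0).1 + D * s) = (c s).1 - D * s - ((c 0).1 - D * 0) := by ring
    rw [h4]
    refine h3.trans (mul_le_of_le_one_right (by positivity) (by linarith only [hs, hs.2]))
  calc ∫⁻ s in Icc (0 : ℝ) 1, ENNReal.ofReal (log (8 * γ0 / max |jac W0 (c s)| t))
      ≤ ∫⁻ s in Icc (0 : ℝ) 1,
        (ENNReal.ofReal (log (8 * γ0 / max |2 * StW_g ((c 0).1 + D * s)| t)) +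
          ENNReal.ofReal ε) := by
        refine setLIntegral_mono' measurableSet_Icc fun s hs => ?_
        refine le_trans (ENNReal.ofReal_le_ofReal ?_) ENNReal.ofReal_add_le
        rw [StW_jac]
        refine (StW_log_lip (b := 2 * StW_g ((c 0).1 + D * s)) (by positivity) ht).trans ?_
        refine add_le_add le_rfl ?_
        rw [div_le_iff₀ ht]
        refine (StW_g_lip _ _).trans ?_
        calc 16 * π * γ0 * |(c s).1 - ((c 0).1 + D * s)|
            ≤ 16 * π * γ0 * (ε * t / (16 * π * γ0)) := mul_le_mul_of_nonneg_left (hmv s hs) h1.le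
          _ = ε * t := by field_simp
    _ ≤ ENNReal.ofReal (log 4) + ENNReal.ofReal ε := by
        rw [lintegral_add_right _ measurable_const]
        refine add_le_add (StW_line _ hD ht) ?_
        simp
    _ = ENNReal.ofReal (log 4 + ε) :=
        (ENNReal.ofReal_add (log_nonneg (by norm_num)) hε.le).symm

lemma pack_W0 {σ h : ℝ} {D : ℕ} (hD : 1 ≤ D) (hσ : 0 ≤ σ) (hh : 0 ≤ h) :
    ∃ σ' h' α β, 0 ≤ σ' ∧ 0 ≤ h' ∧
      Pack (SN 2 h W0) W0 2 D σ h σ' h' α β (8 * γ0) (log 4) := by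
  have hγ := StW_γ0_gt
  have hD' : (1 : ℝ) ≤ D := by exact_mod_cast hD
  refine ⟨_, _, _, _, ?_, ?_, pack_stage (StW_sk hh) (by linarith only [hD']) hσ (by norm_num) one_pos
    (StW_tr hD') ?_ (log_nonneg (by norm_num)) (StW_e0 hD)⟩
  · positivity
  · positivity
  · push_cast
    linarith only [hγ]

lemma StW_bd {m : ℝ → ℝ} (hm : ContDiff ℝ ∞ m) (hp : Function.Periodic m 1) :
    ∃ A, 0 ≤ A ∧ ∀ τ, |deriv m τ| ≤ A := by
  have hp' : Function.Periodic (deriv m) 1 := by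
    intro x
    rw [← deriv_comp_add_const]
    congr 1
    exact funext hp
  obtain ⟨A, hA⟩ := (hp'.isBounded_of_continuous one_ne_zero
    (hm.continuous_deriv (by simp))).exists_norm_le
  exact ⟨max A 0, le_max_right _ _, fun τ => (hA _ ⟨τ, rfl⟩).trans (le_max_left _ _)⟩

lemma StW_m2 (τ : ℝ) : |StW_g (2 * τ) * StW_g τ| ≤ 18 / 5 * γ0 ^ 2 := by
  have h1 : 4 * π * (2 * τ) = 2 * (4 * π * τ) := by ring
  unfold StW_g
  rw [h1]
  generalize 4 * π * τ = u
  have hs1 := abs_sin_le_one u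
  have hs2 := abs_sin_le_one (2 * u)
  have hp : |sin (2 * u) * sin u| ≤ 78 / 100 := by
    have h2 : sin (2 * u) * sin u = 2 * (1 - cos u ^ 2) * cos u := by
      rw [sin_two_mul, ← sin_sq]
      ring
    have hc1 := neg_one_le_cos u
    have hc2 := cos_le_one u
    rw [h2, abs_le]
    generalize cos u = c at hc1 hc2
    constructor
    · by_cases hc : c ≤ 0
      · linarith only [hc1, hc2, mul_nonneg (sq_nonneg (c + 577 / 1000)) (show 0 ≤ 1154 / 1000 - c by linarith), sq_nonneg (c + (577 / 1000 : ℝ))]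
      · linarith only [hc1, hc2, hc, mul_nonneg (show 0 ≤ 1 - c ^ 2 by nlinarith) (show 0 ≤ c by linarith), mul_nonneg_of_nonpos_of_nonpos (Mathlib.Tactic.Linarith.sub_nonpos_of_le hc1) (Mathlib.Tactic.Linarith.sub_nonpos_of_le hc2)]
    · by_cases hc : 0 ≤ c
      · linarith only [hc2, hc, mul_nonneg (sq_nonneg (c - 577 / 1000)) (show 0 ≤ c + 1154 / 1000 by linarith), sq_nonneg (c - (577 / 1000 : ℝ))]
      · linarith only [hc1, hc2, hc, mul_nonneg (show 0 ≤ 1 - c ^ 2 by nlinarith) (show 0 ≤ -c by linarith), mul_nonneg_of_nonpos_of_nonpos (Mathlib.Tactic.Linarith.sub_nonpos_of_le hc1) (Mathlib.Tactic.Linarith.sub_nonpos_of_le hc2)]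
  have h3 : 2 * (1 + γ0 * sin (2 * u)) * (2 * (1 + γ0 * sin u)) =
      4 + 4 * γ0 * sin u + 4 * γ0 * sin (2 * u) + 4 * γ0 ^ 2 * (sin (2 * u) * sin u) := by ring
  rw [h3]
  obtain ⟨a1, a2⟩ := abs_le.1 hs1
  obtain ⟨b1, b2⟩ := abs_le.1 hs2
  obtain ⟨c1, c2⟩ := abs_le.1 hp
  unfold γ0
  rw [abs_le]
  constructor <;> linarith only [a1, b1, c1, a2, b2, c2]

lemma StW_iter (i : ℕ) : ∃ m : ℝ → ℝ, ContDiff ℝ ∞ m ∧ Function.Periodic m 1 ∧
    (∀ z : P2, W0^[2 * i] z = (4 ^ i * z.1, m z.1 * z.2)) ∧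
    ∀ τ, |m τ| ≤ (18 / 5 * γ0 ^ 2) ^ i := by
  induction i with
  | zero => exact ⟨fun _ => 1, contDiff_const, fun _ => rfl, fun z => by simp, fun _ => by simp⟩
  | succ i ih =>
    obtain ⟨m, h1, h2, h3, h4⟩ := ih
    refine ⟨fun τ => StW_g (2 * (4 ^ i * τ)) * StW_g (4 ^ i * τ) * m τ, ?_, ?_, ?_, ?_⟩
    · exact ((StW_g_smooth.comp (by fun_prop)).mul (StW_g_smooth.comp (by fun_prop))).mul h1
    · intro τ
      have e1 : 2 * ((4 : ℝ) ^ i * (τ + 1)) = 2 * (4 ^ i * τ) + ((2 * 4 ^ i : ℕ) : ℝ) * 1 := by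
        push_cast
        ring
      have e2 : (4 : ℝ) ^ i * (τ + 1) = 4 ^ i * τ + ((4 ^ i : ℕ) : ℝ) * 1 := by
        push_cast
        ring
      simp only
      rw [e1, e2, StW_g_per.nat_mul, StW_g_per.nat_mul, h2]
    · intro z
      rw [show 2 * (i + 1) = 2 * i + 1 + 1 by ring, Function.iterate_succ_apply',
        Function.iterate_succ_apply', h3, StW_W0, StW_W0]
      ext
      · simp only
        ring
      · simp only
        ring
    · intro τ
      rw [abs_mul, pow_succ']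
      exact mul_le_mul (StW_m2 _) (h4 τ) (abs_nonneg _) (by positivity)

lemma W0_iterate (i : ℕ) : ∃ (m : ℝ → ℝ) (A : ℝ), ContDiff ℝ ∞ m ∧ 0 ≤ A ∧
    (∀ z : P2, W0^[2 * i] z = (4 ^ i * z.1, m z.1 * z.2)) ∧
    (∀ τ, |m τ| ≤ (18 / 5 * γ0 ^ 2) ^ i) ∧ ∀ τ, |deriv m τ| ≤ A := by
  obtain ⟨m, h1, h2, h3, h4⟩ := StW_iter i
  obtain ⟨A, hA, hA'⟩ := StW_bd h1 h2
  exact ⟨m, A, h1, hA, h3, h4, hA'⟩

lemma StW_pack (n : ℕ) {b : ℝ} (h0 : 0 < b) (h1 : b < 1) {σ h : ℝ} (hσ : 0 ≤ σ) (hh : 0 ≤ h) :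
    ∃ 𝓕 σ' h' α β, 0 ≤ σ' ∧ 0 ≤ h' ∧
      Pack 𝓕 (W0^[n] ∘ lin b) (2 ^ n) 1 σ h σ' h' α β (2 * b * (8 * γ0) ^ n)
        (log 2 + n * log 4) ∧ LRz h 𝓕 := by
  induction n with
  | zero =>
    refine ⟨SN 1 h (lin b), b * σ + 1, b * h + 1, 0, b, by positivity, by positivity, ?_,
      lrz_lin h0 h1 hh⟩
    simpa using pack_lin h0 zero_le_one hσ hh
  | succ n ih =>
    obtain ⟨𝓕, σ', h', α, β, hσ', hh', H, HL⟩ := ih
    obtain ⟨σ'', h'', α', β', hσ'', hh'', H'⟩ :=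
      pack_W0 (D := 2 ^ n) Nat.one_le_two_pow hσ' hh'
    rw [← mul_one ((2 ^ n : ℕ) : ℝ)] at H'
    have H2 := H.comp H'
    refine ⟨_, σ'', h'', α' * ((2 ^ n : ℕ) : ℝ) + β' * α, β' * β, hσ'', hh'', ?_,
      HL.comp (lrz_W0 hh') H.ls.mapsTo⟩
    have e1 : W0^[n + 1] ∘ lin b = W0 ∘ W0^[n] ∘ lin b := by
      rw [Function.iterate_succ']
      rfl
    have e2 : 2 * b * (8 * γ0) ^ (n + 1) = 2 * b * (8 * γ0) ^ n * (8 * γ0) := by ring
    have e3 : log 2 + ((n + 1 : ℕ) : ℝ) * log 4 = log 2 + n * log 4 + log 4 := by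
      push_cast
      ring
    rw [e1, e2, e3, pow_succ]
    exact H2

theorem pack_WN (i : ℕ) {b : ℝ} (h0 : 0 < b) (h1 : b < 1) : ∃ A, 0 ≤ A ∧ ∀ σ h : ℝ, 0 ≤ σ → 0 ≤ h →
    ∃ 𝓕 F0 σ' h', 0 ≤ σ' ∧ 0 ≤ h' ∧
      Pack 𝓕 F0 (4 ^ i) 1 σ h σ' h' (A * h) (b * (18 / 5 * γ0 ^ 2) ^ i)
        (2 * b * (8 * γ0) ^ (2 * i)) (log 2 + 2 * i * log 4) ∧ LRz h 𝓕 ∧
      ∀ z, |(F0 z).2| ≤ b * (18 / 5 * γ0 ^ 2) ^ i * |z.2| := by
  obtain ⟨m, A, hm, hA, h3, h4, h5⟩ := W0_iterate i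
  refine ⟨A, hA, fun σ h hσ hh => ?_⟩
  obtain ⟨𝓕, σ', h', α, β, hσ', hh', H, HL⟩ := StW_pack (2 * i) h0 h1 hσ hh
  have hmd : Differentiable ℝ m := hm.differentiable (by simp)
  have hF : ∀ z : P2, (W0^[2 * i] ∘ lin b) z = (4 ^ i * z.1, b * m z.1 * z.2) := by
    intro z
    rw [Function.comp_apply, h3]
    ext
    · simp [lin]
    · simp only [lin]
      ring
  have hb : ∀ τ, |b * m τ| ≤ b * (18 / 5 * γ0 ^ 2) ^ i := by
    intro τ
    rw [abs_mul, abs_of_pos h0]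
    exact mul_le_mul_of_nonneg_left (h4 τ) h0.le
  have e1 : 2 ^ (2 * i) = 4 ^ i := by
    rw [pow_mul]
    norm_num
  rw [e1] at H
  refine ⟨𝓕, W0^[2 * i] ∘ lin b, σ', h', hσ', hh', H.mono le_rfl le_rfl le_rfl ?_ ?_ ?_, HL, ?_⟩
  · intro z hz
    rw [StW_fd (m := fun τ => b * m τ) (hmd.const_mul b) hF, deriv_const_mul b (hmd z.1)]
    simp only [mul_one, mul_zero, add_zero]
    rw [abs_mul, abs_mul, abs_of_pos h0]
    refine mul_le_mul ?_ hz (abs_nonneg _) hA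
    exact (mul_le_of_le_one_left (abs_nonneg _) h1.le).trans (h5 _)
  · intro z _
    rw [StW_fd (m := fun τ => b * m τ) (hmd.const_mul b) hF]
    simpa using hb z.1
  · push_cast
    exact le_rfl
  · intro z
    rw [hF, abs_mul]
    exact mul_le_mul_of_nonneg_right (hb _) (abs_nonneg _)

end

end Pool.Agent.Work.MP_14af4f_an
end

-- merged part: Pool.Agent.Work.MP_14af4f_an.Model
section
/-!
A realisable set of maps of the plane with a robust attractor in an annulus.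
-/

open Set Filter Topology Real

namespace Pool.Agent.Work.MP_14af4f_an

lemma Model_gamma : (20 : ℝ) ≤ γ0 := by unfold γ0; norm_num

lemma Model_exists_i {L C : ℝ} (hL : 0 < L) (hC : 0 < C) :
    ∃ i : ℕ, 1 ≤ i ∧ L * C * (9 / 10) ^ i ≤ 1 / 16 ∧ L < γ0 ^ (2 * i) := by
  have h1 : Tendsto (fun i : ℕ => L * C * (9 / 10 : ℝ) ^ i) atTop (𝓝 (L * C * 0)) :=
    (tendsto_pow_atTop_nhds_zero_of_lt_one (by norm_num) (by norm_num)).const_mul _
  have h2 : Tendsto (fun i : ℕ => (γ0 ^ 2) ^ i) atTop atTop :=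
    tendsto_pow_atTop_atTop_of_one_lt (by linarith only [Model_gamma, mul_nonneg_of_nonpos_of_nonpos (Mathlib.Tactic.Linarith.sub_nonpos_of_le Model_gamma) (Mathlib.Tactic.Linarith.sub_nonpos_of_le Model_gamma)])
  obtain ⟨i, a, b, c⟩ := ((eventually_ge_atTop 1).and
    ((h1.eventually (ge_mem_nhds (show L * C * 0 < 1 / 16 by norm_num))).and
      (h2.eventually_gt_atTop L))).exists
  exact ⟨i, a, b, by rwa [pow_mul]⟩

lemma Model_psi (w Λ : ℝ) (z : P2) : Psi (w * Λ) z = Psi w (lin Λ z) := by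
  simp [Psi, lin, mul_assoc]

lemma Model_lin {Λ : ℝ} (h : Λ ≠ 0) (z : P2) : lin Λ (lin Λ⁻¹ z) = z := by
  ext <;> simp [lin, h]

theorem exists_model : ∃ w h : ℝ, 0 < w ∧ w * h ≤ 1 / 2 ∧
    Rz (𝓟 {G | ∃ F d ρ δ K J t0 ρ0, Hyp F d h ρ δ K J t0 ρ0 ∧
      ∀ z ∈ strip h, Psi w (F z) = G (Psi w z)}) := by
  obtain ⟨C, JT, eT, hC, hJT, heT, HT4⟩ := pack_T4
  have hγ := Model_gamma
  set L := 2 * exp (eT + 3) with hL
  have hL0 : 0 < L := by positivity
  obtain ⟨i, hi, hi1, hi2⟩ := Model_exists_i hL0 (show 0 < C by linarith only [hC])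
  have hγp : 0 < γ0 ^ (2 * i) := by positivity
  set b := L / γ0 ^ (2 * i) with hb
  have hb0 : 0 < b := by positivity
  have hb1 : b < 1 := (div_lt_one hγp).2 hi2
  obtain ⟨A, hA, HW⟩ := pack_WN i hb0 hb1
  set d : ℝ := 4 ^ i with hd
  have hd4 : 4 ≤ d := by
    calc (4 : ℝ) = 4 ^ 1 := by norm_num
      _ ≤ d := pow_le_pow_right₀ (by norm_num) hi
  set βW := b * (18 / 5 * γ0 ^ 2) ^ i with hβW
  have hβW0 : 0 ≤ βW := by positivity
  have hβ : βW * C ≤ d / 16 := by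
    have : βW = L * (9 / 10) ^ i * d := by
      rw [hβW, hb, hd, pow_mul, show (18 / 5 * γ0 ^ 2 : ℝ) = 9 / 10 * 4 * γ0 ^ 2 by ring, mul_pow,
        mul_pow]
      field_simp
    rw [this]
    linarith only [hi1, hd4, mul_nonneg_of_nonpos_of_nonpos (Mathlib.Tactic.Linarith.sub_nonpos_of_le hi1) (Mathlib.Tactic.Linarith.sub_nonpos_of_le hd4)]
  set h4 := C * (d + 1 + 1) with hh4
  have hh40 : 0 ≤ h4 := by positivity
  set Λ := d + 3 + 16 * (A * h4) with hΛ
  have hAh : 0 ≤ A * h4 := by positivity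
  have hΛ0 : 0 < Λ := by positivity
  set h := d / Λ with hh
  have hh0 : 0 < h := by positivity
  have hΛh : Λ * h = d := by rw [hh]; field_simp
  obtain ⟨𝓣, T, σ4, hσ4, PT, LT, trT⟩ := HT4 (Λ * 2 + 1) (d + 1) (by positivity) (by positivity)
  obtain ⟨𝓦, W, σ5, h5, hσ5, hh5, PW, LW, trW⟩ := HW σ4 h4 hσ4 hh40
  have P1 := pack_lin (D := 1) hΛ0 zero_le_one (show (0 : ℝ) ≤ 2 by norm_num) hh0.le
  rw [hΛh] at P1
  have P1' := P1.mono (pure_le_sn P1.sk.per P1.sk.c2) le_rfl le_rfl P1.sk.d1 P1.sk.d2 le_rfl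
  have P2' := P1'.comp (by simpa using PT)
  have P3 := P2'.comp (by simpa using PW)
  have P4 := pack_lin (D := d) (inv_pos.2 hΛ0) (by positivity) hσ5 hh5
  have P4' := P4.mono (pure_le_sn P4.sk.per P4.sk.c2) le_rfl le_rfl P4.sk.d1 P4.sk.d2 le_rfl
  have P5 := P3.comp (by simpa [hd] using P4')
  have hcast : ((1 * 1 * 4 ^ i * 1 : ℕ) : ℝ) = d := by simp [hd]
  have key := P5.hyp (ρ := h / 4) (by
      have : 4 ^ 1 ≤ 4 ^ i := Nat.pow_le_pow_right (by norm_num) hi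
      omega) (by
      rw [hcast]
      have e1 : A * h4 ≤ d / 16 * Λ := by (refine le_of_not_gt fun h_nl => ?_; linarith only [h_nl, hd4, hAh, hb0, hb1, mul_pos_of_neg_of_neg (Mathlib.Tactic.Linarith.sub_neg_of_lt hb0) (Mathlib.Tactic.Linarith.sub_neg_of_lt hb0), mul_pos_of_neg_of_neg (Mathlib.Tactic.Linarith.sub_neg_of_lt hb0) (Mathlib.Tactic.Linarith.sub_neg_of_lt hb1), mul_pos_of_neg_of_neg (Mathlib.Tactic.Linarith.sub_neg_of_lt hb0) (Mathlib.Tactic.Linarith.sub_neg_of_lt h_nl), mul_pos_of_neg_of_neg (Mathlib.Tactic.Linarith.sub_neg_of_lt hb1) (Mathlib.Tactic.Linarith.sub_neg_of_lt hb1), mul_pos_of_neg_of_neg (Mathlib.Tactic.Linarith.sub_neg_of_lt hb1) (Mathlib.Tactic.Linarith.sub_neg_of_lt h_nl), mul_nonneg_of_nonpos_of_nonpos (Mathlib.Tactic.Linarith.sub_nonpos_of_le hd4) (Mathlib.Tactic.Linarith.sub_nonpos_of_le hd4), mul_nonneg_of_nonpos_of_nonpos (Mathlib.Tactic.Linarith.sub_nonpos_of_le hd4) (Mathlib.Tactic.Linarith.sub_nonpos_of_le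 hAh)])
      have e2 : βW * (C * (Λ * 2 + 1 + (d + 1) + 1)) ≤ d / 16 * (3 * Λ) := by
        rw [← mul_assoc]
        exact mul_le_mul hβ (by linarith only [hAh]) (by positivity) (by positivity)
      simp only [Nat.cast_one, mul_one, mul_zero, add_zero, zero_mul, zero_add]
      rw [inv_mul_le_iff₀ hΛ0]
      linarith only [e1, e2]) (by
      rw [hcast, show Λ⁻¹ * (βW * (C * Λ)) = βW * C by field_simp]
      linarith only [hb0, hb1, hd4, hβ]) (by positivity) (by linarith only [hh0]) (by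
      intro z hz
      have m1 : lin Λ z ∈ strip (d + 1) := by
        have := P1.sk.ht z hz
        show |(lin Λ z).2| ≤ d + 1
        linarith only [hb0, hb1, this]
      have e1 := trT _ m1
      have e2 := trW (T (lin Λ z))
      have e3 : |(W (T (lin Λ z))).2| ≤ d / 16 :=
        e2.trans ((mul_le_mul_of_nonneg_left e1 hβW0).trans hβ)
      show |Λ⁻¹ * (W (T (lin Λ z))).2| ≤ h - 2 * (h / 4)
      rw [abs_mul, abs_of_pos (inv_pos.2 hΛ0), inv_mul_le_iff₀ hΛ0]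
      linarith only [hb0, hb1, hd4, hΛh, e3]) (by
      rw [hcast]
      have hJ0 : 0 < JT := by linarith only [hJT, hb0, hb1]
      have e1 : 2 * Λ * JT * (2 * b * (8 * γ0) ^ (2 * i)) * (2 * Λ⁻¹) =
          JT * (2 ^ 3 * L * (d * 4 ^ (2 * i))) := by
        rw [hb, hd, mul_pow, show (8 : ℝ) ^ (2 * i) = 4 ^ i * 4 ^ (2 * i) by
          rw [pow_mul, pow_mul, ← mul_pow]; norm_num]
        field_simp
      have hd0 : d ≠ 0 := by positivity
      have e2 : log (2 ^ 3 * L * (d * 4 ^ (2 * i))) = log (2 ^ 3) + log L + (log d + log (4 ^ (2 * i))) := by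
        rw [log_mul (by positivity) (by positivity), log_mul (by positivity) hL0.ne',
          log_mul hd0 (by positivity)]
      have e3 : log L = log 2 + (eT + 3) := by
        rw [hL, log_mul (by norm_num) (by positivity), log_exp]
      rw [e1, log_mul hJ0.ne' (by positivity), e2, e3, log_pow 2 3, log_pow 4 (2 * i),
        log_mul (by norm_num) hd0]
      have := log_nonneg hJT
      push_cast
      linarith only [this])
  have mem : {F : P2 → P2 | ∃ δ K t0 ρ0, Hyp (lin Λ⁻¹ ∘ F ∘ lin Λ) (1 * 1 * 4 ^ i * 1) h (h / 4) δ K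
      (2 * Λ * JT * (2 * b * (8 * γ0) ^ (2 * i)) * (2 * Λ⁻¹)) t0 ρ0} ∈ fc 𝓣 𝓦 := by
    rw [fc_assoc (pure (lin Λ))] at key
    obtain ⟨S1, h1, S2, h2, H12⟩ := mem_fc.1 key
    obtain ⟨S3, h3, S4, h4', H34⟩ := mem_fc.1 h1
    filter_upwards [h4'] with F hF
    exact H12 _ (H34 _ (mem_pure.1 h3) F hF) _ (mem_pure.1 h2)
  have LR := LT.comp LW PT.ls.mapsTo _ mem
  have small : ∀ᶠ w in 𝓝[>] (0 : ℝ), w * d ≤ 1 / 2 := by
    have : Tendsto (fun w : ℝ => w * d) (𝓝 0) (𝓝 (0 * d)) := (continuous_id.mul continuous_const).tendsto 0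
    exact nhdsWithin_le_nhds (this.eventually (ge_mem_nhds (by norm_num)))
  obtain ⟨w, hw, hw0, hw1⟩ := (LR.and (eventually_mem_nhdsWithin.and small)).exists
  refine ⟨w * Λ, h, mul_pos hw0 hΛ0, by rw [mul_assoc, hΛh]; exact hw1, hw.mono ?_⟩
  rw [principal_mono]
  rintro G ⟨F, ⟨δ, K, t0, ρ0, HF⟩, hG⟩
  refine ⟨_, _, _, δ, K, _, t0, ρ0, HF, fun z hz => ?_⟩
  have m1 : lin Λ z ∈ strip (d + 1) := by
    have := P1.sk.ht z hz
    show |(lin Λ z).2| ≤ d + 1
    linarith only [hb0, hb1, this]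
  rw [Model_psi, Model_psi, ← hG _ m1]
  simp only [Function.comp_apply, Model_lin hΛ0.ne']

end Pool.Agent.Work.MP_14af4f_an
end

-- merged part: Pool.Agent.Work.MP_14af4f_an.Half
section
/-!
The rescaled passage of one coordinate through the fold, and small perturbations.
-/

open Set Filter Topology Real
open scoped ContDiff

namespace Pool.Agent.Work.MP_14af4f_an

noncomputable section

/-- The rescaled passage through the fold. -/
def hm (k : ℕ) (ζ μ o t U W : ℝ) : ℝ :=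
  (li k (l0 k ζ + 2 * cos (4 * π * o) - 2 * cos (4 * π * (o + t * U)) + μ * l1 k * W) - ζ) / μ

lemma Half_comb {ι : Type} {l : Filter ι} {K : Set P2} (hK : IsCompact K) (κ : ℝ)
    {A B W : ι → P2 → ℝ} {A0 B0 W0 : P2 → ℝ} (hA0 : C2 K A0) (hB0 : C2 K B0) (hW0 : C2 K W0)
    (hA : Tendsto A l (Near K A0)) (hB : Tendsto B l (Near K B0))
    (hW : Tendsto W l (Near K W0)) :
    Tendsto (fun i p => κ * A i p * B i p + W i p) l
      (Near K fun p => κ * A0 p * B0 p + W0 p) :=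
  tendsto_near_comp_left hK (g := fun x : ℝ × ℝ × ℝ => κ * x.1 * x.2.1 + x.2.2)
    (f0 := fun p => (A0 p, B0 p, W0 p)) (f := fun i p => (A i p, B i p, W i p))
    (fun z hz => (hA0 z hz).prodMk ((hB0 z hz).prodMk (hW0 z hz))) (fun z _ => by fun_prop)
    (tendsto_near_prod hA0 (fun z hz => (hB0 z hz).prodMk (hW0 z hz)) hA
      (tendsto_near_prod hB0 hW0 hB hW))

lemma Half_sin {ι : Type} {l : Filter ι} {K : Set P2} (hK : IsCompact K) {s : ι → ℝ}
    {f : ι → P2 → ℝ} {f0 : P2 → ℝ} (hf0 : C2 K f0) (hs : Tendsto s l (𝓝 0)) (hs0 : ∀ i, s i ≠ 0)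
    (hf : Tendsto f l (Near K f0)) :
    Tendsto (fun i p => sin (2 * π * (s i * f i p)) / s i) l (Near K fun p => 2 * π * f0 p) := by
  have hd : HasDerivAt (fun x : ℝ => sin (2 * π * x)) (2 * π) 0 := by
    have := ((hasDerivAt_id (0 : ℝ)).const_mul (2 * π)).sin
    simpa using this
  have := tendsto_near_rescale' hK (k := fun x : ℝ => sin (2 * π * x)) (a := fun _ => 0) hf0
    (by fun_prop) hd tendsto_const_nhds hs (Eventually.of_forall hs0) hf
  simpa using this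

lemma Half_cos (o t U : ℝ) : 2 * cos (4 * π * o) - 2 * cos (4 * π * (o + t * U)) =
    4 * sin (2 * π * (2 * o + t * U)) * sin (2 * π * (t * U)) := by
  have := cos_sub_cos (4 * π * o) (4 * π * (o + t * U))
  rw [show (4 * π * o + 4 * π * (o + t * U)) / 2 = 2 * π * (2 * o + t * U) by ring,
    show (4 * π * o - 4 * π * (o + t * U)) / 2 = -(2 * π * (t * U)) by ring, sin_neg] at this
  linarith only [this]

lemma Half_inner {ι : Type} {l : Filter ι} {K : Set P2} (hK : IsCompact K) {L b c : ℝ}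
    (hL : L ≠ 0) {μ o t : ι → ℝ} {U W : ι → P2 → ℝ} {U0 W0 : P2 → ℝ}
    (hμ0 : ∀ i, μ i ≠ 0) (ht : Tendsto t l (𝓝 0)) (ht0 : ∀ i, t i ≠ 0)
    (ho : ∀ i, o i = b * μ i * L / (32 * π ^ 2 * t i))
    (h : (c = 0 ∧ b ≠ 0 ∧ Tendsto o l (𝓝 0) ∧ Tendsto (fun i => t i / o i) l (𝓝 0)) ∨
      (c = 1 ∧ b = 0 ∧ ∀ i, 16 * π ^ 2 * t i ^ 2 = μ i * L))
    (hU0 : C2 K U0) (hW0 : C2 K W0) (hU : Tendsto U l (Near K U0))
    (hW : Tendsto W l (Near K W0)) :
    Tendsto (fun i p => (2 * cos (4 * π * o i) - 2 * cos (4 * π * (o i + t i * U i p))) /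
      (μ i * L) + W i p) l (Near K fun p => b * U0 p + c * U0 p ^ 2 + W0 p) := by
  have hpi := pi_ne_zero
  have hB := Half_sin hK hU0 ht ht0 hU
  have hB0 : C2 K fun p => 2 * π * U0 p := fun z hz => contDiffAt_const.mul (hU0 z hz)
  rcases h with ⟨rfl, hb, ho0, hto⟩ | ⟨rfl, rfl, hμ⟩
  · have hone : ∀ i, o i ≠ 0 := fun i => by
      have := hμ0 i
      have := ht0 i
      rw [ho i]
      positivity
    have h1 : Tendsto (fun i p => 2 + t i / o i * U i p) l (Near K fun p => 2 + 0 * U0 p) :=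
      tendsto_near_param' hK (Φ := fun x : ℝ × ℝ => 2 + x.1 * x.2) hU0 (fun z _ => by fun_prop)
        hto hU
    have h10 : C2 K fun p => 2 + 0 * U0 p := fun z hz =>
      contDiffAt_const.add (contDiffAt_const.mul (hU0 z hz))
    have hA := Half_sin hK h10 ho0 hone h1
    have hA0 : C2 K fun p => 2 * π * (2 + 0 * U0 p) := fun z hz => contDiffAt_const.mul (h10 z hz)
    have := Half_comb hK (b / (8 * π ^ 2)) hA0 hB0 hW0 hA hB hW
    convert this using 3 with i p p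
    · have h2 := hμ0 i
      have h3 := ht0 i
      have h4 := hone i
      rw [Half_cos, show o i * (2 + t i / o i * U i p) = 2 * o i + t i * U i p by field_simp]
      have h5 : μ i * L = 32 * π ^ 2 * t i * o i / b := by
        rw [ho i]
        field_simp
      rw [h5]
      field_simp
      ring
    · field_simp
      ring
  · have := Half_comb hK (1 / (4 * π ^ 2)) hB0 hB0 hW0 hB hB hW
    convert this using 3 with i p p
    · have h3 := ht0 i
      rw [Half_cos, ho i, ← hμ i]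
      simp only [zero_mul, zero_div, mul_zero, zero_add]
      field_simp
      ring
    · field_simp
      ring

lemma tendsto_hm {ι : Type} {l : Filter ι} {K : Set P2} (hK : IsCompact K) (k : ℕ) {b c : ℝ}
    {ζ μ o t : ι → ℝ} {U W : ι → P2 → ℝ} {U0 W0 : P2 → ℝ} (hζ : Tendsto ζ l (𝓝 0))
    (hμ : Tendsto μ l (𝓝 0)) (hμ0 : ∀ i, μ i ≠ 0) (ht : Tendsto t l (𝓝 0)) (ht0 : ∀ i, t i ≠ 0)
    (ho : ∀ i, o i = b * μ i * l1 k / (32 * π ^ 2 * t i))
    (h : (c = 0 ∧ b ≠ 0 ∧ Tendsto o l (𝓝 0) ∧ Tendsto (fun i => t i / o i) l (𝓝 0)) ∨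
      (c = 1 ∧ b = 0 ∧ ∀ i, 16 * π ^ 2 * t i ^ 2 = μ i * l1 k))
    (hU0 : C2 K U0) (hW0 : C2 K W0) (hU : Tendsto U l (Near K U0))
    (hW : Tendsto W l (Near K W0)) :
    Tendsto (fun i p => hm k (ζ i) (μ i) (o i) (t i) (U i p) (W i p)) l
      (Near K fun p => b * U0 p + c * U0 p ^ 2 + W0 p) := by
  have hL := (l1_pos k).ne'
  have hY := Half_inner hK hL hμ0 ht ht0 ho h hU0 hW0 hU hW
  have hY0 : C2 K fun p => b * U0 p + c * U0 p ^ 2 + W0 p := fun z hz =>
    ((contDiffAt_const.mul (hU0 z hz)).add (contDiffAt_const.mul ((hU0 z hz).pow 2))).add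
      (hW0 z hz)
  have ha : Tendsto (fun i => l0 k (ζ i)) l (𝓝 (l0 k 0)) :=
    ((contDiff_ll k 0).continuous.neg.tendsto 0).comp hζ
  have hs : Tendsto (fun i => μ i * l1 k) l (𝓝 0) := by
    simpa using hμ.mul_const (l1 k)
  have h1 := tendsto_near_rescale' hK hY0 (contDiffAt_li k) (hasDerivAt_li k) ha hs
    (Eventually.of_forall fun i => mul_ne_zero (hμ0 i) hL) hY
  have h2 := tendsto_near_comp_left hK (g := fun x : ℝ => l1 k * x)
    (fun z hz => contDiffAt_const.mul (hY0 z hz)) (fun z _ => by fun_prop) h1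
  have h3 : (fun z => l1 k * ((l1 k)⁻¹ * (b * U0 z + c * U0 z ^ 2 + W0 z))) =
      fun p => b * U0 p + c * U0 p ^ 2 + W0 p := by
    funext z
    field_simp
  rw [h3] at h2
  refine h2.congr' ?_
  have hz : ∀ᶠ i in l, |ζ i| ≤ 1 / 6 := by
    have : Tendsto (fun i => |ζ i|) l (𝓝 0) := by simpa using hζ.abs
    exact this.eventually (eventually_le_nhds (by norm_num))
  filter_upwards [hz] with i hi
  funext p
  have := hμ0 i
  rw [li_l0 k hi, hm]
  rw [show l0 k (ζ i) + μ i * l1 k *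
      ((2 * cos (4 * π * o i) - 2 * cos (4 * π * (o i + t i * U i p))) / (μ i * l1 k) + W i p) =
      l0 k (ζ i) + 2 * cos (4 * π * o i) - 2 * cos (4 * π * (o i + t i * U i p)) +
        μ i * l1 k * W i p by field_simp; ring]
  field_simp

/-- Smooth maps tending to zero with `r` derivatives. -/
structure Sm {ι : Type} (r : ℕ) (l : Filter ι) (f : ι → P2 → P2) : Prop where
  smooth : ∀ i, ContDiff ℝ ∞ (f i)
  small : ∀ ε > 0, ∀ᶠ i in l, ∀ j ≤ r, ∀ z, ‖iteratedFDeriv ℝ j (f i) z‖ ≤ ε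

lemma sm_zero {ι : Type} (r : ℕ) (l : Filter ι) : Sm r l fun _ _ => 0 := by
  refine ⟨fun _ => contDiff_const, fun ε hε => Eventually.of_forall fun i j _ z => ?_⟩
  rw [iteratedFDeriv_fun_zero]
  simpa using hε.le

lemma Sm.add {ι : Type} {r : ℕ} {l : Filter ι} {f g : ι → P2 → P2} (hf : Sm r l f)
    (hg : Sm r l g) : Sm r l fun i z => f i z + g i z := by
  refine ⟨fun i => (hf.smooth i).add (hg.smooth i), fun ε hε => ?_⟩
  filter_upwards [hf.small (ε / 2) (half_pos hε), hg.small (ε / 2) (half_pos hε)] with i h1 h2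
  intro j hj z
  rw [fun_iteratedFDeriv_add_apply ((hf.smooth i).of_le (by exact_mod_cast le_top)).contDiffAt
    ((hg.smooth i).of_le (by exact_mod_cast le_top)).contDiffAt]
  refine (norm_add_le _ _).trans ?_
  linarith only [h1, hj, h2, h1 j hj z, h2 j hj z]

lemma Sm.sum {ι κ : Type} {r : ℕ} {l : Filter ι} (s : Finset κ) {f : κ → ι → P2 → P2}
    (hf : ∀ j ∈ s, Sm r l (f j)) : Sm r l fun i z => ∑ j ∈ s, f j i z := by
  classical
  induction s using Finset.induction_on with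
  | empty => simpa using sm_zero r l
  | insert a s ha ih =>
    simp only [Finset.sum_insert ha]
    exact (hf a (Finset.mem_insert_self _ _)).add
      (ih fun j hj => hf j (Finset.mem_insert_of_mem hj))

lemma Half_bound {E F : Type} [NormedAddCommGroup E] [NormedSpace ℝ E] [NormedAddCommGroup F]
    [NormedSpace ℝ F] {Φ : E → F} (h : ContDiff ℝ ∞ Φ) (hc : HasCompactSupport Φ) (r : ℕ) :
    ∃ C > 0, ∀ j ≤ r, ∀ x, ‖iteratedFDeriv ℝ j Φ x‖ ≤ C := by
  have h1 : ∀ j : ℕ, ∃ C, ∀ x, ‖iteratedFDeriv ℝ j Φ x‖ ≤ C := fun j =>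
    (h.continuous_iteratedFDeriv (by exact_mod_cast le_top)).bounded_above_of_compact_support
      (hc.iteratedFDeriv j)
  choose C hC using h1
  have h0 : ∀ j, 0 ≤ C j := fun j => (norm_nonneg _).trans (hC j 0)
  refine ⟨∑ j ∈ Finset.range (r + 1), C j + 1,
    add_pos_of_nonneg_of_pos (Finset.sum_nonneg fun j _ => h0 j) one_pos, fun j hj x => ?_⟩
  have := Finset.single_le_sum (f := C) (fun j (_ : j ∈ Finset.range (r + 1)) => h0 j)
    (Finset.mem_range.2 (Nat.lt_succ_of_le hj))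
  linarith only [this, hC, hC j x]

lemma Half_affine {ι E : Type} [NormedAddCommGroup E] [NormedSpace ℝ E] (r : ℕ) {l : Filter ι}
    {Φ : E → P2} (h : ContDiff ℝ ∞ Φ) (hΦ : HasCompactSupport Φ) {A : ι → P2 →L[ℝ] E}
    {b : ι → E} {c a : ι → ℝ} (ha : ∀ᶠ i in l, 1 ≤ a i ∧ ‖A i‖ ≤ a i)
    (hc : Tendsto (fun i => c i * a i ^ r) l (𝓝 0)) :
    Sm r l fun i z => c i • Φ (A i z + b i) := by
  have hs : ∀ i, ContDiff ℝ ∞ fun x => Φ (x + b i) := fun i =>
    h.comp (contDiff_id.add contDiff_const)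
  have hs' : ∀ i, ContDiff ℝ ∞ fun z => Φ (A i z + b i) := fun i => (hs i).comp (A i).contDiff
  refine ⟨fun i => (hs' i).const_smul (c i), fun ε hε => ?_⟩
  obtain ⟨C, hC0, hC⟩ := Half_bound h hΦ r
  have h1 : ∀ᶠ i in l, |c i * a i ^ r| ≤ ε / C := by
    have : Tendsto (fun i => |c i * a i ^ r|) l (𝓝 0) := by simpa using hc.abs
    exact this.eventually (eventually_le_nhds (by positivity))
  filter_upwards [ha, h1] with i ⟨ha1, ha2⟩ h2
  intro j hj z
  rw [iteratedFDeriv_const_smul_apply' ((hs' i).of_le (by exact_mod_cast le_top)).contDiffAt]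
  have h3 := (A i).iteratedFDeriv_comp_right (hs i) z (i := j) (by exact_mod_cast le_top)
  have h4 : iteratedFDeriv ℝ j (fun z => Φ (A i z + b i)) z =
      (iteratedFDeriv ℝ j Φ (A i z + b i)).compContinuousLinearMap fun _ => A i := by
    rw [← iteratedFDeriv_comp_add_right]
    exact h3
  rw [h4, norm_smul]
  have h5 := (iteratedFDeriv ℝ j Φ (A i z + b i)).norm_compContinuousLinearMap_le fun _ => A i
  rw [Finset.prod_const, Finset.card_univ, Fintype.card_fin] at h5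
  have h6 : ‖A i‖ ^ j ≤ a i ^ r :=
    (pow_le_pow_left₀ (norm_nonneg _) ha2 j).trans (pow_le_pow_right₀ ha1 hj)
  have h7 : 0 ≤ a i ^ r := by positivity
  rw [abs_mul, abs_of_nonneg h7, le_div_iff₀ hC0] at h2
  calc ‖c i‖ * ‖(iteratedFDeriv ℝ j Φ (A i z + b i)).compContinuousLinearMap fun _ => A i‖
      ≤ |c i| * (C * a i ^ r) := by
        refine mul_le_mul_of_nonneg_left (h5.trans ?_) (abs_nonneg _)
        exact mul_le_mul (hC j hj _) h6 (by positivity) hC0.le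
    _ = |c i| * a i ^ r * C := by ring
    _ ≤ ε := h2

/-- A product of three bumps composed with affine forms, times a small constant. -/
lemma sm_prod {ι : Type} (r : ℕ) {l : Filter ι} {f1 f2 f3 : ℝ → ℝ} (h1 : ContDiff ℝ ∞ f1)
    (h2 : ContDiff ℝ ∞ f2) (h3 : ContDiff ℝ ∞ f3) (c1 : HasCompactSupport f1)
    (c2 : HasCompactSupport f2) (c3 : HasCompactSupport f3) (w : P2) {A1 A2 A3 : ι → P2 →L[ℝ] ℝ}
    {b1 b2 b3 c a : ι → ℝ} (ha : ∀ᶠ i in l, 1 ≤ a i ∧ ‖A1 i‖ ≤ a i ∧ ‖A2 i‖ ≤ a i ∧ ‖A3 i‖ ≤ a i)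
    (hc : Tendsto (fun i => c i * a i ^ r) l (𝓝 0)) :
    Sm r l fun i z => (c i * (f1 (A1 i z + b1 i) * f2 (A2 i z + b2 i) * f3 (A3 i z + b3 i))) • w := by
  have hΦ : ContDiff ℝ ∞ fun p : ℝ × ℝ × ℝ => (f1 p.1 * f2 p.2.1 * f3 p.2.2) • w :=
    (((h1.comp contDiff_fst).mul (h2.comp (contDiff_fst.comp contDiff_snd))).mul
      (h3.comp (contDiff_snd.comp contDiff_snd))).smul contDiff_const
  have hΦc : HasCompactSupport fun p : ℝ × ℝ × ℝ => (f1 p.1 * f2 p.2.1 * f3 p.2.2) • w := by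
    refine HasCompactSupport.intro (c1.isCompact.prod (c2.isCompact.prod c3.isCompact)) ?_
    intro x hx
    simp only [mem_prod, not_and_or] at hx
    rcases hx with hx | hx | hx <;> simp [image_eq_zero_of_notMem_tsupport hx]
  have := Half_affine r hΦ hΦc (l := l) (A := fun i => (A1 i).prod ((A2 i).prod (A3 i)))
    (b := fun i => (b1 i, b2 i, b3 i)) (c := c) (a := a) ?_ hc
  · simpa [mul_smul] using this
  · filter_upwards [ha] with i ⟨k0, k1, k2, k3⟩
    refine ⟨k0, ?_⟩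
    rw [ContinuousLinearMap.opNorm_prod, Prod.norm_def, ContinuousLinearMap.opNorm_prod,
      Prod.norm_def]
    exact max_le k1 (max_le k2 k3)

end

end Pool.Agent.Work.MP_14af4f_an
end

-- merged part: Pool.Agent.Work.MP_14af4f_an.Move
section
/-!
The rescaled return map of one move.
-/

open Set Filter Topology Real
open scoped ContDiff

namespace Pool.Agent.Work.MP_14af4f_an

noncomputable section

/-- An affine chart. -/
def ch (u v s t : ℝ) (p : P2) : P2 := (u + s * p.1, v + t * p.2)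

/-- Its inverse. -/
def chi (u v s t : ℝ) (p : P2) : P2 := ((p.1 - u) / s, (p.2 - v) / t)

lemma ch_chi (u v : ℝ) {s t : ℝ} (hs : s ≠ 0) (ht : t ≠ 0) (p : P2) :
    ch u v s t (chi u v s t p) = p := by
  ext <;> simp [ch, chi] <;> field_simp <;> ring

lemma Move_small {ι : Type} {l : Filter ι} {K : Set P2} (hK : IsCompact K) {c : ι → ℝ}
    {f : ι → P2 → ℝ} {f0 : P2 → ℝ} (hf0 : C2 K f0) (hc : Tendsto c l (𝓝 0))
    (hf : Tendsto f l (Near K f0)) :
    Tendsto (fun q : ι × P2 => c q.1 * f q.1 q.2) (l ×ˢ 𝓟 K) (𝓝 0) := by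
  obtain ⟨B, -, hB⟩ := exists_jet_bound hK hf0
  refine Filter.Tendsto.zero_mul_isBoundedUnder_le (hc.comp tendsto_fst) ⟨B + 1, ?_⟩
  rw [eventually_map, eventually_prod_principal_iff]
  filter_upwards [tendsto_near.1 hf 1 one_pos] with i hi p hp
  have h1 := hi.val hp
  have h2 : ‖f0 p‖ ≤ B := (norm_fst_le (jet f0 p)).trans (hB p hp)
  have h3 := norm_le_insert' (f i p) (f0 p)
  simp only [Function.comp]
  linarith

lemma Move_rescale {ι : Type} {l : Filter ι} {K : Set P2} (hK : IsCompact K) {g : ℝ → ℝ}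
    {g' a0 : ℝ} {a s : ι → ℝ} {f : ι → P2 → ℝ} {f0 : P2 → ℝ} (hf0 : C2 K f0)
    (hg : ContDiffAt ℝ 2 g a0) (hg' : HasDerivAt g g' a0) (h0 : g' ≠ 0) (ha : Tendsto a l (𝓝 a0))
    (hs : Tendsto s l (𝓝 0)) (hs0 : ∀ i, s i ≠ 0) (hf : Tendsto f l (Near K f0)) :
    Tendsto (fun i z => (g (a i + s i * f i z) - g (a i)) / (s i * g')) l (Near K f0) := by
  have h1 := tendsto_near_rescale' hK hf0 hg hg' ha hs (Eventually.of_forall hs0) hf
  have h2 := tendsto_near_comp_left hK (g := fun x : ℝ => x / g')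
    (f0 := fun z => g' * f0 z) (fun z hz => contDiffAt_const.mul (hf0 z hz))
    (fun z _ => contDiffAt_id.div_const g') h1
  have e1 : (fun z => g' * f0 z / g') = f0 := by
    funext z
    field_simp
  rw [e1] at h2
  simpa only [div_div] using h2

lemma Move_scale {ι : Type} {l : Filter ι} {n : ι → ℕ} {s s1 : ι → ℝ}
    (h : ∀ i, (-2) ^ n i * s i = s1 i) (h1 : Tendsto s1 l (𝓝 0)) : Tendsto s l (𝓝 0) := by
  rw [tendsto_zero_iff_abs_tendsto_zero] at h1 ⊢
  refine squeeze_zero (fun i => abs_nonneg _) (fun i => ?_) h1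
  simp only [Function.comp]
  rw [← h i, abs_mul, abs_pow]
  have : (1 : ℝ) ≤ |(-2 : ℝ)| ^ n i := one_le_pow₀ (by norm_num)
  linarith only [this, abs_nonneg (s i), mul_nonneg_of_nonpos_of_nonpos (Mathlib.Tactic.Linarith.sub_nonpos_of_le this) (Mathlib.Tactic.Linarith.sub_nonpos_of_le (abs_nonneg (s i)))]

lemma Move_start {ι : Type} {l : Filter ι} {K : Set P2} (hK : IsCompact K) {z s : ι → ℝ}
    {f0 : P2 → ℝ} (hf0 : C2 K f0) (hz : Tendsto z l (𝓝 0)) (hs : Tendsto s l (𝓝 0))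
    (hs0 : ∀ i, s i ≠ 0) :
    ∃ X : ι → P2 → ℝ, Tendsto X l (Near K f0) ∧
      ∀ᶠ q in l ×ˢ 𝓟 K, ee (z q.1) + s q.1 * ed 0 * f0 q.2 = ee (z q.1 + s q.1 * X q.1 q.2) := by
  have he : ed 0 ≠ 0 := ed_ne_zero (by norm_num)
  have hc : C2 K fun p => ed 0 * f0 p := fun p hp => contDiffAt_const.mul (hf0 p hp)
  have hez : Tendsto (fun i => ee (z i)) l (𝓝 (ee 0)) :=
    (contDiff_ee.continuous.tendsto 0).comp hz
  refine ⟨fun i p => (ei (ee (z i) + s i * (ed 0 * f0 p)) - ei (ee (z i))) / s i, ?_, ?_⟩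
  · have h1 := tendsto_near_rescale' hK hc contDiffAt_ei hasDerivAt_ei hez hs
      (Eventually.of_forall hs0) (tendsto_near_fixed hc)
    have e1 : (fun p => (ed 0)⁻¹ * (ed 0 * f0 p)) = f0 := by
      funext p
      field_simp
    rwa [e1] at h1
  · have h1 := Move_small hK hc hs (tendsto_near_fixed hc)
    have h2 := ((hez.comp (tendsto_fst (g := 𝓟 K))).add h1).abs
    rw [add_zero] at h2
    have h3 := (hz.comp (tendsto_fst (g := 𝓟 K))).abs
    rw [abs_zero] at h3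
    filter_upwards [h2.eventually_lt_const abs_ee_zero_lt,
      h3.eventually_lt_const (show (0 : ℝ) < 1 / 6 by norm_num)] with q hq hq'
    simp only [Function.comp] at hq hq'
    rw [ei_ee hq'.le, mul_div_cancel₀ _ (hs0 q.1), add_sub_cancel, ee_ei hq.le, mul_assoc]

lemma Move_land {ι : Type} {l : Filter ι} {K : Set P2} (hK : IsCompact K) (k : ℕ)
    {ζ μ o t : ι → ℝ} {U W : ι → P2 → ℝ} {U0 W0 : P2 → ℝ} (hζ : Tendsto ζ l (𝓝 0))
    (hμ : Tendsto μ l (𝓝 0)) (hμ0 : ∀ i, μ i ≠ 0) (ht : Tendsto t l (𝓝 0))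
    (ho : Tendsto o l (𝓝 0)) (hU0 : C2 K U0) (hW0 : C2 K W0) (hU : Tendsto U l (Near K U0))
    (hW : Tendsto W l (Near K W0)) :
    ∀ᶠ q in l ×ˢ 𝓟 K, -2 * cos (4 * π * (o q.1 + t q.1 * U q.1 q.2)) +
        (l0 k (ζ q.1) + 2 * cos (4 * π * o q.1) + μ q.1 * l1 k * W q.1 q.2) =
      l0 k (ζ q.1 + μ q.1 * hm k (ζ q.1) (μ q.1) (o q.1) (t q.1) (U q.1 q.2) (W q.1 q.2)) := by
  have hl : Continuous (l0 k) := (contDiff_ll k 0).continuous.neg
  have h1 := Move_small hK hU0 ht hU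
  have h2 := Move_small hK hW0 (by simpa using hμ.mul_const (l1 k)) hW
  have ho' := ho.comp (tendsto_fst (g := 𝓟 K))
  have hc : Continuous fun x : ℝ => 2 * cos (4 * π * x) := by fun_prop
  have h3 := (((((hl.tendsto 0).comp (hζ.comp (tendsto_fst (g := 𝓟 K)))).add
    ((hc.tendsto _).comp ho')).sub ((hc.tendsto _).comp (ho'.add h1))).add h2).abs
  simp only [add_zero, add_sub_cancel_right] at h3
  filter_upwards [h3.eventually_lt_const (abs_l0_zero_lt k)] with q hq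
  simp only [Function.comp] at hq
  rw [hm, mul_div_cancel₀ _ (hμ0 q.1), add_sub_cancel, l0_li k hq.le]
  ring

lemma move_limit {ι : Type} {l : Filter ι} {K : Set P2} (hK : IsCompact K) {k L : ℕ} (hL : 2 ≤ L)
    (hk : L ≤ k + 1) {a b c η : ℝ} {φ ψ : ℝ → ℝ} (hφ : ContDiff ℝ 2 φ) (hψ : ContDiff ℝ 2 ψ)
    {n : ι → ℕ} {s t s' t' z ζ z' ζ' s1 t1 ox oy : ι → ℝ} {u v : ι → ℝ → ℝ}
    (hs1 : ∀ i, (-2) ^ n i * s i = s1 i) (ht1 : ∀ i, (-2) ^ n i * t i = t1 i)
    (hz : ∀ i, (-2) ^ (n i + L) * z i = -1 / 12 + ox i)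
    (hζ : ∀ i, (-2) ^ n i * ζ i = -1 / 12 + oy i)
    (s0 : ∀ i, s i ≠ 0) (t0 : ∀ i, t i ≠ 0) (s0' : ∀ i, s' i ≠ 0) (t0' : ∀ i, t' i ≠ 0)
    (lz : Tendsto z l (𝓝 0)) (lζ : Tendsto ζ l (𝓝 0)) (lz' : Tendsto z' l (𝓝 0))
    (lζ' : Tendsto ζ' l (𝓝 0)) (ls' : Tendsto s' l (𝓝 0)) (lt' : Tendsto t' l (𝓝 0))
    (ls1 : Tendsto s1 l (𝓝 0)) (lt1 : Tendsto t1 l (𝓝 0)) (ha : a ≠ 0)
    (hox : ∀ i, ox i = a * s' i * l1 k / (32 * π ^ 2 * ((-2) ^ L * s1 i)))
    (lox : Tendsto ox l (𝓝 0)) (lox' : Tendsto (fun i => s1 i / ox i) l (𝓝 0))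
    (hoy : ∀ i, oy i = b * (t' i / (-2) ^ L) * l1 k / (32 * π ^ 2 * t1 i))
    (hY : (c = 0 ∧ b ≠ 0 ∧ Tendsto oy l (𝓝 0) ∧ Tendsto (fun i => t1 i / oy i) l (𝓝 0)) ∨
      (c = 1 ∧ b = 0 ∧ ∀ i, 16 * π ^ 2 * t1 i ^ 2 = t' i / (-2) ^ L * l1 k))
    (hη : 0 < η)
    (hv : ∀ i x, |x - ee (-1 / 12 / (-2) ^ L)| ≤ η → v i x =
      l0 k (ζ' i / (-2) ^ L) + 2 * cos (4 * π * oy i) + t' i / (-2) ^ L * l1 k *
        φ ((x - ee ((-1 / 12 + ox i) / (-2) ^ L)) / (s1 i * ed (-1 / 12 / (-2) ^ L))))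
    (hu : ∀ i y, |y - ll k (L - 1) 0| ≤ η → u i y =
      l0 k (z' i) + 2 * cos (4 * π * ox i) + s' i * l1 k *
        ψ ((y - ll k (L - 1) (ζ' i / (-2) ^ L)) / (t' i / (-2) ^ L * ld k (L - 1)))) :
    Tendsto (fun i p => chi (ee (z' i)) (ee (ζ' i)) (s' i * ed 0) (t' i * ed 0)
        ((gm (u i) (v i))^[n i + L + k + 2] (ch (ee (z i)) (ee (ζ i)) (s i * ed 0) (t i * ed 0) p)))
      l (Near K fun p => (a * p.1 + ψ (b * p.2 + c * p.2 ^ 2 + φ p.1),
        b * p.2 + c * p.2 ^ 2 + φ p.1)) := by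
  obtain ⟨R, hR⟩ := hK.isBounded.subset_ball (0 : P2)
  set K1 : Set P2 := Metric.closedBall 0 R with hK1def
  have hK1 : IsCompact K1 := isCompact_closedBall _ _
  have hm0 : ((-2 : ℝ)) ^ L ≠ 0 := pow_ne_zero _ (by norm_num)
  have hm1 : (1 : ℝ) ≤ |((-2 : ℝ)) ^ L| := by
    rw [abs_pow]
    exact one_le_pow₀ (by norm_num)
  have he : ed 0 ≠ 0 := ed_ne_zero (by norm_num)
  have hw0 : ed (-1 / 12 / (-2) ^ L) ≠ 0 := by
    refine ed_ne_zero ?_
    rw [abs_div, div_lt_iff₀ (by linarith only [hm1])]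
    have : |(-1 / 12 : ℝ)| = 1 / 12 := by norm_num [abs_of_neg]
    rw [this]
    linarith only [hm1]
  have hld : ld k (L - 1) ≠ 0 := (ld_neg (by omega)).ne
  have ls := Move_scale hs1 ls1
  have lt := Move_scale ht1 lt1
  have s10 : ∀ i, s1 i ≠ 0 := fun i => by
    rw [← hs1 i]
    exact mul_ne_zero (pow_ne_zero _ (by norm_num)) (s0 i)
  have t10 : ∀ i, t1 i ≠ 0 := fun i => by
    rw [← ht1 i]
    exact mul_ne_zero (pow_ne_zero _ (by norm_num)) (t0 i)
  have loy : Tendsto oy l (𝓝 0) := by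
    rcases hY with h | h
    · exact h.2.2.1
    · have : oy = fun _ => 0 := by
        funext i
        rw [hoy i, h.2.1]
        simp
      rw [this]
      exact tendsto_const_nhds
  have hee : ∀ x, ContDiffAt ℝ 2 ee x := fun x => (contDiff_ee.of_le (by norm_cast)).contDiffAt
  have c1 : C2 K1 fun p : P2 => p.1 := c2_of_contDiff contDiff_fst _
  have c2 : C2 K1 fun p : P2 => p.2 := c2_of_contDiff contDiff_snd _
  obtain ⟨Xb, hXb, eXb⟩ := Move_start hK1 c1 lz ls s0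
  obtain ⟨Yb, hYb, eYb⟩ := Move_start hK1 c2 lζ lt t0
  have lw : Tendsto (fun i => (-1 / 12 + ox i) / (-2) ^ L) l (𝓝 (-1 / 12 / (-2) ^ L)) := by
    simpa using (lox.const_add (-1 / 12)).div_const ((-2 : ℝ) ^ L)
  have hXt := Move_rescale hK1 c1 (hee _) (hasDerivAt_ee _) hw0 lw ls1 s10 hXb
  have cφ : C2 K1 fun p : P2 => φ p.1 := c2_of_contDiff (hφ.comp contDiff_fst) _
  have hW := tendsto_near_comp_left hK1 c1 (fun _ _ => hφ.contDiffAt) hXt
  have lζm : Tendsto (fun i => ζ' i / (-2) ^ L) l (𝓝 0) := by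
    simpa using lζ'.div_const ((-2 : ℝ) ^ L)
  have ltm : Tendsto (fun i => t' i / (-2) ^ L) l (𝓝 0) := by
    simpa using lt'.div_const ((-2 : ℝ) ^ L)
  have tm0 : ∀ i, t' i / (-2) ^ L ≠ 0 := fun i => div_ne_zero (t0' i) hm0
  have hY' := tendsto_hm hK1 k lζm ltm tm0 lt1 t10 hoy hY c2 cφ hYb hW
  have eY := Move_land hK1 k lζm ltm tm0 lt1 loy c2 cφ hYb hW
  have dY0 : ContDiff ℝ 2 fun p : P2 => b * p.2 + c * p.2 ^ 2 + φ p.1 :=
    ((contDiff_const.mul contDiff_snd).add (contDiff_const.mul (contDiff_snd.pow 2))).add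
      (hφ.comp contDiff_fst)
  have cY0 := c2_of_contDiff dY0 K1
  have hYh := Move_rescale hK1 cY0 ((contDiff_ll k (L - 1)).of_le (by norm_cast)).contDiffAt
    (hasDerivAt_ll k (L - 1)) hld lζm ltm tm0 hY'
  have cψ : C2 K1 fun p : P2 => ψ (b * p.2 + c * p.2 ^ 2 + φ p.1) :=
    c2_of_contDiff (hψ.comp dY0) _
  have hW' := tendsto_near_comp_left hK1 cY0 (fun _ _ => hψ.contDiffAt) hYh
  have lms : Tendsto (fun i => (-2) ^ L * s1 i) l (𝓝 0) := by
    simpa using ls1.const_mul ((-2 : ℝ) ^ L)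
  have ms0 : ∀ i, (-2) ^ L * s1 i ≠ 0 := fun i => mul_ne_zero hm0 (s10 i)
  have lms' : Tendsto (fun i => (-2) ^ L * s1 i / ox i) l (𝓝 0) := by
    simpa [mul_div_assoc] using lox'.const_mul ((-2 : ℝ) ^ L)
  have hX' := tendsto_hm (c := 0) hK1 k lz' ls' s0' lms ms0 hox (Or.inl ⟨rfl, ha, lox, lms'⟩)
    c1 cψ hXb hW'
  have eX := Move_land hK1 k lz' ls' s0' lms lox c1 cψ hXb hW'
  simp only [zero_mul, add_zero] at hX'
  have cX0 : C2 K1 fun p : P2 => a * p.1 + ψ (b * p.2 + c * p.2 ^ 2 + φ p.1) :=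
    c2_of_contDiff ((contDiff_const.mul contDiff_fst).add (hψ.comp dY0)) _
  have hO1 := Move_rescale hK1 cX0 (hee _) (hasDerivAt_ee 0) he lz' ls' s0' hX'
  have hO2 := Move_rescale hK1 cY0 (hee _) (hasDerivAt_ee 0) he lζ' lt' t0' hY'
  have hO := tendsto_near_prod cX0 cY0 hO1 hO2
  refine tendsto_near_congr (hO.mono_right (near_mono (hR.trans Metric.ball_subset_closedBall) _)) ?_
  -- the uniform smallness conditions
  have b1 := ((lox.comp (tendsto_fst (g := 𝓟 K1))).add (Move_small hK1 c1 lms hXb)).abs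
  have b2 := ((loy.comp (tendsto_fst (g := 𝓟 K1))).add (Move_small hK1 c2 lt1 hYb)).abs
  have b3 := ((lζ'.comp (tendsto_fst (g := 𝓟 K1))).add (Move_small hK1 cY0 lt' hY')).abs
  have b4 := ((lz'.comp (tendsto_fst (g := 𝓟 K1))).add (Move_small hK1 cX0 ls' hX')).abs
  have b5 := (((contDiff_ee.continuous.tendsto _).comp
    ((lw.comp (tendsto_fst (g := 𝓟 K1))).add (Move_small hK1 c1 ls1 hXb))).sub_const
      (ee (-1 / 12 / (-2) ^ L))).abs
  have b6 := ((((contDiff_ll k (L - 1)).continuous.tendsto _).comp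
    ((lζm.comp (tendsto_fst (g := 𝓟 K1))).add (Move_small hK1 cY0 ltm hY'))).sub_const
      (ll k (L - 1) 0)).abs
  simp only [add_zero, abs_zero, sub_self] at b1 b2 b3 b4 b5 b6
  have key := (((((((((eXb.and eYb).and eY).and eX).and
    (b1.eventually_lt_const (show (0 : ℝ) < 1 / 130 by norm_num))).and
    (b2.eventually_lt_const (show (0 : ℝ) < 1 / 130 by norm_num))).and
    (b3.eventually_lt_const (show (0 : ℝ) < 1 / 20 by norm_num))).and
    (b4.eventually_lt_const (show (0 : ℝ) < 1 / 20 by norm_num))).and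
    (b5.eventually_lt_const hη)).and (b6.eventually_lt_const hη))
  rw [eventually_prod_principal_iff] at key
  filter_upwards [key] with i hi p hp
  filter_upwards [Metric.isOpen_ball.mem_nhds (hR hp)] with q hq
  obtain ⟨⟨⟨⟨⟨⟨⟨⟨⟨q1, q2⟩, q3⟩, q4⟩, q5⟩, q6⟩, q7⟩, q8⟩, q9⟩, q10⟩ :=
    hi q (Metric.ball_subset_closedBall hq)
  simp only [Function.comp] at q1 q2 q3 q4 q5 q6 q7 q8 q9 q10
  have hw : (-2) ^ n i * (z i + s i * Xb i q) = (-1 / 12 + ox i) / (-2) ^ L + s1 i * Xb i q := by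
    rw [← hz i, ← hs1 i, pow_add]
    field_simp
  set Y' := hm k (ζ' i / (-2) ^ L) (t' i / (-2) ^ L) (oy i) (t1 i) (Yb i q)
    (φ ((ee ((-1 / 12 + ox i) / (-2) ^ L + s1 i * Xb i q) - ee ((-1 / 12 + ox i) / (-2) ^ L)) /
      (s1 i * ed (-1 / 12 / (-2) ^ L)))) with hY'def
  have hη2 : (-2) ^ L * (ζ' i / (-2) ^ L + t' i / (-2) ^ L * Y') = ζ' i + t' i * Y' := by
    field_simp
  have orb := gm_orbit (u i) (v i) (n := n i) hL hk (z := z i + s i * Xb i q)
    (ζ := ζ i + t i * Yb i q) (ox := ox i + (-2) ^ L * s1 i * Xb i q)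
    (oy := oy i + t1 i * Yb i q) (η := ζ' i / (-2) ^ L + t' i / (-2) ^ L * Y')
    (by rw [mul_add, hz i, ← hs1 i, pow_add]; ring) (by rw [mul_add, hζ i, ← ht1 i]; ring)
    q5.le q6.le (by rw [hw, hv i _ q9.le]; exact q3) (by rw [hη2]; exact q7.le)
    (by rw [hu i _ q10.le]; exact q4) q8.le
  rw [ch, q1, q2, orb, hη2]
  rfl

end

end Pool.Agent.Work.MP_14af4f_an
end

-- merged part: Pool.Agent.Work.MP_14af4f_an.Charts
section
/-!
Realisable sets of maps occur as rescaled return maps of all maps close to a small perturbation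
of the product of two Chebyshev maps.
-/

open Set Filter Topology Real
open scoped ContDiff

namespace Pool.Agent.Work.MP_14af4f_an

noncomputable section

/-- The cyclic successor. -/
def nx (M i : ℕ) : ℕ := if i + 1 < M then i + 1 else 0

/-- The small scale. -/
def Charts_W (N : ℕ) : ℝ := (1 / 4) ^ N

lemma Charts_W_pos (N : ℕ) : 0 < Charts_W N := by unfold Charts_W; positivity

lemma Charts_W_le (N : ℕ) : Charts_W N ≤ 1 := pow_le_one₀ (by norm_num) (by norm_num)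

lemma Charts_W_mul (lam N : ℕ) : (-2 : ℝ) ^ (2 * lam * N) * Charts_W N ^ lam = 1 := by
  unfold Charts_W
  rw [mul_assoc, pow_mul, ← pow_mul (1 / 4 : ℝ), mul_comm N lam, ← mul_pow]
  norm_num

lemma Charts_W_sub {lam a : ℕ} (h : lam ≤ a) (N : ℕ) :
    (-2 : ℝ) ^ (2 * lam * N) * Charts_W N ^ a = Charts_W N ^ (a - lam) := by
  obtain ⟨d, rfl⟩ := Nat.exists_eq_add_of_le h
  rw [pow_add, ← mul_assoc, Charts_W_mul, one_mul, Nat.add_sub_cancel_left]

lemma Charts_lim (C : ℝ) {x y : ℕ} (h : y < x) :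
    Tendsto (fun N => C * (Charts_W N ^ x / Charts_W N ^ y)) atTop (𝓝 0) := by
  obtain ⟨d, rfl⟩ := Nat.exists_eq_add_of_lt h
  have h1 : Tendsto Charts_W atTop (𝓝 0) :=
    tendsto_pow_atTop_nhds_zero_of_lt_one (by norm_num) (by norm_num)
  have h2 : Tendsto (fun N => C * Charts_W N ^ (d + 1)) atTop (𝓝 (C * 0 ^ (d + 1))) :=
    (h1.pow _).const_mul C
  rw [zero_pow (Nat.succ_ne_zero d), mul_zero] at h2
  refine h2.congr fun N => ?_
  have := (Charts_W_pos N).ne'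
  rw [add_assoc, pow_add _ y]
  field_simp

lemma Charts_lim0 (C : ℝ) {x : ℕ} (h : 0 < x) :
    Tendsto (fun N => C * Charts_W N ^ x) atTop (𝓝 0) := by
  simpa using Charts_lim C h

/-- A sum of bumps. -/
def Charts_bs (δ η : ℝ) (M : ℕ) (a : ℕ → ℝ) (F : ℕ → ℝ → ℝ) (x : ℝ) : ℝ :=
  δ * bp (x / 3) + ∑ i ∈ Finset.range M, bp ((x - a i) / η) * F i x

lemma Charts_bs_near {δ η : ℝ} {M : ℕ} {a : ℕ → ℝ} (F : ℕ → ℝ → ℝ) (hη : 0 < η) (hη1 : η ≤ 1)
    (ha : ∀ i, |a i| ≤ 2) (hs : ∀ i < M, ∀ j < M, i ≠ j → 3 * η ≤ |a i - a j|) {i : ℕ}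
    (hi : i < M) {x : ℝ} (hx : |x - a i| ≤ η) : Charts_bs δ η M a F x = δ + F i x := by
  unfold Charts_bs
  have h1 : bp (x / 3) = 1 := by
    apply bp_one
    have := abs_sub_abs_le_abs_sub x (a i)
    have := ha i
    rw [abs_div, abs_of_pos (by norm_num : (0 : ℝ) < 3), div_le_one (by norm_num)]
    linarith
  rw [h1, mul_one, Finset.sum_eq_single i]
  · rw [bp_one, one_mul]
    rw [abs_div, abs_of_pos hη, div_le_one hη]
    exact hx
  · intro j hj hji
    rw [bp_zero, zero_mul]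
    rw [abs_div, abs_of_pos hη, le_div_iff₀ hη]
    have h2 := hs i hi j (Finset.mem_range.mp hj) hji.symm
    have h3 := abs_sub_le (a i) x (a j)
    rw [abs_sub_comm (a i) x] at h3
    linarith only [hx, h2, h3]
  · intro h
    exact absurd (Finset.mem_range.mpr hi) h

lemma Charts_bs_far {δ η : ℝ} {M : ℕ} {a : ℕ → ℝ} (F : ℕ → ℝ → ℝ) (hη : 0 < η) (hη1 : η ≤ 1)
    (ha : ∀ i, |a i| ≤ 2) {x : ℝ} (hx : 6 < |x|) : Charts_bs δ η M a F x = 0 := by
  unfold Charts_bs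
  have h1 : bp (x / 3) = 0 := by
    apply bp_zero
    rw [abs_div, abs_of_pos (by norm_num : (0 : ℝ) < 3), le_div_iff₀ (by norm_num)]
    linarith
  rw [h1, mul_zero, zero_add]
  refine Finset.sum_eq_zero fun i _ => ?_
  rw [bp_zero, zero_mul]
  rw [abs_div, abs_of_pos hη, le_div_iff₀ hη]
  have := abs_sub_abs_le_abs_sub x (a i)
  have := ha i
  linarith

lemma Charts_bs_smooth {δ η : ℝ} {M : ℕ} {a : ℕ → ℝ} {F : ℕ → ℝ → ℝ}
    (hF : ∀ i, ContDiff ℝ ∞ (F i)) : ContDiff ℝ ∞ (Charts_bs δ η M a F) := by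
  unfold Charts_bs
  refine (contDiff_const.mul (contDiff_bp.comp (contDiff_id.div_const 3))).add
    (ContDiff.sum fun i _ => ?_)
  exact (contDiff_bp.comp ((contDiff_id.sub contDiff_const).div_const η)).mul (hF i)

lemma Charts_sep (M : ℕ) (a : ℕ → ℝ) (h : ∀ i < M, ∀ j < M, i ≠ j → a i ≠ a j) :
    ∀ᶠ η in 𝓝 (0 : ℝ), ∀ i < M, ∀ j < M, i ≠ j → 3 * η ≤ |a i - a j| := by
  have : ∀ᶠ η in 𝓝 (0 : ℝ), ∀ i ∈ Finset.range M, ∀ j ∈ Finset.range M,
      i ≠ j → 3 * η ≤ |a i - a j| := by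
    rw [Finset.eventually_all]
    intro i hi
    rw [Finset.eventually_all]
    intro j hj
    by_cases hij : i = j
    · exact Eventually.of_forall fun _ h => absurd hij h
    · have hp : 0 < |a i - a j| / 3 := by
        have := abs_pos.mpr (sub_ne_zero.mpr
          (h i (Finset.mem_range.mp hi) j (Finset.mem_range.mp hj) hij))
        positivity
      filter_upwards [eventually_le_nhds hp] with η hη _
      linarith only [hη]
  filter_upwards [this] with η hη i hi j hj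
  exact hη i (Finset.mem_range.mpr hi) j (Finset.mem_range.mpr hj)

lemma Charts_norm {A : P2 →L[ℝ] ℝ} (hA : ‖A‖ ≤ 1) (c : ℝ) : ‖c • A‖ ≤ |c| := by
  rw [norm_smul, Real.norm_eq_abs]
  exact mul_le_of_le_one_right (abs_nonneg _) hA

lemma Charts_sm (r : ℕ) (w : P2) {A B : P2 →L[ℝ] ℝ} (hA : ‖A‖ ≤ 1) (hB : ‖B‖ ≤ 1) {η : ℝ}
    (hη : 0 < η) (a : ℝ) {adj c e σ : ℕ → ℝ} (hadj : Tendsto adj atTop (𝓝 0)) {f : ℝ → ℝ}
    (hf : ContDiff ℝ ∞ f) (hf' : HasCompactSupport f)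
    (H : f = 0 ∨ ∃ (C C' : ℝ) (x y : ℕ), r * y < x ∧ C' ≠ 0 ∧ (∀ N, c N = C * Charts_W N ^ x) ∧
      ∀ N, σ N = C' * Charts_W N ^ y) :
    Sm r atTop fun N z =>
      (bp (10 * A z) * (bp ((B z - a) / η) * (adj N + c N * f ((B z - e N) / σ N)))) • w := by
  have h1 : Sm r atTop fun N z => (adj N * (bp (((10 : ℝ) • A) z + 0) *
      bp ((η⁻¹ • B) z + -(a / η)) * bp ((0 : P2 →L[ℝ] ℝ) z + 0))) • w := by
    refine sm_prod r contDiff_bp contDiff_bp contDiff_bp hasCompactSupport_bp hasCompactSupport_bp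
      hasCompactSupport_bp w (a := fun _ => 10 + η⁻¹) (Eventually.of_forall fun N => ?_) ?_
    · have h0 : 0 < η⁻¹ := inv_pos.mpr hη
      refine ⟨by linarith only [h0], (Charts_norm hA _).trans ?_, (Charts_norm hB _).trans ?_, ?_⟩
      · rw [abs_of_pos (by norm_num)]; linarith
      · rw [abs_of_pos h0]; linarith
      · rw [norm_zero]; linarith only [h0]
    · simpa using hadj.mul_const ((10 + η⁻¹) ^ r)
  have h2 : Sm r atTop fun N z => (c N * (bp (((10 : ℝ) • A) z + 0) *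
      bp ((η⁻¹ • B) z + -(a / η)) * f (((σ N)⁻¹ • B) z + -(e N / σ N)))) • w := by
    rcases H with rfl | ⟨C, C', x, y, hxy, hC', hc, hσ⟩
    · simpa using sm_zero r (atTop : Filter ℕ)
    · refine sm_prod r contDiff_bp contDiff_bp hf hasCompactSupport_bp hasCompactSupport_bp
        hf' w (a := fun N => (10 + η⁻¹ + |C'|⁻¹) / Charts_W N ^ y)
        (Eventually.of_forall fun N => ?_) ?_
      · have h0 : 0 < η⁻¹ := inv_pos.mpr hη
        have h3 : 0 < |C'|⁻¹ := inv_pos.mpr (abs_pos.mpr hC')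
        have h4 : 0 < Charts_W N ^ y := pow_pos (Charts_W_pos N) y
        have h5 : Charts_W N ^ y ≤ 1 := pow_le_one₀ (Charts_W_pos N).le (Charts_W_le N)
        have h6 : 10 + η⁻¹ + |C'|⁻¹ ≤ (10 + η⁻¹ + |C'|⁻¹) / Charts_W N ^ y :=
          le_div_self (by positivity) h4 h5
        refine ⟨by linarith only [h0, h3, h6], (Charts_norm hA _).trans ?_, (Charts_norm hB _).trans ?_,
          (Charts_norm hB _).trans ?_⟩
        · rw [abs_of_pos (by norm_num)]; linarith only [h0, h3, h6]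
        · rw [abs_of_pos h0]; linarith only [h3, h6]
        · rw [hσ, abs_inv, abs_mul, abs_of_pos h4, mul_inv, ← div_eq_mul_inv]
          exact div_le_div_of_nonneg_right (by linarith only [h0]) h4.le
      · refine (Charts_lim (C * (10 + η⁻¹ + |C'|⁻¹) ^ r) hxy).congr fun N => ?_
        rw [hc, div_pow, ← pow_mul, mul_comm y r]
        ring
  have h3 := h1.add h2
  have e1 : (fun N z =>
      (bp (10 * A z) * (bp ((B z - a) / η) * (adj N + c N * f ((B z - e N) / σ N)))) • w) =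
      fun N z => (adj N * (bp (((10 : ℝ) • A) z + 0) *
      bp ((η⁻¹ • B) z + -(a / η)) * bp ((0 : P2 →L[ℝ] ℝ) z + 0))) • w +
      (c N * (bp (((10 : ℝ) • A) z + 0) *
      bp ((η⁻¹ • B) z + -(a / η)) * f (((σ N)⁻¹ • B) z + -(e N / σ N)))) • w := by
    funext N z
    have b0 : bp 0 = 1 := bp_one (by simp)
    have b1 : η⁻¹ * B z + -(a / η) = (B z - a) / η := by ring
    have b2 : (σ N)⁻¹ * B z + -(e N / σ N) = (B z - e N) / σ N := by ring
    simp only [ContinuousLinearMap.smul_apply, smul_eq_mul, add_zero,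
      ContinuousLinearMap.zero_apply, b0, b1, b2]
    rw [← add_smul]
    congr 1
    ring
  rw [e1]
  exact h3

lemma Charts_sm0 (r : ℕ) (w : P2) {A B : P2 →L[ℝ] ℝ} (hA : ‖A‖ ≤ 1) (hB : ‖B‖ ≤ 1) :
    Sm r atTop fun k z => (bp (10 * A z) * ((l0 k 0 + 2) * bp (B z / 3))) • w := by
  have h1 : Sm r atTop fun k z => ((l0 k 0 + 2) * (bp (((10 : ℝ) • A) z + 0) *
      bp (((3 : ℝ)⁻¹ • B) z + 0) * bp ((0 : P2 →L[ℝ] ℝ) z + 0))) • w := by
    refine sm_prod r contDiff_bp contDiff_bp contDiff_bp hasCompactSupport_bp hasCompactSupport_bp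
      hasCompactSupport_bp w (a := fun _ => 10) (Eventually.of_forall fun N => ?_) ?_
    · refine ⟨by norm_num, (Charts_norm hA _).trans ?_, (Charts_norm hB _).trans ?_, ?_⟩
      · rw [abs_of_pos (by norm_num)]
      · rw [abs_of_pos (by norm_num)]; norm_num
      · rw [norm_zero]; norm_num
    · simpa using tendsto_l0.mul_const ((10 : ℝ) ^ r)
  have e1 : (fun k z => (bp (10 * A z) * ((l0 k 0 + 2) * bp (B z / 3))) • w) =
      fun (k : ℕ) z => ((l0 k 0 + 2) * (bp (((10 : ℝ) • A) z + 0) *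
      bp (((3 : ℝ)⁻¹ • B) z + 0) * bp ((0 : P2 →L[ℝ] ℝ) z + 0))) • w := by
    funext N z
    have b0 : bp 0 = 1 := bp_one (by simp)
    have b1 : (3 : ℝ)⁻¹ * B z = B z / 3 := by ring
    simp only [ContinuousLinearMap.smul_apply, smul_eq_mul, add_zero,
      ContinuousLinearMap.zero_apply, b0, b1]
    congr 1
    ring
  rw [e1]
  exact h1

lemma Charts_cut1 {f : ℝ → ℝ} (hf : ContDiff ℝ ∞ f) (R : ℝ) :
    ∃ g : ℝ → ℝ, ContDiff ℝ ∞ g ∧ HasCompactSupport g ∧ (f = 0 → g = 0) ∧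
      ∀ x, |x| ≤ R → g x = f x := by
  have hR : 0 < |R| + 1 := by positivity
  refine ⟨fun x => f x * bp (x / (|R| + 1)),
    hf.mul (contDiff_bp.comp (contDiff_id.div_const _)), ?_, ?_, fun x hx => ?_⟩
  · refine HasCompactSupport.intro (isCompact_closedBall (0 : ℝ) (2 * (|R| + 1))) fun x hx => ?_
    rw [bp_zero, mul_zero]
    rw [Metric.mem_closedBall, dist_zero_right, Real.norm_eq_abs, not_le] at hx
    rw [abs_div, abs_of_pos hR, le_div_iff₀ hR]
    exact hx.le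
  · rintro rfl
    funext x
    simp
  · show f x * bp (x / (|R| + 1)) = f x
    rw [bp_one, mul_one]
    rw [abs_div, abs_of_pos hR, div_le_one hR]
    have := le_abs_self R
    linarith only [hx, this]

lemma Charts_cut (m : TM) (hφ : ContDiff ℝ ∞ m.φ) (hψ : ContDiff ℝ ∞ m.ψ) (R : ℝ) :
    ∃ φ ψ : ℝ → ℝ, ContDiff ℝ ∞ φ ∧ HasCompactSupport φ ∧ (m.φ = 0 → φ = 0) ∧
      ContDiff ℝ ∞ ψ ∧ HasCompactSupport ψ ∧ (m.ψ = 0 → ψ = 0) ∧
      Near (sq R) (fun p : P2 => (m.a * p.1 + ψ (m.b * p.2 + m.c * p.2 ^ 2 + φ p.1),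
        m.b * p.2 + m.c * p.2 ^ 2 + φ p.1)) = Near (sq R) m.map := by
  have hc : Continuous m.snd := by
    unfold TM.snd
    have := hφ.continuous
    fun_prop
  obtain ⟨B, hB⟩ := (isCompact_sq (R + 1)).exists_bound_of_continuousOn hc.continuousOn
  obtain ⟨φ, p1, p2, p3, p4⟩ := Charts_cut1 hφ (R + 1)
  obtain ⟨ψ, q1, q2, q3, q4⟩ := Charts_cut1 hψ B
  refine ⟨φ, ψ, p1, p2, p3, q1, q2, q3, near_congr fun z hz => ?_⟩
  have hmem : sq (R + 1) ∈ 𝓝 z := by
    refine Metric.closedBall_mem_nhds_of_mem ?_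
    have : dist z 0 ≤ R := hz
    rw [Metric.mem_ball]
    linarith only [this]
  filter_upwards [hmem] with p hp
  have h1 : |p.1| ≤ R + 1 := by
    have : ‖p‖ ≤ R + 1 := by simpa [sq] using hp
    exact (norm_fst_le p).trans this
  have h2 : m.b * p.2 + m.c * p.2 ^ 2 + φ p.1 = m.snd p := by rw [p4 _ h1]; rfl
  rw [h2, q4 _ (hB p hp)]
  rfl

/-- The normalising factors of the heights. -/
def Charts_q (m : ℕ → TM) (k : ℕ) : ℕ → ℝ
  | 0 => 1
  | i + 1 => if (m i).c = 0 then 1 else 16 * π ^ 2 * Charts_q m k i ^ 2 * (-2) ^ (i + 2) / l1 k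

lemma Charts_q_ne (m : ℕ → TM) (k i : ℕ) : Charts_q m k i ≠ 0 := by
  induction i with
  | zero => exact one_ne_zero
  | succ i ih =>
    unfold Charts_q
    split_ifs
    · exact one_ne_zero
    · have := (l1_pos k).ne'
      have := pi_ne_zero
      positivity

/-- The widths. -/
def Charts_s (m : ℕ → TM) (N i : ℕ) : ℝ := Charts_W N ^ (m i).α

/-- The heights. -/
def Charts_t (m : ℕ → TM) (k N i : ℕ) : ℝ := Charts_q m k i * Charts_W N ^ (m i).β

/-- The widths after the flight. -/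
def Charts_s1 (m : ℕ → TM) (N i : ℕ) : ℝ := Charts_W N ^ ((m i).α - (m i).lam)

/-- The heights after the flight. -/
def Charts_t1 (m : ℕ → TM) (k N i : ℕ) : ℝ := Charts_q m k i * Charts_W N ^ ((m i).β - (m i).lam)

/-- The first offsets. -/
def Charts_ox (m : ℕ → TM) (M k N i : ℕ) : ℝ :=
  (m i).a * Charts_s m N (nx M i) * l1 k / (32 * π ^ 2 * ((-2) ^ (i + 2) * Charts_s1 m N i))

/-- The second offsets. -/
def Charts_oy (m : ℕ → TM) (M k N i : ℕ) : ℝ :=
  (m i).b * (Charts_t m k N (nx M i) / (-2) ^ (i + 2)) * l1 k / (32 * π ^ 2 * Charts_t1 m k N i)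

/-- The first centres. -/
def Charts_z (m : ℕ → TM) (M k N i : ℕ) : ℝ :=
  (-1 / 12 + Charts_ox m M k N i) * Charts_W N ^ (m i).lam / (-2) ^ (i + 2)

/-- The second centres. -/
def Charts_y (m : ℕ → TM) (M k N i : ℕ) : ℝ :=
  (-1 / 12 + Charts_oy m M k N i) * Charts_W N ^ (m i).lam

lemma Charts_nx_lt {M : ℕ} (hM : 0 < M) (i : ℕ) : nx M i < M := by
  unfold nx
  split_ifs with h
  · exact h
  · exact hM

section Lim
variable {r M : ℕ} {p : ℕ × ℕ} {m : ℕ → TM}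

lemma Charts_nx (hm : Chain r p p M m) (hc : (m (M - 1)).c = 0) (k : ℕ) {i : ℕ} (hi : i < M) :
    (m (nx M i)).α = (m i).α' ∧ (m (nx M i)).β = (m i).β' ∧
      Charts_q m k (nx M i) = Charts_q m k (i + 1) := by
  unfold nx
  split_ifs with h
  · exact ⟨(hm.link i h).1.symm, (hm.link i h).2.symm, rfl⟩
  · have e : i = M - 1 := by omega
    have h1 := hm.first.trans hm.last.symm
    rw [← e] at h1 hc
    refine ⟨congrArg Prod.fst h1, congrArg Prod.snd h1, ?_⟩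
    simp only [Charts_q, if_pos hc]

lemma Charts_lam {m : TM} (h : m.Ok r) : m.lam < m.α ∧ m.lam < m.β := by
  have h1 := h.x2
  rcases h.y with h2 | h2
  · have := h2.2.2.2
    omega
  · have := h2.2.2.1
    omega

lemma Charts_ox_eq (hm : Chain r p p M m) (hc : (m (M - 1)).c = 0) (k : ℕ) {i : ℕ} (hi : i < M)
    (N : ℕ) : Charts_ox m M k N i = (m i).a * l1 k / (32 * π ^ 2 * (-2) ^ (i + 2)) *
      (Charts_W N ^ (m i).α' / Charts_W N ^ ((m i).α - (m i).lam)) := by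
  unfold Charts_ox Charts_s Charts_s1
  rw [(Charts_nx hm hc k hi).1]
  ring

lemma Charts_oy_eq (hm : Chain r p p M m) (hc : (m (M - 1)).c = 0) (k : ℕ) {i : ℕ} (hi : i < M)
    (N : ℕ) : Charts_oy m M k N i = (m i).b * Charts_q m k (i + 1) * l1 k /
      (32 * π ^ 2 * (-2) ^ (i + 2) * Charts_q m k i) *
      (Charts_W N ^ (m i).β' / Charts_W N ^ ((m i).β - (m i).lam)) := by
  unfold Charts_oy Charts_t Charts_t1
  rw [(Charts_nx hm hc k hi).2.1, (Charts_nx hm hc k hi).2.2]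
  ring

lemma Charts_lox (hm : Chain r p p M m) (hc : (m (M - 1)).c = 0) (k : ℕ) {i : ℕ} (hi : i < M) :
    Tendsto (fun N => Charts_ox m M k N i) atTop (𝓝 0) := by
  have h1 := (hm.ok i hi).x1
  have h2 := (Charts_lam (hm.ok i hi)).1
  exact (Charts_lim _ (by omega)).congr fun N => (Charts_ox_eq hm hc k hi N).symm

lemma Charts_loy (hm : Chain r p p M m) (hc : (m (M - 1)).c = 0) (k : ℕ) {i : ℕ} (hi : i < M) :
    Tendsto (fun N => Charts_oy m M k N i) atTop (𝓝 0) := by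
  have h2 := (Charts_lam (hm.ok i hi)).2
  rcases (hm.ok i hi).y with h | h
  · have h1 := h.2.2.1
    exact (Charts_lim _ (by omega)).congr fun N => (Charts_oy_eq hm hc k hi N).symm
  · refine tendsto_const_nhds.congr fun N => ?_
    rw [Charts_oy_eq hm hc k hi, h.2.1]
    simp

lemma Charts_lz (hm : Chain r p p M m) (hc : (m (M - 1)).c = 0) (k : ℕ) {i : ℕ} (hi : i < M) :
    Tendsto (fun N => Charts_z m M k N i) atTop (𝓝 0) := by
  have h1 := (((Charts_lox hm hc k hi).const_add (-1 / 12)).mul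
    (Charts_lim0 1 (hm.ok i hi).lam)).div_const ((-2) ^ (i + 2))
  simp only [mul_zero, zero_div, one_mul] at h1
  exact h1

lemma Charts_ly (hm : Chain r p p M m) (hc : (m (M - 1)).c = 0) (k : ℕ) {i : ℕ} (hi : i < M) :
    Tendsto (fun N => Charts_y m M k N i) atTop (𝓝 0) := by
  have h1 := ((Charts_loy hm hc k hi).const_add (-1 / 12)).mul (Charts_lim0 1 (hm.ok i hi).lam)
  simp only [mul_zero, one_mul] at h1
  exact h1

lemma Charts_adj (k : ℕ) {x o : ℕ → ℝ} (hx : Tendsto x atTop (𝓝 0)) (ho : Tendsto o atTop (𝓝 0)) :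
    Tendsto (fun N => l0 k (x N) + 2 * cos (4 * π * o N) - (l0 k 0 + 2)) atTop (𝓝 0) := by
  have h1 : Continuous (l0 k) := (contDiff_ll k 0).continuous.neg
  have h2 : Continuous fun y : ℝ => 2 * cos (4 * π * y) := by fun_prop
  have h3 := (((h1.tendsto 0).comp hx).add ((h2.tendsto 0).comp ho)).sub_const (l0 k 0 + 2)
  simp only [mul_zero, cos_zero, mul_one, sub_self] at h3
  exact h3

lemma Charts_move (hm : Chain r p p M m) (hc : (m (M - 1)).c = 0) {k : ℕ} (hk : M ≤ k) {i : ℕ}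
    (hi : i < M) (R : ℝ) {η : ℝ} (hη : 0 < η) {φ ψ : ℝ → ℝ} (hφ : ContDiff ℝ ∞ φ)
    (hψ : ContDiff ℝ ∞ ψ) {u v : ℕ → ℝ → ℝ}
    (hv : ∀ N x, |x - ee (-1 / 12 / (-2) ^ (i + 2))| ≤ η → v N x =
      l0 k (Charts_y m M k N (nx M i) / (-2) ^ (i + 2)) + 2 * cos (4 * π * Charts_oy m M k N i) +
        Charts_t m k N (nx M i) / (-2) ^ (i + 2) * l1 k *
        φ ((x - ee ((-1 / 12 + Charts_ox m M k N i) / (-2) ^ (i + 2))) /
          (Charts_s1 m N i * ed (-1 / 12 / (-2) ^ (i + 2)))))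
    (hu : ∀ N y, |y - ll k (i + 2 - 1) 0| ≤ η → u N y =
      l0 k (Charts_z m M k N (nx M i)) + 2 * cos (4 * π * Charts_ox m M k N i) +
        Charts_s m N (nx M i) * l1 k *
        ψ ((y - ll k (i + 2 - 1) (Charts_y m M k N (nx M i) / (-2) ^ (i + 2))) /
          (Charts_t m k N (nx M i) / (-2) ^ (i + 2) * ld k (i + 2 - 1)))) :
    Tendsto (fun N q => chi (ee (Charts_z m M k N (nx M i))) (ee (Charts_y m M k N (nx M i)))
        (Charts_s m N (nx M i) * ed 0) (Charts_t m k N (nx M i) * ed 0)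
        ((gm (u N) (v N))^[2 * (m i).lam * N + (i + 2) + k + 2]
          (ch (ee (Charts_z m M k N i)) (ee (Charts_y m M k N i)) (Charts_s m N i * ed 0)
            (Charts_t m k N i * ed 0) q)))
      atTop (Near (sq R) fun q => ((m i).a * q.1 + ψ ((m i).b * q.2 + (m i).c * q.2 ^ 2 + φ q.1),
        (m i).b * q.2 + (m i).c * q.2 ^ 2 + φ q.1)) := by
  have ok := hm.ok i hi
  have hl := Charts_lam ok
  have hn := Charts_nx hm hc k hi
  have hi' := Charts_nx_lt hm.pos i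
  have hl' := Charts_lam (hm.ok _ hi')
  have hW : ∀ N, Charts_W N ≠ 0 := fun N => (Charts_W_pos N).ne'
  have h2 : (-2 : ℝ) ^ (i + 2) ≠ 0 := pow_ne_zero _ (by norm_num)
  have hl1 := (l1_pos k).ne'
  have hpi := pi_ne_zero
  have hq := Charts_q_ne m k i
  have hq' := Charts_q_ne m k (i + 1)
  refine move_limit (isCompact_sq R) (L := i + 2) (by omega) (by omega) (η := η)
    (by exact_mod_cast (contDiff_infty.1 hφ 2)) (by exact_mod_cast (contDiff_infty.1 hψ 2))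
    (n := fun N => 2 * (m i).lam * N) (s1 := fun N => Charts_s1 m N i)
    (t1 := fun N => Charts_t1 m k N i) (ox := fun N => Charts_ox m M k N i)
    (oy := fun N => Charts_oy m M k N i)
    (fun N => Charts_W_sub hl.1.le N) (fun N => ?_) (fun N => ?_) (fun N => ?_)
    (fun N => pow_ne_zero _ (hW N)) (fun N => mul_ne_zero hq (pow_ne_zero _ (hW N)))
    (fun N => pow_ne_zero _ (hW N))
    (fun N => mul_ne_zero (Charts_q_ne m k _) (pow_ne_zero _ (hW N)))
    (Charts_lz hm hc k hi) (Charts_ly hm hc k hi) (Charts_lz hm hc k hi') (Charts_ly hm hc k hi')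
    ?_ (Charts_lim0 _ (by omega)) ?_ (Charts_lim0 _ (by omega)) ok.a (fun N => rfl)
    (Charts_lox hm hc k hi) ?_ (fun N => rfl) ?_ hη hv hu
  · unfold Charts_t Charts_t1
    rw [mul_left_comm, Charts_W_sub hl.2.le]
  · unfold Charts_z
    have := Charts_W_mul (m i).lam N
    rw [pow_add]
    field_simp
    linear_combination (-1 + 12 * Charts_ox m M k N i) * this
  · unfold Charts_y
    have := Charts_W_mul (m i).lam N
    linear_combination (-1 / 12 + Charts_oy m M k N i) * this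
  · simpa [Charts_s] using Charts_lim0 1 (x := (m (nx M i)).α) (by omega)
  · simpa [Charts_s1] using Charts_lim0 1 (x := (m i).α - (m i).lam) (by omega)
  · have h1 := ok.x2
    refine (Charts_lim ((m i).a * l1 k / (32 * π ^ 2 * (-2) ^ (i + 2)))⁻¹
      (x := 2 * ((m i).α - (m i).lam)) (y := (m i).α') (by omega)).congr fun N => ?_
    rw [Charts_ox_eq hm hc k hi, Charts_s1, two_mul, pow_add (Charts_W N)]
    have := ok.a
    have := hW N
    field_simp
  · rcases ok.y with h | h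
    · refine Or.inl ⟨h.1, h.2.1, Charts_loy hm hc k hi, ?_⟩
      have h1 := h.2.2.2
      refine (Charts_lim (Charts_q m k i * ((m i).b * Charts_q m k (i + 1) * l1 k /
        (32 * π ^ 2 * (-2) ^ (i + 2) * Charts_q m k i))⁻¹)
        (x := 2 * ((m i).β - (m i).lam)) (y := (m i).β') (by omega)).congr fun N => ?_
      rw [Charts_oy_eq hm hc k hi, Charts_t1, two_mul, pow_add (Charts_W N)]
      have := h.2.1
      have := hW N
      field_simp
    · refine Or.inr ⟨h.1, h.2.1, fun N => ?_⟩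
      have h1 := h.2.2.2
      have e : (m i).β' = ((m i).β - (m i).lam) * 2 := by omega
      have hc1 : (m i).c ≠ 0 := by rw [h.1]; exact one_ne_zero
      unfold Charts_t Charts_t1
      rw [hn.2.1, hn.2.2, e, pow_mul]
      simp only [Charts_q, if_neg hc1]
      field_simp

end Lim

/-- The perturbations and the charts of a closed chain of moves. -/
lemma exists_charts {r M : ℕ} {p : ℕ × ℕ} {m : ℕ → TM} (hm : Chain r p p M m)
    (hc : (m (M - 1)).c = 0) (R : ℝ) {ε : ℝ} (hε : 0 < ε) :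
    ∃ (g : ℕ → P2 → P2) (n : ℕ → ℕ → ℕ) (u v s t : ℕ → ℕ → ℝ),
      (∀ N, ContDiff ℝ ∞ (g N)) ∧ (∀ N, ∀ z ∉ sq 6, g N z = Q0 z) ∧
      (∀ᶠ N in atTop, ∀ j ≤ r, ∀ z, ‖iteratedFDeriv ℝ j (fun z => g N z - Q0 z) z‖ < ε) ∧
      (∀ N i, 0 < n N i ∧ s N i ≠ 0 ∧ t N i ≠ 0) ∧
      ∀ i < M, Tendsto (fun N q => chi (u N (nx M i)) (v N (nx M i)) (s N (nx M i)) (t N (nx M i))
        ((g N)^[n N i] (ch (u N i) (v N i) (s N i) (t N i) q))) atTop (Near (sq R) (m i).map) := by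
  have nf : ‖ContinuousLinearMap.fst ℝ ℝ ℝ‖ ≤ 1 := ContinuousLinearMap.norm_fst_le ..
  have ns : ‖ContinuousLinearMap.snd ℝ ℝ ℝ‖ ≤ 1 := ContinuousLinearMap.norm_snd_le ..
  have S0 := (Charts_sm0 r ((1, 0) : P2) nf ns).add (Charts_sm0 r ((0, 1) : P2) ns nf)
  obtain ⟨k, hk0, hk⟩ := ((S0.small (ε / 3) (by positivity)).and (eventually_ge_atTop M)).exists
  have hcut : ∀ i, ∃ φ ψ : ℝ → ℝ, ContDiff ℝ ∞ φ ∧ HasCompactSupport φ ∧ ((m i).φ = 0 → φ = 0) ∧
      ContDiff ℝ ∞ ψ ∧ HasCompactSupport ψ ∧ ((m i).ψ = 0 → ψ = 0) ∧ (i < M →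
      Near (sq R) (fun q : P2 => ((m i).a * q.1 + ψ ((m i).b * q.2 + (m i).c * q.2 ^ 2 + φ q.1),
        (m i).b * q.2 + (m i).c * q.2 ^ 2 + φ q.1)) = Near (sq R) (m i).map) := by
    intro i
    by_cases hi : i < M
    · obtain ⟨φ, ψ, h1, h2, h3, h4, h5, h6, h7⟩ :=
        Charts_cut (m i) (hm.ok i hi).φ (hm.ok i hi).ψ R
      exact ⟨φ, ψ, h1, h2, h3, h4, h5, h6, fun _ => h7⟩
    · exact ⟨0, 0, contDiff_const, HasCompactSupport.zero, fun _ => rfl, contDiff_const,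
        HasCompactSupport.zero, fun _ => rfl, fun h => absurd h hi⟩
  choose φ ψ p1 p2 p3 q1 q2 q3 hnear using hcut
  let a : ℕ → ℝ := fun i => ee (-1 / 12 / (-2) ^ (i + 2))
  let b : ℕ → ℝ := fun i => ll k (i + 2 - 1) 0
  have sa := Charts_sep M a fun i _ j _ hij h => hij (by
    have := ee_pos_injective h
    omega)
  have sb := Charts_sep M b fun i hi j hj hij h => hij (by
    have := ll_pos_injOn k (show i + 2 - 1 ∈ Iic (k + 1) from by simp only [mem_Iic]; omega)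
      (show j + 2 - 1 ∈ Iic (k + 1) from by simp only [mem_Iic]; omega) h
    omega)
  obtain ⟨η, ⟨sa, sb, hη1⟩, hη⟩ := (((sa.and (sb.and (eventually_le_nhds one_pos))).filter_mono
    (nhdsWithin_le_nhds (s := Ioi 0))).and self_mem_nhdsWithin).exists
  replace hη : 0 < η := hη
  let Fv : ℕ → ℕ → ℝ → ℝ := fun N i x =>
    (l0 k (Charts_y m M k N (nx M i) / (-2) ^ (i + 2)) + 2 * cos (4 * π * Charts_oy m M k N i) -
      (l0 k 0 + 2)) + Charts_t m k N (nx M i) / (-2) ^ (i + 2) * l1 k *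
        φ i ((x - ee ((-1 / 12 + Charts_ox m M k N i) / (-2) ^ (i + 2))) /
          (Charts_s1 m N i * ed (-1 / 12 / (-2) ^ (i + 2))))
  let Fu : ℕ → ℕ → ℝ → ℝ := fun N i y =>
    (l0 k (Charts_z m M k N (nx M i)) + 2 * cos (4 * π * Charts_ox m M k N i) -
      (l0 k 0 + 2)) + Charts_s m N (nx M i) * l1 k *
        ψ i ((y - ll k (i + 2 - 1) (Charts_y m M k N (nx M i) / (-2) ^ (i + 2))) /
          (Charts_t m k N (nx M i) / (-2) ^ (i + 2) * ld k (i + 2 - 1)))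
  let U : ℕ → ℝ → ℝ := fun N => Charts_bs (l0 k 0 + 2) η M b (Fu N)
  let V : ℕ → ℝ → ℝ := fun N => Charts_bs (l0 k 0 + 2) η M a (Fv N)
  have ha : ∀ i, |a i| ≤ 2 := fun i => abs_ee_le _
  have hb : ∀ i, |b i| ≤ 2 := fun i => abs_ll_le _ _ _
  have hU : ∀ N, ContDiff ℝ ∞ (U N) := fun N => Charts_bs_smooth fun i =>
    contDiff_const.add (contDiff_const.mul
      ((q1 i).comp ((contDiff_id.sub contDiff_const).div_const _)))
  have hV : ∀ N, ContDiff ℝ ∞ (V N) := fun N => Charts_bs_smooth fun i =>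
    contDiff_const.add (contDiff_const.mul
      ((p1 i).comp ((contDiff_id.sub contDiff_const).div_const _)))
  have Su : Sm r atTop fun N z => ∑ i ∈ Finset.range M,
      (bp (10 * z.1) * (bp ((z.2 - b i) / η) * Fu N i z.2)) • ((1, 0) : P2) := by
    refine Sm.sum _ fun i hi => ?_
    have hi := Finset.mem_range.mp hi
    have hn := Charts_nx hm hc k hi
    refine Charts_sm r (1, 0) nf ns hη (b i)
      (Charts_adj k (Charts_lz hm hc k (Charts_nx_lt hm.pos i)) (Charts_lox hm hc k hi))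
      (q1 i) (q2 i) ((hm.ok i hi).sψ.imp (q3 i) fun h =>
        ⟨l1 k, Charts_q m k (nx M i) / (-2) ^ (i + 2) * ld k (i + 2 - 1), _, _, h, ?_,
          fun N => ?_, fun N => ?_⟩)
    · exact mul_ne_zero (div_ne_zero (Charts_q_ne m k _) (pow_ne_zero _ (by norm_num)))
        (ld_neg (by omega)).ne
    · rw [Charts_s, hn.1, mul_comm]
    · rw [Charts_t, hn.2.1]
      ring
  have Sv : Sm r atTop fun N z => ∑ i ∈ Finset.range M,
      (bp (10 * z.2) * (bp ((z.1 - a i) / η) * Fv N i z.1)) • ((0, 1) : P2) := by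
    refine Sm.sum _ fun i hi => ?_
    have hi := Finset.mem_range.mp hi
    have hn := Charts_nx hm hc k hi
    have hl := (Charts_lam (hm.ok i hi)).1
    have h0 := (Charts_ly hm hc k (Charts_nx_lt hm.pos i)).div_const ((-2) ^ (i + 2))
    rw [zero_div] at h0
    refine Charts_sm r (0, 1) ns nf hη (a i) (Charts_adj k h0 (Charts_loy hm hc k hi))
      (p1 i) (p2 i) ((hm.ok i hi).sφ.imp (p3 i) fun h =>
        ⟨Charts_q m k (nx M i) / (-2) ^ (i + 2) * l1 k, ed (-1 / 12 / (-2) ^ (i + 2)),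
          (m i).β', (m i).α - (m i).lam, ?_, ?_, fun N => ?_, fun N => ?_⟩)
    · obtain ⟨d, hd⟩ := Nat.exists_eq_add_of_le hl.le
      rw [hd, mul_add] at h
      rw [hd, Nat.add_sub_cancel_left]
      omega
    · apply ed_ne_zero
      have h1 : (1 : ℝ) ≤ 2 ^ (i + 2) := one_le_pow₀ (by norm_num)
      rw [abs_div, abs_pow, abs_neg, abs_two, div_lt_iff₀ (by positivity), abs_div, abs_neg,
        abs_one, abs_of_pos (by norm_num : (0 : ℝ) < 12)]
      linarith only [h1]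
    · rw [Charts_t, hn.2.1]
      ring
    · rw [Charts_s1, mul_comm]
  have S1 := Su.add Sv
  refine ⟨fun N => gm (U N) (V N), fun N i => 2 * (m i).lam * N + (i + 2) + k + 2,
    fun N i => ee (Charts_z m M k N i), fun N i => ee (Charts_y m M k N i),
    fun N i => Charts_s m N i * ed 0, fun N i => Charts_t m k N i * ed 0, fun N => ?_,
    fun N z hz => ?_, ?_, fun N i => ?_, fun i hi => ?_⟩
  · have h1 : ContDiff ℝ ∞ fun z : P2 => (bp (10 * z.1) * U N z.2, bp (10 * z.2) * V N z.1) :=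
      ((contDiff_bp.comp (contDiff_const.mul contDiff_fst)).mul ((hU N).comp contDiff_snd)).prodMk
        ((contDiff_bp.comp (contDiff_const.mul contDiff_snd)).mul ((hV N).comp contDiff_fst))
    exact contDiff_Q0.add h1
  · have h1 : 6 < |z.1| ∨ 6 < |z.2| := by
      have : 6 < ‖z‖ := by simpa [sq] using hz
      rwa [Prod.norm_def, lt_max_iff] at this
    have h2 : ∀ x : ℝ, 6 < |x| → bp (10 * x) = 0 := fun x hx => bp_zero (by
      rw [abs_mul, abs_of_pos (by norm_num : (0 : ℝ) < 10)]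
      linarith only [hx])
    rcases h1 with h1 | h1
    · simp only [gm, Q0, V, h2 _ h1, Charts_bs_far _ hη hη1 ha h1, zero_mul, mul_zero, add_zero]
    · simp only [gm, Q0, U, h2 _ h1, Charts_bs_far _ hη hη1 hb h1, zero_mul, mul_zero, add_zero]
  · filter_upwards [S1.small (ε / 3) (by positivity)] with N hN j hj z
    have e : (fun z => gm (U N) (V N) z - Q0 z) = fun z : P2 =>
        ((bp (10 * z.1) * ((l0 k 0 + 2) * bp (z.2 / 3))) • ((1, 0) : P2) +
          (bp (10 * z.2) * ((l0 k 0 + 2) * bp (z.1 / 3))) • ((0, 1) : P2)) +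
        (∑ i ∈ Finset.range M,
          (bp (10 * z.1) * (bp ((z.2 - b i) / η) * Fu N i z.2)) • ((1, 0) : P2) +
        ∑ i ∈ Finset.range M,
          (bp (10 * z.2) * (bp ((z.1 - a i) / η) * Fv N i z.1)) • ((0, 1) : P2)) := by
      funext z
      rw [← Finset.sum_smul, ← Finset.sum_smul, ← Finset.mul_sum, ← Finset.mul_sum]
      ext
      · simp only [gm, Q0, U, Charts_bs, Prod.fst_sub, Prod.fst_add, Prod.smul_fst, smul_eq_mul]
        ring
      · simp only [gm, Q0, V, Charts_bs, Prod.snd_sub, Prod.snd_add, Prod.smul_snd, smul_eq_mul]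
        ring
    have e2 := iteratedFDeriv_add_apply' (𝕜 := ℝ) (i := j) (x := z)
      (((S0.smooth k).of_le (by exact_mod_cast le_top)).contDiffAt)
      (((S1.smooth N).of_le (by exact_mod_cast le_top)).contDiffAt)
    rw [e]
    refine lt_of_le_of_lt (le_of_eq (congrArg norm e2)) ((norm_add_le _ _).trans_lt ?_)
    have h1 := hk0 j hj z
    have h2 := hN j hj z
    linarith only [hε, h1, h2]
  · have h0 : ed 0 ≠ 0 := ed_ne_zero (by norm_num)
    have hW := (Charts_W_pos N).ne'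
    exact ⟨Nat.succ_pos _, mul_ne_zero (pow_ne_zero _ hW) h0,
      mul_ne_zero (mul_ne_zero (Charts_q_ne m k i) (pow_ne_zero _ hW)) h0⟩
  · rw [← hnear i hi]
    refine Charts_move hm hc hk hi R hη (p1 i) (q1 i) (fun N x hx => ?_) fun N y hy => ?_
    · simp only [V]
      rw [Charts_bs_near _ hη hη1 ha sa hi hx]
      simp only [Fv]
      ring
    · simp only [U]
      rw [Charts_bs_near _ hη hη1 hb sb hi hy]
      simp only [Fu]
      ring

end

end Pool.Agent.Work.MP_14af4f_an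
end

-- merged part: Pool.Agent.Work.MP_14af4f_an.Realise
section
/-!
Realisable sets of maps occur as rescaled return maps.
-/

open Set Filter Topology Real
open scoped ContDiff

namespace Pool.Agent.Work.MP_14af4f_an

noncomputable section

lemma Realise_contDiff_iterate {g : P2 → P2} (hg : ContDiff ℝ 2 g) (n : ℕ) :
    ContDiff ℝ 2 g^[n] := by
  induction n with
  | zero => exact contDiff_id
  | succ n ih => exact ih.comp hg

/-- The rescaled iterate depends continuously on the map. -/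
lemma Realise_tendsto {g : P2 → P2} (hg : ContDiff ℝ 2 g) (R : ℝ) (n : ℕ)
    (u v s t u' v' s' t' : ℝ) : ∃ K, IsCompact K ∧
      Tendsto (fun (f : P2 → P2) q => chi u' v' s' t' (f^[n] (ch u v s t q))) (Near K g)
        (Near (sq R) fun q => chi u' v' s' t' (g^[n] (ch u v s t q))) := by
  have h1 : ContDiff ℝ 2 (ch u v s t) := by
    unfold ch
    fun_prop
  have h2 : ContDiff ℝ 2 (chi u' v' s' t') := by
    unfold chi
    fun_prop
  obtain ⟨ρ, hρ⟩ := ((isCompact_sq R).image h1.continuous).isBounded.subset_ball 0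
  obtain ⟨K, hK, h3⟩ := exists_tendsto_iterate hg (isCompact_sq ρ) n
  have h4 := Realise_contDiff_iterate hg n
  refine ⟨K, hK, tendsto_near_comp_left (isCompact_sq R) (f0 := g^[n] ∘ ch u v s t)
    (f := fun f : P2 → P2 => f^[n] ∘ ch u v s t) (c2_of_contDiff (h4.comp h1) _)
    (fun _ _ => h2.contDiffAt) ?_⟩
  exact tendsto_near_comp (isCompact_sq R) (c2_of_contDiff h1 _) (c2_of_contDiff h4 _)
    (fun z hz => Metric.ball_subset_interior_closedBall (hρ (mem_image_of_mem _ hz)))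
    (tendsto_near_fixed (c2_of_contDiff h1 _)) h3

theorem realise {S : Set (P2 → P2)} (hS : Rz (𝓟 S)) (r : ℕ) {ε : ℝ} (hε : 0 < ε) :
    ∃ g : P2 → P2, ContDiff ℝ ∞ g ∧ (∀ z ∉ sq 6, g z = Q0 z) ∧
      (∀ j ≤ r, ∀ z, ‖iteratedFDeriv ℝ j (fun z => g z - Q0 z) z‖ < ε) ∧
      ∃ K, IsCompact K ∧ ∀ᶠ f in Near K g, ∃ G ∈ S, ∃ N : ℕ, 0 < N ∧ ∃ u v s t : ℝ,
        s ≠ 0 ∧ t ≠ 0 ∧ ∀ p, f^[N] (ch u v s t p) = ch u v s t (G p) := by
  obtain ⟨M, m, R, hm, hc, hR⟩ := hS r S (mem_principal_self S)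
  obtain ⟨g, n, u, v, s, t, h1, h2, h3, h4, h5⟩ := exists_charts hm (hc trivial) R hε
  have key : ∀ j ≤ M, ∀ S' ∈ CF R (fun i => (m i).map) j, ∀ᶠ N in atTop, ∃ K, IsCompact K ∧
      ∀ᶠ f in Near K (g N), ∃ G ∈ S', ∀ p, f^[∑ i ∈ Finset.range j, n N i]
        (ch (u N 0) (v N 0) (s N 0) (t N 0) p) =
        ch (u N (if j < M then j else 0)) (v N (if j < M then j else 0))
          (s N (if j < M then j else 0)) (t N (if j < M then j else 0)) (G p) := by
    intro j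
    induction j with
    | zero =>
      intro _ S' hS'
      refine Eventually.of_forall fun N => ⟨∅, isCompact_empty, Eventually.of_forall fun f =>
        ⟨id, hS', fun p => ?_⟩⟩
      simp
    | succ j ih =>
      intro hj S' hS'
      obtain ⟨A, hA, B, hB, hAB⟩ := mem_fc.1 hS'
      filter_upwards [ih (Nat.le_of_succ_le hj) A hA,
        (h5 j hj).eventually (eventually_mem_near hB)] with N ⟨K1, a1, a2⟩ a3
      obtain ⟨K2, b1, b2⟩ := Realise_tendsto (contDiff_infty.1 (h1 N) 2) R (n N j)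
        (u N j) (v N j) (s N j) (t N j) (u N (nx M j)) (v N (nx M j)) (s N (nx M j)) (t N (nx M j))
      refine ⟨K1 ∪ K2, a1.union b1, ?_⟩
      filter_upwards [near_mono subset_union_left _ a2,
        near_mono subset_union_right _ (b2 a3)] with f ⟨G, c1, c2⟩ c3
      refine ⟨_, hAB G c1 _ c3, fun p => ?_⟩
      rw [Finset.sum_range_succ, add_comm, Function.iterate_add_apply, c2 p,
        if_pos (show j < M from hj)]
      exact (ch_chi _ _ (h4 N (nx M j)).2.1 (h4 N (nx M j)).2.2 _).symm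
  obtain ⟨N, a1, K, a2, a3⟩ := (h3.and (key M le_rfl S hR)).exists
  refine ⟨g N, h1 N, h2 N, a1, K, a2, a3.mono fun f ⟨G, b1, b2⟩ => ⟨G, b1, _,
    Finset.sum_pos (fun i _ => (h4 N i).1) (Finset.nonempty_range_iff.2 hm.pos.ne'),
    u N 0, v N 0, s N 0, t N 0, (h4 N 0).2.1, (h4 N 0).2.2, fun p => ?_⟩⟩
  rw [b2 p, if_neg (lt_irrefl M)]

end

end Pool.Agent.Work.MP_14af4f_an
end

-- merged part: Pool.Agent.Work.MP_14af4f_an.Main
section
/-!
The main theorem.
-/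

open Set Filter Topology MeasureTheory
open scoped ContDiff

namespace Pool.Agent.Work.MP_14af4f_an

lemma Main_norm_comp {E E' : Type} [NormedAddCommGroup E] [NormedSpace ℝ E]
    [NormedAddCommGroup E'] [NormedSpace ℝ E'] {D : E → P2} (hD : ContDiff ℝ ∞ D) (A : E' →L[ℝ] E)
    (hA : ‖A‖ ≤ 1) (j : ℕ) (z : E') :
    ‖iteratedFDeriv ℝ j (D ∘ A) z‖ ≤ ‖iteratedFDeriv ℝ j D (A z)‖ := by
  rw [A.iteratedFDeriv_comp_right (contDiff_infty.1 hD j) z le_rfl]
  refine (ContinuousMultilinearMap.norm_compContinuousLinearMap_le _ _).trans ?_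
  exact mul_le_of_le_one_right (norm_nonneg _)
    (Finset.prod_le_one (fun _ _ => norm_nonneg _) fun _ _ => hA)

/-- The derivatives of a slice. -/
lemma Main_slice {D : ℝ × P2 → P2} (hD : ContDiff ℝ ∞ D) (j : ℕ) (a : ℝ) (z : P2) :
    ‖iteratedFDeriv ℝ j (fun z => D (a, z)) z‖ ≤ ‖iteratedFDeriv ℝ j D (a, z)‖ := by
  have h := Main_norm_comp (D := fun p => D ((a, 0) + p))
    (hD.comp (contDiff_const.add contDiff_id)) (ContinuousLinearMap.inr ℝ ℝ P2)
    (ContinuousLinearMap.norm_inr_le_one ..) j z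
  rw [iteratedFDeriv_comp_add_left] at h
  simpa [Function.comp_def] using h

lemma Main_closeOn {r : ℕ} {S : Set (ℝ × P2)} {δ : ℝ} {F G : ℝ × P2 → P2} (hF : ContDiff ℝ ∞ F)
    (hG : ContDiff ℝ ∞ G) : CloseOn r S δ F G ↔
      ∀ j ≤ r, ∀ p ∈ S, ‖iteratedFDeriv ℝ j (fun p => F p - G p) p‖ < δ := by
  refine forall₂_congr fun j _ => forall₂_congr fun p _ => ?_
  rw [← iteratedFDeriv_sub_apply (contDiff_infty.1 hF j).contDiffAt
    (contDiff_infty.1 hG j).contDiffAt]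
  rfl

lemma Main_cl {K : Set P2} {δ : ℝ} {g d : P2 → P2} {c : P2} (hg : ContDiff ℝ ∞ g)
    (hd : ContDiff ℝ ∞ d) (hc : ‖c‖ ≤ δ / 2)
    (h : ∀ j ≤ 2, ∀ z ∈ K, ‖iteratedFDeriv ℝ j d z‖ < δ / 2) :
    Cl K δ g fun z => g z - d z + c := by
  have hδ : 0 ≤ δ / 2 := (norm_nonneg c).trans hc
  have g1 := contDiff_infty_iff_fderiv.1 hg
  have d1 := contDiff_infty_iff_fderiv.1 hd
  have e1 : fderiv ℝ (fun z => g z - d z + c) = fun z => fderiv ℝ g z - fderiv ℝ d z :=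
    funext fun z => (((g1.1 z).hasFDerivAt.sub (d1.1 z).hasFDerivAt).add_const c).fderiv
  refine cl_of_le (c2_of_contDiff (contDiff_infty.1 ((hg.sub hd).add contDiff_const) 2) K)
    (fun z hz => ?_) (fun z hz => ?_) fun z hz => ?_
  · have k := h 0 (by norm_num) z hz
    rw [norm_iteratedFDeriv_zero] at k
    rw [show g z - d z + c - g z = c - d z by abel]
    linarith only [hc, k, norm_sub_le c (d z)]
  · have k := h 1 (by norm_num) z hz
    rw [norm_iteratedFDeriv_one] at k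
    rw [e1, sub_sub_cancel_left, norm_neg]
    linarith only [hδ, k]
  · have k := h 2 le_rfl z hz
    rw [← norm_iteratedFDeriv_fderiv, norm_iteratedFDeriv_one] at k
    rw [e1, ((g1.2.differentiable (by simp) z).hasFDerivAt.fun_sub
      (d1.2.differentiable (by simp) z).hasFDerivAt).fderiv, sub_sub_cancel_left, norm_neg]
    linarith only [hδ, k]

theorem key (r : ℕ) {ε : ℝ} (hε : 0 < ε) :
    ∃ g : P2 → P2, ContDiff ℝ ∞ g ∧ (∀ z ∉ sq 6, g z = Q0 z) ∧
      (∀ j ≤ r, ∀ z, ‖iteratedFDeriv ℝ j (fun z => g z - Q0 z) z‖ < ε) ∧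
      ∃ K δ, IsCompact K ∧ 0 < δ ∧ ∀ f, ContDiff ℝ ∞ f → Cl K δ g f → Good f := by
  obtain ⟨w, h, hw, hwh, hS⟩ := exists_model
  obtain ⟨g, h1, h2, h3, K, hK, h4⟩ := realise hS r hε
  obtain ⟨δ, hδ, h5⟩ := (hasBasis_near K g).eventually_iff.1 h4
  refine ⟨g, h1, h2, h3, K, δ, hK, hδ, fun f hf hc => ?_⟩
  obtain ⟨G, ⟨F, d, ρ, δ', K', J, t0, ρ0, H, hG⟩, N, hN, u, v, s, t, hs, ht, h6⟩ := h5 hc
  have c1 : ContDiff ℝ 1 (ch u v s t) := by
    unfold ch
    fun_prop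
  have c2 : ∀ p, jac (ch u v s t) p = s * t := fun p => by
    have k : HasFDerivAt (ch u v s t) ((s • ContinuousLinearMap.fst ℝ ℝ ℝ).prod
        (t • ContinuousLinearMap.snd ℝ ℝ ℝ)) p :=
      ((hasFDerivAt_fst.const_mul s).const_add u).prodMk
        ((hasFDerivAt_snd.const_mul t).const_add v)
    rw [jac, k.fderiv, det_eq]
    simp
  refine good_of_semiconj H (Ξ := ch u v s t ∘ Psi w) (contDiff_infty.1 hf 1) hN
    (c1.continuous.comp (continuous_Psi w)) (fun z hz => ?_) (fun z => ?_) fun z hz => ?_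
  · have k : 0 < 1 + w * z.2 := by
      have k1 : -h ≤ z.2 := (abs_le.1 hz).1
      linarith only [hwh, hw, k1, mul_nonneg_of_nonpos_of_nonpos (le_of_lt (Mathlib.Tactic.Linarith.sub_neg_of_lt hw)) (Mathlib.Tactic.Linarith.sub_nonpos_of_le k1)]
    refine ⟨c1.contDiffAt.comp z (contDiffAt_Psi k), ?_⟩
    have k1 := jac_comp ((contDiffAt_Psi (n := 1) k).differentiableAt one_ne_zero)
      (c1.differentiable one_ne_zero (Psi w z))
    rw [c2, jac, jac, det_fderiv_Psi k] at k1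
    rw [k1]
    exact mul_ne_zero (mul_ne_zero hs ht) (neg_ne_zero.2 (mul_pos Real.pi_pos hw).ne')
  · simp only [Function.comp, Psi_per]
  · simp only [Function.comp, h6, hG z hz]

theorem main (a1 a2 : ℝ) (h1 : a1 ≤ -2) (h2 : -2 ≤ a2) (h : a1 < a2) :
    ∃ U : Set (ℝ × P2 → P2), (∀ F ∈ U, ContDiff ℝ ∞ F) ∧
      (∀ F ∈ U, ∃ (K : Set P2) (δ : ℝ), IsCompact K ∧ 0 < δ ∧
        ∀ G, ContDiff ℝ ∞ G → CloseOn 2 (Icc a1 a2 ×ˢ K) δ F G → G ∈ U) ∧
      (∃ K : Set P2, IsCompact K ∧ ∀ (r : ℕ) (ε : ℝ), 0 < ε → ∃ F ∈ U,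
        CloseOn r univ ε F prodFam ∧ ∀ a, ∀ z ∉ K, F (a, z) = prodFam (a, z)) ∧
      ∀ F ∈ U, ∃ b1 b2, a1 ≤ b1 ∧ b1 < b2 ∧ b2 ≤ a2 ∧
        ∀ a ∈ Icc b1 b2, Good fun z => F (a, z) := by
  have hP : ContDiff ℝ ∞ prodFam := by
    unfold prodFam
    fun_prop
  refine ⟨{F | ContDiff ℝ ∞ F ∧ ∃ (K : Set P2) (δ : ℝ), IsCompact K ∧ 0 < δ ∧
    ∀ G, ContDiff ℝ ∞ G → CloseOn 2 (Icc a1 a2 ×ˢ K) δ F G → ∃ b1 b2, a1 ≤ b1 ∧ b1 < b2 ∧
      b2 ≤ a2 ∧ ∀ a ∈ Icc b1 b2, Good fun z => G (a, z)}, fun F hF => hF.1, ?_,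
    ⟨sq 6, isCompact_sq 6, fun r ε hε => ?_⟩, ?_⟩
  · rintro F ⟨-, K, δ, hK, hδ, hF⟩
    refine ⟨K, δ / 2, hK, half_pos hδ, fun G hG hc => ⟨hG, K, δ / 2, hK, half_pos hδ,
      fun G' hG' hc' => hF G' hG' fun j hj p hp => ?_⟩⟩
    linarith only [hc, hj, hp, hc', hc j hj p hp, hc' j hj p hp, norm_sub_le_norm_sub_add_norm_sub
      (iteratedFDeriv ℝ j F p) (iteratedFDeriv ℝ j G p) (iteratedFDeriv ℝ j G' p)]
  · obtain ⟨g, g1, g2, g3, K, δ, hK, hδ, g4⟩ := key r hε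
    have hD : ContDiff ℝ ∞ fun z => g z - Q0 z := g1.sub contDiff_Q0
    have hF : ContDiff ℝ ∞ fun p : ℝ × P2 => prodFam p + (g p.2 - Q0 p.2) :=
      hP.add (hD.comp contDiff_snd)
    refine ⟨fun p => prodFam p + (g p.2 - Q0 p.2), ⟨hF, K, δ / 2, hK, half_pos hδ,
      fun G hG hc => ⟨max a1 (-2 - δ / 2), min a2 (-2 + δ / 2), le_max_left _ _,
        max_lt (lt_min h (by linarith only [h1, hδ])) (lt_min (by linarith only [h2, hδ]) (by linarith only [hδ])), min_le_left _ _,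
        fun a ha => ?_⟩⟩, ?_, fun a z hz => ?_⟩
    · obtain ⟨k1, k2⟩ := max_le_iff.1 ha.1
      obtain ⟨k3, k4⟩ := le_min_iff.1 ha.2
      have hE := hF.sub hG
      have k5 := Main_cl (K := K) (δ := δ) (c := (a + 2, a + 2)) g1
        (d := fun z => prodFam (a, z) + (g z - Q0 z) - G (a, z))
        (hE.comp (contDiff_const.prodMk contDiff_id))
        (by
          rw [Prod.norm_mk, max_self, Real.norm_eq_abs, abs_le]
          constructor <;> linarith only [k2, k4])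
        fun j hj z hz => (Main_slice hE j a z).trans_lt
          ((Main_closeOn hF hG).1 hc j hj (a, z) ⟨⟨k1, k3⟩, hz⟩)
      refine g4 _ (hG.comp (contDiff_const.prodMk contDiff_id)) ?_
      convert k5 using 2 with z
      ext <;> simp [prodFam, Q0, P0] <;> ring
    · refine (Main_closeOn hF hP).2 fun j hj p _ => ?_
      simp only [add_sub_cancel_left]
      exact (Main_norm_comp hD (ContinuousLinearMap.snd ℝ ℝ P2)
        (ContinuousLinearMap.norm_snd_le ..) j p).trans_lt (g3 j hj _)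
    · simp [g2 z hz]
  · rintro F ⟨hF, K, δ, -, hδ, H⟩
    exact H F hF fun j _ p _ => by simpa using hδ

end Pool.Agent.Work.MP_14af4f_an
end
end
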