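import Pool.Agent.Work.MP_14af4f_an.Defs
import Pool.Agent.Work.MP_14af4f_an.TwoPos

-- merged part: Pool.Agent.Work.MP_14af4f_an.OneD
section
-- merged part: Pool.Agent.Work.MP_14af4f_an.NearA
section
/-!
The filter of maps that are close to a given map together with two derivatives.
-/

open Set Filter Topology

namespace Pool.Agent.Work.MP_14af4f_an

noncomputable section

variable {ι E F G : Type} [NormedAddCommGroup E] [NormedSpace ℝ E] [NormedAddCommGroup F]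
  [NormedSpace ℝ F] [NormedAddCommGroup G] [NormedSpace ℝ G]

/-- The jet of order two. -/
def jet (f : E → F) (z : E) : F × (E →L[ℝ] F) × (E →L[ℝ] E →L[ℝ] F) :=
  (f z, fderiv ℝ f z, fderiv ℝ (fderiv ℝ f) z)

/-- Twice continuously differentiable near every point of `K`. -/
def C2 (K : Set E) (f : E → F) : Prop := ∀ z ∈ K, ContDiffAt ℝ 2 f z

/-- Closeness of order two on `K`. -/
def Cl (K : Set E) (δ : ℝ) (g f : E → F) : Prop :=
  ∀ z ∈ K, ContDiffAt ℝ 2 f z ∧ ‖jet f z - jet g z‖ ≤ δ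

/-- The maps close to `g` on `K`. -/
def Near (K : Set E) (g : E → F) : Filter (E → F) := ⨅ δ ∈ Ioi (0 : ℝ), 𝓟 {f | Cl K δ g f}

lemma C2.mono {K K' : Set E} {f : E → F} (h : C2 K' f) (hK : K ⊆ K') : C2 K f :=
  fun z hz => h z (hK hz)

lemma c2_of_contDiff {f : E → F} (h : ContDiff ℝ 2 f) (K : Set E) : C2 K f :=
  fun _ _ => h.contDiffAt

lemma Cl.mono {K K' : Set E} {δ δ' : ℝ} {g f : E → F} (h : Cl K' δ' g f) (hK : K ⊆ K')
    (hδ : δ' ≤ δ) : Cl K δ g f := fun z hz => ⟨(h z (hK hz)).1, (h z (hK hz)).2.trans hδ⟩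

lemma Cl.c2 {K : Set E} {δ : ℝ} {g f : E → F} (h : Cl K δ g f) : C2 K f := fun z hz => (h z hz).1

lemma Cl.val {K : Set E} {δ : ℝ} {g f : E → F} (h : Cl K δ g f) {z : E} (hz : z ∈ K) :
    ‖f z - g z‖ ≤ δ := by
  exact (norm_fst_le (jet f z - jet g z)).trans (h z hz).2

lemma Cl.d1 {K : Set E} {δ : ℝ} {g f : E → F} (h : Cl K δ g f) {z : E} (hz : z ∈ K) :
    ‖fderiv ℝ f z - fderiv ℝ g z‖ ≤ δ := by
  exact ((norm_fst_le (jet f z - jet g z).2).trans (norm_snd_le (jet f z - jet g z))).trans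
    (h z hz).2

lemma Cl.d2 {K : Set E} {δ : ℝ} {g f : E → F} (h : Cl K δ g f) {z : E} (hz : z ∈ K) :
    ‖fderiv ℝ (fderiv ℝ f) z - fderiv ℝ (fderiv ℝ g) z‖ ≤ δ := by
  exact ((norm_snd_le (jet f z - jet g z).2).trans (norm_snd_le (jet f z - jet g z))).trans
    (h z hz).2

lemma cl_of_le {K : Set E} {δ : ℝ} {g f : E → F} (h0 : C2 K f) (h1 : ∀ z ∈ K, ‖f z - g z‖ ≤ δ)
    (h2 : ∀ z ∈ K, ‖fderiv ℝ f z - fderiv ℝ g z‖ ≤ δ)
    (h3 : ∀ z ∈ K, ‖fderiv ℝ (fderiv ℝ f) z - fderiv ℝ (fderiv ℝ g) z‖ ≤ δ) : Cl K δ g f := by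
  intro z hz
  refine ⟨h0 z hz, ?_⟩
  rw [Prod.norm_def, Prod.norm_def]
  exact max_le (h1 z hz) (max_le (h2 z hz) (h3 z hz))

lemma hasBasis_near (K : Set E) (g : E → F) :
    (Near K g).HasBasis (fun δ : ℝ => 0 < δ) fun δ => {f | Cl K δ g f} := by
  refine hasBasis_biInf_principal' ?_ ⟨1, mem_Ioi.2 one_pos⟩
  intro a ha b hb
  exact ⟨min a b, mem_Ioi.2 (lt_min (mem_Ioi.1 ha) (mem_Ioi.1 hb)),
    fun f hf => hf.mono Subset.rfl (min_le_left _ _),
    fun f hf => hf.mono Subset.rfl (min_le_right _ _)⟩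

lemma eventually_cl (K : Set E) (g : E → F) {δ : ℝ} (hδ : 0 < δ) :
    ∀ᶠ f in Near K g, Cl K δ g f := (hasBasis_near K g).mem_of_mem hδ

lemma tendsto_near {l : Filter ι} {K : Set E} {f : ι → E → F} {g : E → F} :
    Tendsto f l (Near K g) ↔ ∀ δ > 0, ∀ᶠ i in l, Cl K δ g (f i) :=
  (hasBasis_near K g).tendsto_right_iff

lemma pure_le_near {K : Set E} {g : E → F} (h : C2 K g) : pure g ≤ Near K g := by
  rw [(hasBasis_near K g).ge_iff]
  intro δ hδ
  rw [mem_pure]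
  intro z hz
  refine ⟨h z hz, ?_⟩
  rw [sub_self]
  exact (norm_zero (E := F × (E →L[ℝ] F) × (E →L[ℝ] E →L[ℝ] F))).trans_le hδ.le

lemma near_mono {K K' : Set E} (h : K ⊆ K') (g : E → F) : Near K' g ≤ Near K g := by
  rw [(hasBasis_near K g).ge_iff]
  intro δ hδ
  filter_upwards [eventually_cl K' g hδ] with f hf using hf.mono h le_rfl

lemma jet_congr {f g : E → F} {z : E} (h : f =ᶠ[𝓝 z] g) : jet f z = jet g z := by
  simp only [jet]
  rw [h.eq_of_nhds, h.fderiv_eq, h.fderiv.fderiv_eq]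

lemma near_congr {K : Set E} {g g' : E → F} (h : ∀ z ∈ K, g =ᶠ[𝓝 z] g') :
    Near K g = Near K g' := by
  have key : ∀ δ : ℝ, {f | Cl K δ g f} = {f | Cl K δ g' f} := by
    intro δ
    ext f
    simp only [mem_ofPred_eq, Cl]
    refine forall₂_congr fun z hz => ?_
    rw [jet_congr (h z hz)]
  simp only [Near, key]

lemma tendsto_near_congr {l : Filter ι} {K : Set E} {f f' : ι → E → F} {g : E → F}
    (h : Tendsto f l (Near K g)) (h' : ∀ᶠ i in l, ∀ z ∈ K, f i =ᶠ[𝓝 z] f' i) :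
    Tendsto f' l (Near K g) := by
  rw [tendsto_near] at h ⊢
  intro δ hδ
  filter_upwards [h δ hδ, h'] with i hi hi' z hz
  refine ⟨(hi z hz).1.congr_of_eventuallyEq (hi' z hz).symm, ?_⟩
  rw [← jet_congr (hi' z hz)]
  exact (hi z hz).2

/-- A neighbourhood of `g` is a neighbourhood of the maps close to `g`. -/
lemma eventually_mem_near {K : Set E} {g : E → F} {S : Set (E → F)} (h : S ∈ Near K g) :
    ∀ᶠ f in Near K g, S ∈ Near K f := by
  obtain ⟨δ, hδ, hS⟩ := (hasBasis_near K g).mem_iff.1 h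
  filter_upwards [eventually_cl K g (half_pos hδ)] with f hf
  filter_upwards [eventually_cl K f (half_pos hδ)] with f' hf'
  refine hS fun z hz => ⟨(hf' z hz).1, ?_⟩
  calc ‖jet f' z - jet g z‖ ≤ ‖jet f' z - jet f z‖ + ‖jet f z - jet g z‖ :=
        norm_sub_le_norm_sub_add_norm_sub (jet f' z) (jet f z) (jet g z)
    _ ≤ δ / 2 + δ / 2 := add_le_add (hf' z hz).2 (hf z hz).2
    _ = δ := add_halves δ

lemma continuousAt_jet {f : E → F} {z : E} (h : ContDiffAt ℝ 2 f z) : ContinuousAt (jet f) z := by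
  have h1 : ContDiffAt ℝ 1 (fderiv ℝ f) z := h.fderiv_right (by norm_num)
  have h2 : ContDiffAt ℝ 0 (fderiv ℝ (fderiv ℝ f)) z := h1.fderiv_right (by norm_num)
  exact h.continuousAt.prodMk (h1.continuousAt.prodMk h2.continuousAt)

lemma exists_jet_bound {K : Set E} (hK : IsCompact K) {f : E → F} (h : C2 K f) :
    ∃ B > 0, ∀ z ∈ K, ‖jet f z‖ ≤ B := by
  obtain ⟨B, hB⟩ := hK.exists_bound_of_continuousOn
    (f := jet f) fun z hz => (continuousAt_jet (h z hz)).continuousWithinAt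
  exact ⟨max B 1, lt_max_of_lt_right one_pos, fun z hz => (hB z hz).trans (le_max_left _ _)⟩

lemma eventually_mapsTo {K : Set E} (hK : IsCompact K) {g : E → F} (hg : C2 K g) {U : Set F}
    (hU : IsOpen U) (h : MapsTo g K U) : ∀ᶠ f in Near K g, MapsTo f K U := by
  have hc : IsCompact (g '' K) :=
    hK.image_of_continuousOn fun z hz => (hg z hz).continuousAt.continuousWithinAt
  obtain ⟨δ, hδ, hsub⟩ := hc.exists_cthickening_subset_open hU h.image_subset
  filter_upwards [eventually_cl K g hδ] with f hf z hz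
  refine hsub (Metric.mem_cthickening_of_dist_le (f z) (g z) δ _ (mem_image_of_mem g hz) ?_)
  rw [dist_eq_norm]
  exact hf.val hz

lemma NearA_unif {X Y : Type} [NormedAddCommGroup X] [NormedAddCommGroup Y] {s : Set X}
    (hs : IsCompact s) (φ : X → Y) (hφ : ∀ a ∈ s, ContinuousAt φ a) {δ : ℝ} (hδ : 0 < δ) :
    ∃ η > 0, ∀ x ∈ s, ∀ y, ‖y - x‖ ≤ η → ‖φ y - φ x‖ ≤ δ := by
  have h := hs.uniformContinuousAt_of_continuousAt φ hφ (Metric.dist_mem_uniformity hδ)
  obtain ⟨η, hη, h'⟩ := Metric.mem_uniformity_dist.1 h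
  refine ⟨η / 2, half_pos hη, fun x hx y hy => ?_⟩
  have h1 : dist x y < η := by
    rw [dist_comm, dist_eq_norm]
    linarith
  have h2 : dist (φ x) (φ y) < δ := h' h1 hx
  rw [dist_comm, dist_eq_norm] at h2
  exact h2.le

/-- The jet of a composition in terms of the jets. -/
def NearA_Phi (p : (F × (E →L[ℝ] F) × (E →L[ℝ] E →L[ℝ] F)) ×
    (G × (F →L[ℝ] G) × (F →L[ℝ] F →L[ℝ] G))) : G × (E →L[ℝ] G) × (E →L[ℝ] E →L[ℝ] G) :=
  (p.2.1, p.2.2.1.comp p.1.2.1,
    (ContinuousLinearMap.compL ℝ E F G p.2.2.1).comp p.1.2.2 +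
      ((ContinuousLinearMap.compL ℝ E F G).flip p.1.2.1).comp (p.2.2.2.comp p.1.2.1))

lemma NearA_continuous_Phi : Continuous (NearA_Phi (E := E) (F := F) (G := G)) := by
  unfold NearA_Phi
  refine (continuous_fst.comp continuous_snd).prodMk (Continuous.prodMk ?_ (Continuous.add ?_ ?_))
  · exact Continuous.clm_comp (by fun_prop) (by fun_prop)
  · exact Continuous.clm_comp
      ((ContinuousLinearMap.compL ℝ E F G).continuous.comp (by fun_prop)) (by fun_prop)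
  · exact Continuous.clm_comp
      ((ContinuousLinearMap.compL ℝ E F G).flip.continuous.comp (by fun_prop))
      (Continuous.clm_comp (by fun_prop) (by fun_prop))

lemma NearA_jet_comp {f : E → F} {g : F → G} {z : E} (hf : ContDiffAt ℝ 2 f z)
    (hg : ContDiffAt ℝ 2 g (f z)) : jet (g ∘ f) z = NearA_Phi (jet f z, jet g (f z)) := by
  have hf1 : ContDiffAt ℝ 1 (fderiv ℝ f) z := hf.fderiv_right (by norm_num)
  have hg1 : ContDiffAt ℝ 1 (fderiv ℝ g) (f z) := hg.fderiv_right (by norm_num)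
  have hev : fderiv ℝ (g ∘ f) =ᶠ[𝓝 z] fun x => (fderiv ℝ g (f x)).comp (fderiv ℝ f x) := by
    filter_upwards [hf.eventually (by simp),
      hf.continuousAt.eventually (hg.eventually (by simp))] with x hx hx'
    exact fderiv_comp x (hx'.differentiableAt (by norm_num)) (hx.differentiableAt (by norm_num))
  have hd1 : HasFDerivAt (fun x => fderiv ℝ g (f x))
      ((fderiv ℝ (fderiv ℝ g) (f z)).comp (fderiv ℝ f z)) z :=
    (hg1.differentiableAt one_ne_zero).hasFDerivAt.comp z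
      (hf.differentiableAt (by norm_num)).hasFDerivAt
  have hd2 := hd1.clm_comp (hf1.differentiableAt one_ne_zero).hasFDerivAt
  simp only [jet, NearA_Phi]
  rw [hev.fderiv_eq, hd2.fderiv, hev.eq_of_nhds]
  rfl

/-- Continuity of the composition. -/
lemma tendsto_near_comp {l : Filter ι} {K : Set E} {K' : Set F} (hK : IsCompact K)
    {f : ι → E → F} {f0 : E → F} {g : ι → F → G} {g0 : F → G} (hf0 : C2 K f0) (hg0 : C2 K' g0)
    (hm : MapsTo f0 K (interior K')) (hf : Tendsto f l (Near K f0))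
    (hg : Tendsto g l (Near K' g0)) :
    Tendsto (fun i => g i ∘ f i) l (Near K (g0 ∘ f0)) := by
  rw [tendsto_near]
  intro δ hδ
  have hg0' : ∀ z ∈ K, ContDiffAt ℝ 2 g0 (f0 z) := fun z hz => hg0 _ (interior_subset (hm hz))
  have hC : IsCompact ((fun z => (jet f0 z, jet g0 (f0 z))) '' K) := by
    refine hK.image_of_continuousOn fun z hz => ContinuousAt.continuousWithinAt ?_
    exact (continuousAt_jet (hf0 z hz)).prodMk
      (ContinuousAt.comp (f := f0) (continuousAt_jet (hg0' z hz)) (hf0 z hz).continuousAt)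
  have hC' : IsCompact (f0 '' K) :=
    hK.image_of_continuousOn fun z hz => (hf0 z hz).continuousAt.continuousWithinAt
  obtain ⟨η1, hη1, h1⟩ := NearA_unif hC (NearA_Phi (E := E) (F := F) (G := G))
    (fun a _ => NearA_continuous_Phi.continuousAt) hδ
  obtain ⟨η2, hη2, h2⟩ := NearA_unif hC' (jet g0)
    (by rintro _ ⟨z, hz, rfl⟩; exact continuousAt_jet (hg0' z hz)) (half_pos hη1)
  filter_upwards [tendsto_near.1 hf (min η1 η2) (lt_min hη1 hη2),
    tendsto_near.1 hg (η1 / 2) (half_pos hη1),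
    hf.eventually (eventually_mapsTo hK hf0 isOpen_interior hm)] with i hi1 hi2 hi3 z hz
  have hz' : f i z ∈ K' := interior_subset (hi3 hz)
  refine ⟨(hi2 _ hz').1.comp z (hi1 z hz).1, ?_⟩
  rw [NearA_jet_comp (hi1 z hz).1 (hi2 _ hz').1, NearA_jet_comp (hf0 z hz) (hg0' z hz)]
  refine h1 _ (mem_image_of_mem _ hz) _ ?_
  rw [Prod.norm_def]
  refine max_le ((hi1 z hz).2.trans (min_le_left _ _)) ?_
  have h3 := h2 _ (mem_image_of_mem f0 hz) (f i z) ((hi1.val hz).trans (min_le_right _ _))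
  calc ‖jet (g i) (f i z) - jet g0 (f0 z)‖
      ≤ ‖jet (g i) (f i z) - jet g0 (f i z)‖ + ‖jet g0 (f i z) - jet g0 (f0 z)‖ :=
        norm_sub_le_norm_sub_add_norm_sub (jet (g i) (f i z)) (jet g0 (f i z)) (jet g0 (f0 z))
    _ ≤ η1 / 2 + η1 / 2 := add_le_add (hi2 _ hz').2 h3
    _ = η1 := add_halves η1

lemma map₂_comp_le_near {K : Set E} {K' : Set F} (hK : IsCompact K) {f0 : E → F} {g0 : F → G}
    (hf0 : C2 K f0) (hg0 : C2 K' g0) (hm : MapsTo f0 K (interior K')) :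
    map₂ (fun f g => g ∘ f) (Near K f0) (Near K' g0) ≤ Near K (g0 ∘ f0) := by
  have h := tendsto_near_comp (l := Near K f0 ×ˢ Near K' g0) (f := Prod.fst) (g := Prod.snd)
    hK hf0 hg0 hm tendsto_fst tendsto_snd
  rw [← map_prod_eq_map₂]
  exact h

end

end Pool.Agent.Work.MP_14af4f_an
end

-- merged part: Pool.Agent.Work.MP_14af4f_an.Near
section
/-!
Products, parameters, rescaling and iterates.
-/

open Set Filter Topology

namespace Pool.Agent.Work.MP_14af4f_an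

noncomputable section

variable {ι E F G : Type} [NormedAddCommGroup E] [NormedSpace ℝ E] [NormedAddCommGroup F]
  [NormedSpace ℝ F] [NormedAddCommGroup G] [NormedSpace ℝ G]

lemma Near_fderiv_prod {f : E → F} {g : E → G} {z : E} (hf : ContDiffAt ℝ 2 f z)
    (hg : ContDiffAt ℝ 2 g z) : fderiv ℝ (fun z => (f z, g z)) z =
      ContinuousLinearMap.prodₗᵢ ℝ (fderiv ℝ f z, fderiv ℝ g z) :=
  (hf.differentiableAt (by simp)).fderiv_prodMk (hg.differentiableAt (by simp))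

lemma Near_fderiv2_prod {f : E → F} {g : E → G} {z : E} (hf : ContDiffAt ℝ 2 f z)
    (hg : ContDiffAt ℝ 2 g z) : fderiv ℝ (fderiv ℝ fun z => (f z, g z)) z =
      ((ContinuousLinearMap.prodₗᵢ ℝ (𝕜 := ℝ) (E := E) (F := F) (G := G)).toContinuousLinearEquiv :
        ((E →L[ℝ] F) × (E →L[ℝ] G)) →L[ℝ] (E →L[ℝ] F × G)).comp
        ((fderiv ℝ (fderiv ℝ f) z).prod (fderiv ℝ (fderiv ℝ g) z)) := by
  have e : (fderiv ℝ fun z => (f z, g z)) =ᶠ[𝓝 z] fun z =>
      ContinuousLinearMap.prodₗᵢ ℝ (fderiv ℝ f z, fderiv ℝ g z) := by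
    filter_upwards [hf.eventually (by simp), hg.eventually (by simp)] with y h1 h2
    exact Near_fderiv_prod h1 h2
  rw [e.fderiv_eq]
  have h1 : DifferentiableAt ℝ (fderiv ℝ f) z :=
    (hf.fderiv_right (m := 1) (by norm_num)).differentiableAt (by simp)
  have h2 : DifferentiableAt ℝ (fderiv ℝ g) z :=
    (hg.fderiv_right (m := 1) (by norm_num)).differentiableAt (by simp)
  exact (((ContinuousLinearMap.prodₗᵢ ℝ (𝕜 := ℝ) (E := E) (F := F)
    (G := G)).toContinuousLinearEquiv : ((E →L[ℝ] F) × (E →L[ℝ] G)) →L[ℝ]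
      (E →L[ℝ] F × G)).hasFDerivAt.comp z (h1.hasFDerivAt.prodMk h2.hasFDerivAt)).fderiv

lemma Near_contDiffAt_deriv {k : ℝ → ℝ} {a : ℝ} {n : ℕ} (hk : ContDiffAt ℝ (n + 1 : ℕ) k a) :
    ContDiffAt ℝ n (deriv k) a := by
  have h := hk.fderiv_right (m := n) (by push_cast; exact le_rfl)
  exact h.clm_apply contDiffAt_const

lemma Near_contDiff_iterate {g : E → E} (hg : ContDiff ℝ 2 g) (n : ℕ) : ContDiff ℝ 2 g^[n] := by
  induction n with
  | zero => exact contDiff_id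
  | succ n ih => exact ih.comp hg

lemma tendsto_near_comp_left {l : Filter ι} {K : Set E} (hK : IsCompact K) {f : ι → E → F}
    {f0 : E → F} {g : F → G} (hf0 : C2 K f0) (hg : ∀ z ∈ K, ContDiffAt ℝ 2 g (f0 z))
    (hf : Tendsto f l (Near K f0)) : Tendsto (fun i z => g (f i z)) l (Near K fun z => g (f0 z)) := by
  have ho : IsOpen {y | ContDiffAt ℝ 2 g y} :=
    isOpen_iff_mem_nhds.2 fun y hy => ContDiffAt.eventually hy (by simp)
  have hg0 : C2 {y | ContDiffAt ℝ 2 g y} g := fun _ hy => hy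
  exact tendsto_near_comp (g := fun _ => g) hK hf0 hg0
    (fun z hz => by rw [ho.interior_eq]; exact hg z hz) hf
    (tendsto_const_pure.mono_right (pure_le_near hg0))

lemma tendsto_near_prod {l : Filter ι} {K : Set E} {f : ι → E → F} {f0 : E → F} {g : ι → E → G}
    {g0 : E → G} (hf0 : C2 K f0) (hg0 : C2 K g0) (hf : Tendsto f l (Near K f0))
    (hg : Tendsto g l (Near K g0)) :
    Tendsto (fun i z => (f i z, g i z)) l (Near K fun z => (f0 z, g0 z)) := by
  rw [tendsto_near] at hf hg ⊢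
  intro δ hδ
  filter_upwards [hf δ hδ, hg δ hδ] with i h1 h2
  refine cl_of_le (fun z hz => (h1.c2 z hz).prodMk (h2.c2 z hz)) (fun z hz => ?_)
    (fun z hz => ?_) (fun z hz => ?_)
  · rw [Prod.mk_sub_mk, Prod.norm_mk]
    exact max_le (h1.val hz) (h2.val hz)
  · rw [Near_fderiv_prod (h1.c2 z hz) (h2.c2 z hz), Near_fderiv_prod (hf0 z hz) (hg0 z hz),
      ← map_sub, LinearIsometryEquiv.norm_map, Prod.mk_sub_mk, Prod.norm_mk]
    exact max_le (h1.d1 hz) (h2.d1 hz)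
  · rw [Near_fderiv2_prod (h1.c2 z hz) (h2.c2 z hz), Near_fderiv2_prod (hf0 z hz) (hg0 z hz)]
    refine ContinuousLinearMap.opNorm_le_bound _ hδ.le fun v => ?_
    simp only [sub_apply, ContinuousLinearMap.comp_apply,
      ContinuousLinearMap.prod_apply]
    rw [← map_sub]
    simp only [ContinuousLinearEquiv.coe_coe, LinearIsometryEquiv.coe_toContinuousLinearEquiv,
      LinearIsometryEquiv.norm_map, Prod.mk_sub_mk, Prod.norm_mk]
    refine max_le ?_ ?_
    · rw [← sub_apply]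
      exact (ContinuousLinearMap.le_opNorm _ _).trans
        (mul_le_mul_of_nonneg_right (h1.d2 hz) (norm_nonneg _))
    · rw [← sub_apply]
      exact (ContinuousLinearMap.le_opNorm _ _).trans
        (mul_le_mul_of_nonneg_right (h2.d2 hz) (norm_nonneg _))

lemma tendsto_near_const {l : Filter ι} (K : Set E) {c : ι → F} {c0 : F} (h : Tendsto c l (𝓝 c0)) :
    Tendsto (fun i (_ : E) => c i) l (Near K fun _ => c0) := by
  rw [tendsto_near]
  intro δ hδ
  filter_upwards [Metric.tendsto_nhds.1 h δ hδ] with i hi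
  refine cl_of_le (fun z _ => contDiffAt_const) (fun z _ => ?_) (fun z _ => ?_) (fun z _ => ?_)
  · rw [← dist_eq_norm]; exact hi.le
  · simp [hδ.le]
  · simp only [fderiv_fun_const, sub_self]
    exact (norm_zero (E := E →L[ℝ] E →L[ℝ] F)).le.trans hδ.le

lemma tendsto_near_fixed {l : Filter ι} {K : Set E} {g : E → F} (h : C2 K g) :
    Tendsto (fun _ : ι => g) l (Near K g) := tendsto_const_pure.mono_right (pure_le_near h)

/-- A jointly smooth family depends continuously on its parameter. -/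
lemma tendsto_near_param {l : Filter ι} {K : Set E} (hK : IsCompact K) {Φ : G × E → F}
    {c : ι → G} {c0 : G} (hΦ : ∀ z ∈ K, ContDiffAt ℝ 2 Φ (c0, z)) (h : Tendsto c l (𝓝 c0)) :
    Tendsto (fun i z => Φ (c i, z)) l (Near K fun z => Φ (c0, z)) := by
  have hid : C2 K (fun z : E => z) := fun _ _ => contDiffAt_id
  exact tendsto_near_comp_left hK (f := fun i z => (c i, z)) (f0 := fun z => (c0, z))
    (fun z _ => contDiffAt_const.prodMk contDiffAt_id) hΦ
    (tendsto_near_prod (fun _ _ => contDiffAt_const) hid (tendsto_near_const K h)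
      (tendsto_near_fixed hid))

/-- The same with a moving argument. -/
lemma tendsto_near_param' {l : Filter ι} {K : Set E} (hK : IsCompact K) {H : Type}
    [NormedAddCommGroup H] [NormedSpace ℝ H] {Φ : G × H → F} {c : ι → G} {c0 : G}
    {f : ι → E → H} {f0 : E → H} (hf0 : C2 K f0) (hΦ : ∀ z ∈ K, ContDiffAt ℝ 2 Φ (c0, f0 z))
    (h : Tendsto c l (𝓝 c0)) (hf : Tendsto f l (Near K f0)) :
    Tendsto (fun i z => Φ (c i, f i z)) l (Near K fun z => Φ (c0, f0 z)) := by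
  exact tendsto_near_comp_left hK (f := fun i z => (c i, f i z)) (f0 := fun z => (c0, f0 z))
    (fun z hz => contDiffAt_const.prodMk (hf0 z hz)) hΦ
    (tendsto_near_prod (fun _ _ => contDiffAt_const) hf0 (tendsto_near_const K h) hf)

/-- Rescaling a function at a point gives its derivative. -/
lemma tendsto_near_rescale {l : Filter ι} {K : Set ℝ} (hK : IsCompact K) {k : ℝ → ℝ} {k' a0 : ℝ}
    {a s : ι → ℝ} (hk : ContDiffAt ℝ 2 k a0) (hk' : HasDerivAt k k' a0) (ha : Tendsto a l (𝓝 a0))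
    (hs : Tendsto s l (𝓝 0)) (hs0 : ∀ᶠ i in l, s i ≠ 0) :
    Tendsto (fun i x => (k (a i + s i * x) - k (a i)) / s i) l (Near K fun x => k' * x) := by
  rw [tendsto_near]
  intro δ hδ
  obtain ⟨R, hR, hKR⟩ := hK.isBounded.subset_closedBall_lt 0 0
  have hd1 : ContDiffAt ℝ 1 (deriv k) a0 := Near_contDiffAt_deriv hk
  have c1 : ContinuousAt (deriv k) a0 := hd1.continuousAt
  have c2 : ContinuousAt (deriv (deriv k)) a0 :=
    (Near_contDiffAt_deriv (n := 0) hd1).continuousAt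
  have hη : 0 < δ / (R + 1) := by positivity
  have e1 : ∀ᶠ y in 𝓝 a0, ContDiffAt ℝ 2 k y ∧ |deriv k y - k'| ≤ δ / (R + 1) ∧
      |deriv (deriv k) y| ≤ |deriv (deriv k) a0| + 1 := by
    filter_upwards [hk.eventually (by simp), Metric.tendsto_nhds.1 c1 _ hη,
      Metric.tendsto_nhds.1 c2 1 one_pos] with y h1 h2 h3
    rw [Real.dist_eq, hk'.deriv] at h2
    rw [Real.dist_eq] at h3
    refine ⟨h1, h2.le, ?_⟩
    have := abs_sub_abs_le_abs_sub (deriv (deriv k) y) (deriv (deriv k) a0)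
    linarith
  obtain ⟨ρ, hρ, hball⟩ := Metric.eventually_nhds_iff.1 e1
  set B := |deriv (deriv k) a0| + 1 with hB
  have hB0 : 0 < B := by positivity
  filter_upwards [Metric.tendsto_nhds.1 ha (ρ / 2) (by positivity),
    Metric.tendsto_nhds.1 hs (min (ρ / (2 * (R + 1))) (δ / B)) (by positivity), hs0]
    with i h1 h2 h3
  rw [Real.dist_eq] at h1
  rw [Real.dist_eq, sub_zero, lt_min_iff] at h2
  have hin : ∀ x ∈ Metric.ball (0 : ℝ) (R + 1), dist (a i + s i * x) a0 < ρ := by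
    intro x hx
    rw [mem_ball_zero_iff, Real.norm_eq_abs] at hx
    rw [Real.dist_eq]
    have h4 : |s i * x| ≤ ρ / 2 := by
      rw [abs_mul]
      calc |s i| * |x| ≤ ρ / (2 * (R + 1)) * (R + 1) :=
            mul_le_mul h2.1.le hx.le (abs_nonneg _) (by positivity)
        _ = ρ / 2 := by field_simp
    calc |a i + s i * x - a0| = |(a i - a0) + s i * x| := by ring_nf
      _ ≤ |a i - a0| + |s i * x| := abs_add_le _ _
      _ < ρ := by linarith
  have hKb : ∀ x ∈ K, x ∈ Metric.ball (0 : ℝ) (R + 1) := fun x hx =>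
    Metric.closedBall_subset_ball (by linarith) (hKR hx)
  have haff : ∀ x : ℝ, HasDerivAt (fun x => a i + s i * x) (s i) x := fun x => by
    simpa using ((hasDerivAt_id x).const_mul (s i)).const_add (a i)
  have hder : ∀ x ∈ Metric.ball (0 : ℝ) (R + 1),
      HasDerivAt (fun x => (k (a i + s i * x) - k (a i)) / s i) (deriv k (a i + s i * x)) x := by
    intro x hx
    have h4 := ((hball (hin x hx)).1.differentiableAt (by simp)).hasDerivAt
    have h5 := ((h4.comp x (haff x)).sub_const (k (a i))).div_const (s i)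
    rwa [mul_div_cancel_right₀ _ h3] at h5
  have hlin : ∀ x : ℝ, HasDerivAt (fun x => k' * x) k' x := fun x => by
    simpa using (hasDerivAt_id x).const_mul k'
  have hle : δ / (R + 1) ≤ δ := div_le_self hδ.le (by linarith)
  refine cl_of_le (fun x hx => ?_) (fun x hx => ?_) (fun x hx => ?_) (fun x hx => ?_)
  · refine ContDiffAt.div_const (ContDiffAt.sub ?_ contDiffAt_const) _
    exact ContDiffAt.comp (f := fun x => a i + s i * x) x (hball (hin x (hKb x hx))).1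
      (contDiffAt_const.add (contDiffAt_const.mul contDiffAt_id))
  · have h4 := (convex_ball (0 : ℝ) (R + 1)).norm_image_sub_le_of_norm_hasDerivWithin_le
      (f := fun x => (k (a i + s i * x) - k (a i)) / s i - k' * x)
      (f' := fun x => deriv k (a i + s i * x) - k') (C := δ / (R + 1))
      (fun y hy => ((hder y hy).sub (hlin y)).hasDerivWithinAt)
      (fun y hy => (hball (hin y hy)).2.1) (Metric.mem_ball_self (by linarith)) (hKb x hx)
    simp only [mul_zero, add_zero, sub_self, zero_div, sub_zero] at h4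
    refine h4.trans ?_
    have h5 : ‖x‖ ≤ R + 1 := (mem_ball_zero_iff.1 (hKb x hx)).le
    calc δ / (R + 1) * ‖x‖ ≤ δ / (R + 1) * (R + 1) := mul_le_mul_of_nonneg_left h5 hη.le
      _ = δ := by field_simp
  · rw [(hder x (hKb x hx)).hasFDerivAt.fderiv, (hlin x).hasFDerivAt.fderiv]
    refine ContinuousLinearMap.opNorm_le_bound _ hδ.le fun v => ?_
    simp only [sub_apply, ContinuousLinearMap.toSpanSingleton_apply,
      smul_eq_mul, ← mul_sub, norm_mul, mul_comm δ]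
    exact mul_le_mul_of_nonneg_left ((hball (hin x (hKb x hx))).2.1.trans hle) (norm_nonneg _)
  · have e2 : fderiv ℝ (fun x => (k (a i + s i * x) - k (a i)) / s i) =ᶠ[𝓝 x]
        fun x => ContinuousLinearMap.toSpanSingleton ℝ (deriv k (a i + s i * x)) := by
      filter_upwards [Metric.isOpen_ball.mem_nhds (hKb x hx)] with y hy
      exact (hder y hy).hasFDerivAt.fderiv
    have e3 : fderiv ℝ (fun x => k' * x) = fun _ => ContinuousLinearMap.toSpanSingleton ℝ k' :=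
      funext fun y => (hlin y).hasFDerivAt.fderiv
    have h4 : HasDerivAt (fun x => deriv k (a i + s i * x))
        (deriv (deriv k) (a i + s i * x) * s i) x :=
      HasDerivAt.comp (h₂ := deriv k) (h := fun x => a i + s i * x) x
        ((Near_contDiffAt_deriv (n := 1) (hball (hin x (hKb x hx))).1).differentiableAt
          (by simp)).hasDerivAt (haff x)
    have h5 : HasDerivAt
        (fun x => ContinuousLinearMap.toSpanSingleton ℝ (deriv k (a i + s i * x)))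
        (ContinuousLinearMap.toSpanSingleton ℝ (deriv (deriv k) (a i + s i * x) * s i)) x := by
      have h6 : ∀ c : ℝ, ContinuousLinearMap.toSpanSingleton ℝ c =
          c • ContinuousLinearMap.id ℝ ℝ := fun c => by ext; simp
      simp only [h6]
      exact h4.smul_const (ContinuousLinearMap.id ℝ ℝ)
    rw [e2.fderiv_eq, e3, h5.hasFDerivAt.fderiv, fderiv_fun_const, Pi.zero_apply, sub_zero,
      ContinuousLinearMap.norm_toSpanSingleton, ContinuousLinearMap.norm_toSpanSingleton,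
      norm_mul, Real.norm_eq_abs, Real.norm_eq_abs]
    calc _ ≤ B * (δ / B) := mul_le_mul (hball (hin x (hKb x hx))).2.2 h2.2.le (abs_nonneg _) hB0.le
      _ = δ := by field_simp

/-- The same with a moving argument. -/
lemma tendsto_near_rescale' {l : Filter ι} {K : Set E} (hK : IsCompact K) {k : ℝ → ℝ}
    {k' a0 : ℝ} {a s : ι → ℝ} {f : ι → E → ℝ} {f0 : E → ℝ} (hf0 : C2 K f0)
    (hk : ContDiffAt ℝ 2 k a0) (hk' : HasDerivAt k k' a0) (ha : Tendsto a l (𝓝 a0))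
    (hs : Tendsto s l (𝓝 0)) (hs0 : ∀ᶠ i in l, s i ≠ 0) (hf : Tendsto f l (Near K f0)) :
    Tendsto (fun i z => (k (a i + s i * f i z) - k (a i)) / s i) l (Near K fun z => k' * f0 z) := by
  have hc : ContinuousOn f0 K := fun z hz => (hf0 z hz).continuousAt.continuousWithinAt
  obtain ⟨R, hR⟩ := (hK.image_of_continuousOn hc).isBounded.subset_ball 0
  exact tendsto_near_comp (g := fun i x => (k (a i + s i * x) - k (a i)) / s i)
    (g0 := fun x => k' * x) (K' := Metric.closedBall 0 R) hK hf0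
    (fun _ _ => contDiffAt_const.mul contDiffAt_id)
    (fun z hz => Metric.ball_subset_interior_closedBall (hR (mem_image_of_mem _ hz))) hf
    (tendsto_near_rescale (isCompact_closedBall 0 R) hk hk' ha hs hs0)

/-- Iterates depend continuously on the map. -/
lemma exists_tendsto_iterate {g : P2 → P2} (hg : ContDiff ℝ 2 g) {K0 : Set P2} (hK0 : IsCompact K0)
    (n : ℕ) : ∃ K, IsCompact K ∧ Tendsto (fun f : P2 → P2 => f^[n]) (Near K g) (Near K0 g^[n]) := by
  induction n generalizing K0 with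
  | zero =>
    exact ⟨∅, isCompact_empty, tendsto_near_fixed (g := id) fun _ _ => contDiffAt_id⟩
  | succ n ih =>
    obtain ⟨R, hR⟩ := (hK0.image hg.continuous).isBounded.subset_ball 0
    obtain ⟨K, hK, h⟩ := ih (isCompact_closedBall (0 : P2) R)
    refine ⟨K0 ∪ K, hK0.union hK, ?_⟩
    simp only [Function.iterate_succ]
    exact tendsto_near_comp (f := fun f : P2 → P2 => f) (g := fun f : P2 → P2 => f^[n]) hK0
      (c2_of_contDiff hg _) (c2_of_contDiff (Near_contDiff_iterate hg n) _)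
      (fun z hz => Metric.ball_subset_interior_closedBall (hR (mem_image_of_mem _ hz)))
      (near_mono subset_union_left g) (h.mono_left (near_mono subset_union_right g))

end

end Pool.Agent.Work.MP_14af4f_an
end

-- merged part: Pool.Agent.Work.MP_14af4f_an.OneD
section
/-!
The Chebyshev map `x ^ 2 - 2`, its charts, and orbits of the perturbed product map.
-/

open Set Filter Topology Real
open scoped ContDiff

namespace Pool.Agent.Work.MP_14af4f_an

noncomputable section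

/-- The Chebyshev map. -/
def P0 (x : ℝ) : ℝ := x ^ 2 - 2

/-- The product map. -/
def Q0 (p : P2) : P2 := (P0 p.1, P0 p.2)

/-- The linearising chart at the fixed point `-1`. -/
def ee (z : ℝ) : ℝ := 2 * cos (2 * π / 3 + 2 * π * z)

/-- Its inverse. -/
def ei (x : ℝ) : ℝ := (arccos (x / 2) - 2 * π / 3) / (2 * π)

/-- The derivative of the chart. -/
def ed (z : ℝ) : ℝ := -(4 * π * sin (2 * π / 3 + 2 * π * z))

/-- The charts along the landing orbit. -/
def ll (k j : ℕ) (z : ℝ) : ℝ := 2 * cos (2 * π * (2 ^ j / 2 ^ (k + 1)) * (1 / 3 + z))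

/-- The derivative of `ll k j` at zero. -/
def ld (k j : ℕ) : ℝ := -(4 * π * (2 ^ j / 2 ^ (k + 1)) * sin (2 * π * (2 ^ j / 2 ^ (k + 1)) / 3))

/-- The landing chart. -/
def l0 (k : ℕ) (z : ℝ) : ℝ := -ll k 0 z

/-- Its inverse. -/
def li (k : ℕ) (y : ℝ) : ℝ := 2 ^ (k + 1) * arccos (-y / 2) / (2 * π) - 1 / 3

/-- Its derivative at zero. -/
def l1 (k : ℕ) : ℝ := -ld k 0

/-- A bump function. -/
def bumpS : ContDiffBump (0 : ℝ) := ⟨1, 2, one_pos, one_lt_two⟩

/-- A bump function. -/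
def bp (x : ℝ) : ℝ := bumpS x

/-- The perturbed product map. -/
def gm (u v : ℝ → ℝ) (p : P2) : P2 :=
  (P0 p.1 + bp (10 * p.1) * u p.2, P0 p.2 + bp (10 * p.2) * v p.1)

lemma contDiff_bp : ContDiff ℝ ∞ bp := by
  exact bumpS.contDiff

lemma bp_one {x : ℝ} (h : |x| ≤ 1) : bp x = 1 := by
  exact bumpS.one_of_mem_closedBall (by simpa [bumpS] using h)

lemma bp_zero {x : ℝ} (h : 2 ≤ |x|) : bp x = 0 := by
  exact bumpS.zero_of_le_dist (by simpa [bumpS] using h)

lemma hasCompactSupport_bp : HasCompactSupport bp := by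
  exact bumpS.hasCompactSupport

lemma contDiff_Q0 : ContDiff ℝ ∞ Q0 := by
  unfold Q0 P0; fun_prop

lemma contDiff_ee : ContDiff ℝ ∞ ee := by
  unfold ee; fun_prop

lemma contDiff_ll (k j : ℕ) : ContDiff ℝ ∞ (ll k j) := by
  unfold ll; fun_prop

lemma hasDerivAt_ee (z : ℝ) : HasDerivAt ee (ed z) z := by
  have h := ((((hasDerivAt_id z).const_mul (2 * π)).const_add (2 * π / 3)).cos).const_mul 2
  refine HasDerivAt.congr_deriv (f := ee) h ?_
  simp only [ed, id]; ring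

lemma ed_ne_zero {z : ℝ} (h : |z| < 1 / 6) : ed z ≠ 0 := by
  obtain ⟨h1, h2⟩ := abs_lt.1 h
  have := sin_pos_of_pos_of_lt_pi (x := 2 * π / 3 + 2 * π * z) (by nlinarith [pi_pos])
    (by nlinarith [pi_pos])
  exact neg_ne_zero.2 (by positivity)

lemma hasDerivAt_ll (k j : ℕ) : HasDerivAt (ll k j) (ld k j) 0 := by
  have h := ((((hasDerivAt_id (0 : ℝ)).const_add (1 / 3)).const_mul
    (2 * π * (2 ^ j / 2 ^ (k + 1)))).cos).const_mul 2
  refine HasDerivAt.congr_deriv (f := ll k j) h ?_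
  simp only [ld, id, add_zero, mul_one_div]; ring

lemma OneD_ratio {j m : ℕ} (h : j ≤ m) : (0 : ℝ) < 2 ^ j / 2 ^ m ∧ (2 : ℝ) ^ j / 2 ^ m ≤ 1 :=
  ⟨by positivity, div_le_one_of_le₀ (pow_le_pow_right₀ one_le_two h) (by positivity)⟩

lemma OneD_ratio' {j k : ℕ} (h : j ≤ k) : (2 : ℝ) ^ j / 2 ^ (k + 1) ≤ 1 / 2 := by
  rw [pow_succ, ← div_div]
  linarith [(OneD_ratio h).2]

lemma ld_neg {k j : ℕ} (h : j ≤ k + 1) : ld k j < 0 := by
  obtain ⟨h1, h2⟩ := OneD_ratio h
  have := sin_pos_of_pos_of_lt_pi (x := 2 * π * (2 ^ j / 2 ^ (k + 1)) / 3) (by positivity)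
    (by nlinarith [pi_pos])
  exact neg_neg_of_pos (by positivity)

lemma l1_pos (k : ℕ) : 0 < l1 k := neg_pos.2 (ld_neg (Nat.zero_le _))

lemma abs_ee_le (z : ℝ) : |ee z| ≤ 2 := by
  rw [ee, abs_mul, abs_two]
  linarith [abs_cos_le_one (2 * π / 3 + 2 * π * z)]

lemma abs_ll_le (k j : ℕ) (z : ℝ) : |ll k j z| ≤ 2 := by
  rw [ll, abs_mul, abs_two]
  linarith [abs_cos_le_one (2 * π * (2 ^ j / 2 ^ (k + 1)) * (1 / 3 + z))]

lemma OneD_cos : cos (2 * π / 3) = -(1 / 2) := by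
  rw [show 2 * π / 3 = π - π / 3 by ring, cos_pi_sub, cos_pi_div_three]

lemma OneD_ll_ge {k j : ℕ} (h : j ≤ k) {z : ℝ} (hz : |z| ≤ 1 / 20) : 1 / 5 ≤ ll k j z := by
  have h1 := OneD_ratio' h
  have h0 : (0 : ℝ) < 2 ^ j / 2 ^ (k + 1) := by positivity
  obtain ⟨h2, h3⟩ := abs_le.1 hz
  unfold ll
  generalize (2 : ℝ) ^ j / 2 ^ (k + 1) = r at h0 h1
  have a1 : 0 ≤ 2 * π * r * (1 / 3 + z) := by have : 0 ≤ 1 / 3 + z := by linarith
                                              positivity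
  have a2 : 2 * π * r * (1 / 3 + z) ≤ 2 * 3.15 * (1 / 2) * (1 / 3 + 1 / 20) := by
    have : 0 ≤ 1 / 3 + z := by linarith
    gcongr
    exact pi_lt_d2.le
  have := one_sub_sq_div_two_le_cos (x := 2 * π * r * (1 / 3 + z))
  nlinarith

lemma OneD_ee_le {z : ℝ} (hz : |z| ≤ 1 / 20) : 1 / 5 ≤ |ee z| := by
  have h := abs_cos_sub_cos_le (2 * π / 3 + 2 * π * z) (2 * π / 3)
  rw [OneD_cos, add_sub_cancel_left, abs_mul, abs_of_pos two_pi_pos] at h
  have h1 : 2 * π * |z| ≤ 2 * 3.15 * (1 / 20) := by gcongr; exact pi_lt_d2.le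
  refine le_trans ?_ (neg_le_abs _)
  unfold ee
  linarith [(abs_le.1 h).2]

lemma abs_ee_zero_lt : |ee 0| < 2 := by
  rw [ee, mul_zero, add_zero, OneD_cos]; norm_num

lemma abs_l0_zero_lt (k : ℕ) : |l0 k 0| < 2 := by
  have h := OneD_ll_ge (Nat.zero_le k) (z := 0) (by norm_num)
  rw [l0, abs_neg, abs_of_pos (by linarith), ll]
  have h1 := OneD_ratio' (Nat.zero_le k)
  have h0 : (0 : ℝ) < 2 ^ 0 / 2 ^ (k + 1) := by positivity
  have := cos_lt_cos_of_nonneg_of_le_pi (x := 0) (y := 2 * π * (2 ^ 0 / 2 ^ (k + 1)) * (1 / 3 + 0))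
    le_rfl (by nlinarith [pi_pos]) (by positivity)
  rw [cos_zero] at this
  linarith

lemma ee_ei {x : ℝ} (h : |x| ≤ 2) : ee (ei x) = x := by
  obtain ⟨h1, h2⟩ := abs_le.1 h
  have : 2 * π / 3 + 2 * π * ei x = arccos (x / 2) := by unfold ei; field_simp; ring
  rw [ee, this, cos_arccos (by linarith) (by linarith)]; ring

lemma ei_ee {z : ℝ} (h : |z| ≤ 1 / 6) : ei (ee z) = z := by
  obtain ⟨h1, h2⟩ := abs_le.1 h
  rw [ei, ee, mul_div_cancel_left₀ _ two_ne_zero, arccos_cos (by nlinarith [pi_pos])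
    (by nlinarith [pi_pos])]
  field_simp; ring

lemma l0_li (k : ℕ) {y : ℝ} (h : |y| ≤ 2) : l0 k (li k y) = y := by
  obtain ⟨h1, h2⟩ := abs_le.1 h
  have : 2 * π * (2 ^ 0 / 2 ^ (k + 1)) * (1 / 3 + li k y) = arccos (-y / 2) := by
    unfold li; field_simp; ring
  rw [l0, ll, this, cos_arccos (by linarith) (by linarith)]; ring

lemma li_l0 (k : ℕ) {z : ℝ} (h : |z| ≤ 1 / 6) : li k (l0 k z) = z := by
  obtain ⟨h1, h2⟩ := abs_le.1 h
  have h3 := OneD_ratio' (Nat.zero_le k)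
  have h0 : (0 : ℝ) < 2 ^ 0 / 2 ^ (k + 1) := by positivity
  have h4 : 0 ≤ 1 / 3 + z := by linarith
  have h5 : 2 * π * (2 ^ 0 / 2 ^ (k + 1)) * (1 / 3 + z) ≤ 2 * π * (1 / 2) * 1 := by
    gcongr; linarith
  rw [li, l0, neg_neg, ll, mul_div_cancel_left₀ _ two_ne_zero, arccos_cos (by positivity)
    (by linarith)]
  field_simp; ring

lemma contDiffAt_ei : ContDiffAt ℝ 2 ei (ee 0) := by
  obtain ⟨h1, h2⟩ := abs_lt.1 abs_ee_zero_lt
  have h : ContDiffAt ℝ 2 (fun x : ℝ => arccos (x / 2)) (ee 0) :=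
    ContDiffAt.comp (g := arccos) (f := fun x : ℝ => x / 2) (ee 0)
      (contDiffAt_arccos (by linarith) (by linarith)) (by fun_prop)
  exact (h.sub contDiffAt_const).div_const _

lemma hasDerivAt_ei : HasDerivAt ei (ed 0)⁻¹ (ee 0) := by
  refine HasDerivAt.of_local_left_inverse (f := ee) contDiffAt_ei.continuousAt ?_
    (ed_ne_zero (by norm_num)) ?_
  · rw [ei_ee (by norm_num)]; exact hasDerivAt_ee 0
  · filter_upwards [continuous_abs.continuousAt.eventually_le_const abs_ee_zero_lt] with y hy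
      using ee_ei hy

lemma contDiffAt_li (k : ℕ) : ContDiffAt ℝ 2 (li k) (l0 k 0) := by
  obtain ⟨h1, h2⟩ := abs_lt.1 (abs_l0_zero_lt k)
  have h : ContDiffAt ℝ 2 (fun x : ℝ => arccos (-x / 2)) (l0 k 0) :=
    ContDiffAt.comp (g := arccos) (f := fun x : ℝ => -x / 2) (l0 k 0)
      (contDiffAt_arccos (by linarith) (by linarith)) (by fun_prop)
  exact ((contDiffAt_const.mul h).div_const _).sub contDiffAt_const

lemma hasDerivAt_li (k : ℕ) : HasDerivAt (li k) (l1 k)⁻¹ (l0 k 0) := by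
  refine HasDerivAt.of_local_left_inverse (f := l0 k) (contDiffAt_li k).continuousAt ?_
    (l1_pos k).ne' ?_
  · rw [li_l0 k (by norm_num)]; exact (hasDerivAt_ll k 0).neg
  · filter_upwards [continuous_abs.continuousAt.eventually_le_const (abs_l0_zero_lt k)] with y hy
      using l0_li k hy

lemma tendsto_l0 : Tendsto (fun k => l0 k 0 + 2) atTop (𝓝 0) := by
  have h1 : Tendsto (fun k : ℕ => ((2 : ℝ) ^ 0 / 2 ^ (k + 1))) atTop (𝓝 0) :=
    tendsto_const_nhds.div_atTop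
      ((tendsto_pow_atTop_atTop_of_one_lt one_lt_two).comp (tendsto_add_atTop_nat 1))
  have h2 : Continuous fun r : ℝ => -(2 * cos (2 * π * r * (1 / 3 + 0))) + 2 := by fun_prop
  have h3 := (h2.tendsto 0).comp h1
  simp only [mul_zero, zero_mul, cos_zero, mul_one, neg_add_cancel] at h3
  exact h3

lemma ee_pos_injective : Function.Injective fun L : ℕ => ee (-1 / 12 / (-2) ^ L) := by
  have hb : ∀ L : ℕ, |-1 / 12 / (-2 : ℝ) ^ L| = 1 / 12 / 2 ^ L := fun L => by
    rw [abs_div, abs_pow]; norm_num [abs_of_pos]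
  have hc : ∀ L : ℕ, |-1 / 12 / (-2 : ℝ) ^ L| ≤ 1 / 6 := fun L => by
    rw [hb]
    linarith [div_le_self (a := (1 / 12 : ℝ)) (by norm_num) (one_le_pow₀ (n := L) one_le_two)]
  intro L L' h
  have h1 := congrArg (fun x => |ei x|) h
  simp only [ei_ee (hc _), hb] at h1
  rw [div_eq_div_iff (by positivity) (by positivity), mul_right_inj' (by norm_num)] at h1
  exact (pow_right_injective₀ two_pos (by norm_num) h1).symm

lemma ll_pos_injOn (k : ℕ) : InjOn (fun j : ℕ => ll k j 0) (Iic (k + 1)) := by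
  have hb : ∀ j ≤ k + 1, 2 * π * (2 ^ j / 2 ^ (k + 1)) * (1 / 3 + 0) ∈ Icc 0 π := fun j hj => by
    obtain ⟨h1, h2⟩ := OneD_ratio hj
    exact ⟨by positivity, by nlinarith [pi_pos]⟩
  intro j hj j' hj' h
  have h1 := injOn_cos (hb j hj) (hb j' hj') (mul_left_cancel₀ two_ne_zero h)
  rw [mul_left_inj' (by norm_num), mul_right_inj' two_pi_pos.ne',
    div_left_inj' (by positivity)] at h1
  exact pow_right_injective₀ two_pos (by norm_num) h1

lemma OneD_P0_cos (θ : ℝ) : P0 (2 * cos θ) = 2 * cos (2 * θ) := by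
  rw [P0, cos_two_mul]; ring

lemma OneD_P0_ee (z : ℝ) : P0 (ee z) = ee (-2 * z) := by
  rw [ee, OneD_P0_cos, ee, ← cos_neg, ← cos_add_two_pi]
  congr 2; ring

lemma OneD_P0_ee' (z : ℝ) (j : ℕ) : P0 (ee ((-2) ^ j * z)) = ee ((-2) ^ (j + 1) * z) := by
  rw [OneD_P0_ee]; congr 1; ring

lemma OneD_P0_ll (k j : ℕ) (z : ℝ) : P0 (ll k j z) = ll k (j + 1) z := by
  rw [ll, OneD_P0_cos, ll]
  congr 2; ring

lemma OneD_ll_ee (k i : ℕ) (z : ℝ) : ll k (k + 1 + i) z = ee ((-2) ^ i * z) := by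
  induction i with
  | zero =>
    rw [ll, ee, add_zero, div_self (by positivity)]
    congr 2; ring
  | succ i ih => rw [← add_assoc, ← OneD_P0_ll, ih, OneD_P0_ee']

lemma OneD_fold (o : ℝ) : ee (-1 / 12 + o) = -(2 * sin (2 * π * o)) := by
  rw [ee, show 2 * π / 3 + 2 * π * (-1 / 12 + o) = 2 * π * o + π / 2 by ring, cos_add_pi_div_two]
  ring

lemma OneD_fold_P0 (o : ℝ) : P0 (ee (-1 / 12 + o)) = -2 * cos (4 * π * o) := by
  rw [OneD_fold, P0, show 4 * π * o = 2 * (2 * π * o) by ring, cos_two_mul]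
  linear_combination 4 * sin_sq_add_cos_sq (2 * π * o)

lemma OneD_fold_bp {o : ℝ} (h : |o| ≤ 1 / 130) : bp (10 * ee (-1 / 12 + o)) = 1 := by
  refine bp_one ?_
  have h1 := abs_sin_le_abs (x := 2 * π * o)
  rw [abs_mul, abs_of_pos two_pi_pos] at h1
  have h2 : 2 * π * |o| ≤ 2 * 3.15 * (1 / 130) := by gcongr; exact pi_lt_d2.le
  rw [OneD_fold, abs_mul, abs_neg, abs_mul, abs_two, abs_of_pos (by norm_num : (0 : ℝ) < 10)]
  linarith

lemma OneD_bp_far {x : ℝ} (h : 1 / 5 ≤ |x|) : bp (10 * x) = 0 := by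
  refine bp_zero ?_
  rw [abs_mul, abs_of_pos (by norm_num : (0 : ℝ) < 10)]
  linarith

lemma OneD_free (u v : ℝ → ℝ) (a b : ℕ → ℝ) (ha : ∀ j, P0 (a j) = a (j + 1))
    (hb : ∀ j, P0 (b j) = b (j + 1)) (p : ℕ) (h : ∀ j < p, 1 / 5 ≤ |a j| ∧ 1 / 5 ≤ |b j|) :
    (gm u v)^[p] (a 0, b 0) = (a p, b p) := by
  induction p with
  | zero => rfl
  | succ p ih =>
    rw [Function.iterate_succ_apply', ih fun j hj => h j (by omega), gm]
    simp only [OneD_bp_far (h p (by omega)).1, OneD_bp_far (h p (by omega)).2, ha, hb, zero_mul,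
      add_zero]

lemma OneD_small {z c : ℝ} {i j : ℕ} (hij : i ≤ j) (h : |(-2) ^ j * z| ≤ c) :
    |(-2) ^ i * z| ≤ c := by
  refine le_trans ?_ h
  rw [abs_mul, abs_mul, abs_pow, abs_pow, abs_neg, abs_two]
  gcongr
  exact one_le_two

lemma OneD_small' {z o : ℝ} {i j : ℕ} (hij : i < j) (h : (-2) ^ j * z = -1 / 12 + o)
    (ho : |o| ≤ 1 / 130) : 1 / 5 ≤ |ee ((-2) ^ i * z)| := by
  refine OneD_ee_le ?_
  have h1 : |(-2) ^ (i + 1) * z| ≤ 1 / 10 := by
    refine OneD_small hij ?_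
    rw [h, abs_le]
    constructor <;> linarith [abs_le.1 ho]
  rw [pow_succ', mul_assoc, abs_mul, abs_neg, abs_two] at h1
  linarith

/-- The landing orbit. -/
def OneD_ls (k : ℕ) (z : ℝ) (j : ℕ) : ℝ := if j = 0 then l0 k z else ll k j z

lemma OneD_ls_succ (k : ℕ) (z : ℝ) (j : ℕ) : P0 (OneD_ls k z j) = OneD_ls k z (j + 1) := by
  unfold OneD_ls
  rw [if_neg (Nat.succ_ne_zero j), ← OneD_P0_ll]
  split_ifs with h
  · rw [h, l0, P0, P0, neg_sq]
  · rfl

lemma OneD_ls_ge {k j : ℕ} (h : j ≤ k) {z : ℝ} (hz : |z| ≤ 1 / 20) :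
    1 / 5 ≤ |OneD_ls k z j| := by
  unfold OneD_ls
  split_ifs with h'
  · rw [l0, abs_neg]; exact (OneD_ll_ge (Nat.zero_le k) hz).trans (le_abs_self _)
  · exact (OneD_ll_ge h hz).trans (le_abs_self _)

/-- One passage through the two folds. -/
lemma gm_orbit (u v : ℝ → ℝ) {k L n : ℕ} (hL : 2 ≤ L) (hk : L ≤ k + 1) {z ζ ox oy ξ η : ℝ}
    (hx : (-2) ^ (n + L) * z = -1 / 12 + ox) (hy : (-2) ^ n * ζ = -1 / 12 + oy)
    (hox : |ox| ≤ 1 / 130) (hoy : |oy| ≤ 1 / 130)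
    (hη : -2 * cos (4 * π * oy) + v (ee ((-2) ^ n * z)) = l0 k η)
    (hη' : |(-2) ^ L * η| ≤ 1 / 20)
    (hξ : -2 * cos (4 * π * ox) + u (ll k (L - 1) η) = l0 k ξ) (hξ' : |ξ| ≤ 1 / 20) :
    (gm u v)^[n + L + k + 2] (ee z, ee ζ) = (ee ξ, ee ((-2) ^ L * η)) := by
  obtain ⟨l, rfl⟩ : ∃ l, L = l + 2 := ⟨L - 2, by omega⟩
  have hη0 : |η| ≤ 1 / 20 := by simpa using OneD_small (Nat.zero_le _) hη'
  have s1 := OneD_free u v (fun j => ee ((-2) ^ j * z)) (fun j => ee ((-2) ^ j * ζ))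
    (OneD_P0_ee' z) (OneD_P0_ee' ζ) n fun j hj =>
      ⟨OneD_small' (by omega) hx hox, OneD_small' hj hy hoy⟩
  simp only [pow_zero, one_mul] at s1
  have s2 : gm u v (ee ((-2) ^ n * z), ee ((-2) ^ n * ζ)) = (ee ((-2) ^ (n + 1) * z), l0 k η) := by
    rw [gm, hy]
    simp only [OneD_bp_far (OneD_small' (by omega : n < n + (l + 2)) hx hox), OneD_fold_bp hoy,
      OneD_fold_P0, OneD_P0_ee', zero_mul, add_zero, one_mul, hη]
  have s3 := OneD_free u v (fun j => ee ((-2) ^ (n + 1 + j) * z)) (OneD_ls k η)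
    (fun j => OneD_P0_ee' z _) (OneD_ls_succ k η) (l + 1) fun j hj =>
      ⟨OneD_small' (by omega) hx hox, OneD_ls_ge (by omega) hη0⟩
  simp only [OneD_ls, if_true, add_zero, Nat.succ_ne_zero, if_false,
    show n + 1 + (l + 1) = n + (l + 2) by ring, hx] at s3
  have s4 : gm u v (ee (-1 / 12 + ox), ll k (l + 1) η) = (l0 k ξ, ll k (l + 2) η) := by
    rw [gm]
    simp only [OneD_bp_far ((OneD_ll_ge (by omega : l + 1 ≤ k) hη0).trans (le_abs_self _)),
      OneD_fold_bp hox, OneD_fold_P0, OneD_P0_ll, zero_mul, add_zero, one_mul]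
    exact congrArg (·, _) hξ
  have s5 := OneD_free u v (OneD_ls k ξ) (fun j => ll k (l + 2 + j) η) (OneD_ls_succ k ξ)
    (fun j => OneD_P0_ll k _ η) (k + 1) fun j hj => ⟨OneD_ls_ge (by omega) hξ', by
      rcases le_or_gt (l + 2 + j) k with h | h
      · exact (OneD_ll_ge h hη0).trans (le_abs_self _)
      · obtain ⟨i, hi⟩ : ∃ i, l + 2 + j = k + 1 + i := ⟨l + 2 + j - (k + 1), by omega⟩
        simp only [hi, OneD_ll_ee]
        exact OneD_ee_le (OneD_small (by omega) hη')⟩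
  have e1 : ll k (k + 1) ξ = ee ξ := by simpa using OneD_ll_ee k 0 ξ
  simp only [OneD_ls, if_true, add_zero, Nat.succ_ne_zero, if_false, e1,
    show l + 2 + (k + 1) = k + 1 + (l + 2) by ring, OneD_ll_ee] at s5
  rw [show n + (l + 2) + k + 2 = (k + 1) + (1 + ((l + 1) + (1 + n))) by ring,
    Function.iterate_add_apply _ (k + 1), Function.iterate_add_apply _ 1,
    Function.iterate_add_apply _ (l + 1), Function.iterate_add_apply _ 1 n, s1, Function.iterate_one, s2, s3, s4, s5]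

end

end Pool.Agent.Work.MP_14af4f_an
end
end

-- merged part: Pool.Agent.Work.MP_14af4f_an.StTDef
section
-- merged part: Pool.Agent.Work.MP_14af4f_an.Chain
section
/-!
Timed moves, chains of moves and realisable filters of planar maps.
-/

open Set Filter Topology
open scoped ContDiff

namespace Pool.Agent.Work.MP_14af4f_an

noncomputable section

/-- A move: the map `(X, Y) ↦ (a X + ψ Y', Y')`, `Y' = b Y + c Y ^ 2 + φ X`, together with the
exponents of the sizes of the boxes before and after the move and of the flight time. -/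
structure TM where
  /-- Multiplier of the first coordinate. -/
  a : ℝ
  /-- Multiplier of the second coordinate. -/
  b : ℝ
  /-- Coefficient of the fold. -/
  c : ℝ
  /-- Shear of the second coordinate. -/
  φ : ℝ → ℝ
  /-- Shear of the first coordinate. -/
  ψ : ℝ → ℝ
  /-- Exponent of the width before the move. -/
  α : ℕ
  /-- Exponent of the height before the move. -/
  β : ℕ
  /-- Exponent of the flight time. -/
  lam : ℕ
  /-- Exponent of the width after the move. -/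
  α' : ℕ
  /-- Exponent of the height after the move. -/
  β' : ℕ

/-- The second coordinate of a move. -/
def TM.snd (m : TM) (p : P2) : ℝ := m.b * p.2 + m.c * p.2 ^ 2 + m.φ p.1

/-- The map of a move. -/
def TM.map (m : TM) (p : P2) : P2 := (m.a * p.1 + m.ψ (m.snd p), m.snd p)

/-- The admissible moves for the order of smoothness `r`. -/
structure TM.Ok (r : ℕ) (m : TM) : Prop where
  lam : 1 ≤ m.lam
  a : m.a ≠ 0
  x1 : m.α < m.α' + m.lam
  x2 : m.α' + 2 * m.lam < 2 * m.α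
  y : (m.c = 0 ∧ m.b ≠ 0 ∧ m.β < m.β' + m.lam ∧ m.β' + 2 * m.lam < 2 * m.β) ∨
    (m.c = 1 ∧ m.b = 0 ∧ m.lam < m.β ∧ m.β' + 2 * m.lam = 2 * m.β)
  φ : ContDiff ℝ ∞ m.φ
  ψ : ContDiff ℝ ∞ m.ψ
  sφ : m.φ = 0 ∨ r * m.α < m.β' + r * m.lam
  sψ : m.ψ = 0 ∨ r * m.β' < m.α'

/-- A chain of `M` admissible moves from the exponents `p` to the exponents `q`. -/
structure Chain (r : ℕ) (p q : ℕ × ℕ) (M : ℕ) (m : ℕ → TM) : Prop where
  pos : 0 < M
  ok : ∀ i < M, (m i).Ok r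
  link : ∀ i, i + 1 < M → (m i).α' = (m (i + 1)).α ∧ (m i).β' = (m (i + 1)).β
  first : ((m 0).α, (m 0).β) = p
  last : ((m (M - 1)).α', (m (M - 1)).β') = q

/-- The square of radius `R`. -/
def sq (R : ℝ) : Set P2 := Metric.closedBall 0 R

/-- The composition of filters of maps. -/
def fc (𝓕 𝓖 : Filter (P2 → P2)) : Filter (P2 → P2) := map₂ (fun F G => G ∘ F) 𝓕 𝓖

/-- Compositions of maps close to `E 0, …, E (n - 1)` on the square of radius `R`. -/
def CF (R : ℝ) (E : ℕ → P2 → P2) : ℕ → Filter (P2 → P2)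
  | 0 => pure id
  | n + 1 => fc (CF R E n) (Near (sq R) (E n))

/-- Every set of the filter contains the compositions of the maps close to the moves of a chain
from `p` to `q`; the last move is not a fold if `lin` holds. -/
def RzE (r : ℕ) (p q : ℕ × ℕ) (lin : Prop) (𝓕 : Filter (P2 → P2)) : Prop :=
  ∀ S ∈ 𝓕, ∃ M m R, Chain r p q M m ∧ (lin → (m (M - 1)).c = 0) ∧
    S ∈ CF R (fun i => (m i).map) M

/-- The standard exponent. -/
def ex (r : ℕ) : ℕ × ℕ := (4 * r + 6, 4 * r + 6)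

/-- Realisable filters. -/
def Rz (𝓕 : Filter (P2 → P2)) : Prop := ∀ r, RzE r (ex r) (ex r) True 𝓕

/-- Realisable maps. -/
structure Rl (G : P2 → P2) : Prop where
  smooth : ContDiff ℝ 2 G
  rz : ∀ K, IsCompact K → Rz (Near K G)

lemma isCompact_sq (R : ℝ) : IsCompact (sq R) := isCompact_closedBall _ _

lemma fc_mono {𝓕 𝓕' 𝓖 𝓖' : Filter (P2 → P2)} (h : 𝓕 ≤ 𝓕') (h' : 𝓖 ≤ 𝓖') :
    fc 𝓕 𝓖 ≤ fc 𝓕' 𝓖' := map₂_mono h h'

lemma fc_assoc (𝓕 𝓖 𝓗 : Filter (P2 → P2)) : fc (fc 𝓕 𝓖) 𝓗 = fc 𝓕 (fc 𝓖 𝓗) := by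
  exact map₂_assoc fun _ _ _ => rfl

lemma fc_pure_id (𝓕 : Filter (P2 → P2)) : fc 𝓕 (pure id) = 𝓕 := by
  simp [fc]

lemma pure_id_fc (𝓕 : Filter (P2 → P2)) : fc (pure id) 𝓕 = 𝓕 := by
  simp [fc]

lemma mem_fc {𝓕 𝓖 : Filter (P2 → P2)} {S : Set (P2 → P2)} :
    S ∈ fc 𝓕 𝓖 ↔ ∃ A ∈ 𝓕, ∃ B ∈ 𝓖, ∀ F ∈ A, ∀ G ∈ B, G ∘ F ∈ S := by
  simp only [fc, mem_map₂_iff, image2_subset_iff]

lemma tendsto_fc {ι : Type} {l : Filter ι} {𝓕 𝓖 : Filter (P2 → P2)} {F G : ι → P2 → P2}
    (hF : Tendsto F l 𝓕) (hG : Tendsto G l 𝓖) : Tendsto (fun i => G i ∘ F i) l (fc 𝓕 𝓖) := by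
  intro S hS
  obtain ⟨A, hA, B, hB, h⟩ := mem_fc.1 hS
  exact ((hF.eventually hA).and (hG.eventually hB)).mono fun i hi => h _ hi.1 _ hi.2

lemma cf_mono {R R' : ℝ} (h : R ≤ R') (E : ℕ → P2 → P2) (n : ℕ) : CF R' E n ≤ CF R E n := by
  induction n with
  | zero => exact le_rfl
  | succ n ih => exact fc_mono ih (near_mono (Metric.closedBall_subset_closedBall h) _)

lemma cf_congr (R : ℝ) {E E' : ℕ → P2 → P2} {n : ℕ} (h : ∀ i < n, E i = E' i) :
    CF R E n = CF R E' n := by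
  induction n with
  | zero => rfl
  | succ n ih =>
    simp only [CF]
    rw [ih fun i hi => h i (by omega), h n (by omega)]

lemma cf_add (R : ℝ) (E : ℕ → P2 → P2) (M n : ℕ) :
    CF R E (M + n) = fc (CF R E M) (CF R (fun i => E (M + i)) n) := by
  induction n with
  | zero => exact (fc_pure_id _).symm
  | succ n ih =>
    show fc (CF R E (M + n)) _ = fc _ (fc _ _)
    rw [ih, fc_assoc]
    rfl

lemma RzE.mono {r : ℕ} {p q : ℕ × ℕ} {lin lin' : Prop} {𝓕 𝓖 : Filter (P2 → P2)}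
    (h : RzE r p q lin 𝓕) (hl : lin' → lin) (hle : 𝓕 ≤ 𝓖) : RzE r p q lin' 𝓖 := by
  intro S hS
  obtain ⟨M, m, R, h1, h2, h3⟩ := h S (hle hS)
  exact ⟨M, m, R, h1, fun h => h2 (hl h), h3⟩

lemma RzE.comp {r : ℕ} {p q s : ℕ × ℕ} {lin lin' : Prop} {𝓕 𝓖 : Filter (P2 → P2)}
    (h : RzE r p q lin 𝓕) (h' : RzE r q s lin' 𝓖) : RzE r p s lin' (fc 𝓕 𝓖) := by
  intro S hS
  obtain ⟨A, hA, B, hB, hAB⟩ := mem_fc.1 hS
  obtain ⟨M, m, R, h1, -, h3⟩ := h A hA
  obtain ⟨M', m', R', h1', h2', h3'⟩ := h' B hB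
  have p1 := h1.pos
  have p2 := h1'.pos
  let n : ℕ → TM := fun i => if i < M then m i else m' (i - M)
  have e1 : ∀ i < M, n i = m i := fun i hi => if_pos hi
  have e2 : ∀ i, M ≤ i → n i = m' (i - M) := fun i hi => if_neg (not_lt.2 hi)
  have e3 : n (M + M' - 1) = m' (M' - 1) := by
    rw [e2 _ (by omega)]; congr 1; omega
  refine ⟨M + M', n, max R R', ⟨by omega, fun i hi => ?_, fun i hi => ?_, ?_, ?_⟩, ?_, ?_⟩
  · rcases lt_or_ge i M with h | h
    · rw [e1 i h]; exact h1.ok i h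
    · rw [e2 i h]; exact h1'.ok _ (by omega)
  · rcases lt_trichotomy (i + 1) M with h | h | h
    · rw [e1 i (by omega), e1 _ h]; exact h1.link i h
    · rw [e1 i (by omega), e2 _ h.ge, show i + 1 - M = 0 by omega,
        show i = M - 1 by omega]
      exact Prod.ext_iff.1 (h1.last.trans h1'.first.symm)
    · rw [e2 i (by omega), e2 _ h.le, show i + 1 - M = i - M + 1 by omega]
      exact h1'.link _ (by omega)
  · rw [e1 0 p1]; exact h1.first
  · rw [e3]; exact h1'.last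
  · rw [e3]; exact h2'
  · rw [cf_add]
    refine mem_fc.2 ⟨A, cf_mono (le_max_left R R') _ _ ?_, B, cf_mono (le_max_right R R') _ _ ?_,
      hAB⟩
    · rwa [cf_congr R (E' := fun i => (m i).map) fun i hi => by rw [e1 i hi]]
    · rwa [cf_congr R' (E' := fun i => (m' i).map) fun i _ => by
        rw [e2 _ (Nat.le_add_right _ _), Nat.add_sub_cancel_left]]

lemma rzE_move {r : ℕ} {m : TM} (hm : m.Ok r) {K : Set P2} (hK : IsCompact K) :
    RzE r (m.α, m.β) (m.α', m.β') (m.c = 0) (Near K m.map) := by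
  intro S hS
  obtain ⟨R, hR⟩ := hK.isBounded.subset_closedBall 0
  refine ⟨1, fun _ => m, R, ⟨one_pos, fun _ _ => hm, fun i hi => by omega, rfl, rfl⟩, id, ?_⟩
  show S ∈ fc (pure id) _
  rw [pure_id_fc]
  exact near_mono hR _ hS

lemma Rz.mono {𝓕 𝓖 : Filter (P2 → P2)} (h : Rz 𝓕) (hle : 𝓕 ≤ 𝓖) : Rz 𝓖 :=
  fun r => (h r).mono id hle

lemma Rz.comp {𝓕 𝓖 : Filter (P2 → P2)} (h : Rz 𝓕) (h' : Rz 𝓖) : Rz (fc 𝓕 𝓖) :=
  fun r => (h r).comp (h' r)

lemma rz_iff {𝓕 : Filter (P2 → P2)} : Rz 𝓕 ↔ ∀ S ∈ 𝓕, Rz (𝓟 S) := by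
  refine ⟨fun h S hS => h.mono (le_principal_iff.2 hS), fun h r S hS => ?_⟩
  exact h S hS r S (mem_principal_self S)

/-- Limits of realisable maps are realisable. -/
lemma rz_near_of_tendsto {ι : Type} {l : Filter ι} [l.NeBot] {K : Set P2} {G : ι → P2 → P2}
    {G0 : P2 → P2} (h : Tendsto G l (Near K G0)) (hG : ∀ᶠ i in l, Rz (Near K (G i))) :
    Rz (Near K G0) := by
  refine rz_iff.2 fun S hS => ?_
  obtain ⟨i, h1, h2⟩ := (hG.and (h.eventually (eventually_mem_near hS))).exists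
  exact h1.mono (le_principal_iff.2 h2)

lemma Chain_comp_le {F G : P2 → P2} (hF : ContDiff ℝ 2 F) (hG : ContDiff ℝ 2 G) {K : Set P2}
    (hK : IsCompact K) : ∃ R, fc (Near K F) (Near (sq R) G) ≤ Near K (G ∘ F) := by
  obtain ⟨R, hR⟩ := (hK.image hF.continuous).isBounded.subset_ball 0
  exact ⟨R, map₂_comp_le_near hK (c2_of_contDiff hF _) (c2_of_contDiff hG _) fun z hz =>
    Metric.ball_subset_interior_closedBall (hR (mem_image_of_mem F hz))⟩

lemma Rl.comp {F G : P2 → P2} (hF : Rl F) (hG : Rl G) : Rl (G ∘ F) := by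
  refine ⟨hG.smooth.comp hF.smooth, fun K hK => ?_⟩
  obtain ⟨R, hR⟩ := Chain_comp_le hF.smooth hG.smooth hK
  exact ((hF.rz K hK).comp (hG.rz _ (isCompact_sq R))).mono hR

lemma Rl.of_eq {F G : P2 → P2} (hF : Rl F) (h : ∀ p, G p = F p) : Rl G := by
  rw [show G = F from funext h]; exact hF

/-- A map that agrees near every compact set with a realisable map is realisable. -/
lemma rl_of_local {G : P2 → P2} (hG : ContDiff ℝ 2 G)
    (h : ∀ R : ℝ, ∃ F, Rl F ∧ ∀ p ∈ sq R, F p = G p) : Rl G := by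
  refine ⟨hG, fun K hK => ?_⟩
  obtain ⟨R, hR⟩ := hK.isBounded.subset_ball 0
  obtain ⟨F, h1, h2⟩ := h R
  rw [← near_congr (g := F) fun z hz => ?_]
  · exact h1.rz K hK
  · filter_upwards [Metric.isOpen_ball.mem_nhds (hR hz)] with p hp
    exact h2 p (Metric.ball_subset_closedBall hp)

lemma rl_of_tendsto {ι : Type} {l : Filter ι} [l.NeBot] {G : ι → P2 → P2} {G0 : P2 → P2}
    (h0 : ContDiff ℝ 2 G0) (h : ∀ K, IsCompact K → Tendsto G l (Near K G0))
    (hG : ∀ᶠ i in l, Rl (G i)) : Rl G0 := by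
  exact ⟨h0, fun K hK => rz_near_of_tendsto (h K hK) (hG.mono fun i hi => hi.rz K hK)⟩

/-! The four generators. -/

lemma Chain_two_le : (2 : WithTop ℕ∞) ≤ ∞ := WithTop.coe_le_coe.2 (le_top : (2 : ℕ∞) ≤ ⊤)

/-- Maps realised between two given exponents. -/
def Chain_RA (r : ℕ) (p q : ℕ × ℕ) (lin : Prop) (G : P2 → P2) : Prop :=
  ContDiff ℝ 2 G ∧ ∀ K, IsCompact K → RzE r p q lin (Near K G)

lemma Chain_RA.comp {r : ℕ} {p q s : ℕ × ℕ} {lin lin' : Prop} {F G : P2 → P2}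
    (hF : Chain_RA r p q lin F) (hG : Chain_RA r q s lin' G) : Chain_RA r p s lin' (G ∘ F) := by
  refine ⟨hG.1.comp hF.1, fun K hK => ?_⟩
  obtain ⟨R, hR⟩ := Chain_comp_le hF.1 hG.1 hK
  exact ((hF.2 K hK).comp (hG.2 _ (isCompact_sq R))).mono id hR

lemma Chain_move {r : ℕ} {m : TM} (hm : m.Ok r) :
    Chain_RA r (m.α, m.β) (m.α', m.β') (m.c = 0) m.map := by
  have h1 : ContDiff ℝ 2 m.φ := hm.φ.of_le Chain_two_le
  have h2 : ContDiff ℝ 2 m.ψ := hm.ψ.of_le Chain_two_le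
  have h3 : ContDiff ℝ 2 m.snd := by unfold TM.snd; fun_prop
  exact ⟨by unfold TM.map; fun_prop, fun K hK => rzE_move hm hK⟩

lemma Chain_id1 (r : ℕ) {α β α' β' : ℕ} (h1 : 4 ≤ α) (h2 : 4 ≤ β) (h3 : α ≤ α') (h4 : α' ≤ α + 1)
    (h5 : β ≤ β') (h6 : β' ≤ β + 1) : Chain_RA r (α, β) (α', β') True id := by
  have := Chain_move (r := r) (m := ⟨1, 1, 0, 0, 0, α, β, 1, α', β'⟩)
    ⟨le_rfl, one_ne_zero, by simp only; omega, by simp only; omega,
      Or.inl ⟨rfl, one_ne_zero, by simp only; omega, by simp only; omega⟩,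
      contDiff_const, contDiff_const, Or.inl rfl, Or.inl rfl⟩
  convert this using 1
  · simp
  · funext p; simp [TM.map, TM.snd]

lemma Chain_id (r : ℕ) {α β α' β' : ℕ} (h1 : 4 ≤ α) (h2 : 4 ≤ β) (h3 : α ≤ α') (h5 : β ≤ β') :
    Chain_RA r (α, β) (α', β') True id := by
  induction α', h3 using Nat.le_induction with
  | base =>
    induction β', h5 using Nat.le_induction with
    | base => exact Chain_id1 r h1 h2 le_rfl (by omega) le_rfl (by omega)
    | succ b hb ih => exact ih.comp (Chain_id1 r h1 (by omega) le_rfl (by omega) (by omega) le_rfl)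
  | succ a ha ih =>
    exact ih.comp (Chain_id1 r (by omega) (by omega) (by omega) le_rfl le_rfl (by omega))

lemma Chain_sandwich {r : ℕ} {m : TM} (hm : m.Ok r) (h1 : 4 * r + 6 ≤ m.α) (h2 : 4 * r + 6 ≤ m.β)
    (h3 : 4 ≤ m.α') (h4 : 4 ≤ m.β') (h5 : m.α' ≤ 4 * r + 6) (h6 : m.β' ≤ 4 * r + 6) :
    Chain_RA r (ex r) (ex r) True m.map :=
  ((Chain_id r (by omega) (by omega) h1 h2).comp (Chain_move hm)).comp (Chain_id r h3 h4 h5 h6)

lemma Chain_rl {G : P2 → P2} (hG : ContDiff ℝ 2 G) (h : ∀ r, Chain_RA r (ex r) (ex r) True G) :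
    Rl G := ⟨hG, fun K hK r => (h r).2 K hK⟩

lemma rl_diag {a b : ℝ} (ha : a ≠ 0) (hb : b ≠ 0) : Rl fun p => (a * p.1, b * p.2) := by
  refine Chain_rl (by fun_prop) fun r => ?_
  have := Chain_sandwich (r := r) (m := ⟨a, b, 0, 0, 0, 4 * r + 6, 4 * r + 6, 4 * r + 3, 4, 4⟩)
    ⟨by simp, ha, by simp; omega, by simp; omega, Or.inl ⟨rfl, hb, by simp; omega, by simp; omega⟩,
      contDiff_const, contDiff_const, Or.inl rfl, Or.inl rfl⟩
    (by simp) (by simp) (by simp) (by simp) (by simp) (by simp)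
  convert this using 2
  simp [TM.map, TM.snd]

lemma rl_shearY {φ : ℝ → ℝ} (h : ContDiff ℝ ∞ φ) : Rl fun p => (p.1, p.2 + φ p.1) := by
  have h2 : ContDiff ℝ 2 φ := h.of_le Chain_two_le
  refine Chain_rl (by fun_prop) fun r => ?_
  have := Chain_sandwich (r := r)
    (m := ⟨1, 1, 0, φ, 0, 4 * r + 6, 6 * r + 6, 4 * r + 3, 4, 4 * r + 5⟩)
    ⟨by simp, one_ne_zero, by simp only; omega, by simp only; omega,
      Or.inl ⟨rfl, one_ne_zero, by simp only; omega, by simp only; omega⟩,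
      h, contDiff_const, Or.inr (by simp only; nlinarith), Or.inl rfl⟩
    le_rfl (by simp only; omega) le_rfl (by simp only; omega) (by simp only; omega)
    (by simp only; omega)
  convert this using 2
  simp [TM.map, TM.snd]

lemma rl_shearX {ψ : ℝ → ℝ} (h : ContDiff ℝ ∞ ψ) : Rl fun p => (p.1 + ψ p.2, p.2) := by
  have h2 : ContDiff ℝ 2 ψ := h.of_le Chain_two_le
  refine Chain_rl (by fun_prop) fun r => ?_
  have := Chain_sandwich (r := r)
    (m := ⟨1, 1, 0, 0, ψ, 6 * r + 6, 4 * r + 6, 4 * r + 3, 4 * r + 5, 4⟩)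
    ⟨by simp, one_ne_zero, by simp only; omega, by simp only; omega,
      Or.inl ⟨rfl, one_ne_zero, by simp only; omega, by simp only; omega⟩,
      contDiff_const, h, Or.inl rfl, Or.inr (by simp only; omega)⟩
    (by simp only; omega) le_rfl (by simp only; omega) le_rfl (by simp only; omega)
    (by simp only; omega)
  convert this using 2
  simp [TM.map, TM.snd]

lemma rl_foldY : Rl fun p => (p.1, p.2 ^ 2) := by
  refine Chain_rl (by fun_prop) fun r => ?_
  have := Chain_sandwich (r := r) (m := ⟨1, 0, 1, 0, 0, 4 * r + 6, 4 * r + 6, 4 * r + 3, 4, 6⟩)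
    ⟨by simp, one_ne_zero, by simp only; omega, by simp only; omega,
      Or.inr ⟨rfl, rfl, by simp only; omega, by simp only; omega⟩,
      contDiff_const, contDiff_const, Or.inl rfl, Or.inl rfl⟩
    le_rfl le_rfl le_rfl (by simp only; omega) (by simp only; omega) (by simp only; omega)
  convert this using 2
  simp [TM.map, TM.snd]

end

end Pool.Agent.Work.MP_14af4f_an
end

-- merged part: Pool.Agent.Work.MP_14af4f_an.Step
section
/-!
Averages of the logarithm of the Jacobian determinant along admissible curves.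
-/

open Set Filter Topology MeasureTheory
open scoped ENNReal

namespace Pool.Agent.Work.MP_14af4f_an

lemma Step_diam {f f' : ℝ → ℝ} {u0 c Kb u : ℝ} (hu : u ≤ u0 / 2)
    (hf : ∀ s ∈ Icc (0 : ℝ) 1, HasDerivAt f (f' s) s) (hK : ∀ s ∈ Icc (0 : ℝ) 1, |f' s| ≤ Kb)
    (hz : ∀ s ∈ Icc (0 : ℝ) 1, |f s| ≤ u0 → c ≤ |f' s|) {a b : ℝ} (ha : a ∈ Icc (0 : ℝ) 1)
    (hb : b ∈ Icc (0 : ℝ) 1) (hab : a < b) (hl : Kb * (b - a) ≤ u0 / 2) (h1 : |f a| ≤ u)
    (h2 : |f b| ≤ u) : c * (b - a) ≤ 2 * u := by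
  have mvt : ∀ r, a < r → r ≤ b → ∃ ξ ∈ Ioo a r, f r - f a = f' ξ * (r - a) := by
    intro r h1 h2
    have hs : Icc a r ⊆ Icc (0 : ℝ) 1 := Icc_subset_Icc ha.1 (h2.trans hb.2)
    obtain ⟨ξ, hξ, e⟩ := exists_hasDerivAt_eq_slope f f' h1
      (fun s h => (hf s (hs h)).continuousAt.continuousWithinAt)
      (fun s h => hf s (hs (Ioo_subset_Icc_self h)))
    exact ⟨ξ, hξ, by rw [e, div_mul_cancel₀ _ (sub_pos.2 h1).ne']⟩
  have hK0 : 0 ≤ Kb := (abs_nonneg _).trans (hK a ha)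
  obtain ⟨ξ, hξ, e⟩ := mvt b hab le_rfl
  obtain ⟨η, hη, e'⟩ := mvt ξ hξ.1 hξ.2.le
  have hξ' : ξ ∈ Icc (0 : ℝ) 1 := ⟨ha.1.trans hξ.1.le, hξ.2.le.trans hb.2⟩
  have hη' : η ∈ Icc (0 : ℝ) 1 := ⟨ha.1.trans hη.1.le, hη.2.le.trans hξ'.2⟩
  have a1 : |f ξ - f a| ≤ Kb * (b - a) := by
    rw [e', abs_mul, abs_of_pos (sub_pos.2 hξ.1)]
    exact mul_le_mul (hK η hη') (by linarith [hξ.2]) (by linarith [hξ.1]) hK0
  have a2 : |f ξ| ≤ u0 := by
    have := abs_sub_abs_le_abs_sub (f ξ) (f a)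
    linarith
  have a3 : |f b - f a| ≤ 2 * u := (abs_sub _ _).trans (by linarith)
  rw [e, abs_mul, abs_of_pos (sub_pos.2 hab)] at a3
  exact (mul_le_mul_of_nonneg_right (hz ξ hξ' a2) (sub_pos.2 hab).le).trans a3

lemma Step_sublevel {f f' : ℝ → ℝ} {u0 c Kb u : ℝ} (hu0 : 0 < u0) (hc : 0 < c) (hu' : 0 ≤ u)
    (hu : u ≤ u0 / 2) (hf : ∀ s ∈ Icc (0 : ℝ) 1, HasDerivAt f (f' s) s)
    (hK : ∀ s ∈ Icc (0 : ℝ) 1, |f' s| ≤ Kb)
    (hz : ∀ s ∈ Icc (0 : ℝ) 1, |f s| ≤ u0 → c ≤ |f' s|) :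
    volume {s ∈ Icc (0 : ℝ) 1 | |f s| ≤ u} ≤
      ENNReal.ofReal ((2 * Kb / u0 + 1) * (2 * u / c)) := by
  have hK0 : 0 ≤ Kb := (abs_nonneg _).trans (hK 0 ⟨le_rfl, zero_le_one⟩)
  set n : ℕ := ⌊2 * Kb / u0⌋₊ + 1 with hn
  have hn0 : (0 : ℝ) < n := by rw [hn]; positivity
  have hn1 : 2 * Kb / u0 < n := by rw [hn]; push_cast; exact Nat.lt_floor_add_one _
  have hn2 : (n : ℝ) ≤ 2 * Kb / u0 + 1 := by
    rw [hn]; push_cast
    linarith [Nat.floor_le (show 0 ≤ 2 * Kb / u0 by positivity)]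
  let A : ℕ → Set ℝ := fun k => {s ∈ Icc (0 : ℝ) 1 | |f s| ≤ u ∧ k ≤ s * n ∧ s * n ≤ k + 1}
  have cover : {s ∈ Icc (0 : ℝ) 1 | |f s| ≤ u} ⊆ ⋃ k ∈ Finset.range n, A k := by
    rintro s ⟨hs, h⟩
    have s0 : 0 ≤ s * n := mul_nonneg hs.1 hn0.le
    rcases hs.2.eq_or_lt with e | e
    · refine mem_biUnion (x := n - 1) (Finset.mem_range.2 (by omega)) ⟨hs, h, ?_, ?_⟩
      · rw [e, one_mul]
        exact_mod_cast Nat.sub_le n 1
      · rw [e, one_mul]
        exact_mod_cast (by omega : n ≤ n - 1 + 1)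
    · refine mem_biUnion (x := ⌊s * n⌋₊) (Finset.mem_range.2 ?_)
        ⟨hs, h, Nat.floor_le s0, (Nat.lt_floor_add_one _).le⟩
      rw [Nat.floor_lt s0]
      nlinarith
  have key : ∀ k, ∀ a ∈ A k, ∀ b ∈ A k, a < b → b - a ≤ 2 * u / c := by
    rintro k a ⟨ha, h1, h2, -⟩ b ⟨hb, h3, -, h4⟩ hab
    rw [le_div_iff₀ hc, mul_comm]
    refine Step_diam hu hf hK hz ha hb hab ?_ h1 h3
    rw [div_lt_iff₀ hu0] at hn1
    have a1 : (b - a) * n ≤ 1 := by linarith
    have a2 : 0 < b - a := sub_pos.2 hab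
    nlinarith
  have piece : ∀ k, volume (A k) ≤ ENNReal.ofReal (2 * u / c) := by
    intro k
    refine (Real.volume_le_diam _).trans (Metric.ediam_le fun a ha b hb => ?_)
    rw [edist_dist, Real.dist_eq]
    refine ENNReal.ofReal_le_ofReal ?_
    rcases lt_trichotomy a b with h | h | h
    · rw [abs_sub_comm, abs_of_pos (sub_pos.2 h)]
      exact key k a ha b hb h
    · rw [h, sub_self, abs_zero]
      positivity
    · rw [abs_of_pos (sub_pos.2 h)]
      exact key k b hb a ha h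
  refine (measure_mono cover).trans ((measure_biUnion_finset_le _ _).trans ?_)
  refine (Finset.sum_le_card_nsmul _ _ _ fun k _ => piece k).trans ?_
  rw [Finset.card_range, nsmul_eq_mul, ENNReal.ofReal_mul (by positivity), ← ENNReal.ofReal_natCast]
  exact mul_le_mul_left (ENNReal.ofReal_le_ofReal hn2) _

lemma Step_LL_le {t : ℝ} (ht : 0 < t) (x : ℝ) :
    LL t x ≤ ∑' m : ℕ, if |x| ≤ t * Real.exp (-m) then (1 : ℝ≥0∞) else 0 := by
  unfold LL
  split_ifs with h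
  · have : ∀ m : ℕ, |x| ≤ t * Real.exp (-m) := fun m => by rw [h, abs_zero]; positivity
    simp [this]
  · have hx : 0 < |x| := abs_pos.2 h
    rcases le_total (Real.log (t / |x|)) 0 with h0 | h0
    · rw [ENNReal.ofReal_of_nonpos h0]
      exact zero_le
    · refine le_trans ?_ (ENNReal.sum_le_tsum (Finset.range (⌊Real.log (t / |x|)⌋₊ + 1)))
      rw [Finset.sum_congr rfl (g := fun _ => 1) fun m hm => if_pos ?_]
      · rw [Finset.sum_const, Finset.card_range, nsmul_eq_mul, mul_one, ← ENNReal.ofReal_natCast]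
        refine ENNReal.ofReal_le_ofReal ?_
        push_cast
        exact (Nat.lt_floor_add_one _).le
      · have a1 : (m : ℝ) ≤ Real.log (t / |x|) :=
          (Nat.le_floor_iff h0).1 (Nat.lt_succ_iff.1 (Finset.mem_range.1 hm))
        rw [Real.le_log_iff_exp_le (by positivity), le_div_iff₀ hx] at a1
        rw [Real.exp_neg, ← div_eq_mul_inv, le_div_iff₀ (Real.exp_pos _), mul_comm]
        exact a1

/-- Functions with simple zeros: the singular part of the logarithm has a small integral. -/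
lemma lintegral_LL_le {f f' : ℝ → ℝ} {u0 c Kb t : ℝ} (hu : 0 < u0) (hc : 0 < c) (ht : 0 < t)
    (ht' : t ≤ u0 / 2) (hf : ∀ s ∈ Icc (0 : ℝ) 1, HasDerivAt f (f' s) s)
    (hK : ∀ s ∈ Icc (0 : ℝ) 1, |f' s| ≤ Kb)
    (hz : ∀ s ∈ Icc (0 : ℝ) 1, |f s| ≤ u0 → c ≤ |f' s|) :
    ∫⁻ s in Icc (0 : ℝ) 1, LL t (f s) ≤ ENNReal.ofReal ((2 * Kb / u0 + 1) * (4 * t / c)) := by
  have hK0 : 0 ≤ Kb := (abs_nonneg _).trans (hK 0 ⟨le_rfl, zero_le_one⟩)
  let A : ℕ → Set ℝ := fun m => {s ∈ Icc (0 : ℝ) 1 | |f s| ≤ t * Real.exp (-m)}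
  have hcont : ContinuousOn (fun s => |f s|) (Icc (0 : ℝ) 1) :=
    fun s h => (hf s h).continuousAt.abs.continuousWithinAt
  have hA : ∀ m, MeasurableSet (A m) := fun m =>
    (hcont.preimage_isClosed_of_isClosed isClosed_Icc isClosed_Iic).measurableSet
  have he : ∀ m : ℕ, Real.exp (-m) ≤ (1 / 2) ^ m := fun m => by
    rw [← mul_neg_one, Real.exp_nat_mul]
    refine pow_le_pow_left₀ (Real.exp_pos _).le ?_ m
    rw [Real.exp_neg, one_div]
    exact inv_anti₀ two_pos (by linarith [Real.add_one_le_exp 1])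
  calc ∫⁻ s in Icc (0 : ℝ) 1, LL t (f s)
      ≤ ∫⁻ s in Icc (0 : ℝ) 1, ∑' m : ℕ, (A m).indicator 1 s := by
        refine setLIntegral_mono' measurableSet_Icc fun s hs => (Step_LL_le ht _).trans ?_
        refine ENNReal.tsum_le_tsum fun m => ?_
        split_ifs with h
        · rw [indicator_of_mem (show s ∈ A m from ⟨hs, h⟩), Pi.one_apply]
        · exact zero_le
    _ = ∑' m : ℕ, (volume.restrict (Icc (0 : ℝ) 1)) (A m) := by
        rw [lintegral_tsum fun m => (measurable_one.indicator (hA m)).aemeasurable]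
        exact tsum_congr fun m => lintegral_indicator_one (hA m)
    _ ≤ ∑' m : ℕ, ENNReal.ofReal ((2 * Kb / u0 + 1) * (2 * t / c) * (1 / 2) ^ m) := by
        refine ENNReal.tsum_le_tsum fun m => (Measure.restrict_apply_le _ _).trans ?_
        have e1 : Real.exp (-m) ≤ 1 := Real.exp_le_one_iff.2 (by simp)
        refine (Step_sublevel hu hc (by positivity) (by nlinarith) hf hK hz).trans
          (ENNReal.ofReal_le_ofReal ?_)
        rw [mul_assoc (2 * Kb / u0 + 1)]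
        refine mul_le_mul_of_nonneg_left ?_ (by positivity)
        have := mul_le_mul_of_nonneg_left (he m) (show 0 ≤ 2 * t / c by positivity)
        refine le_trans (le_of_eq ?_) this
        ring
    _ = _ := by
        rw [← ENNReal.ofReal_tsum_of_nonneg (fun m => by positivity)
          (summable_geometric_two.mul_left _), tsum_mul_left, tsum_geometric_two]
        congr 1
        ring

/-- The action of one map on admissible curves. -/
structure Step (F : P2 → P2) (D ρ σ h D' ρ' σ' h' J e t ε : ℝ) : Prop where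
  pt : ∀ z ∈ strip h, DifferentiableAt ℝ F z ∧ |jac F z| ≤ J ∧ F z ∈ strip h'
  cv : ∀ γ, Cv D ρ σ h γ → Cv D' ρ' σ' h' (F ∘ γ)
  avg1 : ∀ γ, Cv D ρ σ h γ → ∫⁻ s in Icc (0 : ℝ) 1, LL J (jac F (γ s)) ≤ ENNReal.ofReal e
  avg2 : ∀ γ, Cv D ρ σ h γ → ∫⁻ s in Icc (0 : ℝ) 1, LL t (jac F (γ s)) ≤ ENNReal.ofReal ε

/-- The action of the maps of a filter on admissible curves. -/
structure LSF (𝓕 : Filter (P2 → P2)) (D σ h D' σ' h' J e : ℝ) : Prop where
  J_pos : 0 < J
  e_nonneg : 0 ≤ e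
  ev : ∀ ε > 0, ∀ ρ' > 0, ∃ t > 0, ∃ ρ > 0, ∀ᶠ F in 𝓕, Step F D ρ σ h D' ρ' σ' h' J (e + ε) t ε

lemma Step.comp {F G : P2 → P2} {D ρ σ h D' ρ' σ' h' D'' ρ'' σ'' h'' J e t ε J' e' t' ε' : ℝ}
    (H : Step F D ρ σ h D' ρ' σ' h' J e t ε) (H' : Step G D' ρ' σ' h' D'' ρ'' σ'' h'' J' e' t' ε')
    (hJ : 0 < J) (hJ' : 0 < J') (ht : 0 < t) (ht' : 0 < t') (he : 0 ≤ e) (he' : 0 ≤ e')
    (hε : 0 ≤ ε) (hε' : 0 ≤ ε') :
    Step (G ∘ F) D ρ σ h D'' ρ'' σ'' h'' (J * J') (e + e') (t * t') (ε + ε') := by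
  have avg : ∀ {a a' b b' : ℝ}, 0 < a → 0 < a' → 0 ≤ b → 0 ≤ b' → ∀ γ, Cv D ρ σ h γ →
      ∫⁻ s in Icc (0 : ℝ) 1, LL a (jac F (γ s)) ≤ ENNReal.ofReal b →
      ∫⁻ s in Icc (0 : ℝ) 1, LL a' (jac G ((F ∘ γ) s)) ≤ ENNReal.ofReal b' →
      ∫⁻ s in Icc (0 : ℝ) 1, LL (a * a') (jac (G ∘ F) (γ s)) ≤ ENNReal.ofReal (b + b') := by
    intro a a' b b' ha ha' hb hb' γ hγ h1 h2
    rw [ENNReal.ofReal_add hb hb']
    refine le_trans ?_ (add_le_add h1 h2)
    rw [← lintegral_add_left' (f := fun s => LL a (jac F (γ s)))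
      (((measurable_LL a).comp (measurable_jac F)).comp_aemeasurable hγ.aemeasurable)]
    refine setLIntegral_mono' measurableSet_Icc fun s hs => ?_
    have hp := H.pt (γ s) (hγ s hs).1
    rw [jac_comp hp.1 (H'.pt _ hp.2.2).1, mul_comm (jac G _)]
    exact LL_mul_le ha ha' _ _
  refine ⟨fun z hz => ?_, fun γ hγ => H'.cv _ (H.cv γ hγ),
    fun γ hγ => avg hJ hJ' he he' γ hγ (H.avg1 γ hγ) (H'.avg1 _ (H.cv γ hγ)),
    fun γ hγ => avg ht ht' hε hε' γ hγ (H.avg2 γ hγ) (H'.avg2 _ (H.cv γ hγ))⟩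
  have hp := H.pt z hz
  have hq := H'.pt _ hp.2.2
  refine ⟨hq.1.comp z hp.1, ?_, hq.2.2⟩
  rw [jac_comp hp.1 hq.1, abs_mul, mul_comm]
  exact mul_le_mul hp.2.1 hq.2.1 (abs_nonneg _) hJ.le

lemma LSF.comp {𝓕 𝓖 : Filter (P2 → P2)} {D σ h D' σ' h' D'' σ'' h'' J e J' e' : ℝ}
    (H : LSF 𝓕 D σ h D' σ' h' J e) (H' : LSF 𝓖 D' σ' h' D'' σ'' h'' J' e') :
    LSF (fc 𝓕 𝓖) D σ h D'' σ'' h'' (J * J') (e + e') := by
  refine ⟨mul_pos H.J_pos H'.J_pos, add_nonneg H.e_nonneg H'.e_nonneg, fun ε hε ρ'' hρ'' => ?_⟩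
  obtain ⟨t', ht', ρ', hρ', h2⟩ := H'.ev (ε / 2) (half_pos hε) ρ'' hρ''
  obtain ⟨t, ht, ρ, hρ, h1⟩ := H.ev (ε / 2) (half_pos hε) ρ' hρ'
  refine ⟨t * t', mul_pos ht ht', ρ, hρ, mem_fc.2 ⟨_, h1, _, h2, fun F hF G hG => ?_⟩⟩
  have := Step.comp hF hG H.J_pos H'.J_pos ht ht' (by linarith [H.e_nonneg])
    (by linarith [H'.e_nonneg]) (half_pos hε).le (half_pos hε).le
  rw [add_halves, show e + ε / 2 + (e' + ε / 2) = e + e' + ε by ring] at this
  exact this

lemma LSF.mono {𝓕 𝓖 : Filter (P2 → P2)} {D σ h D' σ' h' J e σ'' h'' e'' : ℝ}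
    (H : LSF 𝓕 D σ h D' σ' h' J e) (hle : 𝓖 ≤ 𝓕) (h1 : σ' ≤ σ'') (h2 : h' ≤ h'') (h3 : e ≤ e'') :
    LSF 𝓖 D σ h D' σ'' h'' J e'' := by
  refine ⟨H.J_pos, H.e_nonneg.trans h3, fun ε hε ρ' hρ' => ?_⟩
  obtain ⟨t, ht, ρ, hρ, h4⟩ := H.ev ε hε ρ' hρ'
  refine ⟨t, ht, ρ, hρ, (h4.filter_mono hle).mono fun F hF => ⟨fun z hz => ?_,
    fun γ hγ => (hF.cv γ hγ).mono le_rfl h1 h2, fun γ hγ => (hF.avg1 γ hγ).trans
      (ENNReal.ofReal_le_ofReal (by linarith)), hF.avg2⟩⟩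
  exact ⟨(hF.pt z hz).1, (hF.pt z hz).2.1, strip_mono h2 (hF.pt z hz).2.2⟩

lemma LSF.mapsTo {𝓕 : Filter (P2 → P2)} {D σ h D' σ' h' J e : ℝ} (H : LSF 𝓕 D σ h D' σ' h' J e) :
    ∀ᶠ F in 𝓕, MapsTo F (strip h) (strip h') := by
  obtain ⟨t, -, ρ, -, h1⟩ := H.ev 1 one_pos 1 one_pos
  exact h1.mono fun F hF z hz => (hF.pt z hz).2.2

end Pool.Agent.Work.MP_14af4f_an
end

-- merged part: Pool.Agent.Work.MP_14af4f_an.Skew
section
/-!
Skew products and the maps close to them.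
-/

open Set Filter Topology MeasureTheory
open scoped ENNReal

namespace Pool.Agent.Work.MP_14af4f_an

noncomputable section

/-- Lifts of maps of degree `a`. -/
def Per (a : ℕ) (F : P2 → P2) : Prop := ∀ z, F (z + (1, 0)) = F z + ((a : ℝ), 0)

/-- Lifts of degree `a` close to `F0` on the strip. -/
def SN (a : ℕ) (h : ℝ) (F0 : P2 → P2) : Filter (P2 → P2) := Near (strip h) F0 ⊓ 𝓟 {F | Per a F}

/-- Skew products over an affine map. -/
structure Sk (F0 : P2 → P2) (a : ℕ) (h h' α β : ℝ) : Prop where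
  h_nonneg : 0 ≤ h
  per : Per a F0
  c2 : C2 (strip h) F0
  fst : ∃ b, ∀ z, (F0 z).1 = a * z.1 + b
  ht : ∀ z ∈ strip h, |(F0 z).2| ≤ h' - 1
  d1 : ∀ z ∈ strip h, |(fderiv ℝ F0 z (1, 0)).2| ≤ α
  d2 : ∀ z ∈ strip h, |(fderiv ℝ F0 z (0, 1)).2| ≤ β

/-- A filter of lifts converging to a skew product, with control along admissible curves. -/
structure Pack (𝓕 : Filter (P2 → P2)) (F0 : P2 → P2) (a : ℕ) (D σ h σ' h' α β J e : ℝ) :
    Prop where
  sk : Sk F0 a h h' α β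
  le : 𝓕 ≤ SN a h F0
  ls : LSF 𝓕 D σ h (a * D) σ' h' J e

lemma Skew_per_int {a : ℕ} {F : P2 → P2} (hF : Per a F) (m : ℤ) (z : P2) :
    F (z + ((m : ℝ), 0)) = F z + (((m * a : ℤ) : ℝ), 0) := by
  have h1 := per_int (h := |z.2|) (f := F) (c := ((a : ℝ), 0)) (fun w _ => hF w) m
    (z := z) (show |z.2| ≤ |z.2| from le_rfl)
  rw [h1]
  congr 1
  ext <;> simp

lemma Per.comp {a a' : ℕ} {F G : P2 → P2} (hF : Per a F) (hG : Per a' G) : Per (a * a') (G ∘ F) := by
  intro z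
  have h1 := Skew_per_int hG (a : ℤ) (F z)
  simp only [Function.comp_apply]
  rw [hF z]
  simpa using h1

lemma Per.jet {a : ℕ} {F : P2 → P2} (hF : Per a F) (m : ℤ) (z : P2) :
    jet F (z + ((m : ℝ), 0)) = jet F z + ((((m * a : ℤ) : ℝ), 0), 0, 0) := by
  have h0 : (fun w => F (w + ((m : ℝ), 0))) = fun w => F w + (((m * a : ℤ) : ℝ), 0) :=
    funext fun w => Skew_per_int hF m w
  have h1 : ∀ w, fderiv ℝ F (w + ((m : ℝ), 0)) = fderiv ℝ F w := by
    intro w
    rw [← fderiv_comp_add_right, h0, fderiv_add_const]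
  have h2 : fderiv ℝ (fderiv ℝ F) (z + ((m : ℝ), 0)) = fderiv ℝ (fderiv ℝ F) z := by
    rw [← fderiv_comp_add_right, funext h1]
  simp only [MP_14af4f_an.jet, Prod.mk_add_mk, add_zero]
  rw [h1, h2, Skew_per_int hF]

lemma Skew_contDiffAt {a : ℕ} {F : P2 → P2} (hF : Per a F) (m : ℤ) {z : P2}
    (h : ContDiffAt ℝ 2 F z) : ContDiffAt ℝ 2 F (z + ((m : ℝ), 0)) := by
  have h0 : F = fun w => F (w - ((m : ℝ), 0)) + (((m * a : ℤ) : ℝ), 0) := by
    funext w
    rw [← Skew_per_int hF m, sub_add_cancel]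
  rw [h0]
  refine ContDiffAt.add ?_ contDiffAt_const
  have h1 : ContDiffAt ℝ 2 F (z + ((m : ℝ), 0) - ((m : ℝ), 0)) := by
    rwa [add_sub_cancel_right]
  exact ContDiffAt.comp (f := fun w : P2 => w - ((m : ℝ), 0)) _ h1
    (contDiffAt_id.sub contDiffAt_const)

lemma cl_strip {a : ℕ} {F F0 : P2 → P2} (hF : Per a F) (h0 : Per a F0) {h δ : ℝ}
    (H : Cl (cdom h) δ F0 F) : Cl (strip h) δ F0 F := by
  intro z hz
  have h1 := H (red z) (dom_subset_cdom h (red_mem_dom hz))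
  constructor
  · have h2 := Skew_contDiffAt hF ⌊z.1⌋ h1.1
    rwa [red_add_floor] at h2
  · have h2 := hF.jet ⌊z.1⌋ (red z)
    have h3 := h0.jet ⌊z.1⌋ (red z)
    rw [red_add_floor] at h2 h3
    rw [h2, h3, add_sub_add_right_eq_sub]
    exact h1.2

lemma tendsto_sn {ι : Type} {l : Filter ι} {a : ℕ} {h : ℝ} {F : ι → P2 → P2} {F0 : P2 → P2}
    (h0 : Per a F0) (hp : ∀ᶠ i in l, Per a (F i)) (H : Tendsto F l (Near (cdom h) F0)) :
    Tendsto F l (SN a h F0) := by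
  refine tendsto_inf.2 ⟨tendsto_near.2 fun δ hδ => ?_, tendsto_principal.2 hp⟩
  filter_upwards [hp, tendsto_near.1 H δ hδ] with i h1 h2
  exact cl_strip h1 h0 h2

lemma eventually_mem_sn {a : ℕ} {h : ℝ} {F0 : P2 → P2} {S : Set (P2 → P2)} (H : S ∈ SN a h F0) :
    ∀ᶠ F in SN a h F0, S ∈ SN a h F := by
  have h1 := eventually_mem_near (mem_inf_principal.1 H)
  refine (h1.mono fun F hF => ?_).filter_mono inf_le_left
  exact mem_inf_principal.2 hF

lemma pure_le_sn {a : ℕ} {h : ℝ} {F0 : P2 → P2} (h0 : Per a F0) (h2 : C2 (strip h) F0) :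
    pure F0 ≤ SN a h F0 := by
  exact le_inf (pure_le_near h2) ((pure_le_principal F0).2 h0)

lemma Sk.exists_bound {F0 : P2 → P2} {a : ℕ} {h h' α β : ℝ} (H : Sk F0 a h h' α β) :
    ∃ B > 0, ∀ z ∈ strip h, ‖fderiv ℝ F0 z‖ ≤ B ∧ ‖fderiv ℝ (fderiv ℝ F0) z‖ ≤ B := by
  obtain ⟨B, hB, h1⟩ := exists_jet_bound (isCompact_cdom h) (H.c2.mono (cdom_subset_strip h))
  refine ⟨B, hB, fun z hz => ?_⟩
  have h2 := h1 (red z) (dom_subset_cdom h (red_mem_dom hz))
  have h3 := H.per.jet ⌊z.1⌋ (red z)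
  rw [red_add_floor] at h3
  have h4 : (jet F0 z).2 = (jet F0 (red z)).2 := by
    rw [h3]
    simp
  have h5 : ‖(jet F0 z).2‖ ≤ B := by
    rw [h4]
    exact (norm_snd_le _).trans h2
  exact ⟨(norm_fst_le (jet F0 z).2).trans h5, (norm_snd_le (jet F0 z).2).trans h5⟩

lemma Sk.fderiv_fst {F0 : P2 → P2} {a : ℕ} {h h' α β : ℝ} (H : Sk F0 a h h' α β) {z : P2}
    (hz : z ∈ strip h) (v : P2) : (fderiv ℝ F0 z v).1 = a * v.1 := by
  obtain ⟨b, hb⟩ := H.fst
  have h1 : HasFDerivAt (fun w => (F0 w).1)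
      ((ContinuousLinearMap.fst ℝ ℝ ℝ).comp (fderiv ℝ F0 z)) z :=
    ((H.c2 z hz).differentiableAt (by norm_num)).hasFDerivAt.fst
  have h2 : HasFDerivAt (fun w : P2 => (a : ℝ) * w.1 + b)
      ((a : ℝ) • ContinuousLinearMap.fst ℝ ℝ ℝ) z :=
    ((hasFDerivAt_fst (𝕜 := ℝ) (p := z)).const_mul (a : ℝ)).add_const b
  rw [funext hb] at h1
  have h3 := congrArg (fun A : P2 →L[ℝ] ℝ => A v) (h1.unique h2)
  simpa using h3

lemma Sk.jac_eq {F0 : P2 → P2} {a : ℕ} {h h' α β : ℝ} (H : Sk F0 a h h' α β) {z : P2}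
    (hz : z ∈ strip h) : jac F0 z = a * (fderiv ℝ F0 z (0, 1)).2 := by
  rw [jac, det_eq, H.fderiv_fst hz, H.fderiv_fst hz]
  simp

lemma Sk.comp {F0 G0 : P2 → P2} {a a' : ℕ} {h h' h'' α β α' β' : ℝ} (H : Sk F0 a h h' α β)
    (H' : Sk G0 a' h' h'' α' β') : Sk (G0 ∘ F0) (a * a') h h'' (α' * a + β' * α) (β' * β) := by
  have hm : ∀ z ∈ strip h, F0 z ∈ strip h' := fun z hz =>
    le_trans (H.ht z hz) (by linarith)
  have hd : ∀ z ∈ strip h, ∀ v, (fderiv ℝ (G0 ∘ F0) z v).2 =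
      a * v.1 * (fderiv ℝ G0 (F0 z) (1, 0)).2 +
        (fderiv ℝ F0 z v).2 * (fderiv ℝ G0 (F0 z) (0, 1)).2 := by
    intro z hz v
    rw [fderiv_comp z ((H'.c2 _ (hm z hz)).differentiableAt (by norm_num))
      ((H.c2 z hz).differentiableAt (by norm_num)), ContinuousLinearMap.comp_apply,
      clm_apply_eq (fderiv ℝ G0 (F0 z)), H.fderiv_fst hz]
    simp
  obtain ⟨b, hb⟩ := H.fst
  obtain ⟨b', hb'⟩ := H'.fst
  refine ⟨H.h_nonneg, H.per.comp H'.per, fun z hz => (H'.c2 _ (hm z hz)).comp z (H.c2 z hz),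
    ⟨a' * b + b', fun z => ?_⟩, fun z hz => H'.ht _ (hm z hz), fun z hz => ?_, fun z hz => ?_⟩
  · simp only [Function.comp_apply]
    rw [hb', hb]
    push_cast
    ring
  · rw [hd z hz]
    have h1 := H.d1 z hz
    have h2 := H'.d1 _ (hm z hz)
    have h3 := H'.d2 _ (hm z hz)
    refine (abs_add_le _ _).trans ?_
    rw [abs_mul, abs_mul (fderiv ℝ F0 z (1, 0)).2, mul_one, Nat.abs_cast]
    have h4 := mul_le_mul_of_nonneg_left h2 (Nat.cast_nonneg (α := ℝ) a)
    have h5 := mul_le_mul h1 h3 (abs_nonneg _) ((abs_nonneg _).trans h1)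
    linarith
  · rw [hd z hz]
    have h1 := H.d2 z hz
    have h3 := H'.d2 _ (hm z hz)
    rw [mul_zero, zero_mul, zero_add, abs_mul]
    have h5 := mul_le_mul h1 h3 (abs_nonneg _) ((abs_nonneg _).trans h1)
    linarith

lemma fc_sn_le {F0 G0 : P2 → P2} {a a' : ℕ} {h h' h'' α β α' β' : ℝ} (H : Sk F0 a h h' α β)
    (H' : Sk G0 a' h' h'' α' β') : fc (SN a h F0) (SN a' h' G0) ≤ SN (a * a') h (G0 ∘ F0) := by
  have hp : ∀ᶠ K in fc (SN a h F0) (SN a' h' G0), Per (a * a') (id K) := by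
    refine mem_map₂_iff.2 ⟨{F | Per a F}, mem_inf_of_right (mem_principal_self _),
      {G | Per a' G}, mem_inf_of_right (mem_principal_self _), ?_⟩
    rintro _ ⟨F, hF, G, hG, rfl⟩
    exact Per.comp hF hG
  have hm : MapsTo F0 (cdom h) (interior (strip h')) := fun z hz =>
    mem_interior_strip (lt_of_le_of_lt (H.ht z (cdom_subset_strip h hz)) (by linarith))
  have h1 : fc (SN a h F0) (SN a' h' G0) ≤ Near (cdom h) (G0 ∘ F0) :=
    le_trans (map₂_mono (inf_le_left.trans (near_mono (cdom_subset_strip h) F0)) inf_le_left)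
      (map₂_comp_le_near (isCompact_cdom h) (H.c2.mono (cdom_subset_strip h)) H'.c2 hm)
  exact tendsto_id'.1 (tendsto_sn (H.per.comp H'.per) hp (tendsto_id'.2 h1))

lemma Pack.comp {𝓕 𝓖 : Filter (P2 → P2)} {F0 G0 : P2 → P2} {a a' : ℕ}
    {D σ h σ' h' α β J e σ'' h'' α' β' J' e' : ℝ} (H : Pack 𝓕 F0 a D σ h σ' h' α β J e)
    (H' : Pack 𝓖 G0 a' (a * D) σ' h' σ'' h'' α' β' J' e') :
    Pack (fc 𝓕 𝓖) (G0 ∘ F0) (a * a') D σ h σ'' h'' (α' * a + β' * α) (β' * β) (J * J')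
      (e + e') := by
  refine ⟨H.sk.comp H'.sk, le_trans (map₂_mono H.le H'.le) (fc_sn_le H.sk H'.sk), ?_⟩
  have h1 := H.ls.comp H'.ls
  have h2 : ((a * a' : ℕ) : ℝ) * D = a' * (a * D) := by
    push_cast
    ring
  rw [h2]
  exact h1

lemma Pack.mono {𝓕 𝓖 : Filter (P2 → P2)} {F0 : P2 → P2} {a : ℕ}
    {D σ h σ' h' α β J e σ'' h'' α' β' e' : ℝ} (H : Pack 𝓕 F0 a D σ h σ' h' α β J e) (hle : 𝓖 ≤ 𝓕)
    (h1 : σ' ≤ σ'') (h2 : h' ≤ h'') (h3 : ∀ z ∈ strip h, |(fderiv ℝ F0 z (1, 0)).2| ≤ α')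
    (h4 : ∀ z ∈ strip h, |(fderiv ℝ F0 z (0, 1)).2| ≤ β') (h5 : e ≤ e') :
    Pack 𝓖 F0 a D σ h σ'' h'' α' β' J e' := by
  exact ⟨⟨H.sk.h_nonneg, H.sk.per, H.sk.c2, H.sk.fst,
    fun z hz => le_trans (H.sk.ht z hz) (by linarith), h3, h4⟩, hle.trans H.le,
    H.ls.mono hle h1 h2 h5⟩

lemma Skew_diff_fderiv {F : P2 → P2} {z : P2} (h : ContDiffAt ℝ 2 F z) :
    DifferentiableAt ℝ (fderiv ℝ F) z :=
  (h.fderiv_right (m := 1) (by norm_num)).differentiableAt (by norm_num)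

/-- From the control along curves to the standing hypotheses. -/
theorem Pack.hyp {𝓕 : Filter (P2 → P2)} {F0 : P2 → P2} {d : ℕ} {h σ' h' α β J e ρ : ℝ}
    (H : Pack 𝓕 F0 d 1 2 h σ' h' α β J e) (hd : 2 ≤ d) (hα : α ≤ d / 4) (hβ : β ≤ d / 4)
    (hρ : 0 < ρ) (hρ' : ρ < h) (trap : ∀ z ∈ strip h, |(F0 z).2| ≤ h - 2 * ρ)
    (hJ : Real.log (2 * d) + 3 + e ≤ Real.log J) :
    ∀ᶠ F in 𝓕, ∃ δ K t0 ρ0, Hyp F d h ρ δ K J t0 ρ0 := by
  have hd' : (2 : ℝ) ≤ d := by exact_mod_cast hd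
  have hJ0 := H.ls.J_pos
  have he0 := H.ls.e_nonneg
  have hA : 3 + e ≤ Real.log (J / (2 * d)) := by
    rw [Real.log_div hJ0.ne' (by positivity)]
    linarith
  have hA0 : 0 < Real.log (J / (2 * d)) := by linarith
  obtain ⟨t, ht, ρs, hρs, hev⟩ := H.ls.ev (min 1 (1 / (8 * Real.log (J / (2 * d)))))
    (by positivity) 1 one_pos
  obtain ⟨B, hB, hB'⟩ := H.sk.exists_bound
  obtain ⟨δ, hδ0, hδ1, hδ2, hδ3⟩ : ∃ δ : ℝ, 0 < δ ∧ δ ≤ 1 / 10 ∧ δ ≤ ρ ∧
      4 * δ * (B + 1 + 2) ≤ min ρs 1 := by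
    refine ⟨min (1 / 10) (min ρ (min ρs 1 / (4 * (B + 1 + 2)))), by positivity, min_le_left _ _,
      (min_le_right _ _).trans (min_le_left _ _), ?_⟩
    have h1 : min (1 / 10) (min ρ (min ρs 1 / (4 * (B + 1 + 2)))) ≤
      min ρs 1 / (4 * (B + 1 + 2)) := (min_le_right _ _).trans (min_le_right _ _)
    rw [le_div_iff₀ (by positivity)] at h1
    linarith
  have hcl : ∀ᶠ F in 𝓕, Cl (strip h) δ F0 F :=
    (eventually_cl (strip h) F0 hδ0).filter_mono (H.le.trans inf_le_left)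
  have hper : ∀ᶠ F in 𝓕, Per d F := H.le (mem_inf_of_right (mem_principal_self _))
  filter_upwards [hev, hcl, hper] with F hS hC hP
  have hv : ∀ z ∈ strip h, ∀ v : P2, ‖v‖ = 1 →
      |(fderiv ℝ F z v).1 - (fderiv ℝ F0 z v).1| ≤ δ ∧
        |(fderiv ℝ F z v).2 - (fderiv ℝ F0 z v).2| ≤ δ := by
    intro z hz v hv
    have h1 := (fderiv ℝ F z - fderiv ℝ F0 z).le_opNorm v
    rw [hv, mul_one] at h1
    have h2 := h1.trans (hC.d1 hz)
    exact ⟨le_trans (norm_fst_le ((fderiv ℝ F z - fderiv ℝ F0 z) v)) h2,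
      le_trans (norm_snd_le ((fderiv ℝ F z - fderiv ℝ F0 z) v)) h2⟩
  have n1 : ‖((1, 0) : P2)‖ = 1 := by simp [Prod.norm_def]
  have n2 : ‖((0, 1) : P2)‖ = 1 := by simp [Prod.norm_def]
  have hD : ∀ z ∈ strip h, DifferentiableAt ℝ (fderiv ℝ F) z := fun z hz =>
    Skew_diff_fderiv (hC.c2 z hz)
  have hD0 : ∀ z ∈ strip h, DifferentiableAt ℝ (fderiv ℝ F0) z := fun z hz =>
    Skew_diff_fderiv (H.sk.c2 z hz)
  refine ⟨δ, B + 1, t, min ρs 1, hd, hρ, hρ', hδ0.le, hδ1, by positivity, ht, hJ0, by linarith,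
    hδ3, min_le_right _ _, fun z _ => hP z, fun z hz => (hS.pt z hz).1, fun z hz => ?_,
    fun z hz => ?_, fun z hz => ?_, fun z hz => ?_, fun p hp q hq => ?_, fun p hp q hq v => ?_,
    fun z hz => ?_, fun z hz => (hS.pt z hz).2.1, fun γ hγ => ?_, fun γ hγ => ?_⟩
  · have h1 := (hv z hz _ n1).1
    rwa [H.sk.fderiv_fst hz, mul_one] at h1
  · have h1 := (hv z hz _ n2).1
    rwa [H.sk.fderiv_fst hz, mul_zero, sub_zero] at h1
  · have h1 := abs_le.1 (hv z hz _ n1).2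
    have h2 := abs_le.1 (H.sk.d1 z hz)
    rw [abs_le]
    constructor <;> linarith [h1.1, h1.2, h2.1, h2.2]
  · have h1 := abs_le.1 (hv z hz _ n2).2
    have h2 := abs_le.1 (H.sk.d2 z hz)
    rw [abs_le]
    constructor <;> linarith [h1.1, h1.2, h2.1, h2.2]
  · refine (convex_strip h).norm_image_sub_le_of_norm_fderiv_le hD (fun z hz => ?_) hq hp
    have h1 := hC.d2 hz
    have h2 := (hB' z hz).2
    have h3 := norm_sub_norm_le (fderiv ℝ (fderiv ℝ F) z) (fderiv ℝ (fderiv ℝ F0) z)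
    linarith
  · have h1 : ‖(fderiv ℝ F p - fderiv ℝ F0 p) - (fderiv ℝ F q - fderiv ℝ F0 q)‖ ≤ δ * ‖p - q‖ := by
      refine (convex_strip h).norm_image_sub_le_of_norm_fderiv_le (𝕜 := ℝ)
        (f := fun z => fderiv ℝ F z - fderiv ℝ F0 z)
        (fun z hz => (hD z hz).sub (hD0 z hz)) (fun z hz => ?_) hq hp
      rw [fderiv_fun_sub (hD z hz) (hD0 z hz)]
      exact hC.d2 hz
    have h2 := ((fderiv ℝ F p - fderiv ℝ F0 p) - (fderiv ℝ F q - fderiv ℝ F0 q)).le_opNorm v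
    have h3 := norm_fst_le (((fderiv ℝ F p - fderiv ℝ F0 p) - (fderiv ℝ F q - fderiv ℝ F0 q)) v)
    have h4 : (((fderiv ℝ F p - fderiv ℝ F0 p) - (fderiv ℝ F q - fderiv ℝ F0 q)) v).1 =
        (fderiv ℝ F p v - fderiv ℝ F q v).1 := by
      simp only [sub_apply, Prod.fst_sub]
      rw [H.sk.fderiv_fst hp, H.sk.fderiv_fst hq]
      ring
    rw [h4, Real.norm_eq_abs] at h3
    exact h3.trans (h2.trans (mul_le_mul_of_nonneg_right h1 (norm_nonneg _)))
  · have h1 : |(F z).2 - (F0 z).2| ≤ δ := le_trans (norm_snd_le (F z - F0 z)) (hC.val hz)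
    have h2 := abs_le.1 (trap z hz)
    have h3 := abs_le.1 h1
    rw [abs_le]
    constructor <;> linarith [h2.1, h2.2, h3.1, h3.2]
  · refine (hS.avg1 γ (hγ.mono (min_le_left _ _) le_rfl le_rfl)).trans
      (ENNReal.ofReal_le_ofReal ?_)
    have := min_le_left 1 (1 / (8 * Real.log (J / (2 * d))))
    linarith
  · exact (hS.avg2 γ (hγ.mono (min_le_left _ _) le_rfl le_rfl)).trans
      (ENNReal.ofReal_le_ofReal (min_le_right _ _))

end

end Pool.Agent.Work.MP_14af4f_an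
end

-- merged part: Pool.Agent.Work.MP_14af4f_an.Stage
section
/-!
One stage: a skew product whose critical set is transverse to the admissible curves.
-/

open Set Filter Topology MeasureTheory
open scoped ENNReal

namespace Pool.Agent.Work.MP_14af4f_an

noncomputable section

/-- The Jacobian determinant has simple zeros along admissible directions. -/
def Tr (F0 : P2 → P2) (D σ h u0 c1 K1 : ℝ) : Prop :=
  ∀ z ∈ strip h, ∀ v : P2, |v.1 - D| ≤ 1 / 2 → |v.2| ≤ σ →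
    |fderiv ℝ (jac F0) z v| ≤ K1 ∧ (|jac F0 z| ≤ u0 → c1 ≤ |fderiv ℝ (jac F0) z v|)

/-- The mean of the truncated logarithm of the Jacobian determinant. -/
def E0 (F0 : P2 → P2) (D σ h J e : ℝ) : Prop :=
  ∀ ε > 0, ∀ t > 0, ∃ ρ > 0, ∀ γ, Cv D ρ σ h γ →
    ∫⁻ s in Icc (0 : ℝ) 1, ENNReal.ofReal (Real.log (J / max |jac F0 (γ s)| t)) ≤
      ENNReal.ofReal (e + ε)

lemma fderiv_apply_of_hasDerivAt {f : P2 → ℝ} {z v : P2} {c : ℝ} (hf : DifferentiableAt ℝ f z)
    (h : HasDerivAt (fun t : ℝ => f (z + t • v)) c 0) : fderiv ℝ f z v = c := by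
  have h1 : HasDerivAt (fun t : ℝ => z + t • v) v 0 := by
    simpa using ((hasDerivAt_id (0 : ℝ)).smul_const v).const_add z
  have h2 := hf.hasFDerivAt.comp_hasDerivAt_of_eq (0 : ℝ) h1 (by simp)
  exact h2.unique h

/-- The bilinear form whose diagonal is the determinant. -/
def Stage_bb (A A' : P2 →L[ℝ] P2) : ℝ :=
  (A (1, 0)).1 * (A' (0, 1)).2 - (A (0, 1)).1 * (A' (1, 0)).2

lemma Stage_bb_le (A A' : P2 →L[ℝ] P2) : |Stage_bb A A'| ≤ 2 * ‖A‖ * ‖A'‖ := by
  have n1 : ‖((1, 0) : P2)‖ = 1 := by simp [Prod.norm_def]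
  have n2 : ‖((0, 1) : P2)‖ = 1 := by simp [Prod.norm_def]
  have k1 : ∀ C : P2 →L[ℝ] P2, ∀ v : P2, ‖v‖ = 1 → |(C v).1| ≤ ‖C‖ ∧ |(C v).2| ≤ ‖C‖ := by
    intro C v hv
    have := C.le_opNorm v
    rw [hv, mul_one] at this
    exact ⟨(norm_fst_le (C v)).trans this, (norm_snd_le (C v)).trans this⟩
  have a1 := mul_le_mul (k1 A _ n1).1 (k1 A' _ n2).2 (abs_nonneg _) (norm_nonneg _)
  have a2 := mul_le_mul (k1 A _ n2).1 (k1 A' _ n1).2 (abs_nonneg _) (norm_nonneg _)
  rw [← abs_mul] at a1 a2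
  unfold Stage_bb
  refine (abs_sub _ _).trans ?_
  linarith

lemma Stage_bb_sub (A A' C C' : P2 →L[ℝ] P2) :
    Stage_bb A A' - Stage_bb C C' = Stage_bb (A - C) A' + Stage_bb C (A' - C') := by
  simp only [Stage_bb, sub_apply, Prod.fst_sub, Prod.snd_sub]
  ring

lemma Stage_bb_sub_le {A A' C C' : P2 →L[ℝ] P2} {x y u w : ℝ} (h1 : ‖A - C‖ ≤ x) (h2 : ‖A'‖ ≤ y)
    (h3 : ‖C‖ ≤ u) (h4 : ‖A' - C'‖ ≤ w) :
    |Stage_bb A A' - Stage_bb C C'| ≤ 2 * x * y + 2 * u * w := by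
  rw [Stage_bb_sub]
  refine (abs_add_le _ _).trans (add_le_add ((Stage_bb_le _ _).trans ?_) ((Stage_bb_le _ _).trans ?_))
  · have := (norm_nonneg _).trans h1
    gcongr
  · have := (norm_nonneg _).trans h3
    gcongr

lemma Stage_jac_eq (F : P2 → P2) : jac F = fun z => Stage_bb (fderiv ℝ F z) (fderiv ℝ F z) := by
  funext z
  exact det_eq _

lemma Stage_diff_fderiv {F : P2 → P2} {z : P2} (h : ContDiffAt ℝ 2 F z) :
    DifferentiableAt ℝ (fderiv ℝ F) z :=
  (h.fderiv_right (m := 1) (by norm_num)).differentiableAt one_ne_zero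

lemma differentiableAt_jac {F : P2 → P2} {z : P2} (h : ContDiffAt ℝ 2 F z) :
    DifferentiableAt ℝ (jac F) z := by
  have h1 := Stage_diff_fderiv h
  rw [Stage_jac_eq]
  unfold Stage_bb
  fun_prop

lemma Stage_fderiv_jac {F : P2 → P2} {z : P2} (h : ContDiffAt ℝ 2 F z) (v : P2) :
    fderiv ℝ (jac F) z v = Stage_bb (fderiv ℝ (fderiv ℝ F) z v) (fderiv ℝ F z) +
      Stage_bb (fderiv ℝ F z) (fderiv ℝ (fderiv ℝ F) z v) := by
  refine fderiv_apply_of_hasDerivAt (differentiableAt_jac h) ?_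
  have h1 : HasDerivAt (fun t : ℝ => z + t • v) v 0 := by
    simpa using ((hasDerivAt_id (0 : ℝ)).smul_const v).const_add z
  have h2 := (Stage_diff_fderiv h).hasFDerivAt.comp_hasDerivAt_of_eq (0 : ℝ) h1 (by simp)
  have h3 : ∀ w : P2, HasDerivAt (fun t : ℝ => fderiv ℝ F (z + t • v) w)
      (fderiv ℝ (fderiv ℝ F) z v w) 0 := fun w => by
    simpa using h2.clm_apply (hasDerivAt_const (0 : ℝ) w)
  have h5 : ∀ w : P2, HasDerivAt (fun t : ℝ => (fderiv ℝ F (z + t • v) w).1)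
      (fderiv ℝ (fderiv ℝ F) z v w).1 0 := fun w =>
    (ContinuousLinearMap.fst ℝ ℝ ℝ).hasFDerivAt.comp_hasDerivAt (0 : ℝ) (h3 w)
  have h6 : ∀ w : P2, HasDerivAt (fun t : ℝ => (fderiv ℝ F (z + t • v) w).2)
      (fderiv ℝ (fderiv ℝ F) z v w).2 0 := fun w =>
    (ContinuousLinearMap.snd ℝ ℝ ℝ).hasFDerivAt.comp_hasDerivAt (0 : ℝ) (h3 w)
  have h4 := ((h5 (1, 0)).fun_mul (h6 (0, 1))).fun_sub ((h5 (0, 1)).fun_mul (h6 (1, 0)))
  rw [Stage_jac_eq]
  unfold Stage_bb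
  simp only [zero_smul, add_zero] at h4
  refine h4.congr_deriv ?_
  ring

/-- The Jacobian determinant and its derivative depend continuously on the map. -/
lemma eventually_jac_close {S : Set P2} {F0 : P2 → P2} (h2 : C2 S F0) {B : ℝ}
    (hB : ∀ z ∈ S, ‖fderiv ℝ F0 z‖ ≤ B ∧ ‖fderiv ℝ (fderiv ℝ F0) z‖ ≤ B) {η : ℝ} (hη : 0 < η) :
    ∀ᶠ F in Near S F0, ∀ z ∈ S, |jac F z - jac F0 z| ≤ η ∧
      ‖fderiv ℝ (jac F) z - fderiv ℝ (jac F0) z‖ ≤ η := by
  have hB' : 0 < 4 * (2 * |B| + 1) := by positivity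
  have hδ : 0 < min 1 (η / (4 * (2 * |B| + 1))) := lt_min one_pos (div_pos hη hB')
  set δ := min 1 (η / (4 * (2 * |B| + 1))) with hδdef
  have hδ1 : δ ≤ 1 := min_le_left _ _
  have hδ2 : δ * (4 * (2 * |B| + 1)) ≤ η := (le_div_iff₀ hB').1 (min_le_right _ _)
  filter_upwards [eventually_cl S F0 hδ] with F hF
  intro z hz
  obtain ⟨b1, b2⟩ := hB z hz
  have hB0 : 0 ≤ B := (norm_nonneg _).trans b1
  rw [abs_of_nonneg hB0] at hδ2
  have d1 := hF.d1 hz
  have d2 := hF.d2 hz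
  have b3 : ‖fderiv ℝ F z‖ ≤ B + 1 := by
    have := norm_le_norm_add_norm_sub' (fderiv ℝ F z) (fderiv ℝ F0 z)
    linarith
  have b4 : ‖fderiv ℝ (fderiv ℝ F) z‖ ≤ B + 1 := by
    have := norm_le_norm_add_norm_sub' (fderiv ℝ (fderiv ℝ F) z) (fderiv ℝ (fderiv ℝ F0) z)
    linarith
  constructor
  · rw [Stage_jac_eq, Stage_jac_eq]
    refine (Stage_bb_sub_le d1 b3 b1 d1).trans ?_
    nlinarith [hδ.le]
  · refine ContinuousLinearMap.opNorm_le_bound _ hη.le fun v => ?_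
    rw [sub_apply, Stage_fderiv_jac (hF.c2 z hz), Stage_fderiv_jac (h2 z hz)]
    have e1 : ‖fderiv ℝ (fderiv ℝ F) z v - fderiv ℝ (fderiv ℝ F0) z v‖ ≤ δ * ‖v‖ :=
      ContinuousLinearMap.le_of_opNorm_le _ d2 v
    have e2 : ‖fderiv ℝ (fderiv ℝ F0) z v‖ ≤ B * ‖v‖ := ContinuousLinearMap.le_of_opNorm_le _ b2 v
    have e3 : ‖fderiv ℝ (fderiv ℝ F) z v‖ ≤ (B + 1) * ‖v‖ :=
      ContinuousLinearMap.le_of_opNorm_le _ b4 v
    have f1 := Stage_bb_sub_le e1 b3 e2 d1
    have f2 := Stage_bb_sub_le d1 e3 b1 e1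
    rw [add_sub_add_comm, Real.norm_eq_abs]
    refine (abs_add_le _ _).trans ((add_le_add f1 f2).trans ?_)
    have hv := norm_nonneg v
    have := mul_le_mul_of_nonneg_right hδ2 hv
    nlinarith

lemma Stage_lint {F : P2 → P2} {D σ h u0 c1 K1 t : ℝ} (h2 : C2 (strip h) F) (hu : 0 < u0)
    (hc : 0 < c1) (H : Tr F D σ h u0 c1 K1) (ht : 0 < t) (ht' : t ≤ u0 / 2) {γ : ℝ → P2}
    (hγ : Cv D (1 / 2) σ h γ) :
    ∫⁻ s in Icc (0 : ℝ) 1, LL t (jac F (γ s)) ≤
      ENNReal.ofReal ((2 * K1 / u0 + 1) * (4 * t / c1)) := by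
  have key : ∀ s ∈ Icc (0 : ℝ) 1,
      HasDerivAt (fun s => jac F (γ s)) (fderiv ℝ (jac F) (γ s) (deriv γ s)) s ∧
      |fderiv ℝ (jac F) (γ s) (deriv γ s)| ≤ K1 ∧
      (|jac F (γ s)| ≤ u0 → c1 ≤ |fderiv ℝ (jac F) (γ s) (deriv γ s)|) := by
    intro s hs
    obtain ⟨a1, v, hv, a2, a3⟩ := hγ s hs
    rw [hv.deriv]
    exact ⟨(differentiableAt_jac (h2 _ a1)).hasFDerivAt.comp_hasDerivAt s hv, H _ a1 v a2 a3⟩
  exact lintegral_LL_le hu hc ht ht' (fun s hs => (key s hs).1) (fun s hs => (key s hs).2.1)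
    (fun s hs => (key s hs).2.2)

lemma e0_of_tr {F0 : P2 → P2} {D σ h u0 c1 K1 J : ℝ} (h2 : C2 (strip h) F0) (hu : 0 < u0)
    (hc : 0 < c1) (hK : 0 ≤ K1) (hJ : u0 ≤ J) (H : Tr F0 D σ h u0 c1 K1) :
    E0 F0 D σ h J (Real.log (2 * J / u0) + (4 * K1 + 2 * u0) / c1) := by
  intro ε hε t ht
  refine ⟨1 / 2, by norm_num, fun γ hγ => ?_⟩
  have hJ0 : 0 < J := hu.trans_le hJ
  have h1 := Stage_lint h2 hu hc H (half_pos hu) le_rfl hγ
  have hl : 0 ≤ Real.log (2 * J / u0) := Real.log_nonneg (by rw [le_div_iff₀ hu]; linarith)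
  have h3 : ∀ x : ℝ, ENNReal.ofReal (Real.log (J / max |x| t)) ≤
      ENNReal.ofReal (Real.log (2 * J / u0)) + LL (u0 / 2) x := by
    intro x
    refine (ofReal_log_le_LL hJ0 ht x).trans ((LL_le_add hJ0 (half_pos hu) x).trans ?_)
    have hm : u0 / 2 ≤ max |x| (u0 / 2) := le_max_right _ _
    have hm' : 0 < max |x| (u0 / 2) := (half_pos hu).trans_le hm
    refine add_le_add (ENNReal.ofReal_le_ofReal (Real.log_le_log (by positivity) ?_)) le_rfl
    rw [div_le_div_iff₀ hm' hu]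
    nlinarith
  refine (lintegral_mono fun s => h3 _).trans ?_
  rw [lintegral_add_left measurable_const]
  simp only [lintegral_const, MeasurableSet.univ, Measure.restrict_apply, univ_inter,
    Real.volume_Icc, sub_zero, ENNReal.ofReal_one, mul_one]
  refine (add_le_add le_rfl h1).trans ?_
  rw [← ENNReal.ofReal_add hl (by positivity)]
  refine ENNReal.ofReal_le_ofReal ?_
  have : (2 * K1 / u0 + 1) * (4 * (u0 / 2) / c1) = (4 * K1 + 2 * u0) / c1 := by
    field_simp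
    ring
  rw [this]
  linarith

lemma Stage_log {J t x y η : ℝ} (hJ : 0 < J) (ht : 0 < t) (h : |x - y| ≤ η) :
    Real.log (J / max |x| t) ≤ Real.log (J / max |y| t) + η / t := by
  have hx : t ≤ max |x| t := le_max_right _ _
  have hy : t ≤ max |y| t := le_max_right _ _
  have hx' := ht.trans_le hx
  have hy' := ht.trans_le hy
  have hη : 0 ≤ η := (abs_nonneg _).trans h
  have h1 : max |y| t ≤ max |x| t + η := by
    have := abs_sub_abs_le_abs_sub y x
    rw [abs_sub_comm] at this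
    have := le_max_left |x| t
    exact max_le (by linarith) (by linarith)
  have h2 := Real.log_le_sub_one_of_pos (div_pos hy' hx')
  rw [Real.log_div hy'.ne' hx'.ne'] at h2
  rw [Real.log_div hJ.ne' hx'.ne', Real.log_div hJ.ne' hy'.ne']
  have h3 : max |y| t / max |x| t - 1 ≤ η / t := by
    rw [div_sub_one hx'.ne']
    exact div_le_div₀ hη (by linarith) ht hx
  linarith

lemma Stage_norm_le {D σ : ℝ} (hD : 0 ≤ D) (hσ : 0 ≤ σ) {v : P2} (h1 : |v.1 - D| ≤ 1 / 2)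
    (h2 : |v.2| ≤ σ) : |v.1| ≤ D + 1 ∧ ‖v‖ ≤ D + 1 + σ := by
  have h3 : |v.1| ≤ D + 1 := by
    rw [abs_le] at h1 ⊢
    constructor <;> linarith [h1.1, h1.2]
  refine ⟨h3, ?_⟩
  rw [Prod.norm_def, Real.norm_eq_abs, Real.norm_eq_abs]
  exact max_le (by linarith) (by linarith)

lemma Stage_exists_small {N c : ℝ} (hN : 0 < N) (hc : 0 < c) :
    ∀ᶠ η in 𝓝[>] (0 : ℝ), η * N ≤ c := by
  have : ∀ᶠ η in 𝓝 (0 : ℝ), η ≤ c / N := eventually_le_nhds (div_pos hc hN)
  filter_upwards [nhdsWithin_le_nhds this] with η hη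
  exact (le_div_iff₀ hN).1 hη

theorem pack_stage {F0 : P2 → P2} {a : ℕ} {D σ h h' α β u0 c1 K1 J e : ℝ} (H : Sk F0 a h h' α β)
    (hD : 0 ≤ D) (hσ : 0 ≤ σ) (hu : 0 < u0) (hc : 0 < c1) (hT : Tr F0 D σ h u0 c1 K1)
    (hJ : a * β < J) (he : 0 ≤ e) (hE : E0 F0 D σ h J e) :
    Pack (SN a h F0) F0 a D σ h (α * (D + 1) + β * σ + 1) h' α β J e := by
  have h0 : ((0, 0) : P2) ∈ strip h := by simpa [strip] using H.h_nonneg
  have hα : 0 ≤ α := (abs_nonneg _).trans (H.d1 _ h0)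
  have hβ : 0 ≤ β := (abs_nonneg _).trans (H.d2 _ h0)
  have hK : 0 ≤ K1 := (abs_nonneg _).trans (hT _ h0 (D, 0) (by simp) (by simpa using hσ)).1
  have ha : (0 : ℝ) ≤ a := Nat.cast_nonneg a
  have hJ0 : 0 < J := lt_of_le_of_lt (by positivity) hJ
  have hN : 0 < D + 1 + σ := by positivity
  refine ⟨H, le_rfl, hJ0, he, fun ε hε ρ' hρ' => ?_⟩
  obtain ⟨B, -, hB⟩ := H.exists_bound
  obtain ⟨t, ⟨t1, t2⟩, ht⟩ := (((Stage_exists_small (N := 1) one_pos (half_pos (half_pos hu))).and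
    (Stage_exists_small (N := (2 * (K1 + 1) / (u0 / 2) + 1) * (4 / (c1 / 2))) (c := ε / 3)
      (by positivity) (by positivity))).and self_mem_nhdsWithin).exists
  have ht : 0 < t := ht
  rw [mul_one] at t1
  obtain ⟨ρ1, hρ1, hE1⟩ := hE (ε / 3) (by positivity) t ht
  obtain ⟨ρ, ⟨⟨r1, r2⟩, r3⟩, hρ⟩ := ((((Stage_exists_small (N := 1) one_pos hρ1).and
    (Stage_exists_small (N := 1) (c := 1 / 2) one_pos (by norm_num))).and
    (Stage_exists_small (N := (a : ℝ) + 1) (by positivity) (half_pos hρ'))).and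
    self_mem_nhdsWithin).exists
  have hρ : 0 < ρ := hρ
  rw [mul_one] at r1 r2
  obtain ⟨η, ⟨⟨⟨⟨⟨⟨e1, e2⟩, e3⟩, e4⟩, e5⟩, e6⟩, e7⟩, hη⟩ :=
    ((((((((Stage_exists_small (N := 1) (c := ε / 3 * t) one_pos (by positivity)).and
    (Stage_exists_small (N := 1) one_pos (half_pos hu))).and
    (Stage_exists_small hN one_pos)).and
    (Stage_exists_small hN (half_pos hc))).and
    (Stage_exists_small (N := 1) one_pos (sub_pos.2 hJ))).and
    (Stage_exists_small (N := 1) one_pos one_pos)).and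
    (Stage_exists_small hN (half_pos hρ'))).and self_mem_nhdsWithin).exists
  have hη : 0 < η := hη
  rw [mul_one] at e1 e2 e5 e6
  refine ⟨t, ht, ρ, hρ, ?_⟩
  refine Eventually.filter_mono inf_le_left ?_
  filter_upwards [eventually_jac_close H.c2 hB hη, eventually_cl (strip h) F0 hη] with F hj hF
  have hdF : ∀ z ∈ strip h, DifferentiableAt ℝ F z := fun z hz =>
    (hF.c2 z hz).differentiableAt two_ne_zero
  have hht : ∀ z ∈ strip h, F z ∈ strip h' := by
    intro z hz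
    have k1 := H.ht z hz
    have k2 : |(F z).2 - (F0 z).2| ≤ η := (norm_snd_le (F z - F0 z)).trans (hF.val hz)
    have k3 := abs_sub_abs_le_abs_sub (F z).2 (F0 z).2
    show |(F z).2| ≤ h'
    linarith
  have hTF : Tr F D σ h (u0 / 2) (c1 / 2) (K1 + 1) := by
    intro z hz v v1 v2
    obtain ⟨k1, k2⟩ := hT z hz v v1 v2
    obtain ⟨k3, k4⟩ := hj z hz
    have k5 : |fderiv ℝ (jac F) z v - fderiv ℝ (jac F0) z v| ≤ η * (D + 1 + σ) := by
      exact (ContinuousLinearMap.le_of_opNorm_le _ k4 v).trans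
        (mul_le_mul_of_nonneg_left (Stage_norm_le hD hσ v1 v2).2 hη.le)
    have k6 := abs_sub_abs_le_abs_sub (fderiv ℝ (jac F) z v) (fderiv ℝ (jac F0) z v)
    have k7 := abs_sub_abs_le_abs_sub (fderiv ℝ (jac F0) z v) (fderiv ℝ (jac F) z v)
    have k8 := abs_sub_abs_le_abs_sub (jac F0 z) (jac F z)
    rw [abs_sub_comm] at k7 k8
    refine ⟨by linarith, fun k9 => ?_⟩
    have := k2 (by linarith)
    linarith
  have hav : ∀ γ, Cv D ρ σ h γ →
      ∫⁻ s in Icc (0 : ℝ) 1, LL t (jac F (γ s)) ≤ ENNReal.ofReal (ε / 3) := by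
    intro γ hγ
    refine (Stage_lint hF.c2 (half_pos hu) (half_pos hc) hTF ht t1
      (hγ.mono r2 le_rfl le_rfl)).trans (ENNReal.ofReal_le_ofReal (le_trans (le_of_eq ?_) t2))
    ring
  refine ⟨fun z hz => ⟨hdF z hz, ?_, hht z hz⟩, fun γ hγ s hs => ?_, fun γ hγ => ?_,
    fun γ hγ => (hav γ hγ).trans (ENNReal.ofReal_le_ofReal (by linarith))⟩
  · have k1 := (hj z hz).1
    have k2 := abs_sub_abs_le_abs_sub (jac F z) (jac F0 z)
    have k3 : |jac F0 z| ≤ a * β := by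
      rw [H.jac_eq hz, abs_mul, abs_of_nonneg ha]
      exact mul_le_mul_of_nonneg_left (H.d2 z hz) ha
    linarith
  · obtain ⟨a1, v, hv, a2, a3⟩ := hγ s hs
    obtain ⟨n1, n2⟩ := Stage_norm_le hD hσ (a2.trans r2) a3
    refine ⟨hht _ a1, fderiv ℝ F (γ s) v, (hdF _ a1).hasFDerivAt.comp_hasDerivAt s hv, ?_, ?_⟩
    all_goals
      have k1 : ‖fderiv ℝ F (γ s) v - fderiv ℝ F0 (γ s) v‖ ≤ η * (D + 1 + σ) := by
        exact (ContinuousLinearMap.le_of_opNorm_le _ (hF.d1 a1) v).trans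
          (mul_le_mul_of_nonneg_left n2 hη.le)
    · have k2 : |(fderiv ℝ F (γ s) v).1 - (fderiv ℝ F0 (γ s) v).1| ≤ η * (D + 1 + σ) :=
        (norm_fst_le (fderiv ℝ F (γ s) v - fderiv ℝ F0 (γ s) v)).trans k1
      rw [H.fderiv_fst a1] at k2
      have k3 : |a * v.1 - a * D| ≤ a * ρ := by
        rw [← mul_sub, abs_mul, abs_of_nonneg ha]
        exact mul_le_mul_of_nonneg_left a2 ha
      have k4 := abs_sub_le (fderiv ℝ F (γ s) v).1 (a * v.1) (a * D)
      nlinarith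
    · have k2 : |(fderiv ℝ F (γ s) v).2 - (fderiv ℝ F0 (γ s) v).2| ≤ η * (D + 1 + σ) :=
        (norm_snd_le (fderiv ℝ F (γ s) v - fderiv ℝ F0 (γ s) v)).trans k1
      have k3 : |(fderiv ℝ F0 (γ s) v).2| ≤ (D + 1) * α + σ * β := by
        rw [clm_apply_eq]
        simp only [Prod.snd_add, Prod.smul_snd, smul_eq_mul]
        refine (abs_add_le _ _).trans ?_
        rw [abs_mul, abs_mul]
        exact add_le_add (mul_le_mul n1 (H.d1 _ a1) (abs_nonneg _) (by positivity))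
          (mul_le_mul a3 (H.d2 _ a1) (abs_nonneg _) hσ)
      have k4 := abs_sub_abs_le_abs_sub (fderiv ℝ F (γ s) v).2 (fderiv ℝ F0 (γ s) v).2
      linarith
  · have k1 := hE1 γ (hγ.mono r1 le_rfl le_rfl)
    have k2 := hav γ hγ
    have k3 : ∀ s ∈ Icc (0 : ℝ) 1, LL J (jac F (γ s)) ≤
        (ENNReal.ofReal (ε / 3) + ENNReal.ofReal (Real.log (J / max |jac F0 (γ s)| t))) +
          LL t (jac F (γ s)) := by
      intro s hs
      refine (LL_le_add hJ0 ht _).trans (add_le_add ?_ le_rfl)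
      refine le_trans (ENNReal.ofReal_le_ofReal ?_) ENNReal.ofReal_add_le
      have k4 := Stage_log hJ0 ht (hj _ (hγ s hs).1).1
      have k5 : η / t ≤ ε / 3 := (div_le_iff₀ ht).2 e1
      linarith
    refine (setLIntegral_mono' measurableSet_Icc k3).trans ?_
    have k4 : AEMeasurable (fun s => LL t (jac F (γ s))) (volume.restrict (Icc 0 1)) :=
      ((measurable_LL t).comp (measurable_jac F)).comp_aemeasurable hγ.aemeasurable
    rw [lintegral_add_right' _ k4, lintegral_add_left measurable_const]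
    simp only [lintegral_const, MeasurableSet.univ, Measure.restrict_apply, univ_inter,
      Real.volume_Icc, sub_zero, ENNReal.ofReal_one, mul_one]
    refine (add_le_add (add_le_add le_rfl k1) k2).trans ?_
    rw [← ENNReal.ofReal_add (by positivity) (by positivity),
      ← ENNReal.ofReal_add (by positivity) (by positivity)]
    exact ENNReal.ofReal_le_ofReal (by linarith)

/-- Scaling of the fibres. -/
def lin (b : ℝ) (z : P2) : P2 := (z.1, b * z.2)

lemma pack_lin {b D σ h : ℝ} (hb : 0 < b) (hD : 0 ≤ D) (hσ : 0 ≤ σ) (hh : 0 ≤ h) :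
    Pack (SN 1 h (lin b)) (lin b) 1 D σ h (b * σ + 1) (b * h + 1) 0 b (2 * b) (Real.log 2) := by
  have hd : ∀ z, HasFDerivAt (lin b)
      ((ContinuousLinearMap.fst ℝ ℝ ℝ).prod (b • ContinuousLinearMap.snd ℝ ℝ ℝ)) z := fun z =>
    hasFDerivAt_fst.prodMk (hasFDerivAt_snd.const_mul b)
  have hS : Sk (lin b) 1 h (b * h + 1) 0 b := by
    refine ⟨hh, fun z => by simp [lin], fun z _ => ?_, ⟨0, fun z => by simp [lin]⟩,
      fun z hz => ?_, fun z _ => ?_, fun z _ => ?_⟩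
    · unfold lin
      fun_prop
    · have : |z.2| ≤ h := hz
      simp only [lin, abs_mul, abs_of_pos hb, add_sub_cancel_right]
      exact mul_le_mul_of_nonneg_left this hb.le
    · simp [(hd z).fderiv]
    · simp [(hd z).fderiv, abs_of_pos hb]
  have hj : jac (lin b) = fun _ => b := by
    funext z
    simp [jac, det_eq, (hd z).fderiv]
  have hT : Tr (lin b) D σ h (b / 2) 1 0 := by
    intro z _ v _ _
    rw [hj, abs_of_pos hb]
    exact ⟨by simp, fun k => by linarith⟩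
  have hE : E0 (lin b) D σ h (2 * b) (Real.log 2) := by
    intro ε hε t ht
    refine ⟨1, one_pos, fun γ _ => ?_⟩
    rw [hj]
    simp only [lintegral_const, MeasurableSet.univ, Measure.restrict_apply, univ_inter,
      Real.volume_Icc, sub_zero, ENNReal.ofReal_one, mul_one, abs_of_pos hb]
    refine ENNReal.ofReal_le_ofReal ?_
    have h1 : b ≤ max b t := le_max_left _ _
    have h2 := hb.trans_le h1
    have : Real.log (2 * b / max b t) ≤ Real.log 2 := by
      refine Real.log_le_log (by positivity) ?_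
      rw [div_le_iff₀ h2]
      linarith
    linarith
  have := pack_stage hS hD hσ (half_pos hb) one_pos hT (J := 2 * b) (by push_cast; linarith)
    (Real.log_nonneg one_le_two) hE
  simpa using this

end

end Pool.Agent.Work.MP_14af4f_an
end

-- merged part: Pool.Agent.Work.MP_14af4f_an.Lift
section
/-!
Lifts of planar maps near the unit circle.
-/

open Set Filter Topology Real

namespace Pool.Agent.Work.MP_14af4f_an

noncomputable section

/-- Coordinates in a thin annulus around the unit circle. -/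
def Psi (w : ℝ) (z : P2) : P2 :=
  (√(1 + w * z.2) * cos (2 * π * z.1), √(1 + w * z.2) * sin (2 * π * z.1))

/-- Rotation by the angle `-θ`. -/
def rt (θ : ℝ) (p : P2) : P2 := (p.1 * cos θ + p.2 * sin θ, -p.1 * sin θ + p.2 * cos θ)

/-- The lift of a planar map. -/
def lift (w : ℝ) (a : ℕ) (b : ℝ) (G : P2 → P2) (z : P2) : P2 :=
  (a * z.1 + b + arctan ((rt (2 * π * (a * z.1 + b)) (G (Psi w z))).2 /
      (rt (2 * π * (a * z.1 + b)) (G (Psi w z))).1) / (2 * π),
    ((G (Psi w z)).1 ^ 2 + (G (Psi w z)).2 ^ 2 - 1) / w)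

/-- Filters of lifts of realisable maps in all thin annuli. -/
def LRz (h : ℝ) (𝓕 : Filter (P2 → P2)) : Prop :=
  ∀ S ∈ 𝓕, ∀ᶠ w in 𝓝[>] (0 : ℝ),
    Rz (𝓟 {G | ∃ F ∈ S, ∀ z ∈ strip h, Psi w (F z) = G (Psi w z)})

lemma continuous_Psi (w : ℝ) : Continuous (Psi w) := by
  unfold Psi
  fun_prop

lemma Psi_per (w : ℝ) (z : P2) : Psi w (z + (1, 0)) = Psi w z := by
  have e : 2 * π * (z.1 + 1) = 2 * π * z.1 + 2 * π := by ring
  simp only [Psi, Prod.fst_add, Prod.snd_add, add_zero, e, cos_add_two_pi, sin_add_two_pi]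

lemma contDiffAt_Psi_param {w : ℝ} {z : P2} (h : 0 < 1 + w * z.2) {n : WithTop ℕ∞} :
    ContDiffAt ℝ n (fun p : ℝ × P2 => Psi p.1 p.2) (w, z) := by
  have h1 : ContDiffAt ℝ n (fun p : ℝ × P2 => √(1 + p.1 * p.2.2)) (w, z) :=
    ContDiffAt.sqrt (by fun_prop) h.ne'
  have h2 : ContDiffAt ℝ n (fun p : ℝ × P2 => 2 * π * p.2.1) (w, z) := by fun_prop
  exact (h1.mul h2.cos).prodMk (h1.mul h2.sin)

lemma contDiffAt_Psi {w : ℝ} {z : P2} (h : 0 < 1 + w * z.2) {n : WithTop ℕ∞} :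
    ContDiffAt ℝ n (Psi w) z := by
  have h1 : ContDiffAt ℝ n (fun y : P2 => ((w, y) : ℝ × P2)) z := by fun_prop
  exact (contDiffAt_Psi_param h).comp z h1

lemma det_fderiv_Psi {w : ℝ} {z : P2} (h : 0 < 1 + w * z.2) :
    (fderiv ℝ (Psi w) z).det = -(π * w) := by
  have h1 : HasFDerivAt (fun y : P2 => 1 + w * y.2) (w • ContinuousLinearMap.snd ℝ ℝ ℝ) z :=
    ((hasFDerivAt_snd (p := z)).const_mul w).const_add 1
  have h2 : HasFDerivAt (fun y : P2 => 2 * π * y.1) ((2 * π) • ContinuousLinearMap.fst ℝ ℝ ℝ) z :=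
    (hasFDerivAt_fst (p := z)).const_mul (2 * π)
  have h3 := h1.sqrt h.ne'
  have h4 := (h3.mul h2.cos).prodMk (h3.mul h2.sin)
  have h5 : fderiv ℝ (Psi w) z = _ := h4.fderiv
  have h6 : 0 < √(1 + w * z.2) := Real.sqrt_pos.2 h
  rw [h5, det_eq]
  simp
  field_simp
  linear_combination (-w) * sin_sq_add_cos_sq (2 * π * z.1)

lemma Psi_sq {w : ℝ} {z : P2} (h : 0 ≤ 1 + w * z.2) :
    (Psi w z).1 ^ 2 + (Psi w z).2 ^ 2 = 1 + w * z.2 := by
  simp only [Psi, mul_pow, Real.sq_sqrt h]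
  linear_combination (1 + w * z.2) * sin_sq_add_cos_sq (2 * π * z.1)

lemma Lift_rt_per (w : ℝ) (a : ℕ) (b : ℝ) (G : P2 → P2) (z : P2) :
    rt (2 * π * (a * (z + (1, 0)).1 + b)) (G (Psi w z))
      = rt (2 * π * (a * z.1 + b)) (G (Psi w z)) := by
  have e : 2 * π * (a * (z + (1, 0)).1 + b) = 2 * π * (a * z.1 + b) + a * (2 * π) := by
    simp only [Prod.fst_add]; ring
  simp only [rt, e, cos_add_nat_mul_two_pi, sin_add_nat_mul_two_pi]

lemma per_lift (w : ℝ) (a : ℕ) (b : ℝ) (G : P2 → P2) : Per a (lift w a b G) := by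
  intro z
  have h := Lift_rt_per w a b G z
  simp only [Prod.fst_add] at h
  simp only [lift, Prod.fst_add, h, Psi_per]
  refine Prod.ext ?_ ?_
  · simp only [Prod.fst_add]; ring
  · simp only [Prod.snd_add, add_zero]

lemma Psi_lift {w : ℝ} (hw : w ≠ 0) {a : ℕ} {b : ℝ} {G : P2 → P2} {z : P2}
    (h : 0 < (rt (2 * π * (a * z.1 + b)) (G (Psi w z))).1) :
    Psi w (lift w a b G z) = G (Psi w z) := by
  set θ := 2 * π * (a * z.1 + b) with hθ
  set g := G (Psi w z) with hg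
  set u := (rt θ g).1 with hu
  set v := (rt θ g).2 with hv
  have hu' : u = g.1 * cos θ + g.2 * sin θ := rfl
  have hv' : v = -g.1 * sin θ + g.2 * cos θ := rfl
  have e1 : 2 * π * (lift w a b G z).1 = θ + arctan (v / u) := by
    simp only [lift, ← hθ, ← hg, ← hu, ← hv]
    rw [hθ]
    field_simp
  have e2 : 1 + w * (lift w a b G z).2 = u ^ 2 * (1 + (v / u) ^ 2) := by
    simp only [lift, ← hg]
    field_simp
    rw [hu', hv']
    linear_combination (-g.1 ^ 2 - g.2 ^ 2) * sin_sq_add_cos_sq θ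
  have hs : 0 < √(1 + (v / u) ^ 2) := Real.sqrt_pos.2 (by positivity)
  have e3 : √(1 + w * (lift w a b G z).2) = u * √(1 + (v / u) ^ 2) := by
    rw [e2, Real.sqrt_mul (sq_nonneg u), Real.sqrt_sq h.le]
  have e4 : u * √(1 + (v / u) ^ 2) * cos (arctan (v / u)) = u := by
    rw [cos_arctan]; field_simp
  have e5 : u * √(1 + (v / u) ^ 2) * sin (arctan (v / u)) = v := by
    rw [sin_arctan]; field_simp
  unfold Psi
  rw [e1, e3, cos_add, sin_add]
  refine Prod.ext ?_ ?_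
  · show _ = g.1
    linear_combination cos θ * e4 - sin θ * e5 + cos θ * hu' - sin θ * hv'
      + g.1 * sin_sq_add_cos_sq θ
  · show _ = g.2
    linear_combination sin θ * e4 + cos θ * e5 + sin θ * hu' + cos θ * hv'
      + g.2 * sin_sq_add_cos_sq θ

lemma LRz.mono {h : ℝ} {𝓕 𝓖 : Filter (P2 → P2)} (H : LRz h 𝓕) (hle : 𝓕 ≤ 𝓖) : LRz h 𝓖 := by
  exact fun S hS => H S (hle hS)

lemma LRz.comp {h h' : ℝ} {𝓕 𝓖 : Filter (P2 → P2)} (H : LRz h 𝓕) (H' : LRz h' 𝓖)
    (hm : ∀ᶠ F in 𝓕, MapsTo F (strip h) (strip h')) : LRz h (fc 𝓕 𝓖) := by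
  intro S hS
  obtain ⟨A, hA, B, hB, hAB⟩ := mem_fc.1 hS
  filter_upwards [H _ (inter_mem hA hm), H' B hB] with w h1 h2
  refine (h1.comp h2).mono (le_principal_iff.2 (mem_fc.2 ⟨_, mem_principal_self _, _,
    mem_principal_self _, ?_⟩))
  rintro G1 ⟨F1, ⟨hF1, hF1'⟩, e1⟩ G2 ⟨F2, hF2, e2⟩
  refine ⟨F2 ∘ F1, hAB F1 hF1 F2 hF2, fun z hz => ?_⟩
  simp only [Function.comp]
  rw [e2 _ (hF1' hz), e1 z hz]

lemma Lift_mem_sq {w : ℝ} {z : P2} (h0 : 0 ≤ 1 + w * z.2) (h1 : 1 + w * z.2 < 4) :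
    Psi w z ∈ interior (sq 2) := by
  refine Metric.ball_subset_interior_closedBall ?_
  have h2 := Psi_sq h0
  rw [mem_ball_zero_iff, Prod.norm_def, max_lt_iff, Real.norm_eq_abs, Real.norm_eq_abs]
  constructor <;> refine abs_lt_of_sq_lt_sq ?_ (by norm_num) <;>
    nlinarith [sq_nonneg (Psi w z).1, sq_nonneg (Psi w z).2]

/-- The lift depends continuously on the map. -/
lemma Lift_near {h w b : ℝ} {a : ℕ} {G : P2 → P2} {S : Set (P2 → P2)} (hw : 0 < w)
    (hw' : w * (h + 1) < 1 / 2) (hG : ContDiff ℝ 2 G)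
    (hpos : ∀ z ∈ cdom h, 0 < (rt (2 * π * (a * z.1 + b)) (G (Psi w z))).1)
    (hS : S ∈ SN a h (lift w a b G)) :
    {G' | ∃ F ∈ S, ∀ z ∈ strip h, Psi w (F z) = G' (Psi w z)} ∈ Near (sq 2) G := by
  have hK := isCompact_cdom h
  have hb : ∀ z ∈ cdom h, 0 < 1 + w * z.2 ∧ 1 + w * z.2 < 4 := fun z hz => by
    obtain ⟨k1, k2⟩ := hz.2
    constructor <;> nlinarith
  have c1 : C2 (cdom h) (Psi w) := fun z hz => contDiffAt_Psi (hb z hz).1
  have c2 : C2 (cdom h) (G ∘ Psi w) := fun z hz => hG.contDiffAt.comp z (c1 z hz)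
  have c3 : C2 (cdom h) (fun z : P2 => z) := c2_of_contDiff contDiff_id _
  have c4 : C2 (cdom h) (fun z : P2 => (z, (G ∘ Psi w) z)) := fun z hz =>
    (c3 z hz).prodMk (c2 z hz)
  have t1 : Tendsto (fun G' : P2 → P2 => G' ∘ Psi w) (Near (sq 2) G)
      (Near (cdom h) (G ∘ Psi w)) :=
    tendsto_near_comp hK c1 (c2_of_contDiff hG _)
      (fun z hz => Lift_mem_sq (hb z hz).1.le (hb z hz).2) (tendsto_near_fixed c1) tendsto_id
  have t2 := tendsto_near_prod c3 c2 (tendsto_near_fixed c3) t1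
  have r1 : ContDiff ℝ 2 (fun q : P2 × P2 => rt (2 * π * (a * q.1.1 + b)) q.2) := by
    unfold rt
    fun_prop
  have t3 := tendsto_near_comp_left hK (g := fun q : P2 × P2 =>
    ((a * q.1.1 + b + arctan ((rt (2 * π * (a * q.1.1 + b)) q.2).2 /
      (rt (2 * π * (a * q.1.1 + b)) q.2).1) / (2 * π), (q.2.1 ^ 2 + q.2.2 ^ 2 - 1) / w) : P2)) c4
    (fun z hz => by
      have h3 := (r1.contDiffAt.snd.div r1.contDiffAt.fst
        (x := (z, (G ∘ Psi w) z)) (hpos z hz).ne').arctan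
      have h4 : ContDiffAt ℝ 2 (fun q : P2 × P2 => a * q.1.1 + b) (z, (G ∘ Psi w) z) := by
        fun_prop
      exact (h4.add (h3.div_const _)).prodMk (by fun_prop)) t2
  have t4 : Tendsto (fun G' => lift w a b G') (Near (sq 2) G) (SN a h (lift w a b G)) :=
    tendsto_sn (per_lift w a b G) (Eventually.of_forall fun G' => per_lift w a b G') t3
  have hU : IsOpen {q : P2 × P2 | 0 < (rt (2 * π * (a * q.1.1 + b)) q.2).1} :=
    isOpen_lt continuous_const r1.continuous.fst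
  filter_upwards [t4.eventually hS, t2.eventually (eventually_mapsTo hK c4 hU hpos)]
    with G' h1 h2
  refine ⟨_, h1, fun z hz => Psi_lift hw.ne' ?_⟩
  have h3 := per_int (h := h) (c := 0)
    (f := fun z : P2 => (rt (2 * π * (a * z.1 + b)) (G' (Psi w z))).1)
    (fun y _ => by rw [Psi_per, Lift_rt_per, add_zero]) ⌊z.1⌋
    (cdom_subset_strip h (dom_subset_cdom h (red_mem_dom hz)))
  rw [red_add_floor, smul_zero, add_zero] at h3
  rw [h3]
  exact h2 (dom_subset_cdom h (red_mem_dom hz))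

/-- The lifts of a family of realisable maps converge to a skew product. -/
theorem lrz_of_param {h : ℝ} (hh : 0 ≤ h) {a : ℕ} {b : ℝ} {G : ℝ → P2 → P2} {F0 : P2 → P2}
    {P : ℝ × P2 → P2 × ℝ} (hG : ∀ᶠ w in 𝓝[>] (0 : ℝ), Rl (G w)) (h0 : Per a F0)
    (hP : ∀ z ∈ strip (h + 1), ContDiffAt ℝ 2 P (0, z))
    (hw : ∀ᶠ w in 𝓝[>] (0 : ℝ), ∀ z ∈ strip (h + 1),
      rt (2 * π * (a * z.1 + b)) (G w (Psi w z)) = (P (w, z)).1 ∧
        ((G w (Psi w z)).1 ^ 2 + (G w (Psi w z)).2 ^ 2 - 1) / w = (P (w, z)).2)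
    (hF : ∀ z ∈ strip (h + 1), (P (0, z)).1 = (1, 0) ∧ F0 z = (a * z.1 + b, (P (0, z)).2)) :
    LRz h (SN a h F0) := by
  intro S hS
  have hK := isCompact_cdom h
  have hsub : ∀ z ∈ cdom h, z ∈ strip (h + 1) := fun z hz =>
    strip_mono (by linarith) (cdom_subset_strip h hz)
  have hnh : ∀ z ∈ cdom h, strip (h + 1) ∈ 𝓝 z := fun z hz =>
    strip_mem_nhds (lt_of_le_of_lt (cdom_subset_strip h hz) (by linarith))
  have hl : Tendsto (fun w : ℝ => w) (𝓝[>] (0 : ℝ)) (𝓝 0) := tendsto_id.mono_left nhdsWithin_le_nhds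
  have t1 := tendsto_near_param hK (Φ := fun p : ℝ × P2 =>
    ((a * p.2.1 + b + arctan ((P p).1.2 / (P p).1.1) / (2 * π), (P p).2) : P2))
    (fun z hz => by
      have h1 := hP z (hsub z hz)
      have h2 : (P (0, z)).1.1 ≠ 0 := by rw [(hF z (hsub z hz)).1]; norm_num
      have h3 : ContDiffAt ℝ 2 (fun p => arctan ((P p).1.2 / (P p).1.1)) (0, z) :=
        (h1.fst.snd.div h1.fst.fst h2).arctan
      have h4 : ContDiffAt ℝ 2 (fun p : ℝ × P2 => a * p.2.1 + b) (0, z) := by fun_prop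
      exact (h4.add (h3.div_const _)).prodMk h1.snd) hl
  rw [near_congr (g' := F0) (fun z hz => by
    filter_upwards [hnh z hz] with y hy
    rw [(hF y hy).2, (hF y hy).1]
    simp)] at t1
  have t2 : Tendsto (fun w => lift w a b (G w)) (𝓝[>] (0 : ℝ)) (SN a h F0) := by
    refine tendsto_sn h0 (Eventually.of_forall fun w => per_lift w a b (G w))
      (tendsto_near_congr t1 ?_)
    filter_upwards [hw] with w hw z hz
    filter_upwards [hnh z hz] with y hy
    simp only [lift, (hw y hy).1, (hw y hy).2]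
  have p1 : ∀ᶠ w in 𝓝 (0 : ℝ), ∀ z ∈ cdom h, 0 < (P (w, z)).1.1 := by
    refine hK.eventually_forall_of_forall_eventually fun z hz => ?_
    have h1 := (hP z (hsub z hz)).continuousAt.fst.fst
    refine h1.eventually (lt_mem_nhds ?_)
    show 0 < (P (0, z)).1.1
    rw [(hF z (hsub z hz)).1]
    norm_num
  have p2 : ∀ᶠ w in 𝓝 (0 : ℝ), w * (h + 1) < 1 / 2 := by
    have : ContinuousAt (fun w : ℝ => w * (h + 1)) 0 := by fun_prop
    exact this.eventually (gt_mem_nhds (by norm_num))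
  filter_upwards [t2.eventually (eventually_mem_sn hS), hG, hw, hl.eventually p1,
    hl.eventually p2, self_mem_nhdsWithin] with w h1 h2 h3 h4 h5 h6
  refine (h2.rz _ (isCompact_sq 2)).mono (le_principal_iff.2 ?_)
  exact Lift_near h6 h5 h2.smooth (fun z hz => by rw [(h3 z (hsub z hz)).1]; exact h4 z hz) h1

end

end Pool.Agent.Work.MP_14af4f_an
end

-- merged part: Pool.Agent.Work.MP_14af4f_an.Gen
section
/-!
More realisable maps.
-/

open Set Filter Topology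
open scoped ContDiff

namespace Pool.Agent.Work.MP_14af4f_an

lemma Gen_contDiff_integral (n : ℕ) : ∀ (F : Type) [NormedAddCommGroup F] [NormedSpace ℝ F]
    [CompleteSpace F] (f : P2 × ℝ → F), ContDiff ℝ n f →
    ContDiff ℝ n fun x : P2 => ∫ t in (0 : ℝ)..1, f (x, t) := by
  induction n with
  | zero =>
    intro F _ _ _ f hf
    have hc : Continuous f := hf.continuous
    rw [Nat.cast_zero, contDiff_zero]
    exact intervalIntegral.continuous_parametric_intervalIntegral_of_continuous'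
      (f := fun x t => f (x, t)) hc 0 1
  | succ n ih =>
    intro F _ _ _ f hf
    have hc : Continuous f := hf.continuous
    have hf' : ContDiff ℝ ((n : WithTop ℕ∞) + 1) f := by exact_mod_cast hf
    have hd : Differentiable ℝ f := hf'.differentiable (by simp)
    let f' : P2 × ℝ → P2 →L[ℝ] F := fun z => (fderiv ℝ f z).comp (ContinuousLinearMap.inl ℝ P2 ℝ)
    have hf'c : ContDiff ℝ n f' :=
      (hf'.fderiv_right (m := n) le_rfl).clm_comp contDiff_const
    have hc' : Continuous f' := hf'c.continuous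
    rw [Nat.cast_succ, contDiff_succ_iff_hasFDerivAt]
    refine ⟨fun x => ∫ t in (0 : ℝ)..1, f' (x, t), ih _ f' hf'c, fun x => ?_⟩
    obtain ⟨C, hC⟩ := ((isCompact_closedBall x 1).prod (isCompact_uIcc (a := (0 : ℝ))
      (b := 1))).exists_bound_of_continuousOn hc'.continuousOn
    refine intervalIntegral.hasFDerivAt_integral_of_dominated_of_fderiv_le
      (F := fun x t => f (x, t)) (F' := fun x t => f' (x, t)) (bound := fun _ => C)
      (Metric.closedBall_mem_nhds x one_pos) ?_ ?_ ?_ ?_ ?_ ?_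
    · exact Eventually.of_forall fun y =>
        (hc.comp (Continuous.prodMk_right y)).aestronglyMeasurable
    · exact (hc.comp (Continuous.prodMk_right x)).intervalIntegrable _ _
    · exact (hc'.comp (Continuous.prodMk_right x)).aestronglyMeasurable
    · exact Eventually.of_forall fun t ht y hy => hC (y, t) ⟨hy, uIoc_subset_uIcc ht⟩
    · exact intervalIntegrable_const
    · exact Eventually.of_forall fun t _ y _ =>
        (hd (y, t)).hasFDerivAt.comp y (hasFDerivAt_prodMk_left y t)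

lemma Gen_two_le : (2 : WithTop ℕ∞) ≤ ∞ := WithTop.coe_le_coe.2 (le_top : (2 : ℕ∞) ≤ ⊤)

lemma hadamard {k : ℝ → ℝ} (hk : ContDiff ℝ ∞ k) : ∃ q : ℝ × ℝ → ℝ, ContDiff ℝ 2 q ∧
    (∀ a b, k (a + b) = k a + b * q (a, b)) ∧ ∀ a, q (a, 0) = deriv k a := by
  have hd : ContDiff ℝ ∞ (deriv k) := (contDiff_infty_iff_deriv.1 hk).2
  have hk1 : Differentiable ℝ k := (contDiff_infty_iff_deriv.1 hk).1
  refine ⟨fun x => ∫ t in (0 : ℝ)..1, deriv k (x.1 + t * x.2), ?_, fun a b => ?_, fun a => ?_⟩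
  · have h2 : ContDiff ℝ 2 (deriv k) := hd.of_le Gen_two_le
    have := Gen_contDiff_integral 2 ℝ (fun z => deriv k (z.1.1 + z.2 * z.1.2))
      (h2.comp (by fun_prop))
    exact this
  · have h1 : ∀ t ∈ uIcc (0 : ℝ) 1,
        HasDerivAt (fun t => k (a + t * b)) (b * deriv k (a + t * b)) t := by
      intro t _
      have h3 : HasDerivAt (fun t : ℝ => a + t * b) b t := by
        simpa using ((hasDerivAt_id t).mul_const b).const_add a
      have := (hk1 (a + t * b)).hasDerivAt.comp t h3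
      rw [mul_comm] at this
      exact this
    have hc : Continuous fun t : ℝ => b * deriv k (a + t * b) :=
      continuous_const.mul (hd.continuous.comp (by fun_prop))
    have := intervalIntegral.integral_eq_sub_of_hasDerivAt h1 (hc.intervalIntegrable _ _)
    rw [intervalIntegral.integral_const_mul] at this
    simp only [one_mul, zero_mul, add_zero] at this
    simp only
    linarith
  · simp

/-- A smooth ramp. -/
noncomputable def Gen_ramp (u : ℝ) : ℝ := u * Real.smoothTransition u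

lemma Gen_ramp_smooth : ContDiff ℝ ∞ Gen_ramp :=
  contDiff_id.mul Real.smoothTransition.contDiff

lemma Gen_ramp_zero {u : ℝ} (h : u ≤ 0) : Gen_ramp u = 0 := by
  simp [Gen_ramp, Real.smoothTransition.zero_of_nonpos h]

lemma Gen_ramp_one {u : ℝ} (h : 1 ≤ u) : Gen_ramp u = u := by
  simp [Gen_ramp, Real.smoothTransition.one_of_one_le h]

lemma Gen_ramp_mono : Monotone Gen_ramp := by
  intro u v huv
  rcases le_total u 0 with hu | hu
  · rw [Gen_ramp_zero hu]
    rcases le_total v 0 with hv | hv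
    · rw [Gen_ramp_zero hv]
    · exact mul_nonneg hv (Real.smoothTransition.nonneg v)
  · exact mul_le_mul huv (Real.smoothTransition.monotone huv) (Real.smoothTransition.nonneg u)
      (hu.trans huv)

lemma exists_global_diffeo {h : ℝ → ℝ} (hh : ContDiff ℝ ∞ h) (hd : ∀ x, 0 < deriv h x) (R : ℝ) :
    ∃ g gi : ℝ → ℝ, ContDiff ℝ ∞ g ∧ ContDiff ℝ ∞ gi ∧ (∀ x, gi (g x) = x) ∧
      ∀ x, |x| ≤ R → g x = h x := by
  let r : ℝ → ℝ := fun x => Gen_ramp (x - |R|) - Gen_ramp (-x - |R|)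
  have hr : ContDiff ℝ ∞ r :=
    (Gen_ramp_smooth.comp (by fun_prop)).sub (Gen_ramp_smooth.comp (by fun_prop))
  have hrm : Monotone r := fun x y hxy =>
    sub_le_sub (Gen_ramp_mono (by linarith)) (Gen_ramp_mono (by linarith))
  let g : ℝ → ℝ := fun x => h x + r x
  have hg : ContDiff ℝ ∞ g := hh.add hr
  have hh1 : Differentiable ℝ h := (contDiff_infty_iff_deriv.1 hh).1
  have hr1 : Differentiable ℝ r := (contDiff_infty_iff_deriv.1 hr).1
  have hgd : ∀ x, HasDerivAt g (deriv h x + deriv r x) x := fun x =>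
    (hh1 x).hasDerivAt.add (hr1 x).hasDerivAt
  have hpos : ∀ x, 0 < deriv h x + deriv r x := fun x =>
    add_pos_of_pos_of_nonneg (hd x) (hrm.deriv_nonneg (x := x))
  have hsm : StrictMono g := strictMono_of_deriv_pos fun x => by rw [(hgd x).deriv]; exact hpos x
  have hhm : Monotone h := (strictMono_of_deriv_pos hd).monotone
  have hR : 0 ≤ |R| := abs_nonneg R
  have hsurj : Function.Surjective g := by
    refine hg.continuous.surjective ?_ ?_
    · refine tendsto_atTop_mono' atTop (f₁ := fun x => x + (h 0 - |R|)) ?_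
        (tendsto_atTop_add_const_right _ _ tendsto_id)
      filter_upwards [eventually_ge_atTop (|R| + 1)] with x hx
      have h1 : h 0 ≤ h x := hhm (by linarith)
      simp only [g, r]
      rw [Gen_ramp_one (by linarith), Gen_ramp_zero (by linarith)]
      linarith
    · refine tendsto_atBot_mono' atBot (f₁ := fun x => x + (h 0 + |R|)) ?_
        (tendsto_atBot_add_const_right _ _ tendsto_id)
      filter_upwards [eventually_le_atBot (-|R| - 1)] with x hx
      have h1 : h x ≤ h 0 := hhm (by linarith)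
      simp only [g, r]
      rw [Gen_ramp_zero (by linarith), Gen_ramp_one (by linarith)]
      linarith
  let e : ℝ ≃ₜ ℝ := (hsm.orderIsoOfSurjective g hsurj).toHomeomorph
  have he : (e : ℝ → ℝ) = g := rfl
  refine ⟨g, e.symm, hg, ?_, fun x => e.symm_apply_apply x, fun x hx => ?_⟩
  · exact e.contDiff_symm_deriv (f' := fun x => deriv h x + deriv r x) (fun x => (hpos x).ne')
      (fun x => he ▸ hgd x) (he ▸ hg)
  · have h1 := abs_le.1 (hx.trans (le_abs_self R))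
    simp only [g, r]
    rw [Gen_ramp_zero (by linarith [h1.2]), Gen_ramp_zero (by linarith [h1.1])]
    ring

lemma rl_transl (a b : ℝ) : Rl fun p => (p.1 + a, p.2 + b) :=
  ((rl_shearY (φ := fun _ => b) contDiff_const).comp
    (rl_shearX (ψ := fun _ => a) contDiff_const)).of_eq fun _ => rfl

lemma rl_rot : Rl fun p => (-p.2, p.1) :=
  (((rl_shearX (ψ := fun y => -y) (by fun_prop)).comp
    (rl_shearY (φ := fun x => x) (by fun_prop))).comp
    (rl_shearX (ψ := fun y => -y) (by fun_prop))).of_eq fun p => by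
      ext <;> simp

lemma rl_swap : Rl fun p => (p.2, p.1) :=
  (rl_rot.comp (rl_diag (a := -1) (b := 1) (by norm_num) one_ne_zero)).of_eq fun p => by
    ext <;> simp

lemma rl_foldX : Rl fun p => (p.1 ^ 2, p.2) :=
  ((rl_swap.comp rl_foldY).comp rl_swap).of_eq fun _ => rfl

lemma rl_lin {a b c d : ℝ} (ha : a ≠ 0) (hd : a * d - b * c ≠ 0) :
    Rl fun p => (a * p.1 + b * p.2, c * p.1 + d * p.2) :=
  (((rl_shearX (ψ := fun y => b / a * y) (by fun_prop)).comp
    (rl_diag ha (div_ne_zero hd ha))).comp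
    (rl_shearY (φ := fun x => c / a * x) (by fun_prop))).of_eq fun p => by
      ext
      · simp only [Function.comp]
        field_simp
      · simp only [Function.comp]
        field_simp
        ring

lemma rl_overY {ψ : ℝ → ℝ} (h : ContDiff ℝ ∞ ψ) : Rl fun p => (p.1, ψ p.1 * p.2) := by
  have h2 : ContDiff ℝ 2 ψ := h.of_le Gen_two_le
  let Φ : ℝ × P2 → P2 := fun z => (z.2.1, ψ z.2.1 * z.2.2 + z.1 * z.2.2 ^ 2 / 2)
  have hΦ : ContDiff ℝ 2 Φ := by
    refine (by fun_prop : ContDiff ℝ 2 fun z : ℝ × P2 => z.2.1).prodMk ?_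
    exact ((h2.comp (by fun_prop)).mul (by fun_prop)).add (by fun_prop)
  have hlim : (fun p : P2 => (p.1, ψ p.1 * p.2)) = fun p => Φ (0, p) := by
    funext p; simp [Φ]
  rw [hlim]
  refine rl_of_tendsto (l := 𝓝[≠] (0 : ℝ)) (G := fun i p => Φ (i, p))
    (hΦ.comp (by fun_prop)) (fun K hK => ?_) ?_
  · exact tendsto_near_param (c := fun i : ℝ => i) hK (fun z _ => hΦ.contDiffAt)
      (tendsto_id.mono_left nhdsWithin_le_nhds)
  · filter_upwards [self_mem_nhdsWithin] with i hi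
    have hi : i ≠ 0 := hi
    refine (((((rl_diag one_ne_zero hi).comp (rl_shearY h)).comp rl_foldY).comp
      (rl_shearY (φ := fun x => -(ψ x) ^ 2) (h.pow 2).neg)).comp
      (rl_diag one_ne_zero (b := 1 / (2 * i)) (by positivity))).of_eq fun p => ?_
    ext
    · simp [Φ]
    · simp only [Φ, Function.comp, one_mul]
      field_simp
      ring

lemma rl_overX {ψ : ℝ → ℝ} (h : ContDiff ℝ ∞ ψ) : Rl fun p => (ψ p.2 * p.1, p.2) :=
  ((rl_swap.comp (rl_overY h)).comp rl_swap).of_eq fun _ => rfl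

lemma Gen_rl_diff {g gi : ℝ → ℝ} (hg : ContDiff ℝ ∞ g) (hgi : ContDiff ℝ ∞ gi)
    (hinv : ∀ x, gi (g x) = x) : Rl fun p => (g p.1, p.2) := by
  obtain ⟨q, hq, hq1, hq0⟩ := hadamard hgi
  have hdg : ContDiff ℝ ∞ (deriv g) := (contDiff_infty_iff_deriv.1 hg).2
  have hg1 : Differentiable ℝ g := (contDiff_infty_iff_deriv.1 hg).1
  have hgi1 : Differentiable ℝ gi := (contDiff_infty_iff_deriv.1 hgi).1
  have hle : (2 : WithTop ℕ∞) ≤ ∞ := Gen_two_le
  have hg2 : ContDiff ℝ 2 g := hg.of_le hle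
  have hgi2 : ContDiff ℝ 2 gi := hgi.of_le hle
  have hdg2 : ContDiff ℝ 2 (deriv g) := hdg.of_le hle
  have hone : ∀ x, deriv gi (g x) * deriv g x = 1 := by
    intro x
    have h1 := (hgi1 (g x)).hasDerivAt.comp x (hg1 x).hasDerivAt
    have h2 : gi ∘ g = id := funext hinv
    rw [h2] at h1
    exact h1.unique (hasDerivAt_id x)
  let Φ : ℝ × P2 → P2 := fun z =>
    (z.2.2 * q (g z.2.1, z.1 * z.2.2) * deriv g (gi (z.1 * z.2.2 + g z.2.1)),
      z.1 * z.2.2 + g z.2.1)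
  have hA : ContDiff ℝ 2 fun z : ℝ × P2 => g z.2.1 := hg2.comp (by fun_prop)
  have hB : ContDiff ℝ 2 fun z : ℝ × P2 => z.1 * z.2.2 := by fun_prop
  have hΦ : ContDiff ℝ 2 Φ := by
    refine ContDiff.prodMk ?_ (hB.add hA)
    exact ((by fun_prop : ContDiff ℝ 2 fun z : ℝ × P2 => z.2.2).mul
      (hq.comp (hA.prodMk hB))).mul (hdg2.comp (hgi2.comp (hB.add hA)))
  have h0 : Rl fun p => Φ (0, p) := by
    refine rl_of_tendsto (l := 𝓝[≠] (0 : ℝ)) (G := fun i p => Φ (i, p))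
      (hΦ.comp (by fun_prop)) (fun K hK => ?_) ?_
    · exact tendsto_near_param (c := fun i : ℝ => i) hK (fun z _ => hΦ.contDiffAt)
        (tendsto_id.mono_left nhdsWithin_le_nhds)
    · filter_upwards [self_mem_nhdsWithin] with i hi
      have hi : i ≠ 0 := hi
      refine ((((rl_diag one_ne_zero hi).comp (rl_shearY hg)).comp
        (rl_shearX (ψ := fun v => -gi v) hgi.neg)).comp
        (rl_overX (ψ := fun v => -deriv g (gi v) / i)
          ((hdg.comp hgi).neg.div_const i))).of_eq fun p => ?_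
      ext
      · simp only [Φ, Function.comp, one_mul]
        have h3 : gi (i * p.2 + g p.1) = p.1 + i * p.2 * q (g p.1, i * p.2) := by
          rw [add_comm, hq1, hinv]
        have h4 : p.1 + -gi (i * p.2 + g p.1) = -(i * p.2 * q (g p.1, i * p.2)) := by
          rw [h3]; ring
        rw [h4]
        field_simp
      · simp [Φ]
  refine (h0.comp rl_swap).of_eq fun p => ?_
  ext
  · simp [Φ]
  · simp only [Φ, Function.comp, zero_mul, zero_add, hq0, hinv]
    rw [mul_assoc, hone, mul_one]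

lemma rl_diffX {h : ℝ → ℝ} (hh : ContDiff ℝ ∞ h) (hd : ∀ x, 0 < deriv h x) :
    Rl fun p => (h p.1, p.2) := by
  have h2 : ContDiff ℝ 2 h := hh.of_le Gen_two_le
  refine rl_of_local ((h2.comp contDiff_fst).prodMk contDiff_snd) fun R => ?_
  obtain ⟨g, gi, hg, hgi, hinv, hgh⟩ := exists_global_diffeo hh hd R
  refine ⟨_, Gen_rl_diff hg hgi hinv, fun p hp => ?_⟩
  have h1 : |p.1| ≤ R := (norm_fst_le p).trans (mem_closedBall_zero_iff.1 hp)
  simp only [hgh _ h1]

end Pool.Agent.Work.MP_14af4f_an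
end

-- merged part: Pool.Agent.Work.MP_14af4f_an.Tent
section
/-!
A smooth absolute value and its iterates.
-/

open Set Filter Topology Real
open scoped ContDiff

namespace Pool.Agent.Work.MP_14af4f_an

noncomputable section

/-- An increasing positive function equal to the identity for large arguments. -/
def kk (u : ℝ) : ℝ := (1 - smoothTransition (u - 1)) * (exp u / 10) + smoothTransition (u - 1) * u

/-- A smooth absolute value. -/
def AA (x : ℝ) : ℝ := √(kk (x ^ 2))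

/-- Iterated folds. -/
def Tk : ℕ → ℝ → ℝ
  | 0, x => x
  | k + 1, x => Tk k (AA x - 4 * 2 ^ k)

/-- The identity on a half line followed by many folds. -/
def TT (k : ℕ) (s : ℝ) : ℝ := -Tk (k + 1) s - 4 * (2 ^ (k + 1) - 1)

lemma Tent_kk_low {u : ℝ} (h : u ≤ 1) : kk u = exp u / 10 := by
  unfold kk; rw [smoothTransition.zero_of_nonpos (by linarith)]; ring

lemma Tent_kk_high {u : ℝ} (h : 2 ≤ u) : kk u = u := by
  unfold kk; rw [smoothTransition.one_of_one_le (by linarith)]; ring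

lemma Tent_exp_le {u : ℝ} (h : u ≤ 2) : exp u / 10 ≤ 1 := by
  have h1 : exp u ≤ exp 1 * exp 1 := by rw [← exp_add]; exact exp_le_exp.2 (by linarith)
  have h2 := exp_one_lt_d9
  have h3 := exp_pos 1
  nlinarith

lemma Tent_kk_pos (u : ℝ) : 0 < kk u := by
  rcases le_total u 1 with h | h
  · rw [Tent_kk_low h]; positivity
  have a1 := smoothTransition.nonneg (u - 1)
  have a2 := smoothTransition.le_one (u - 1)
  have a3 : 0 < exp u / 10 := by positivity
  unfold kk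
  rcases a2.eq_or_lt with e | e
  · rw [e]; linarith
  · have := mul_pos (sub_pos.2 e) a3
    have := mul_nonneg a1 (show 0 ≤ u by linarith)
    linarith

lemma Tent_kk_le {u : ℝ} (h : u ≤ 4) : kk u ≤ 4 := by
  rcases le_total u 2 with c | c
  · have a1 := smoothTransition.nonneg (u - 1)
    have a2 := smoothTransition.le_one (u - 1)
    have a3 := Tent_exp_le c
    have a4 := mul_le_mul_of_nonneg_left a3 (sub_nonneg.2 a2)
    have a5 := mul_le_mul_of_nonneg_left c a1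
    unfold kk; linarith
  · rw [Tent_kk_high c]; exact h

lemma Tent_contDiff_kk : ContDiff ℝ ∞ kk := by
  have h : ContDiff ℝ ∞ fun u : ℝ => smoothTransition (u - 1) :=
    smoothTransition.contDiff.comp (contDiff_id.sub contDiff_const)
  exact ((contDiff_const.sub h).mul (contDiff_exp.div_const _)).add (h.mul contDiff_id)

lemma Tent_deriv_kk (u : ℝ) : 0 < deriv kk u := by
  rcases lt_or_ge u 1 with c | c
  · have : kk =ᶠ[𝓝 u] fun u => exp u / 10 := by
      filter_upwards [Iio_mem_nhds c] with v hv using Tent_kk_low (le_of_lt hv)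
    rw [this.deriv_eq, deriv_div_const, Real.deriv_exp]; positivity
  rcases lt_or_ge 2 u with d | d
  · have : kk =ᶠ[𝓝 u] fun u => u := by
      filter_upwards [Ioi_mem_nhds d] with v hv using Tent_kk_high (le_of_lt hv)
    rw [this.deriv_eq, deriv_id'']; exact one_pos
  have h0 : HasDerivAt smoothTransition (deriv smoothTransition (u - 1)) (u - 1) :=
    ((smoothTransition.contDiff (n := 1)).differentiable (by simp) _).hasDerivAt
  have h : HasDerivAt (fun u : ℝ => smoothTransition (u - 1)) (deriv smoothTransition (u - 1)) u :=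
    h0.comp_sub_const u 1
  have h1 := ((h.const_sub 1).mul ((hasDerivAt_exp u).div_const 10)).add (h.mul (hasDerivAt_id u))
  have h2 : deriv kk u = _ := h1.deriv
  rw [h2]
  have a0 : 0 ≤ deriv smoothTransition (u - 1) := smoothTransition.monotone.deriv_nonneg
  have a1 := smoothTransition.nonneg (u - 1)
  have a2 := smoothTransition.le_one (u - 1)
  have a3 : 0 < exp u / 10 := by positivity
  have a4 := mul_nonneg a0 (show 0 ≤ u - exp u / 10 by linarith [Tent_exp_le d])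
  have a5 : 0 < (1 - smoothTransition (u - 1)) * (exp u / 10) + smoothTransition (u - 1) := by
    rcases a2.eq_or_lt with e | e
    · rw [e]; linarith
    · have := mul_pos (sub_pos.2 e) a3
      linarith
  simp only [id, mul_one]
  linarith

lemma Tent_contDiff_rt : ContDiff ℝ ∞ fun u => √(kk u) :=
  Tent_contDiff_kk.sqrt fun u => (Tent_kk_pos u).ne'

lemma Tent_deriv_rt (u : ℝ) : 0 < deriv (fun u => √(kk u)) u := by
  rw [deriv_sqrt (Tent_contDiff_kk.differentiable (by simp) u) (Tent_kk_pos u).ne']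
  have := Tent_deriv_kk u
  have := sqrt_pos.2 (Tent_kk_pos u)
  positivity

lemma Tent_AA_abs {x : ℝ} (h : 3 / 2 ≤ |x|) : AA x = |x| := by
  unfold AA
  rw [Tent_kk_high (by nlinarith [sq_abs x]), sqrt_sq_eq_abs]

lemma Tent_AA_le {x : ℝ} (h : |x| ≤ 2) : AA x ≤ 2 := by
  unfold AA
  rw [sqrt_le_left (by norm_num)]
  have := Tent_kk_le (u := x ^ 2) (by nlinarith [sq_abs x, abs_nonneg x])
  linarith

lemma Tent_AA_nonneg (x : ℝ) : 0 ≤ AA x := sqrt_nonneg _

lemma Tent_AA_neg (x : ℝ) : AA (-x) = AA x := by unfold AA; rw [neg_sq]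

lemma Tent_one_le (k : ℕ) : (1 : ℝ) ≤ 2 ^ k := one_le_pow₀ (by norm_num)

lemma Tent_Tk_right : ∀ (k : ℕ) {x : ℝ}, 4 * 2 ^ k - 6 ≤ x → Tk k x = x - 4 * (2 ^ k - 1)
  | 0, x, _ => by simp [Tk]
  | k + 1, x, h => by
    have h1 := Tent_one_le k
    rw [pow_succ] at h ⊢
    have h2 : |x| = x := abs_of_nonneg (by linarith)
    rw [Tk, Tent_AA_abs (by linarith), h2, Tent_Tk_right k (by linarith)]; ring

lemma Tent_Tk_left (k : ℕ) {x : ℝ} (h : x ≤ -(4 * 2 ^ (k + 1) - 6)) :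
    Tk (k + 1) x = -x - 4 * (2 ^ (k + 1) - 1) := by
  rw [← Tent_Tk_right (k + 1) (by linarith), Tk, Tk, Tent_AA_neg]

lemma Tent_Tk_le : ∀ (k : ℕ) {x : ℝ}, |x| ≤ 4 * 2 ^ k → |Tk k x| ≤ 4
  | 0, x, h => by simpa [Tk] using h
  | k + 1, x, h => by
    have h1 := Tent_one_le k
    rw [pow_succ] at h
    have h2 : AA x ≤ 8 * 2 ^ k := by
      rcases le_total |x| 2 with c | c
      · linarith [Tent_AA_le c]
      · rw [Tent_AA_abs (by linarith)]; linarith
    exact Tent_Tk_le k (abs_le.2 ⟨by linarith [Tent_AA_nonneg x], by linarith⟩)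

lemma contDiff_AA : ContDiff ℝ ∞ AA := by
  exact Tent_contDiff_rt.comp (contDiff_id.pow 2)

lemma rl_AA : Rl fun p => (AA p.1, p.2) := by
  exact (rl_foldX.comp (rl_diffX Tent_contDiff_rt Tent_deriv_rt)).of_eq fun _ => rfl

lemma Tent_contDiff_Tk : ∀ k, ContDiff ℝ ∞ (Tk k)
  | 0 => contDiff_id
  | k + 1 => (Tent_contDiff_Tk k).comp (contDiff_AA.sub contDiff_const)

lemma Tent_rl_Tk : ∀ k, Rl fun p => (Tk k p.1, p.2)
  | 0 => (rl_transl 0 0).of_eq fun p => by simp [Tk]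
  | k + 1 => ((rl_AA.comp (rl_transl (-(4 * 2 ^ k)) 0)).comp (Tent_rl_Tk k)).of_eq fun p => by
      simp [Tk, sub_eq_add_neg]

lemma contDiff_TT (k : ℕ) : ContDiff ℝ ∞ (TT k) := by
  exact (Tent_contDiff_Tk (k + 1)).neg.sub contDiff_const

lemma rl_TT (k : ℕ) : Rl fun p => (TT k p.1, p.2) := by
  exact (((Tent_rl_Tk (k + 1)).comp (rl_diag (a := -1) (b := 1) (by norm_num) one_ne_zero)).comp
    (rl_transl (-(4 * (2 ^ (k + 1) - 1))) 0)).of_eq fun p => by simp [TT, sub_eq_add_neg]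

lemma TT_left (k : ℕ) {s : ℝ} (h : s ≤ -(8 * 2 ^ k)) : TT k s = s := by
  unfold TT
  rw [Tent_Tk_left k (by rw [pow_succ]; linarith)]; ring

lemma TT_osc (k : ℕ) {s s' : ℝ} (h : |s| ≤ 8 * 2 ^ k) (h' : |s'| ≤ 8 * 2 ^ k) :
    |TT k s - TT k s'| ≤ 8 := by
  have a := abs_le.1 (Tent_Tk_le (k + 1) (x := s) (by rw [pow_succ]; linarith))
  have b := abs_le.1 (Tent_Tk_le (k + 1) (x := s') (by rw [pow_succ]; linarith))
  unfold TT
  exact abs_le.2 ⟨by linarith, by linarith⟩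

lemma Tent_aff {h : ℝ → ℝ} (hh : Differentiable ℝ h) (a e c d : ℝ) :
    deriv (fun x => a * h (e * x + c) + d) = fun x => a * e * deriv h (e * x + c) + 0 := by
  funext x
  have h1 : HasDerivAt (fun x => e * x + c) e x := by
    simpa using ((hasDerivAt_id x).const_mul e).add_const c
  have h2 := (((hh (e * x + c)).hasDerivAt.comp x h1).const_mul a).add_const d
  have h3 : deriv (fun x => a * h (e * x + c) + d) x = _ := h2.deriv
  rw [h3]; ring

lemma Tent_abs {f h : ℝ → ℝ} (hh : ContDiff ℝ ∞ h) {a e c d s : ℝ} (ha : |a| = 1) (he : |e| = 1)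
    (hf : f =ᶠ[𝓝 s] fun x => a * h (e * x + c) + d) :
    |deriv f s| = |deriv h (e * s + c)| ∧ |deriv (deriv f) s| = |deriv (deriv h) (e * s + c)| := by
  have h1 := hh.differentiable (by simp)
  have h2 := (contDiff_infty_iff_deriv.1 hh).2.differentiable (by simp)
  rw [hf.deriv.deriv_eq, hf.deriv_eq, Tent_aff h1, Tent_aff h2]
  simp [abs_mul, ha, he]

lemma Tent_cases : ∀ (k : ℕ) (s : ℝ), (|deriv (Tk k) s| = 1 ∧ |deriv (deriv (Tk k)) s| = 0) ∨
    ∃ y, |y| ≤ 2 ∧ |deriv (Tk k) s| = |deriv AA y| ∧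
      |deriv (deriv (Tk k)) s| = |deriv (deriv AA) y| ∧ |s| ≤ 4 * 2 ^ k
  | 0, s => by
    have : Tk 0 = fun x => x := rfl
    left; rw [this]; simp
  | k + 1, s => by
    have h1 := Tent_one_le k
    rcases lt_or_ge |s| 2 with c | c
    · have hn : ∀ᶠ x in 𝓝 s, |x| < 2 := (continuous_abs.tendsto s).eventually (gt_mem_nhds c)
      have : ∃ a d : ℝ, |a| = 1 ∧ Tk (k + 1) =ᶠ[𝓝 s] fun x => a * AA (1 * x + 0) + d := by
        cases k with
        | zero => exact ⟨1, -4, abs_one, Eventually.of_forall fun x => by simp [Tk]; ring⟩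
        | succ k =>
          refine ⟨-1, 4, by simp, ?_⟩
          filter_upwards [hn] with x hx
          rw [Tk, Tent_Tk_left k (by linarith [Tent_AA_le hx.le])]
          simp only [one_mul, add_zero]; ring
      obtain ⟨a, d, ha, hf⟩ := this
      obtain ⟨e1, e2⟩ := Tent_abs contDiff_AA ha abs_one hf
      refine Or.inr ⟨1 * s + 0, by simpa using c.le, e1, e2, ?_⟩
      rw [pow_succ]; linarith
    · have : ∃ e : ℝ, |e| = 1 ∧ ∀ᶠ x in 𝓝 s, AA x = e * x := by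
        rcases le_abs'.1 c with d | d
        · refine ⟨-1, by simp, ?_⟩
          filter_upwards [Iio_mem_nhds (show s < -(3 / 2) by linarith)] with x hx
          have hx' : x < -(3 / 2) := hx
          have : |x| = -x := abs_of_neg (by linarith)
          rw [Tent_AA_abs (by linarith), this]; ring
        · refine ⟨1, by simp, ?_⟩
          filter_upwards [Ioi_mem_nhds (show 3 / 2 < s by linarith)] with x hx
          have hx' : 3 / 2 < x := hx
          have : |x| = x := abs_of_pos (by linarith)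
          rw [Tent_AA_abs (by linarith), this]; ring
      obtain ⟨e, he, hx⟩ := this
      have hf : Tk (k + 1) =ᶠ[𝓝 s] fun x => 1 * Tk k (e * x + -(4 * 2 ^ k)) + 0 := by
        filter_upwards [hx] with x hx
        rw [Tk, hx, one_mul, add_zero, sub_eq_add_neg]
      obtain ⟨e1, e2⟩ := Tent_abs (Tent_contDiff_Tk k) abs_one he hf
      rw [e1, e2]
      rcases Tent_cases k (e * s + -(4 * 2 ^ k)) with h | ⟨y, a1, a2, a3, a4⟩
      · exact Or.inl h
      · refine Or.inr ⟨y, a1, a2, a3, ?_⟩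
        have b1 : |s| = |e * s| := by rw [abs_mul, he, one_mul]
        have b2 := abs_le.1 a4
        rw [b1, pow_succ]
        exact abs_le.2 ⟨by linarith, by linarith⟩

lemma Tent_deriv_AA_ne {y : ℝ} (h : y ≠ 0) : deriv AA y ≠ 0 := by
  have h1 : HasDerivAt (fun x : ℝ => x ^ 2) (2 * y) y := by simpa using hasDerivAt_pow 2 y
  have h2 := (Tent_contDiff_rt.differentiable (by simp) (y ^ 2)).hasDerivAt.comp y h1
  have h3 : deriv AA y = _ := h2.deriv
  rw [h3]
  exact mul_ne_zero (Tent_deriv_rt _).ne' (mul_ne_zero two_ne_zero h)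

lemma Tent_deriv2_AA {y : ℝ} (h : |y| < 1) : 1 / 4 ≤ deriv (deriv AA) y := by
  have hn : ∀ᶠ x in 𝓝 y, |x| < 1 := (continuous_abs.tendsto y).eventually (gt_mem_nhds h)
  have hf : AA =ᶠ[𝓝 y] fun x => exp (x ^ 2 / 2) / √10 := by
    filter_upwards [hn] with x hx
    unfold AA
    rw [Tent_kk_low (by nlinarith [sq_abs x, abs_nonneg x]), sqrt_div (exp_pos _).le, ← exp_half]
  have h1 : ∀ x : ℝ, HasDerivAt (fun x : ℝ => exp (x ^ 2 / 2)) (exp (x ^ 2 / 2) * x) x := by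
    intro x
    have : HasDerivAt (fun x : ℝ => x ^ 2 / 2) x x := by
      simpa using (hasDerivAt_pow 2 x).div_const 2
    exact this.exp
  have h2 : deriv (fun x : ℝ => exp (x ^ 2 / 2) / √10) = fun x => exp (x ^ 2 / 2) * x / √10 :=
    funext fun x => ((h1 x).div_const _).deriv
  have h3 := (((h1 y).mul (hasDerivAt_id y)).div_const (√10)).deriv
  have h4 : deriv (fun x : ℝ => exp (x ^ 2 / 2) * x / √10) y = _ := h3
  rw [hf.deriv.deriv_eq, h2, h4]
  have a1 : √10 ≤ 4 := by rw [sqrt_le_left (by norm_num)]; norm_num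
  have a2 : 0 < √10 := by positivity
  have a3 : 1 ≤ exp (y ^ 2 / 2) := one_le_exp (by positivity)
  have a4 : 0 ≤ exp (y ^ 2 / 2) * y * y := by
    rw [mul_assoc]; exact mul_nonneg (exp_pos _).le (mul_self_nonneg y)
  rw [le_div_iff₀ a2]
  simp only [id, mul_one]
  linarith

lemma exists_TT_bounds : ∃ a1 u0 cA KA : ℝ, 1 ≤ a1 ∧ 0 < u0 ∧ u0 < 1 ∧ 0 < cA ∧ 0 < KA ∧
    ∀ k s, |deriv (TT k) s| ≤ a1 ∧ |deriv (deriv (TT k)) s| ≤ KA ∧
      (|deriv (TT k) s| ≤ u0 → cA ≤ |deriv (deriv (TT k)) s| ∧ |s| ≤ 8 * 2 ^ k) := by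
  have c1 : ContDiff ℝ ∞ (deriv AA) := (contDiff_infty_iff_deriv.1 contDiff_AA).2
  have c2 : ContDiff ℝ ∞ (deriv (deriv AA)) := (contDiff_infty_iff_deriv.1 c1).2
  obtain ⟨M1, hM1⟩ := (isCompact_Icc (a := (-2 : ℝ)) (b := 2)).exists_bound_of_continuousOn
    c1.continuous.continuousOn
  obtain ⟨M2, hM2⟩ := (isCompact_Icc (a := (-2 : ℝ)) (b := 2)).exists_bound_of_continuousOn
    c2.continuous.continuousOn
  have hK : IsCompact (Icc (-2 : ℝ) 2 ∩ {y | 1 / 2 ≤ |y|}) :=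
    isCompact_Icc.inter_right (isClosed_le continuous_const continuous_abs)
  obtain ⟨m, hm0, hm⟩ := hK.exists_forall_le' (f := fun y => |deriv AA y|) (a := 0)
    c1.continuous.abs.continuousOn fun y hy => abs_pos.2 (Tent_deriv_AA_ne fun e => by
      have := hy.2
      rw [e] at this
      norm_num at this)
  refine ⟨max 1 M1, min (1 / 2) (m / 2), 1 / 4, max 1 M2, le_max_left _ _, by positivity,
    (min_le_left _ _).trans_lt (by norm_num), by norm_num, by positivity, fun k s => ?_⟩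
  obtain ⟨e1, e2⟩ := Tent_abs (f := TT k) (s := s) (a := -1) (e := 1) (c := 0)
    (d := -(4 * (2 ^ (k + 1) - 1))) (Tent_contDiff_Tk (k + 1)) (by simp) abs_one
    (Eventually.of_forall fun x => by simp only [TT, one_mul, add_zero]; ring)
  rw [one_mul, add_zero] at e1 e2
  rw [e1, e2]
  rcases Tent_cases (k + 1) s with ⟨a1, a2⟩ | ⟨y, a1, a2, a3, a4⟩
  · rw [a1, a2]
    refine ⟨le_max_left _ _, by positivity, fun h => ?_⟩
    have := h.trans (min_le_left _ _)
    norm_num at this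
  · rw [a2, a3]
    have hy : y ∈ Icc (-2 : ℝ) 2 := abs_le.1 a1
    refine ⟨(hM1 y hy).trans (le_max_right _ _), (hM2 y hy).trans (le_max_right _ _),
      fun h => ⟨?_, by rw [pow_succ] at a4; linarith⟩⟩
    have b1 : |y| < 1 / 2 := by
      by_contra x
      have := hm y ⟨hy, not_lt.1 x⟩
      have := h.trans (min_le_right _ _)
      linarith
    exact (Tent_deriv2_AA (by linarith)).trans (le_abs_self _)

end

end Pool.Agent.Work.MP_14af4f_an
end

-- merged part: Pool.Agent.Work.MP_14af4f_an.StTDef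
section
/-!
The stage folding the fibres over an arc of the circle: definitions.
-/

open Set Filter Topology Real
open scoped ContDiff

namespace Pool.Agent.Work.MP_14af4f_an

noncomputable section

/-- The right half of the circle, extended to a positive smooth function. -/
def c0 (Y : ℝ) : ℝ := √(1 - Y ^ 2 + 2 * Y ^ 2 * smoothTransition ((Y ^ 2 - 81 / 100) / (9 / 100)))

/-- The profile of the phase. -/
def pf (Y : ℝ) : ℝ := 13 / 10 * Y - exp (100 * (Y - 87 / 100))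

/-- The phase. -/
def ph (k : ℕ) (Y : ℝ) : ℝ := 8 * 2 ^ k * pf Y

/-- The first coordinate after the folds. -/
def X1 (k : ℕ) (w : ℝ) (p : P2) : ℝ :=
  c0 p.2 + w * (TT k (ph k p.2 + (p.1 - c0 p.2) / w) - ph k p.2)

/-- The folds, the correction of the displacement, and a quarter turn. -/
def Tp (k : ℕ) (w : ℝ) (p : P2) : P2 :=
  (-p.2, X1 k w p - w * (TT k (ph k p.2) - ph k p.2) / 2 * (1 + X1 k w p / c0 p.2))

/-- The arc over which the fibres are folded. -/
def arc : Set P2 := {z | 0 < cos (2 * π * z.1) ∧ |sin (2 * π * z.1)| < 89 / 100}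

/-- The argument of the folds. -/
def sarg (k : ℕ) (z : P2) : ℝ := ph k (sin (2 * π * z.1)) + z.2 / (2 * cos (2 * π * z.1))

open Classical in
/-- The limit in thin annuli. -/
def T0 (k : ℕ) (z : P2) : P2 :=
  (z.1 + 1 / 4, if z ∈ arc then
    2 * cos (2 * π * z.1) * (TT k (sarg k z) - TT k (ph k (sin (2 * π * z.1)))) else z.2)

lemma StTDef_ge (Y : ℝ) :
    9 / 100 ≤ 1 - Y ^ 2 + 2 * Y ^ 2 * smoothTransition ((Y ^ 2 - 81 / 100) / (9 / 100)) := by
  rcases le_total (Y ^ 2) (9 / 10) with h | h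
  · have := mul_nonneg (sq_nonneg Y) (smoothTransition.nonneg ((Y ^ 2 - 81 / 100) / (9 / 100)))
    linarith
  · rw [smoothTransition.one_of_one_le (by rw [le_div_iff₀ (by norm_num)]; linarith)]
    linarith

lemma contDiff_c0 : ContDiff ℝ ∞ c0 := by
  refine ContDiff.sqrt ?_ fun Y => (lt_of_lt_of_le (by norm_num) (StTDef_ge Y)).ne'
  have h : ContDiff ℝ ∞ fun Y : ℝ => smoothTransition ((Y ^ 2 - 81 / 100) / (9 / 100)) :=
    smoothTransition.contDiff.comp (by fun_prop)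
  exact (contDiff_const.sub (contDiff_id.pow 2)).add ((contDiff_const.mul (contDiff_id.pow 2)).mul h)

lemma c0_ge (Y : ℝ) : 3 / 10 ≤ c0 Y := by
  exact le_sqrt_of_sq_le (le_trans (by norm_num) (StTDef_ge Y))

lemma c0_sq_ge (Y : ℝ) : 1 - Y ^ 2 ≤ c0 Y ^ 2 := by
  rw [c0, sq_sqrt (le_trans (by norm_num) (StTDef_ge Y))]
  have := mul_nonneg (sq_nonneg Y) (smoothTransition.nonneg ((Y ^ 2 - 81 / 100) / (9 / 100)))
  linarith

lemma c0_sq_eq {Y : ℝ} (h : |Y| ≤ 9 / 10) : c0 Y ^ 2 = 1 - Y ^ 2 := by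
  have h2 : Y ^ 2 ≤ 81 / 100 := by
    have := abs_le.1 h
    nlinarith
  rw [c0, sq_sqrt (le_trans (by norm_num) (StTDef_ge Y)),
    smoothTransition.zero_of_nonpos (div_nonpos_of_nonpos_of_nonneg (by linarith) (by norm_num))]
  ring

lemma contDiff_pf : ContDiff ℝ ∞ pf := by
  unfold pf
  fun_prop

lemma hasDerivAt_pf (Y : ℝ) : HasDerivAt pf (13 / 10 - 100 * exp (100 * (Y - 87 / 100))) Y := by
  have h := ((hasDerivAt_id Y).const_mul (13 / 10 : ℝ)).sub
    (((hasDerivAt_id Y).sub_const (87 / 100 : ℝ)).const_mul (100 : ℝ)).exp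
  refine h.congr_deriv ?_
  simp only [id]
  ring

lemma pf_le (Y : ℝ) : pf Y ≤ 2 := by
  have h1 := add_one_le_exp (100 * (Y - 87 / 100))
  have h2 := exp_pos (100 * (Y - 87 / 100))
  unfold pf
  rcases le_total Y (3 / 2) with h | h <;> linarith

lemma pf_far {Y : ℝ} (h : 88 / 100 ≤ |Y|) : pf Y ≤ -(11 / 10) := by
  have h2 := exp_pos (100 * (Y - 87 / 100))
  unfold pf
  rcases le_abs.1 h with h | h
  · have h1 := quadratic_le_exp_of_nonneg (x := 100 * (Y - 87 / 100)) (by linarith)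
    nlinarith
  · linarith

lemma pf_mid {Y : ℝ} (h : |Y| ≤ 72 / 100) : |pf Y| ≤ 95 / 100 := by
  have h1 := abs_le.1 h
  have h2 := exp_pos (100 * (Y - 87 / 100))
  have h3 : exp (100 * (Y - 87 / 100)) ≤ 1 / 128 := by
    have h4 := quadratic_le_exp_of_nonneg (x := 15) (by norm_num)
    have h5 : exp (100 * (Y - 87 / 100)) ≤ exp (-15) := exp_le_exp.2 (by linarith)
    rw [exp_neg] at h5
    refine h5.trans ?_
    rw [one_div]
    exact inv_anti₀ (by norm_num) (by linarith)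
  unfold pf
  rw [abs_le]
  constructor <;> linarith

lemma pf_deriv_ge {Y : ℝ} (h : |pf Y| ≤ 104 / 100) :
    3 / 10 ≤ |13 / 10 - 100 * exp (100 * (Y - 87 / 100))| := by
  by_contra hc
  have h1 := abs_lt.1 (not_le.1 hc)
  have h5 : (100 : ℝ) < exp 5 := by
    have h6 : exp 5 = exp 1 ^ 5 := by rw [← exp_nat_mul]; norm_num
    have h7 : (27 / 10 : ℝ) ^ 5 ≤ exp 1 ^ 5 :=
      pow_le_pow_left₀ (by norm_num) (le_trans (by norm_num) exp_one_gt_d9.le) 5
    rw [h6]
    exact lt_of_lt_of_le (by norm_num) h7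
  have h2 : -5 < 100 * (Y - 87 / 100) := by
    refine exp_lt_exp.1 (lt_trans ?_ (show 1 / 100 < _ by linarith))
    rw [exp_neg, one_div]
    exact inv_strictAnti₀ (by norm_num) h5
  have h3 := (abs_le.1 h).2
  unfold pf at h3
  linarith

lemma pf_deriv_le {Y : ℝ} (h : Y ≤ 89 / 100) :
    |13 / 10 - 100 * exp (100 * (Y - 87 / 100))| ≤ 800 := by
  have h2 := exp_pos (100 * (Y - 87 / 100))
  have h5 : exp (100 * (Y - 87 / 100)) ≤ exp 2 := exp_le_exp.2 (by linarith)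
  have h6 : exp 2 = exp 1 ^ 2 := by rw [← exp_nat_mul]; norm_num
  have h7 : exp 1 ^ 2 ≤ (28 / 10 : ℝ) ^ 2 :=
    pow_le_pow_left₀ (exp_pos 1).le (le_trans exp_one_lt_d9.le (by norm_num)) 2
  rw [abs_le]
  constructor <;> linarith

lemma isOpen_arc : IsOpen arc := by
  exact (isOpen_lt (f := fun _ : P2 => (0 : ℝ)) (g := fun z => cos (2 * π * z.1)) continuous_const
    (by fun_prop)).inter (isOpen_lt (f := fun z : P2 => |sin (2 * π * z.1)|)
      (g := fun _ => 89 / 100) (by fun_prop) continuous_const)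

lemma cos_ge_of_arc {z : P2} (h : z ∈ arc) : 45 / 100 ≤ cos (2 * π * z.1) := by
  have h1 := abs_lt.1 h.2
  have h2 := h.1
  have h3 := sin_sq_add_cos_sq (2 * π * z.1)
  by_contra hc
  have hc := not_le.1 hc
  nlinarith

/-- Off the arc the fibre map is the identity near every point. -/
lemma T0_eventually_off {k : ℕ} {h : ℝ} (hk : 100 * (h + 1) ≤ 8 * 2 ^ k) {z : P2}
    (hz : z ∈ strip (h + 1)) (ha : z ∉ arc) : T0 k =ᶠ[𝓝 z] fun z => (z.1 + 1 / 4, z.2) := by
  have hz' : |z.2| ≤ h + 1 := hz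
  have h0 : 0 ≤ h + 1 := (abs_nonneg _).trans hz'
  have hZ : (8 : ℝ) ≤ 8 * 2 ^ k := by
    have : (1 : ℝ) ≤ 2 ^ k := one_le_pow₀ (by norm_num)
    linarith
  rcases lt_or_ge (cos (2 * π * z.1)) (45 / 100) with hc | hc
  · have e : ∀ᶠ y : P2 in 𝓝 z, cos (2 * π * y.1) < 45 / 100 :=
      (isOpen_lt (by fun_prop) continuous_const).mem_nhds hc
    filter_upwards [e] with y hy
    rw [T0, if_neg fun hy' => absurd (cos_ge_of_arc hy') (not_le.2 hy)]
  · have hs : 88 / 100 < |sin (2 * π * z.1)| := by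
      by_contra hs
      exact ha ⟨by linarith, by linarith [not_lt.1 hs]⟩
    have e1 : ∀ᶠ y : P2 in 𝓝 z, 88 / 100 < |sin (2 * π * y.1)| :=
      (isOpen_lt continuous_const (by fun_prop)).mem_nhds hs
    have e2 : ∀ᶠ y : P2 in 𝓝 z, y.2 < h + 1 + 1 / 2 :=
      (isOpen_lt continuous_snd continuous_const).mem_nhds
        (show z.2 < h + 1 + 1 / 2 by linarith [le_abs_self z.2])
    filter_upwards [e1, e2] with y hy1 hy2
    by_cases hy : y ∈ arc
    · have hc' := cos_ge_of_arc hy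
      have h1 : ph k (sin (2 * π * y.1)) ≤ -(11 / 10) * (8 * 2 ^ k) := by
        have := pf_far hy1.le
        unfold ph
        nlinarith
      have h2 : y.2 / (2 * cos (2 * π * y.1)) ≤ 1 / 10 * (8 * 2 ^ k) := by
        rw [div_le_iff₀ (by linarith)]
        nlinarith
      rw [T0, if_pos hy, TT_left k (s := sarg k y) (by unfold sarg; linarith),
        TT_left k (s := ph k _) (by linarith), sarg, add_sub_cancel_left,
        mul_div_cancel₀ _ (by linarith)]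
    · rw [T0, if_neg hy]

lemma T0_eventually_on (k : ℕ) {z : P2} (ha : z ∈ arc) : T0 k =ᶠ[𝓝 z] fun z => (z.1 + 1 / 4,
    2 * cos (2 * π * z.1) * (TT k (sarg k z) - TT k (ph k (sin (2 * π * z.1))))) := by
  filter_upwards [isOpen_arc.mem_nhds ha] with y hy
  rw [T0, if_pos hy]

lemma per_T0 (k : ℕ) : Per 1 (T0 k) := by
  intro z
  have h1 : cos (2 * π * (z.1 + 1)) = cos (2 * π * z.1) := by
    rw [mul_add, mul_one, cos_add_two_pi]
  have h2 : sin (2 * π * (z.1 + 1)) = sin (2 * π * z.1) := by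
    rw [mul_add, mul_one, sin_add_two_pi]
  have h3 : z + (1, 0) ∈ arc ↔ z ∈ arc := by
    simp only [arc, mem_ofPred_eq, Prod.fst_add, h1, h2]
  ext
  · simp only [T0, Prod.fst_add, Nat.cast_one]
    ring
  · simp only [T0, sarg, Prod.fst_add, Prod.snd_add, h1, h2, add_zero]
    by_cases hz : z ∈ arc
    · rw [if_pos hz, if_pos (h3.2 hz)]
    · rw [if_neg hz, if_neg fun h => hz (h3.1 h)]

lemma rl_Tp (k : ℕ) {w : ℝ} (hw : w ≠ 0) : Rl (Tp k w) := by
  have hc : ∀ Y, c0 Y ≠ 0 := fun Y => (lt_of_lt_of_le (by norm_num) (c0_ge Y)).ne'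
  have hp : ContDiff ℝ ∞ (ph k) := contDiff_const.mul contDiff_pf
  have hD : ContDiff ℝ ∞ fun Y => w * (TT k (ph k Y) - ph k Y) / 2 :=
    (contDiff_const.mul (((contDiff_TT k).comp hp).sub hp)).div_const 2
  refine ((((((((((rl_shearX contDiff_c0.neg).comp (rl_diag (inv_ne_zero hw) one_ne_zero)).comp
    (rl_shearX hp)).comp (rl_TT k)).comp (rl_shearX hp.neg)).comp (rl_diag hw one_ne_zero)).comp
    (rl_shearX contDiff_c0)).comp (rl_overX ((contDiff_const (c := 1)).sub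
      (hD.div contDiff_c0 hc)))).comp (rl_shearX hD.neg)).comp rl_rot).of_eq fun p => ?_
  have e : w⁻¹ * (p.1 + -c0 p.2) + ph k p.2 = ph k p.2 + (p.1 - c0 p.2) / w := by ring
  simp only [Tp, X1, Function.comp, one_mul, Pi.div_apply, e]
  ext
  · rfl
  · simp only
    ring

end

end Pool.Agent.Work.MP_14af4f_an
end
end
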